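import Pool.Agent.MCL.Step

/-!
# MCL/Alg : linear algebra at one frequency
-/

set_option autoImplicit false

open MeasureTheory Set Filter Topology
open scoped Matrix

namespace Pool.Agent.MCL

variable {d : ℕ} {I0 : Matrix (Fin d) (Fin d) ℝ}

private theorem alg_J2 (hI : IsCx I0) :
    I0.map (fun x => (x : ℂ)) * I0.map (fun x => (x : ℂ)) = -1 := by
  have h := congrArg (fun M : Matrix (Fin d) (Fin d) ℝ => M.map Complex.ofRealHom) hI.sq
  simp only [Matrix.map_mul] at h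
  ext i j
  have h2 := congrFun (congrFun h i) j
  simp only [Matrix.mul_apply, Matrix.map_apply, Complex.ofRealHom_eq_coe, Matrix.neg_apply,
    Complex.ofReal_neg] at h2 ⊢
  rw [h2]
  by_cases hij : i = j <;> simp [Matrix.one_apply, hij]

private theorem alg_JT (hI : IsCx I0) :
    (I0.map (fun x => (x : ℂ)))ᵀ = -I0.map (fun x => (x : ℂ)) := by
  ext i j
  have h2 := congrFun (congrFun hI.transpose i) j
  simp only [Matrix.transpose_apply, Matrix.neg_apply, Matrix.map_apply] at h2 ⊢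
  rw [h2]
  push_cast
  rfl

theorem Ep_mul_self (hI : IsCx I0) : Ep I0 * Ep I0 = Ep I0 := by
  have h := alg_J2 hI
  unfold Ep
  generalize I0.map (fun x => (x : ℂ)) = J at h
  simp only [Matrix.smul_mul, Matrix.mul_smul, sub_mul, mul_sub, one_mul, mul_one, smul_smul, h]
  ext i j
  simp only [Matrix.smul_apply, Matrix.sub_apply, Matrix.neg_apply, smul_eq_mul]
  linear_combination (-(1 : Matrix (Fin d) (Fin d) ℂ) i j / 4) * Complex.I_mul_I

theorem Em_mul_self (hI : IsCx I0) : Em I0 * Em I0 = Em I0 := by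
  have h := alg_J2 hI
  unfold Em
  generalize I0.map (fun x => (x : ℂ)) = J at h
  simp only [Matrix.smul_mul, Matrix.mul_smul, add_mul, mul_add, one_mul, mul_one, smul_smul, h]
  ext i j
  simp only [Matrix.smul_apply, Matrix.add_apply, Matrix.neg_apply, smul_eq_mul]
  linear_combination (-(1 : Matrix (Fin d) (Fin d) ℂ) i j / 4) * Complex.I_mul_I

theorem Ep_mul_Em (hI : IsCx I0) : Ep I0 * Em I0 = 0 := by
  have h := alg_J2 hI
  unfold Ep Em
  generalize I0.map (fun x => (x : ℂ)) = J at h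
  simp only [Matrix.smul_mul, Matrix.mul_smul, add_mul, mul_add, sub_mul, mul_sub, one_mul,
    mul_one, smul_smul, h]
  ext i j
  simp only [Matrix.smul_apply, Matrix.add_apply, Matrix.sub_apply, Matrix.neg_apply,
    smul_eq_mul, Matrix.zero_apply]
  linear_combination ((1 : Matrix (Fin d) (Fin d) ℂ) i j / 4) * Complex.I_mul_I

theorem Em_mul_Ep (hI : IsCx I0) : Em I0 * Ep I0 = 0 := by
  have h := alg_J2 hI
  unfold Ep Em
  generalize I0.map (fun x => (x : ℂ)) = J at h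
  simp only [Matrix.smul_mul, Matrix.mul_smul, add_mul, mul_add, sub_mul, mul_sub, one_mul,
    mul_one, smul_smul, h]
  ext i j
  simp only [Matrix.smul_apply, Matrix.add_apply, Matrix.sub_apply, Matrix.neg_apply,
    smul_eq_mul, Matrix.zero_apply]
  linear_combination ((1 : Matrix (Fin d) (Fin d) ℂ) i j / 4) * Complex.I_mul_I

theorem Ep_add_Em : Ep I0 + Em I0 = 1 := by
  unfold Ep Em
  ext i j
  simp only [Matrix.smul_apply, Matrix.add_apply, Matrix.sub_apply, smul_eq_mul]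
  ring

theorem Ep_transpose (hI : IsCx I0) : (Ep I0)ᵀ = Em I0 := by
  have h := alg_JT hI
  unfold Ep Em
  rw [Matrix.transpose_smul, Matrix.transpose_sub, Matrix.transpose_smul, h,
    Matrix.transpose_one]
  ext i j
  simp only [Matrix.smul_apply, Matrix.add_apply, Matrix.sub_apply, Matrix.neg_apply,
    smul_eq_mul]
  ring

private theorem alg_EmT (hI : IsCx I0) : (Em I0)ᵀ = Ep I0 := by
  rw [← Ep_transpose hI, Matrix.transpose_transpose]

private theorem alg_EpJ : Ep I0 = (1 / 2 : ℂ) • (1 - Complex.I • I0.map (fun x => (x : ℂ))) := rfl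

/-- `k · J k = 0`. -/
private theorem alg_kJk (hI : IsCx I0) (K : Fin d → ℂ) :
    K ⬝ᵥ (I0.map (fun x => (x : ℂ)) *ᵥ K) = 0 := by
  have h := alg_JT hI
  generalize I0.map (fun x => (x : ℂ)) = J at h
  have h1 : K ⬝ᵥ (J *ᵥ K) = (J *ᵥ K) ⬝ᵥ K := dotProduct_comm _ _
  have h2 : (J *ᵥ K) ⬝ᵥ K = (K ᵥ* Jᵀ) ⬝ᵥ K := by rw [Matrix.vecMul_transpose]
  have h3 : (K ᵥ* Jᵀ) ⬝ᵥ K = K ⬝ᵥ (Jᵀ *ᵥ K) := (Matrix.dotProduct_mulVec K Jᵀ K).symm
  have h4 : K ⬝ᵥ (J *ᵥ K) = -(K ⬝ᵥ (J *ᵥ K)) := by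
    conv_lhs => rw [h1, h2, h3, h, Matrix.neg_mulVec, dotProduct_neg]
  have h5 : (2 : ℂ) * (K ⬝ᵥ (J *ᵥ K)) = 0 := by linear_combination h4
  simpa using h5

private theorem alg_kEk (hI : IsCx I0) (K : Fin d → ℂ) :
    (K ᵥ* Ep I0) ⬝ᵥ K = (K ⬝ᵥ K) / 2 := by
  rw [← Matrix.dotProduct_mulVec]
  unfold Ep
  rw [Matrix.smul_mulVec, Matrix.sub_mulVec, Matrix.one_mulVec, Matrix.smul_mulVec,
    dotProduct_smul, dotProduct_sub, dotProduct_smul, alg_kJk hI]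
  simp only [smul_eq_mul]
  ring

private theorem alg_sq (k : X d) : ((fun a => (k a : ℂ)) ⬝ᵥ fun a => (k a : ℂ)) = (sq k : ℂ) := by
  unfold sq dotProduct
  push_cast
  rfl

/-- `κ = k E'` satisfies `κ · k = |k|² / 2`. -/
theorem kappa_k (hI : IsCx I0) (k : X d) :
    ∑ a, (∑ l, (k l : ℂ) * Ep I0 l a) * (k a : ℂ) = (sq k : ℂ) / 2 := by
  have h := alg_kEk hI (fun a => (k a : ℂ))
  rw [alg_sq] at h
  exact h

/-- The linear equation: `κ ⌟ p` is of type `(0, 1)`. -/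
theorem eq3 (hI : IsCx I0) (k : X d) (hk : sq k ≠ 0) (z : Fin d → ℂ)
    (hz : ∀ m, ∑ j, (I0 m j : ℂ) * z j = -Complex.I * z m) (q p : Fin d → Fin d → ℂ)
    (hzq : ∀ j, z j = 2 * ∑ l, ∑ a, ∑ b,
      Ep I0 l a * Ep I0 b j * (Complex.I * ((k l / sq k : ℝ) : ℂ)) * q a b)
    (hp : ∀ a b, p a b = Complex.I * (k a : ℂ) * z b - Complex.I * (k b : ℂ) * z a + q a b)
    (j : Fin d) :
    ∑ a, ∑ b, (∑ l, (k l : ℂ) * Ep I0 l a) * p a b * Ep I0 b j = 0 := by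
  have hk' : (sq k : ℂ) ≠ 0 := by exact_mod_cast hk
  have hJz : I0.map (fun x => (x : ℂ)) *ᵥ z = -Complex.I • z := by
    ext m
    simp only [Matrix.mulVec, dotProduct, Matrix.map_apply, Pi.smul_apply, smul_eq_mul]
    exact hz m
  have hEpz : Ep I0 *ᵥ z = 0 := by
    unfold Ep
    rw [Matrix.smul_mulVec, Matrix.sub_mulVec, Matrix.one_mulVec, Matrix.smul_mulVec, hJz]
    ext m
    simp only [Pi.smul_apply, Pi.sub_apply, smul_eq_mul, Pi.zero_apply]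
    linear_combination (-(1 / 2 : ℂ) * z m) * (- Complex.I_mul_I)
  have hzE : ∀ j, ∑ b, z b * Ep I0 b j = z j := by
    intro j
    have h1 : Em I0 *ᵥ z = z := by
      have h2 : (Ep I0 + Em I0) *ᵥ z = z := by rw [Ep_add_Em, Matrix.one_mulVec]
      rw [Matrix.add_mulVec, hEpz, zero_add] at h2
      exact h2
    have h3 : z ᵥ* Ep I0 = z := by
      rw [← alg_EmT hI, Matrix.vecMul_transpose, h1]
    exact congrFun h3 j
  have hkz : ∑ a, (∑ l, (k l : ℂ) * Ep I0 l a) * z a = 0 := by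
    have h1 : ((fun a => (k a : ℂ)) ᵥ* Ep I0) ⬝ᵥ z = 0 := by
      rw [← Matrix.dotProduct_mulVec, hEpz, dotProduct_zero]
    exact h1
  have hkk := kappa_k hI k
  obtain ⟨κ, hκ⟩ : ∃ κ : Fin d → ℂ, κ = fun a => ∑ l, (k l : ℂ) * Ep I0 l a := ⟨_, rfl⟩
  have hκa : ∀ a, ∑ l, (k l : ℂ) * Ep I0 l a = κ a := fun a => by rw [hκ]
  simp only [hκa] at hkz hkk ⊢
  have hS : ∑ a, ∑ b, κ a * q a b * Ep I0 b j = -Complex.I * (sq k : ℂ) / 2 * z j := by
    have h1 : ∑ l, ∑ a, ∑ b,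
        Ep I0 l a * Ep I0 b j * (Complex.I * ((k l / sq k : ℝ) : ℂ)) * q a b
        = Complex.I / (sq k : ℂ) * ∑ a, ∑ b, κ a * q a b * Ep I0 b j := by
      rw [Finset.sum_comm, Finset.mul_sum]
      refine Finset.sum_congr rfl fun a _ => ?_
      rw [Finset.sum_comm, Finset.mul_sum]
      refine Finset.sum_congr rfl fun b _ => ?_
      rw [← hκa a, Finset.sum_mul, Finset.sum_mul, Finset.mul_sum]
      refine Finset.sum_congr rfl fun l _ => ?_
      push_cast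
      field_simp
    have h2 := hzq j
    rw [h1] at h2
    rw [h2]
    field_simp
    linear_combination (∑ a, ∑ b, κ a * q a b * Ep I0 b j) * Complex.I_sq
  have h3 : ∀ a b, κ a * p a b * Ep I0 b j
      = Complex.I * (κ a * (k a : ℂ)) * (z b * Ep I0 b j)
        - Complex.I * (κ a * z a) * ((k b : ℂ) * Ep I0 b j) + κ a * q a b * Ep I0 b j := by
    intro a b
    rw [hp]
    ring
  simp only [h3, Finset.sum_add_distrib, Finset.sum_sub_distrib]
  simp only [← Finset.mul_sum, ← Finset.sum_mul]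
  rw [hkk, hkz, hS, hzE j]
  ring

/-- The norm of `u ∧ v`. -/
private theorem alg_wedge (u v : Fin d → ℂ) (h : ∑ a, (starRingEnd ℂ) (u a) * v a = 0) :
    ∑ a, ∑ b, ‖u a * v b - u b * v a‖ ^ 2 = 2 * (∑ a, ‖u a‖ ^ 2) * ∑ a, ‖v a‖ ^ 2 := by
  have h' : ∑ a, u a * (starRingEnd ℂ) (v a) = 0 := by
    have h1 := congrArg (starRingEnd ℂ) h
    rw [map_sum, map_zero] at h1
    rw [← h1]
    refine Finset.sum_congr rfl fun a _ => ?_
    rw [map_mul, Complex.conj_conj]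
  have key : ((∑ a, ∑ b, ‖u a * v b - u b * v a‖ ^ 2 : ℝ) : ℂ)
      = ((2 * (∑ a, ‖u a‖ ^ 2) * ∑ a, ‖v a‖ ^ 2 : ℝ) : ℂ) := by
    push_cast
    have e1 : ∀ a b, ((‖u a * v b - u b * v a‖ : ℂ)) ^ 2
        = ((‖u a‖ : ℂ)) ^ 2 * ((‖v b‖ : ℂ)) ^ 2 + ((‖u b‖ : ℂ)) ^ 2 * ((‖v a‖ : ℂ)) ^ 2
          - (u a * (starRingEnd ℂ) (v a)) * ((starRingEnd ℂ) (u b) * v b)
          - ((starRingEnd ℂ) (u a) * v a) * (u b * (starRingEnd ℂ) (v b)) := by
      intro a b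
      simp only [← Complex.mul_conj', map_sub, map_mul]
      ring
    simp only [e1, Finset.sum_add_distrib, Finset.sum_sub_distrib]
    simp only [← Finset.mul_sum, ← Finset.sum_mul]
    rw [h, h']
    ring
  exact_mod_cast key

/-- A form `p` with `k ∧ p = 0` and `κ ⌟ p` of type `(0, 1)` is controlled by its part of
type `(0, 2)`. Proof: `ρ = κ ⌟ p` is of type `(0, 1)`, `p = (2 / |k|²) k ∧ ρ`, its `(0, 2)`-part is
`(2 / |k|²) κ̄ ∧ ρ` and `κ ⌟ κ̄ ∧ ρ = (|k|² / 2) ρ`. -/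
theorem alg (hI : IsCx I0) (k : X d) (hk : sq k ≠ 0) (p : Fin d → Fin d → ℂ)
    (hanti : ∀ a b, p a b = -p b a)
    (hcl : ∀ a b c, (k a : ℂ) * p b c + (k b : ℂ) * p c a + (k c : ℂ) * p a b = 0)
    (heq : ∀ j, ∑ a, ∑ b, (∑ l, (k l : ℂ) * Ep I0 l a) * p a b * Ep I0 b j = 0) :
    ∑ a, ∑ b, ‖p a b‖ ^ 2 ≤
      2 * ∑ a, ∑ b, ‖∑ c, ∑ e, Em I0 c a * Em I0 e b * p c e‖ ^ 2 := by
  have hk' : (sq k : ℂ) ≠ 0 := by exact_mod_cast hk
  have hkk := kappa_k hI k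
  obtain ⟨κ, hκ⟩ : ∃ κ : Fin d → ℂ, κ = fun a => ∑ l, (k l : ℂ) * Ep I0 l a := ⟨_, rfl⟩
  have hκa : ∀ a, ∑ l, (k l : ℂ) * Ep I0 l a = κ a := fun a => by rw [hκ]
  simp only [hκa] at hkk heq
  obtain ⟨ρ, hρ⟩ : ∃ ρ : Fin d → ℂ, ρ = fun b => ∑ a, κ a * p a b := ⟨_, rfl⟩
  have hρb : ∀ b, ∑ a, κ a * p a b = ρ b := fun b => by rw [hρ]
  -- `ρ E' = 0`
  have hρE : ρ ᵥ* Ep I0 = 0 := by
    ext j
    have h1 := heq j
    rw [Finset.sum_comm] at h1
    simp only [Matrix.vecMul, dotProduct, Pi.zero_apply]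
    rw [← h1]
    refine Finset.sum_congr rfl fun b _ => ?_
    rw [← hρb b, Finset.sum_mul]
  have hρm : ρ ᵥ* Em I0 = ρ := by
    have h2 : ρ ᵥ* (Ep I0 + Em I0) = ρ := by rw [Ep_add_Em, Matrix.vecMul_one]
    rw [Matrix.vecMul_add, hρE, zero_add] at h2
    exact h2
  have hEpρ : Ep I0 *ᵥ ρ = ρ := by
    rw [← alg_EmT hI, Matrix.mulVec_transpose, hρm]
  -- `κ · ρ = 0`
  have hκρ : ∑ a, κ a * ρ a = 0 := by
    have h1 : ∑ a, κ a * ρ a = ∑ b, ∑ a, κ b * (κ a * p a b) := by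
      refine Finset.sum_congr rfl fun b _ => ?_
      rw [← hρb b, Finset.mul_sum]
    have h2 : ∑ b, ∑ a, κ b * (κ a * p a b) = -∑ b, ∑ a, κ b * (κ a * p a b) := by
      conv_lhs => rw [Finset.sum_comm]
      rw [← Finset.sum_neg_distrib]
      refine Finset.sum_congr rfl fun b _ => ?_
      rw [← Finset.sum_neg_distrib]
      refine Finset.sum_congr rfl fun a _ => ?_
      rw [hanti a b]
      ring
    have h3 : (2 : ℂ) * ∑ b, ∑ a, κ b * (κ a * p a b) = 0 := by linear_combination h2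
    rw [h1]
    simpa using h3
  have hkρ : ∑ a, (k a : ℂ) * ρ a = 0 := by
    have h1 : ((fun a => (k a : ℂ)) ᵥ* Ep I0) ⬝ᵥ ρ = (fun a => (k a : ℂ)) ⬝ᵥ ρ := by
      rw [← Matrix.dotProduct_mulVec, hEpρ]
    have h2 : ((fun a => (k a : ℂ)) ᵥ* Ep I0) ⬝ᵥ ρ = ∑ a, κ a * ρ a := by
      rw [hκ]
      rfl
    rw [h2, hκρ] at h1
    exact h1.symm
  -- the form of `p`
  have hpf : ∀ b c, (sq k : ℂ) / 2 * p b c = (k b : ℂ) * ρ c - (k c : ℂ) * ρ b := by
    intro b c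
    have h1 : ∑ a, κ a * ((k a : ℂ) * p b c + (k b : ℂ) * p c a + (k c : ℂ) * p a b) = 0 := by
      simp only [hcl, mul_zero, Finset.sum_const_zero]
    have h2 : ∑ a, κ a * ((k a : ℂ) * p b c + (k b : ℂ) * p c a + (k c : ℂ) * p a b)
        = (∑ a, κ a * (k a : ℂ)) * p b c - (k b : ℂ) * ∑ a, κ a * p a c
          + (k c : ℂ) * ∑ a, κ a * p a b := by
      rw [Finset.sum_mul, Finset.mul_sum, Finset.mul_sum, ← Finset.sum_sub_distrib,
        ← Finset.sum_add_distrib]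
      refine Finset.sum_congr rfl fun a _ => ?_
      rw [hanti c a]
      ring
    rw [h2, hkk, hρb, hρb] at h1
    linear_combination h1
  -- the `(0, 2)`-part
  obtain ⟨m, hm⟩ : ∃ m : Fin d → ℂ, m = (fun a => (k a : ℂ)) ᵥ* Em I0 := ⟨_, rfl⟩
  have hma : ∀ a, ∑ c, (k c : ℂ) * Em I0 c a = m a := fun a => by rw [hm]; rfl
  have hρa : ∀ b, ∑ e, ρ e * Em I0 e b = ρ b := fun b => congrFun hρm b
  have hPf : ∀ a b, (sq k : ℂ) / 2 * (∑ c, ∑ e, Em I0 c a * Em I0 e b * p c e)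
      = m a * ρ b - m b * ρ a := by
    intro a b
    rw [← hma a, ← hma b, ← hρa a, ← hρa b]
    rw [Finset.mul_sum]
    have h1 : ∀ c, (sq k : ℂ) / 2 * ∑ e, Em I0 c a * Em I0 e b * p c e
        = ∑ e, ((k c : ℂ) * Em I0 c a * (ρ e * Em I0 e b)
            - (k e : ℂ) * Em I0 e b * (ρ c * Em I0 c a)) := by
      intro c
      rw [Finset.mul_sum]
      refine Finset.sum_congr rfl fun e _ => ?_
      linear_combination (Em I0 c a * Em I0 e b) * hpf c e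
    simp only [h1, Finset.sum_sub_distrib]
    simp only [← Finset.mul_sum, ← Finset.sum_mul]
  -- norms
  have hconjE : ∀ c a, (starRingEnd ℂ) (Em I0 c a) = Ep I0 c a := by
    intro c a
    unfold Ep Em
    simp only [Matrix.smul_apply, Matrix.add_apply, Matrix.sub_apply, smul_eq_mul, map_mul,
      map_add, Complex.conj_I, Matrix.map_apply, Complex.conj_ofReal]
    have h2c : (starRingEnd ℂ) (2 : ℂ) = 2 := map_ofNat _ 2
    by_cases hca : c = a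
    · simp [Matrix.one_apply, hca, h2c]
      ring
    · simp [Matrix.one_apply, hca, h2c]
  have hconjm : ∀ a, (starRingEnd ℂ) (m a) = κ a := by
    intro a
    rw [← hma a, ← hκa a, map_sum]
    refine Finset.sum_congr rfl fun c _ => ?_
    rw [map_mul, hconjE, Complex.conj_ofReal]
  have hw1 := alg_wedge (fun a => (k a : ℂ)) ρ (by
    simpa only [Complex.conj_ofReal] using hkρ)
  have hw2 := alg_wedge m ρ (by simpa only [hconjm] using hκρ)
  have hn1 : ∑ a, ‖(k a : ℂ)‖ ^ 2 = sq k := by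
    unfold sq dotProduct
    refine Finset.sum_congr rfl fun a _ => ?_
    rw [Complex.norm_real, Real.norm_eq_abs, sq_abs, pow_two]
  have hn2 : ∑ a, ‖m a‖ ^ 2 = sq k / 2 := by
    have h1 : ((∑ a, ‖m a‖ ^ 2 : ℝ) : ℂ) = ((sq k / 2 : ℝ) : ℂ) := by
      push_cast
      have e1 : ∀ a, ((‖m a‖ : ℂ)) ^ 2 = κ a * m a := by
        intro a
        rw [← Complex.conj_mul', hconjm]
      simp only [e1]
      have e2 : ∑ a, κ a * m a
          = ((fun a => (k a : ℂ)) ᵥ* Ep I0) ⬝ᵥ ((fun a => (k a : ℂ)) ᵥ* Em I0) := by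
        rw [hκ, hm]
        rfl
      rw [e2, ← Matrix.dotProduct_mulVec, ← Matrix.mulVec_transpose, alg_EmT hI,
        Matrix.mulVec_mulVec, Ep_mul_self hI, Matrix.dotProduct_mulVec, alg_kEk hI, alg_sq]
    exact_mod_cast h1
  have hc : ‖(sq k : ℂ) / 2‖ ^ 2 > 0 := by
    have : (sq k : ℂ) / 2 ≠ 0 := div_ne_zero hk' two_ne_zero
    positivity
  have hp1 : ‖(sq k : ℂ) / 2‖ ^ 2 * ∑ a, ∑ b, ‖p a b‖ ^ 2 = 2 * sq k * ∑ a, ‖ρ a‖ ^ 2 := by
    have h1 : 2 * sq k * ∑ a, ‖ρ a‖ ^ 2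
        = ∑ a, ∑ b, ‖(k a : ℂ) * ρ b - (k b : ℂ) * ρ a‖ ^ 2 := by
      rw [← hn1]
      exact hw1.symm
    rw [h1, Finset.mul_sum]
    refine Finset.sum_congr rfl fun a _ => ?_
    rw [Finset.mul_sum]
    refine Finset.sum_congr rfl fun b _ => ?_
    rw [← mul_pow, ← norm_mul, hpf a b]
  have hp2 : ‖(sq k : ℂ) / 2‖ ^ 2 *
      ∑ a, ∑ b, ‖∑ c, ∑ e, Em I0 c a * Em I0 e b * p c e‖ ^ 2
        = 2 * (sq k / 2) * ∑ a, ‖ρ a‖ ^ 2 := by
    have h1 : 2 * (sq k / 2) * ∑ a, ‖ρ a‖ ^ 2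
        = ∑ a, ∑ b, ‖m a * ρ b - m b * ρ a‖ ^ 2 := by
      rw [← hn2]
      exact hw2.symm
    rw [h1, Finset.mul_sum]
    refine Finset.sum_congr rfl fun a _ => ?_
    rw [Finset.mul_sum]
    refine Finset.sum_congr rfl fun b _ => ?_
    rw [← mul_pow, ← norm_mul, hPf a b]
  refine le_of_mul_le_mul_left ?_ hc
  rw [hp1]
  calc 2 * sq k * ∑ a, ‖ρ a‖ ^ 2 = 2 * (2 * (sq k / 2) * ∑ a, ‖ρ a‖ ^ 2) := by ring
    _ = 2 * (‖(sq k : ℂ) / 2‖ ^ 2 *
      ∑ a, ∑ b, ‖∑ c, ∑ e, Em I0 c a * Em I0 e b * p c e‖ ^ 2) := by rw [hp2]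
    _ ≤ _ := le_of_eq (by ring)

end Pool.Agent.MCL
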