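import Pool.Agent.MCL.Defs

/-!
# MCL/Avg : averages of periodic functions

`avg_shift`: `h = A t`, and `s ↦ q (A s)` is invariant under `ℤ^d`; both the cube and its translate
by `t` are fundamental domains (`ZSpan.isAddFundamentalDomain` for `Pi.basisFun`, or shift one
coordinate after the other with Fubini). `avg_pd`: `u (y + t e_j) - u y = ∫₀ᵗ pd j u (y + s e_j)`,
take averages (Fubini) and use `avg_shift`; or differentiate `avg (u (· + t e_j)) = const`.
-/

set_option autoImplicit false

open MeasureTheory Set Filter Topology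
open scoped Matrix

namespace Pool.Agent.MCL

variable {d : ℕ} {A : Matrix (Fin d) (Fin d) ℝ}
section
variable {E : Type*} [NormedAddCommGroup E] [NormedSpace ℝ E]

/-- Periodicity for all vectors of the lattice. -/
theorem Per.int {F : Type*} {q : X d → F} (hp : Per A q) (ν : Fin d → ℤ) (y : X d) :
    q (y + A *ᵥ fun i => (ν i : ℝ)) = q y := by
  have hcol : ∀ j, Function.Periodic q (fun i => A i j) := fun j y => hp j y
  have hs : ∀ s : Finset (Fin d), Function.Periodic q (∑ j ∈ s, ν j • (fun i => A i j)) := by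
    intro s
    induction s using Finset.induction_on with
    | empty => simp [Function.Periodic]
    | insert a s ha ih =>
      rw [Finset.sum_insert ha]
      exact Function.Periodic.add_period ((hcol a).zsmul (ν a)) ih
  have e : (A *ᵥ fun i => (ν i : ℝ)) = ∑ j, ν j • (fun i => A i j) := by
    funext i
    simp [Matrix.mulVec, dotProduct, Finset.sum_apply, mul_comm]
  rw [e]
  exact hs Finset.univ y

theorem norm_mulVec_le' (A : Matrix (Fin d) (Fin d) ℝ) :
    ∃ R > 0, ∀ t : X d, ‖A *ᵥ t‖ ≤ R * ‖t‖ := by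
  refine ⟨‖(Matrix.toLin' A).toContinuousLinearMap‖ + 1, by positivity, fun t => ?_⟩
  have h1 := (Matrix.toLin' A).toContinuousLinearMap.le_opNorm t
  have h2 : (Matrix.toLin' A).toContinuousLinearMap t = A *ᵥ t := by simp
  rw [h2] at h1
  nlinarith [norm_nonneg t]

/-- Every point is a bounded point plus a vector of the lattice. -/
theorem exists_cell (A : Matrix (Fin d) (Fin d) ℝ) (hA : IsUnit A.det) :
    ∃ R > 0, ∀ y : X d, ∃ ν : Fin d → ℤ, ‖y + A *ᵥ fun i => (ν i : ℝ)‖ ≤ R := by
  obtain ⟨R, hR, h⟩ := norm_mulVec_le' A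
  refine ⟨R, hR, fun y => ⟨fun i => -⌊(A⁻¹ *ᵥ y) i⌋, ?_⟩⟩
  have e : (y + A *ᵥ fun i => ((-⌊(A⁻¹ *ᵥ y) i⌋ : ℤ) : ℝ)) =
      A *ᵥ fun i => Int.fract ((A⁻¹ *ᵥ y) i) := by
    have h0 : y = A *ᵥ (A⁻¹ *ᵥ y) := by
      rw [Matrix.mulVec_mulVec, Matrix.mul_nonsing_inv A hA, Matrix.one_mulVec]
    conv_lhs => rw [h0]
    rw [← Matrix.mulVec_add]
    congr 1
    funext i
    simp only [Pi.add_apply, Int.cast_neg]
    have h1 : (A⁻¹ *ᵥ (A *ᵥ (A⁻¹ *ᵥ y))) = A⁻¹ *ᵥ y := by rw [← h0]
    rw [h1, Int.fract]; ring
  rw [e]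
  refine (h _).trans ?_
  have h1 : ‖(fun i => Int.fract ((A⁻¹ *ᵥ y) i) : X d)‖ ≤ 1 := by
    rw [pi_norm_le_iff_of_nonneg zero_le_one]
    intro i
    rw [Real.norm_eq_abs, abs_of_nonneg (Int.fract_nonneg _)]
    exact (Int.fract_lt_one _).le
  nlinarith

theorem vol_cube : (volume : Measure (X d)).real (cube d) = 1 := by
  rw [cube, measureReal_def, Real.volume_Icc_pi]
  simp

theorem vol_cube_lt : (volume : Measure (X d)) (cube d) < ⊤ := by
  rw [cube]; exact isCompact_Icc.measure_lt_top

theorem cont_mulVec {F : Type*} [TopologicalSpace F] {q : X d → F} (hq : Continuous q) :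
    Continuous fun s : X d => q (A *ᵥ s) :=
  hq.comp (Continuous.matrix_mulVec continuous_const continuous_id)

omit [NormedSpace ℝ E] in
theorem int_cube {q : X d → E} (hq : Continuous q) :
    IntegrableOn (fun s : X d => q (A *ᵥ s)) (cube d) :=
  (cont_mulVec hq).continuousOn.integrableOn_compact isCompact_Icc

theorem avg_const [CompleteSpace E] (c : E) : avg A (fun _ => c) = c := by
  rw [avg, setIntegral_const, vol_cube, one_smul]

theorem avg_add {p q : X d → E} (hp : Continuous p) (hq : Continuous q) :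
    avg A (fun y => p y + q y) = avg A p + avg A q :=
  integral_add (int_cube hp) (int_cube hq)

theorem avg_sub {p q : X d → E} (hp : Continuous p) (hq : Continuous q) :
    avg A (fun y => p y - q y) = avg A p - avg A q :=
  integral_sub (int_cube hp) (int_cube hq)

theorem avg_finset_sum {ι : Type*} (S : Finset ι) {q : ι → X d → E}
    (hq : ∀ i ∈ S, Continuous (q i)) :
    avg A (fun y => ∑ i ∈ S, q i y) = ∑ i ∈ S, avg A (q i) :=
  integral_finsetSum S fun i hi => int_cube (hq i hi)

theorem avg_mul_left (c : ℂ) (q : X d → ℂ) : avg A (fun y => c * q y) = c * avg A q :=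
  integral_const_mul c _

theorem avg_mul_left_real (c : ℝ) (q : X d → ℝ) : avg A (fun y => c * q y) = c * avg A q :=
  integral_const_mul c _

theorem avg_mono {p q : X d → ℝ} (hp : Continuous p) (hq : Continuous q) (h : ∀ y, p y ≤ q y) :
    avg A p ≤ avg A q :=
  integral_mono (int_cube hp) (int_cube hq) fun _ => h _

theorem avg_nonneg {q : X d → ℝ} (h : ∀ y, 0 ≤ q y) : 0 ≤ avg A q :=
  integral_nonneg fun _ => h _

theorem norm_avg_le {q : X d → E} {B : ℝ} (h : ∀ y, ‖q y‖ ≤ B) : ‖avg A q‖ ≤ B := by
  have := norm_setIntegral_le_of_norm_le_const (f := fun s : X d => q (A *ᵥ s)) (C := B)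
    (s := cube d) (μ := volume) vol_cube_lt (fun s _ => h _)
  rwa [vol_cube, mul_one] at this

/-- Averages of uniformly convergent sequences converge. -/
theorem avg_tendsto {q : ℕ → X d → E} {p : X d → E} (hq : ∀ k, Continuous (q k))
    (hp : Continuous p) (h : ∀ ε > 0, ∀ᶠ k in atTop, ∀ y, ‖q k y - p y‖ ≤ ε) :
    Tendsto (fun k => avg A (q k)) atTop (𝓝 (avg A p)) := by
  rw [tendsto_iff_norm_sub_tendsto_zero]
  rw [Metric.tendsto_atTop']
  intro ε hε
  obtain ⟨N, hN⟩ := eventually_atTop.1 (h (ε / 2) (by positivity))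
  refine ⟨N, fun k hk => ?_⟩
  rw [dist_zero_right, norm_norm, ← avg_sub (hq k) hp]
  exact lt_of_le_of_lt (norm_avg_le (hN k hk.le)) (by linarith)


open scoped Pointwise in
/-- Invariance under translations. -/
theorem avg_shift (hA : IsUnit A.det) {q : X d → E} (hq : Continuous q) (hp : Per A q)
    (h : X d) : avg A (fun y => q (y + h)) = avg A q := by
  set b := Pi.basisFun ℝ (Fin d) with hb
  set F := ZSpan.fundamentalDomain b with hF
  set t : X d := A⁻¹ *ᵥ h with ht
  have hAt : A *ᵥ t = h := by
    rw [ht, Matrix.mulVec_mulVec, Matrix.mul_nonsing_inv A hA, Matrix.one_mulVec]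
  have hcube : (cube d : Set (X d)) =ᵐ[volume] F := by
    rw [hF, hb, ZSpan.fundamentalDomain_pi_basisFun]
    exact (Measure.univ_pi_Ico_ae_eq_Icc (f := fun _ => (0 : ℝ)) (g := fun _ => 1)).symm
  have hfd : IsAddFundamentalDomain (Submodule.span ℤ (Set.range b)) F volume :=
    ZSpan.isAddFundamentalDomain _ _
  have hfd2 : IsAddFundamentalDomain (Submodule.span ℤ (Set.range b)) (t +ᵥ F) volume :=
    hfd.vadd_of_comm t
  have hinv : ∀ (v : Submodule.span ℤ (Set.range b)) (s : X d),
      q (A *ᵥ (v +ᵥ s)) = q (A *ᵥ s) := by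
    intro v s
    have hv := (b.mem_span_iff_repr_mem ℤ (v : X d)).1 v.2
    choose ν hν using hv
    have e : (v +ᵥ s : X d) = s + fun i => (ν i : ℝ) := by
      funext i
      have := hν i
      simp only [hb, Pi.basisFun_repr, eq_intCast] at this
      rw [Pi.add_apply, this]
      change (v : X d) i + s i = _
      ring
    rw [e, Matrix.mulVec_add, hp.int]
  have e1 : avg A (fun y => q (y + h)) = ∫ s in F, q (A *ᵥ (t + s)) := by
    rw [avg, setIntegral_congr_set hcube]
    congr 1
    funext s
    rw [Matrix.mulVec_add, hAt, add_comm]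
  have e2 : ∫ s in F, q (A *ᵥ (t + s)) = ∫ s in t +ᵥ F, q (A *ᵥ s) :=
    ((measurePreserving_add_left volume t).setIntegral_image_emb
      (MeasurableEquiv.addLeft t).measurableEmbedding (fun s => q (A *ᵥ s)) F).symm
  have : VAddInvariantMeasure (Submodule.span ℤ (Set.range b)) (Fin d → ℝ) volume :=
    ⟨fun c s _ => measure_preimage_add volume (c : Fin d → ℝ) s⟩
  rw [e1, e2, hfd2.setIntegral_eq hfd hinv, avg, setIntegral_congr_set hcube]

/-- The average of a derivative of a periodic function is zero. -/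
theorem avg_pd (hA : IsUnit A.det) {u : X d → E} (hu : ContDiff ℝ 1 u) (hp : Per A u)
    (j : Fin d) : avg A (pd j u) = 0 := by
  set e : X d := Pi.single j 1 with he
  have hpd : Continuous (pd j u) := by
    unfold pd
    exact (hu.continuous_fderiv (by norm_num)).clm_apply continuous_const
  have hc : Continuous fun z : ℝ × X d => pd j u (A *ᵥ z.2 + z.1 • e) :=
    hpd.comp ((Continuous.matrix_mulVec continuous_const continuous_snd).add
      (continuous_fst.smul continuous_const))
  obtain ⟨B, hB⟩ := (((isCompact_Icc (a := (-1 : ℝ)) (b := 1)).prod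
    (isCompact_Icc (a := (0 : X d)) (b := 1))).image hc).isBounded.exists_norm_le
  have hB' : ∀ t ∈ Ioo (-1 : ℝ) 1, ∀ s ∈ cube d, ‖pd j u (A *ᵥ s + t • e)‖ ≤ B := by
    intro t ht s hs
    exact hB _ ⟨(t, s), ⟨⟨ht.1.le, ht.2.le⟩, hs⟩, rfl⟩
  have key := (hasDerivAt_integral_of_dominated_loc_of_deriv_le
    (μ := volume.restrict (cube d)) (bound := fun _ => B)
    (F := fun (t : ℝ) (s : X d) => u (A *ᵥ s + t • e))
    (F' := fun (t : ℝ) (s : X d) => pd j u (A *ᵥ s + t • e)) (x₀ := 0)
    (Ioo_mem_nhds (by norm_num) (by norm_num : (0 : ℝ) < 1))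
    (Eventually.of_forall fun t => by
      have : Continuous fun s : X d => u (A *ᵥ s + t • e) :=
        hu.continuous.comp ((Continuous.matrix_mulVec continuous_const continuous_id).add
          continuous_const)
      exact (this.continuousOn.integrableOn_compact isCompact_Icc).1)
    (by
      have : Continuous fun s : X d => u (A *ᵥ s + (0 : ℝ) • e) :=
        hu.continuous.comp ((Continuous.matrix_mulVec continuous_const continuous_id).add
          continuous_const)
      exact this.continuousOn.integrableOn_compact isCompact_Icc)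
    (by
      have : Continuous fun s : X d => pd j u (A *ᵥ s + (0 : ℝ) • e) :=
        hpd.comp ((Continuous.matrix_mulVec continuous_const continuous_id).add
          continuous_const)
      exact (this.continuousOn.integrableOn_compact isCompact_Icc).1)
    ((ae_restrict_mem measurableSet_Icc).mono fun s hs t ht => hB' t ht s hs)
    (integrableOn_const vol_cube_lt.ne)
    (Eventually.of_forall fun s t _ => by
      have h1 : HasDerivAt (fun t : ℝ => A *ᵥ s + t • e) e t := by
        simpa using ((hasDerivAt_id t).smul_const e).const_add (A *ᵥ s)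
      have h2 := (hu.differentiable (by norm_num) (A *ᵥ s + t • e)).hasFDerivAt
      exact h2.comp_hasDerivAt t h1)).2
  have hconst : (fun t : ℝ => ∫ s in cube d, u (A *ᵥ s + t • e)) = fun _ => avg A u := by
    funext t
    exact avg_shift hA hu.continuous hp (t • e)
  rw [hconst] at key
  have h0 := key.unique (hasDerivAt_const (0 : ℝ) (avg A u))
  simpa [avg] using h0

end
end Pool.Agent.MCL
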