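import Pool.Agent.MCL.Avg

/-!
# MCL/Fou : Fourier coefficients, Bessel's inequality

`fr A ν · (A s) = 2π ν · s`. `avg_ex` for `ν ≠ 0`: translate by a vector `h` with
`ex (fr A ν) h ≠ 1` and use `avg_shift` (or `integral` of a product over the cube). `fr_low`:
`|ν_j| ≤ C |fr A ν|` since `Aᵀ (fr A ν) = 2π ν`. `cf_pd`: `avg_pd` for
`y ↦ ex (-fr A ν) y * u y`. Bessel: `0 ≤ avg ‖q - tp A S (cf A q)‖²`.
-/

set_option autoImplicit false

open MeasureTheory Set Filter Topology
open scoped Matrix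

namespace Pool.Agent.MCL

variable {d : ℕ} {A : Matrix (Fin d) (Fin d) ℝ}

theorem fr_zero : fr A 0 = 0 := by
  unfold fr
  have h : (fun i : Fin d => (((0 : Fin d → ℤ) i : ℤ) : ℝ)) = 0 := by
    ext i
    simp
  rw [h, Matrix.mulVec_zero, smul_zero]

theorem fr_add (μ ν : Fin d → ℤ) : fr A (μ + ν) = fr A μ + fr A ν := by
  unfold fr
  have h : (fun i : Fin d => (((μ + ν) i : ℤ) : ℝ)) =
      (fun i => (μ i : ℝ)) + fun i => (ν i : ℝ) := by
    ext i
    simp
  rw [h, Matrix.mulVec_add, smul_add]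

theorem fr_neg (ν : Fin d → ℤ) : fr A (-ν) = -fr A ν := by
  unfold fr
  have h : (fun i : Fin d => (((-ν) i : ℤ) : ℝ)) = -(fun i => (ν i : ℝ)) := by
    ext i
    simp
  rw [h, Matrix.mulVec_neg, smul_neg]

theorem sq_nonneg (k : X d) : 0 ≤ sq k := by
  unfold sq dotProduct
  exact Finset.sum_nonneg fun i _ => mul_self_nonneg (k i)

private theorem fr_dot (hA : IsUnit A.det) (ν : Fin d → ℤ) (s : X d) :
    fr A ν ⬝ᵥ (A *ᵥ s) = 2 * Real.pi * ((fun i => (ν i : ℝ)) ⬝ᵥ s) := by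
  unfold fr
  rw [smul_dotProduct, Matrix.mulVec_transpose, Matrix.dotProduct_mulVec, Matrix.vecMul_vecMul,
    Matrix.nonsing_inv_mul A hA, Matrix.vecMul_one, smul_eq_mul]

private theorem col_eq (A : Matrix (Fin d) (Fin d) ℝ) (j : Fin d) :
    (fun i => A i j) = A *ᵥ (Pi.single j 1) := by
  rw [Matrix.mulVec_single_one]
  rfl

/-- The frequencies are bounded below. -/
theorem fr_low (A : Matrix (Fin d) (Fin d) ℝ) (hA : IsUnit A.det) :
    ∃ c > 0, ∀ ν : Fin d → ℤ, ν ≠ 0 → c ≤ sq (fr A ν) := by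
  have hM : (0 : ℝ) < 1 + ∑ j, ∑ i, A i j ^ 2 := by
    have : (0 : ℝ) ≤ ∑ j, ∑ i, A i j ^ 2 :=
      Finset.sum_nonneg fun j _ => Finset.sum_nonneg fun i _ => _root_.sq_nonneg _
    linarith
  refine ⟨(2 * Real.pi) ^ 2 / (1 + ∑ j, ∑ i, A i j ^ 2), by positivity, fun ν hν => ?_⟩
  obtain ⟨j, hj⟩ : ∃ j, ν j ≠ 0 := by
    by_contra hcon
    push Not at hcon
    exact hν (funext hcon)
  have h1 : fr A ν ⬝ᵥ (fun i => A i j) = 2 * Real.pi * (ν j : ℝ) := by
    rw [col_eq, fr_dot hA]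
    simp
  have h2 : (fr A ν ⬝ᵥ (fun i => A i j)) ^ 2 ≤ (∑ i, fr A ν i ^ 2) * ∑ i, A i j ^ 2 :=
    Finset.sum_mul_sq_le_sq_mul_sq _ _ _
  have h3 : (1 : ℝ) ≤ (ν j : ℝ) ^ 2 := by
    have : (1 : ℤ) ≤ (ν j) ^ 2 := by
      have := sq_pos_of_ne_zero hj
      omega
    exact_mod_cast this
  have h4 : ∑ i, A i j ^ 2 ≤ ∑ j, ∑ i, A i j ^ 2 :=
    Finset.single_le_sum (f := fun j => ∑ i, A i j ^ 2)
      (fun j _ => Finset.sum_nonneg fun i _ => _root_.sq_nonneg _) (Finset.mem_univ j)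
  have h5 : sq (fr A ν) = ∑ i, fr A ν i ^ 2 := by
    unfold sq dotProduct
    exact Finset.sum_congr rfl fun i _ => by ring
  have h6 : 0 ≤ sq (fr A ν) := sq_nonneg _
  rw [div_le_iff₀ hM]
  calc (2 * Real.pi) ^ 2 = (2 * Real.pi) ^ 2 * 1 := by ring
    _ ≤ (2 * Real.pi) ^ 2 * (ν j : ℝ) ^ 2 := by
        apply mul_le_mul_of_nonneg_left h3 (by positivity)
    _ = (fr A ν ⬝ᵥ (fun i => A i j)) ^ 2 := by rw [h1]; ring
    _ ≤ sq (fr A ν) * ∑ i, A i j ^ 2 := by rw [h5]; exact h2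
    _ ≤ sq (fr A ν) * (1 + ∑ j, ∑ i, A i j ^ 2) :=
        mul_le_mul_of_nonneg_left (by linarith) h6

theorem norm_ex (k y : X d) : ‖ex k y‖ = 1 := by
  unfold ex
  rw [mul_comm]
  exact Complex.norm_exp_ofReal_mul_I _

theorem ex_add (k k' y : X d) : ex (k + k') y = ex k y * ex k' y := by
  unfold ex
  rw [← Complex.exp_add, add_dotProduct]
  push_cast
  ring_nf

private theorem ex_add_right (k y y' : X d) : ex k (y + y') = ex k y * ex k y' := by
  unfold ex
  rw [← Complex.exp_add, dotProduct_add]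
  push_cast
  ring_nf

private theorem ex_zero (y : X d) : ex 0 y = 1 := by
  unfold ex
  simp

theorem conj_ex (k y : X d) : (starRingEnd ℂ) (ex k y) = ex (-k) y := by
  unfold ex
  rw [← Complex.exp_conj, map_mul, Complex.conj_I, Complex.conj_ofReal, neg_dotProduct]
  push_cast
  ring_nf

theorem ex_contDiff (k : X d) : ContDiff ℝ (⊤ : ℕ∞) (ex k) := by
  have h1 : ContDiff ℝ (⊤ : ℕ∞) (fun y : X d => k ⬝ᵥ y) := by
    unfold dotProduct
    exact ContDiff.sum fun i _ => contDiff_const.mul (contDiff_apply ℝ ℝ i)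
  have h2 : ContDiff ℝ (⊤ : ℕ∞) (fun y : X d => ((k ⬝ᵥ y : ℝ) : ℂ)) :=
    Complex.ofRealCLM.contDiff.comp h1
  exact (contDiff_const.mul h2).cexp

private theorem ex_cont (k : X d) : Continuous (ex k) := (ex_contDiff k).continuous

theorem ex_per (hA : IsUnit A.det) (ν : Fin d → ℤ) : Per A (ex (fr A ν)) := by
  intro j y
  rw [ex_add_right, col_eq]
  have h : ex (fr A ν) (A *ᵥ Pi.single j 1) = 1 := by
    unfold ex
    rw [fr_dot hA]
    have h1 : (fun i => (ν i : ℝ)) ⬝ᵥ (Pi.single j (1 : ℝ)) = (ν j : ℝ) := by simp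
    rw [h1]
    have h2 : Complex.I * ((2 * Real.pi * (ν j : ℝ) : ℝ) : ℂ) =
        (ν j : ℂ) * (2 * Real.pi * Complex.I) := by
      push_cast
      ring
    rw [h2, Complex.exp_int_mul_two_pi_mul_I]
  rw [h, mul_one]

theorem avg_ex (hA : IsUnit A.det) (ν : Fin d → ℤ) :
    avg A (ex (fr A ν)) = if ν = 0 then 1 else 0 := by
  split_ifs with h0
  · subst h0
    rw [fr_zero]
    have h : (ex (0 : X d)) = fun _ => (1 : ℂ) := funext fun y => ex_zero y
    rw [h, avg_const]
  · obtain ⟨j, hj⟩ : ∃ j, ν j ≠ 0 := by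
      by_contra hcon
      push Not at hcon
      exact h0 (funext hcon)
    have hj' : (ν j : ℝ) ≠ 0 := by exact_mod_cast hj
    have h1 := avg_shift hA (ex_cont (fr A ν)) (ex_per hA ν)
      (A *ᵥ Pi.single j (1 / (2 * (ν j : ℝ))))
    have h2 : ex (fr A ν) (A *ᵥ Pi.single j (1 / (2 * (ν j : ℝ)))) = -1 := by
      unfold ex
      rw [fr_dot hA]
      have h3 : (fun i => (ν i : ℝ)) ⬝ᵥ (Pi.single j (1 / (2 * (ν j : ℝ)))) = 1 / 2 := by
        rw [dotProduct_single]
        field_simp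
      rw [h3]
      have h4 : Complex.I * ((2 * Real.pi * (1 / 2) : ℝ) : ℂ) = Real.pi * Complex.I := by
        push_cast
        ring
      rw [h4, Complex.exp_pi_mul_I]
    have h3 : (fun y => ex (fr A ν) (y + A *ᵥ Pi.single j (1 / (2 * (ν j : ℝ))))) =
        fun y => (-1 : ℂ) * ex (fr A ν) y := by
      funext y
      rw [ex_add_right, h2]
      ring
    rw [h3, avg_mul_left] at h1
    have h4 : (2 : ℂ) * avg A (ex (fr A ν)) = 0 := by linear_combination -h1
    simpa using h4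

theorem tp_contDiff (S : Finset (Fin d → ℤ)) (c : (Fin d → ℤ) → ℂ) :
    ContDiff ℝ (⊤ : ℕ∞) (tp A S c) := by
  unfold tp
  exact ContDiff.sum fun ν _ => contDiff_const.mul (ex_contDiff _)

private theorem tp_cont (S : Finset (Fin d → ℤ)) (c : (Fin d → ℤ) → ℂ) :
    Continuous (tp A S c) := (tp_contDiff S c).continuous

theorem tp_per (hA : IsUnit A.det) (S : Finset (Fin d → ℤ)) (c : (Fin d → ℤ) → ℂ) :
    Per A (tp A S c) := by
  intro j y
  unfold tp
  exact Finset.sum_congr rfl fun ν _ => by rw [ex_per hA ν j y]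

private theorem ex_hasDeriv (k y : X d) (j : Fin d) :
    HasDerivAt (fun t : ℝ => ex k (y + t • (Pi.single j 1 : X d)))
      (Complex.I * (k j : ℂ) * ex k y) 0 := by
  have h1 : (fun t : ℝ => ex k (y + t • (Pi.single j 1 : X d))) =
      fun t : ℝ => ex k y * Complex.exp (Complex.I * (k j : ℂ) * (t : ℂ)) := by
    funext t
    rw [ex_add_right]
    congr 1
    unfold ex
    rw [dotProduct_smul, dotProduct_single]
    congr 1
    simp only [smul_eq_mul]
    push_cast
    ring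
  rw [h1]
  have h2 : HasDerivAt (fun t : ℝ => (t : ℂ)) 1 0 := Complex.ofRealCLM.hasDerivAt
  have h3 : HasDerivAt (fun t : ℝ => Complex.I * (k j : ℂ) * (t : ℂ))
      (Complex.I * (k j : ℂ) * 1) 0 := h2.const_mul _
  have h4 := (h3.cexp).const_mul (ex k y)
  have h5 : Complex.I * (k j : ℂ) * ex k y =
      ex k y * (Complex.exp (Complex.I * (k j : ℂ) * ((0 : ℝ) : ℂ)) *
        (Complex.I * (k j : ℂ) * 1)) := by
    rw [Complex.ofReal_zero, mul_zero, Complex.exp_zero]
    ring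
  rw [h5]
  exact h4

private theorem fd_of_line {u : X d → ℂ} {y : X d} {j : Fin d} {v : ℂ}
    (hu : DifferentiableAt ℝ u y)
    (h : HasDerivAt (fun t : ℝ => u (y + t • (Pi.single j 1 : X d))) v 0) :
    pd j u y = v := by
  unfold pd
  rw [← hu.lineDeriv_eq_fderiv]
  exact h.deriv

private theorem pd_ex (k y : X d) (j : Fin d) :
    pd j (ex k) y = Complex.I * (k j : ℂ) * ex k y :=
  fd_of_line ((ex_contDiff k).differentiable (by simp) y) (ex_hasDeriv k y j)

theorem pd_tp (S : Finset (Fin d → ℤ)) (c : (Fin d → ℤ) → ℂ) (j : Fin d) (y : X d) :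
    pd j (tp A S c) y = tp A S (fun ν => Complex.I * (fr A ν j : ℂ) * c ν) y := by
  apply fd_of_line ((tp_contDiff S c).differentiable (by simp) y)
  unfold tp
  have h : ∀ ν ∈ S, HasDerivAt (fun t : ℝ => c ν * ex (fr A ν) (y + t • (Pi.single j 1 : X d)))
      (Complex.I * (fr A ν j : ℂ) * c ν * ex (fr A ν) y) 0 := by
    intro ν _
    have h1 := (ex_hasDeriv (fr A ν) y j).const_mul (c ν)
    have h2 : Complex.I * (fr A ν j : ℂ) * c ν * ex (fr A ν) y =
        c ν * (Complex.I * (fr A ν j : ℂ) * ex (fr A ν) y) := by ring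
    rw [h2]
    exact h1
  exact HasDerivAt.fun_sum h

private theorem fr_sub (μ ν : Fin d → ℤ) : fr A (μ - ν) = fr A μ + -fr A ν := by
  rw [sub_eq_add_neg, fr_add, fr_neg]

theorem cf_tp (hA : IsUnit A.det) (S : Finset (Fin d → ℤ)) (c : (Fin d → ℤ) → ℂ)
    (ν : Fin d → ℤ) : cf A (tp A S c) ν = if ν ∈ S then c ν else 0 := by
  unfold cf
  have h1 : (fun y => ex (-fr A ν) y * tp A S c y) =
      fun y => ∑ μ ∈ S, c μ * ex (fr A (μ - ν)) y := by
    funext y
    unfold tp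
    rw [Finset.mul_sum]
    refine Finset.sum_congr rfl fun μ _ => ?_
    rw [fr_sub, ex_add]
    ring
  have hc : ∀ μ ∈ S, Continuous (fun y : X d => c μ * ex (fr A (μ - ν)) y) :=
    fun μ _ => continuous_const.mul (ex_cont _)
  rw [h1, avg_finset_sum S hc]
  have h2 : ∀ μ ∈ S, avg A (fun y => c μ * ex (fr A (μ - ν)) y) = if ν = μ then c μ else 0 := by
    intro μ _
    rw [avg_mul_left]
    have h3 := avg_ex hA (μ - ν)
    have h4 : avg A (fun y => ex (fr A (μ - ν)) y) = if μ - ν = 0 then 1 else 0 := h3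
    rw [h4]
    by_cases h5 : ν = μ
    · subst h5
      simp
    · have h6 : μ - ν ≠ 0 := fun h => h5 (sub_eq_zero.mp h).symm
      simp [h5, h6]
  rw [Finset.sum_congr rfl h2, Finset.sum_ite_eq]

private theorem intOn {E : Type*} [NormedAddCommGroup E] {q : X d → E} (hq : Continuous q) :
    IntegrableOn (fun s => q (A *ᵥ s)) (cube d) := by
  apply ContinuousOn.integrableOn_compact isCompact_Icc
  exact (hq.comp (continuous_const.matrix_mulVec continuous_id)).continuousOn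

private theorem avg_re {q : X d → ℂ} (hq : Continuous q) :
    avg A (fun y => (q y).re) = (avg A q).re := by
  unfold avg
  exact Complex.reCLM.integral_comp_comm (intOn hq)

private theorem avg_conj_tp {q : X d → ℂ} (hq : Continuous q) (S : Finset (Fin d → ℤ))
    (c : (Fin d → ℤ) → ℂ) :
    avg A (fun y => (starRingEnd ℂ) (tp A S c y) * q y) =
      ∑ ν ∈ S, (starRingEnd ℂ) (c ν) * cf A q ν := by
  have h1 : (fun y => (starRingEnd ℂ) (tp A S c y) * q y) =
      fun y => ∑ ν ∈ S, (starRingEnd ℂ) (c ν) * (ex (-fr A ν) y * q y) := by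
    funext y
    unfold tp
    rw [map_sum, Finset.sum_mul]
    refine Finset.sum_congr rfl fun ν _ => ?_
    rw [map_mul, conj_ex]
    ring
  have hc : ∀ ν ∈ S, Continuous (fun y : X d => (starRingEnd ℂ) (c ν) * (ex (-fr A ν) y * q y)) :=
    fun ν _ => continuous_const.mul ((ex_cont _).mul hq)
  rw [h1, avg_finset_sum S hc]
  refine Finset.sum_congr rfl fun ν _ => ?_
  rw [avg_mul_left]
  rfl

/-- Parseval's identity for trigonometric sums. -/
theorem avg_sq_tp (hA : IsUnit A.det) (S : Finset (Fin d → ℤ)) (c : (Fin d → ℤ) → ℂ) :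
    avg A (fun y => ‖tp A S c y‖ ^ 2) = ∑ ν ∈ S, ‖c ν‖ ^ 2 := by
  have h1 : (fun y => ‖tp A S c y‖ ^ 2) =
      fun y => ((starRingEnd ℂ) (tp A S c y) * tp A S c y).re := by
    funext y
    rw [← Complex.normSq_eq_conj_mul_self, Complex.ofReal_re, Complex.normSq_eq_norm_sq]
  have hc : Continuous (fun y => (starRingEnd ℂ) (tp A S c y) * tp A S c y) :=
    (Complex.continuous_conj.comp (tp_cont S c)).mul (tp_cont S c)
  rw [h1, avg_re hc, avg_conj_tp (tp_cont S c), Complex.re_sum]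
  refine Finset.sum_congr rfl fun ν hν => ?_
  rw [cf_tp hA, if_pos hν, ← Complex.normSq_eq_conj_mul_self, Complex.ofReal_re,
    Complex.normSq_eq_norm_sq]

/-- Bessel's inequality. -/
theorem bessel (hA : IsUnit A.det) {q : X d → ℂ} (hq : Continuous q) (S : Finset (Fin d → ℤ)) :
    ∑ ν ∈ S, ‖cf A q ν‖ ^ 2 ≤ avg A (fun y => ‖q y‖ ^ 2) := by
  set t := tp A S (cf A q) with ht
  have htc : Continuous t := tp_cont S _
  have h1 : ∀ y, ‖q y - t y‖ ^ 2 =
      (‖q y‖ ^ 2 + ‖t y‖ ^ 2) - 2 * ((starRingEnd ℂ) (t y) * q y).re := by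
    intro y
    rw [← Complex.normSq_eq_norm_sq, ← Complex.normSq_eq_norm_sq, ← Complex.normSq_eq_norm_sq,
      Complex.normSq_sub]
    rw [mul_comm ((starRingEnd ℂ) (t y)) (q y)]
  have h2 : 0 ≤ avg A (fun y => ‖q y - t y‖ ^ 2) := avg_nonneg fun y => by positivity
  have hc : Continuous (fun y => (starRingEnd ℂ) (t y) * q y) :=
    (Complex.continuous_conj.comp htc).mul hq
  have h3 : avg A (fun y => ‖q y - t y‖ ^ 2) =
      (avg A (fun y => ‖q y‖ ^ 2) + avg A (fun y => ‖t y‖ ^ 2)) -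
        2 * avg A (fun y => ((starRingEnd ℂ) (t y) * q y).re) := by
    have c1 : Continuous (fun y : X d => ‖q y‖ ^ 2) := hq.norm.pow 2
    have c2 : Continuous (fun y : X d => ‖t y‖ ^ 2) := htc.norm.pow 2
    have c3 : Continuous (fun y : X d => ‖q y‖ ^ 2 + ‖t y‖ ^ 2) := c1.add c2
    have c4 : Continuous (fun y : X d => 2 * ((starRingEnd ℂ) (t y) * q y).re) :=
      continuous_const.mul (Complex.continuous_re.comp hc)
    rw [funext h1, avg_sub c3 c4, avg_add c1 c2, avg_mul_left_real]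
  have h4 : avg A (fun y => ((starRingEnd ℂ) (t y) * q y).re) = ∑ ν ∈ S, ‖cf A q ν‖ ^ 2 := by
    rw [avg_re hc, ht, avg_conj_tp hq, Complex.re_sum]
    refine Finset.sum_congr rfl fun ν _ => ?_
    rw [← Complex.normSq_eq_conj_mul_self, Complex.ofReal_re, Complex.normSq_eq_norm_sq]
  have h5 : avg A (fun y => ‖t y‖ ^ 2) = ∑ ν ∈ S, ‖cf A q ν‖ ^ 2 := avg_sq_tp hA S _
  rw [h3, h4, h5] at h2
  linarith

theorem cf_add {p q : X d → ℂ} (hp : Continuous p) (hq : Continuous q) (ν : Fin d → ℤ) :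
    cf A (fun y => p y + q y) ν = cf A p ν + cf A q ν := by
  unfold cf
  have c1 : Continuous (fun y : X d => ex (-fr A ν) y * p y) := (ex_cont _).mul hp
  have c2 : Continuous (fun y : X d => ex (-fr A ν) y * q y) := (ex_cont _).mul hq
  rw [← avg_add c1 c2]
  congr 1
  funext y
  ring

theorem cf_sub {p q : X d → ℂ} (hp : Continuous p) (hq : Continuous q) (ν : Fin d → ℤ) :
    cf A (fun y => p y - q y) ν = cf A p ν - cf A q ν := by
  unfold cf
  have c1 : Continuous (fun y : X d => ex (-fr A ν) y * p y) := (ex_cont _).mul hp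
  have c2 : Continuous (fun y : X d => ex (-fr A ν) y * q y) := (ex_cont _).mul hq
  rw [← avg_sub c1 c2]
  congr 1
  funext y
  ring

theorem cf_mul_left (c : ℂ) (q : X d → ℂ) (ν : Fin d → ℤ) :
    cf A (fun y => c * q y) ν = c * cf A q ν := by
  unfold cf
  rw [← avg_mul_left]
  congr 1
  funext y
  ring

theorem norm_cf_le {q : X d → ℂ} {B : ℝ} (h : ∀ y, ‖q y‖ ≤ B) (ν : Fin d → ℤ) :
    ‖cf A q ν‖ ≤ B := by
  unfold cf
  apply norm_avg_le
  intro y
  rw [norm_mul, norm_ex, one_mul]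
  exact h y

theorem cf_tendsto {q : ℕ → X d → ℂ} {p : X d → ℂ} (hq : ∀ k, Continuous (q k))
    (hp : Continuous p) (h : ∀ ε > 0, ∀ᶠ k in atTop, ∀ y, ‖q k y - p y‖ ≤ ε) (ν : Fin d → ℤ) :
    Tendsto (fun k => cf A (q k) ν) atTop (𝓝 (cf A p ν)) := by
  unfold cf
  apply avg_tendsto (fun k => (ex_cont _).mul (hq k)) ((ex_cont _).mul hp)
  intro ε hε
  filter_upwards [h ε hε] with k hk y
  show ‖ex (-fr A ν) y * q k y - ex (-fr A ν) y * p y‖ ≤ ε
  rw [← mul_sub, norm_mul, norm_ex, one_mul]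
  exact hk y

/-- The Fourier coefficients of a derivative. -/
theorem cf_pd (hA : IsUnit A.det) {u : X d → ℂ} (hu : ContDiff ℝ 1 u) (hp : Per A u)
    (j : Fin d) (ν : Fin d → ℤ) :
    cf A (pd j u) ν = Complex.I * (fr A ν j : ℂ) * cf A u ν := by
  have hex : ContDiff ℝ 1 (ex (-fr A ν)) := (ex_contDiff _).of_le (by exact_mod_cast le_top)
  have hw : ContDiff ℝ 1 (fun y => ex (-fr A ν) y * u y) := hex.mul hu
  have hexp : Per A (ex (-fr A ν)) := by
    rw [← fr_neg]
    exact ex_per hA (-ν)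
  have hwp : Per A (fun y => ex (-fr A ν) y * u y) := by
    intro i y
    show ex (-fr A ν) _ * u _ = _
    rw [hexp i y, hp i y]
  have h1 := avg_pd hA hw hwp j
  have hud : Differentiable ℝ u := hu.differentiable (by norm_num)
  have hexd : Differentiable ℝ (ex (-fr A ν)) := hex.differentiable (by norm_num)
  have h2 : pd j (fun y => ex (-fr A ν) y * u y) = fun y =>
      ex (-fr A ν) y * pd j u y - (Complex.I * (fr A ν j : ℂ)) * (ex (-fr A ν) y * u y) := by
    funext y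
    have h3 : HasFDerivAt (fun y => ex (-fr A ν) y * u y)
        (ex (-fr A ν) y • fderiv ℝ u y + u y • fderiv ℝ (ex (-fr A ν)) y) y :=
      (hexd y).hasFDerivAt.mul (hud y).hasFDerivAt
    have h4 : pd j (fun y => ex (-fr A ν) y * u y) y =
        ex (-fr A ν) y * pd j u y + u y * pd j (ex (-fr A ν)) y := by
      unfold pd
      rw [h3.fderiv]
      simp
    rw [h4, pd_ex]
    simp only [Pi.neg_apply]
    push_cast
    ring
  have hpc : Continuous (pd j u) := by
    unfold pd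
    exact (hu.continuous_fderiv (by norm_num)).clm_apply continuous_const
  have c1 : Continuous (fun y : X d => ex (-fr A ν) y * pd j u y) := (ex_cont _).mul hpc
  have c2 : Continuous (fun y : X d =>
      (Complex.I * (fr A ν j : ℂ)) * (ex (-fr A ν) y * u y)) :=
    continuous_const.mul ((ex_cont _).mul hu.continuous)
  rw [h2, avg_sub c1 c2, avg_mul_left] at h1
  unfold cf
  linear_combination h1

end Pool.Agent.MCL
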