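import Mathlib

/-!
# MCL/Pull : pull-backs of closed 2-forms are closed
-/

set_option autoImplicit false

open MeasureTheory Set Filter Topology
open scoped Matrix

namespace Pool.Agent.MCL

/-- A field of bilinear forms in coordinates, first slot. -/
theorem pull_exp1 {V : Type*} [NormedAddCommGroup V] [NormedSpace ℝ V] {ι : Type*} [Fintype ι]
    (b : Module.Basis ι ℝ V) {ω : V → V → V → ℝ} {w : V}
    (hadd : ∀ u u' v, ω w (u + u') v = ω w u v + ω w u' v)
    (hsmul : ∀ (t : ℝ) u v, ω w (t • u) v = t * ω w u v) (u v : V) :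
    ω w u v = ∑ i, b.repr u i * ω w (b i) v := by
  let L : V →ₗ[ℝ] ℝ :=
    { toFun := fun u => ω w u v
      map_add' := fun u u' => hadd u u' v
      map_smul' := fun t u => by simp [hsmul t u v] }
  have h1 : L u = L (∑ i, b.repr u i • b i) := by rw [b.sum_repr u]
  rw [map_sum] at h1
  have h2 : ∀ i, L (b.repr u i • b i) = b.repr u i * ω w (b i) v := fun i => hsmul _ _ _
  calc ω w u v = L u := rfl
    _ = ∑ i, L (b.repr u i • b i) := h1
    _ = _ := Finset.sum_congr rfl fun i _ => h2 i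

/-- A field of bilinear forms in coordinates. -/
theorem pull_exp {V : Type*} [NormedAddCommGroup V] [NormedSpace ℝ V] {ι : Type*} [Fintype ι]
    (b : Module.Basis ι ℝ V) {ω : V → V → V → ℝ} {w : V}
    (hadd : ∀ u u' v, ω w (u + u') v = ω w u v + ω w u' v)
    (hsmul : ∀ (t : ℝ) u v, ω w (t • u) v = t * ω w u v)
    (hanti : ∀ u v, ω w u v = -ω w v u) (u v : V) :
    ω w u v = ∑ i, ∑ j, b.repr u i * (b.repr v j * ω w (b i) (b j)) := by
  rw [pull_exp1 b hadd hsmul u v]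
  refine Finset.sum_congr rfl fun i _ => ?_
  have h1 : ω w (b i) v = ∑ j, b.repr v j * ω w (b i) (b j) := by
    rw [hanti, pull_exp1 b hadd hsmul v (b i), ← Finset.sum_neg_distrib]
    refine Finset.sum_congr rfl fun j _ => ?_
    rw [hanti (b j) (b i)]; ring
  rw [h1, Finset.mul_sum]

/-- The derivative of `z ↦ ω (φ z) (U z) (W z)`. -/
theorem pull_deriv {E V : Type*} [NormedAddCommGroup E] [NormedSpace ℝ E]
    [NormedAddCommGroup V] [NormedSpace ℝ V] [FiniteDimensional ℝ V]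
    {ω : V → V → V → ℝ} {B : Set V} (hB : IsOpen B)
    (hadd : ∀ w ∈ B, ∀ u u' v, ω w (u + u') v = ω w u v + ω w u' v)
    (hsmul : ∀ w ∈ B, ∀ (t : ℝ) u v, ω w (t • u) v = t * ω w u v)
    (hanti : ∀ w ∈ B, ∀ u v, ω w u v = -ω w v u)
    (hsm : ∀ u v, ContDiffOn ℝ 1 (fun w => ω w u v) B)
    {φ U W : E → V} {x : E} {φ' U' W' : E →L[ℝ] V} (hφ : HasFDerivAt φ φ' x)
    (hU : HasFDerivAt U U' x) (hW : HasFDerivAt W W' x) (hx : φ x ∈ B) (e : E) :
    fderiv ℝ (fun z => ω (φ z) (U z) (W z)) x e =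
      ω (φ x) (U' e) (W x) + ω (φ x) (U x) (W' e) +
        fderiv ℝ (fun z => ω z (U x) (W x)) (φ x) (φ' e) := by
  classical
  set b := Module.finBasis ℝ V with hb
  have hexp : ∀ w ∈ B, ∀ u v, ω w u v =
      ∑ i, ∑ j, b.repr u i * (b.repr v j * ω w (b i) (b j)) := fun w hw u v =>
    pull_exp b (hadd w hw) (hsmul w hw) (hanti w hw) u v
  let c : Fin (Module.finrank ℝ V) → (V →L[ℝ] ℝ) := fun i =>
    LinearMap.toContinuousLinearMap (b.coord i)
  have hc : ∀ i u, c i u = b.repr u i := fun i u => by simp [c]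
  have hd : ∀ u v, HasFDerivAt (fun w => ω w u v) (fderiv ℝ (fun w => ω w u v) (φ x)) (φ x) := by
    intro u v
    have h1 : ContDiffAt ℝ 1 (fun w => ω w u v) (φ x) := (hsm u v).contDiffAt (hB.mem_nhds hx)
    exact (h1.differentiableAt (by norm_num)).hasFDerivAt
  -- the function in coordinates near `x`
  have hev : (fun z => ω (φ z) (U z) (W z)) =ᶠ[𝓝 x]
      fun z => ∑ i, ∑ j, c i (U z) * (c j (W z) * ω (φ z) (b i) (b j)) := by
    have h1 : ∀ᶠ z in 𝓝 x, φ z ∈ B := hφ.continuousAt.eventually_mem (hB.mem_nhds hx)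
    filter_upwards [h1] with z hz
    rw [hexp _ hz]
    simp only [hc]
  have hder : HasFDerivAt (fun z => ∑ i, ∑ j, c i (U z) * (c j (W z) * ω (φ z) (b i) (b j)))
      (∑ i, ∑ j, (c i (U x) • (c j (W x) • ((fderiv ℝ (fun w => ω w (b i) (b j)) (φ x)).comp φ') +
        ω (φ x) (b i) (b j) • ((c j).comp W')) +
        (c j (W x) * ω (φ x) (b i) (b j)) • ((c i).comp U'))) x := by
    refine HasFDerivAt.fun_sum fun i _ => HasFDerivAt.fun_sum fun j _ => ?_
    have hu : HasFDerivAt (fun z => c i (U z)) ((c i).comp U') x := (c i).hasFDerivAt.comp x hU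
    have hw : HasFDerivAt (fun z => c j (W z)) ((c j).comp W') x := (c j).hasFDerivAt.comp x hW
    have ho : HasFDerivAt (fun z => ω (φ z) (b i) (b j))
        ((fderiv ℝ (fun w => ω w (b i) (b j)) (φ x)).comp φ') x :=
      HasFDerivAt.comp x (hd (b i) (b j)) hφ
    exact hu.mul (hw.mul ho)
  have hL : ∀ v : V, fderiv ℝ (fun w => ω w (U x) (W x)) (φ x) v =
      ∑ i, ∑ j, c i (U x) * (c j (W x) * fderiv ℝ (fun w => ω w (b i) (b j)) (φ x) v) := by
    intro v
    have h1 : (fun w => ω w (U x) (W x)) =ᶠ[𝓝 (φ x)]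
        fun w => ∑ i, ∑ j, c i (U x) * (c j (W x) * ω w (b i) (b j)) := by
      filter_upwards [hB.mem_nhds hx] with w hw
      rw [hexp _ hw]
      simp only [hc]
    have h2 : HasFDerivAt (fun w => ∑ i, ∑ j, c i (U x) * (c j (W x) * ω w (b i) (b j)))
        (∑ i, ∑ j, c i (U x) • (c j (W x) • fderiv ℝ (fun w => ω w (b i) (b j)) (φ x))) (φ x) := by
      refine HasFDerivAt.fun_sum fun i _ => HasFDerivAt.fun_sum fun j _ => ?_
      exact ((hd (b i) (b j)).const_mul _).const_mul _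
    rw [h1.fderiv_eq, h2.fderiv]
    simp only [sum_apply, smul_apply, smul_eq_mul]
  rw [hev.fderiv_eq, hder.fderiv, hL, hexp _ hx (U' e) (W x), hexp _ hx (U x) (W' e)]
  simp only [sum_apply, smul_apply, smul_eq_mul,
    add_apply, ContinuousLinearMap.comp_apply]
  rw [← Finset.sum_add_distrib, ← Finset.sum_add_distrib]
  refine Finset.sum_congr rfl fun i _ => ?_
  rw [← Finset.sum_add_distrib, ← Finset.sum_add_distrib]
  refine Finset.sum_congr rfl fun j _ => ?_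
  simp only [← hc]
  ring

/-- The pull-back of a closed form by a `C²` map is closed. -/
theorem pull_closed {E V : Type*} [NormedAddCommGroup E] [NormedSpace ℝ E]
    [NormedAddCommGroup V] [NormedSpace ℝ V] [FiniteDimensional ℝ V]
    {ω : V → V → V → ℝ} {B : Set V} (hB : IsOpen B)
    (hadd : ∀ w ∈ B, ∀ u u' v, ω w (u + u') v = ω w u v + ω w u' v)
    (hsmul : ∀ w ∈ B, ∀ (t : ℝ) u v, ω w (t • u) v = t * ω w u v)
    (hanti : ∀ w ∈ B, ∀ u v, ω w u v = -ω w v u)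
    (hsm : ∀ u v, ContDiffOn ℝ 1 (fun w => ω w u v) B)
    (hcl : ∀ w ∈ B, ∀ u v x, fderiv ℝ (fun z => ω z u v) w x + fderiv ℝ (fun z => ω z v x) w u +
      fderiv ℝ (fun z => ω z x u) w v = 0)
    {φ : E → V} {x : E} (hφ : ContDiffAt ℝ 2 φ x) (hx : φ x ∈ B) (e1 e2 e3 : E) :
    fderiv ℝ (fun z => ω (φ z) (fderiv ℝ φ z e2) (fderiv ℝ φ z e3)) x e1 +
      fderiv ℝ (fun z => ω (φ z) (fderiv ℝ φ z e3) (fderiv ℝ φ z e1)) x e2 +
      fderiv ℝ (fun z => ω (φ z) (fderiv ℝ φ z e1) (fderiv ℝ φ z e2)) x e3 = 0 := by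
  have h0 : HasFDerivAt φ (fderiv ℝ φ x) x := (hφ.differentiableAt (by norm_num)).hasFDerivAt
  have h1 : ContDiffAt ℝ 1 (fderiv ℝ φ) x := hφ.fderiv_right (by norm_num)
  have h2 : HasFDerivAt (fderiv ℝ φ) (fderiv ℝ (fderiv ℝ φ) x) x :=
    (h1.differentiableAt (by norm_num)).hasFDerivAt
  have h3 : ∀ e, HasFDerivAt (fun z => fderiv ℝ φ z e)
      ((ContinuousLinearMap.apply ℝ V e).comp (fderiv ℝ (fderiv ℝ φ) x)) x := fun e =>
    (ContinuousLinearMap.apply ℝ V e).hasFDerivAt.comp x h2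
  have hsym : IsSymmSndFDerivAt ℝ φ x := hφ.isSymmSndFDerivAt (by simp)
  rw [pull_deriv hB hadd hsmul hanti hsm h0 (h3 e2) (h3 e3) hx e1,
    pull_deriv hB hadd hsmul hanti hsm h0 (h3 e3) (h3 e1) hx e2,
    pull_deriv hB hadd hsmul hanti hsm h0 (h3 e1) (h3 e2) hx e3]
  simp only [ContinuousLinearMap.comp_apply, ContinuousLinearMap.apply_apply]
  have h12 := hsym e1 e2
  have h13 := hsym e1 e3
  have h23 := hsym e2 e3
  rw [h12, h13, h23]
  have a1 := hanti _ hx (fderiv ℝ (fderiv ℝ φ) x e2 e1) (fderiv ℝ φ x e3)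
  have a2 := hanti _ hx (fderiv ℝ (fderiv ℝ φ) x e3 e1) (fderiv ℝ φ x e2)
  have a3 := hanti _ hx (fderiv ℝ (fderiv ℝ φ) x e3 e2) (fderiv ℝ φ x e1)
  have hc := hcl _ hx (fderiv ℝ φ x e2) (fderiv ℝ φ x e3) (fderiv ℝ φ x e1)
  rw [a1, a2, a3]
  linarith

end Pool.Agent.MCL
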