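import Pool.Agent.MCL.GeoL
import Pool.Agent.MCL.Fou
import Pool.Agent.MCL.Pull

/-!
# MCL/Closed : the Fourier coefficients of the pull-back

`pull_closed` for `φ y = cx (f y) y` and the forms `om 1`, `om 2`, then `cf_pd`
(`Pf om f b c` is `C¹` and periodic) and `cf_add`.
-/

set_option autoImplicit false

open MeasureTheory Set Filter Topology
open scoped Matrix

namespace Pool.Agent.MCL

open SYM (CV FlatTriple IsHKTripleOn)

private theorem two_le : (2 : WithTop ℕ∞) ≤ ((⊤ : ℕ∞) : WithTop ℕ∞) := by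
  have h : (((2 : ℕ) : ℕ∞) : WithTop ℕ∞) ≤ ((⊤ : ℕ∞) : WithTop ℕ∞) :=
    WithTop.coe_le_coe.2 le_top
  simpa using h

/-- `(x, y) ↦ x + i y` as a continuous linear map. -/
private noncomputable def cxL (n : ℕ) : (X (2 * n) × X (2 * n)) →L[ℝ] CV n :=
  LinearMap.toContinuousLinearMap
    { toFun := fun p => cx p.1 p.2
      map_add' := fun _ _ => cx_add _ _ _ _
      map_smul' := fun t _ => cx_smul t _ _ }

private theorem cxL_apply {n : ℕ} (x y : X (2 * n)) : cxL n (x, y) = cx x y := rfl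

private theorem phi_contDiff {n : ℕ} {f : X (2 * n) → X (2 * n)}
    (hf : ContDiff ℝ (⊤ : ℕ∞) f) : ContDiff ℝ (⊤ : ℕ∞) (fun y => cx (f y) y) :=
  (cxL n).contDiff.comp (hf.prodMk contDiff_id)

private theorem phi_fderiv {n : ℕ} {f : X (2 * n) → X (2 * n)}
    (hf : ContDiff ℝ (⊤ : ℕ∞) f) (y e : X (2 * n)) :
    fderiv ℝ (fun y => cx (f y) y) y e = cx (fderiv ℝ f y e) e := by
  have h1 : HasFDerivAt f (fderiv ℝ f y) y :=
    ((hf.differentiable (by simp)) y).hasFDerivAt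
  have h2 : HasFDerivAt (fun y => (f y, y)) ((fderiv ℝ f y).prod (ContinuousLinearMap.id ℝ _)) y :=
    h1.prodMk (hasFDerivAt_id y)
  have h3 : HasFDerivAt (fun y => cx (f y) y)
      ((cxL n).comp ((fderiv ℝ f y).prod (ContinuousLinearMap.id ℝ _))) y :=
    (cxL n).hasFDerivAt.comp y h2
  rw [h3.fderiv]
  rfl

/-- The components of the pull-back. -/
private noncomputable def Gf {n : ℕ} (om : Fin 3 → CV n → CV n → CV n → ℝ)
    (f : X (2 * n) → X (2 * n)) (k : Fin 3) (a b : Fin (2 * n)) (y : X (2 * n)) : ℝ :=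
  om k (cx (f y) y) (fderiv ℝ (fun y => cx (f y) y) y (Pi.single a 1))
    (fderiv ℝ (fun y => cx (f y) y) y (Pi.single b 1))

private theorem Pf_eq {n : ℕ} {om : Fin 3 → CV n → CV n → CV n → ℝ}
    {f : X (2 * n) → X (2 * n)} (hf : ContDiff ℝ (⊤ : ℕ∞) f) (a b : Fin (2 * n)) :
    Pf om f a b = fun y => (Gf om f 1 a b y : ℂ) + Complex.I * (Gf om f 2 a b y : ℂ) := by
  funext y
  simp only [Pf, Gf, sg, phi_fderiv hf]

private theorem Gf_contDiff {n : ℕ} {A I0 : Matrix (Fin (2 * n)) (Fin (2 * n)) ℝ}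
    {η : ℝ} {om : Fin 3 → CV n → CV n → CV n → ℝ} (h : Near n A I0 η om)
    {f : X (2 * n) → X (2 * n)} (hf : ContDiff ℝ (⊤ : ℕ∞) f)
    (hv : ∀ y, ‖f y‖ < 1) (k : Fin 3) (a b : Fin (2 * n)) :
    ContDiff ℝ 1 (Gf om f k a b) := by
  have hs : ∀ y, cx (f y) y ∈ strip n := fun y => cx_mem_strip.2 (hv y)
  have hφ := phi_contDiff hf
  have hφ1 : ContDiff ℝ 1 (fun y => cx (f y) y) := hφ.of_le (by exact_mod_cast le_top)
  have hd : ContDiff ℝ 1 (fderiv ℝ (fun y => cx (f y) y)) :=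
    (hφ.of_le two_le).fderiv_right (m := 1) (by norm_num)
  set bs := Module.finBasis ℝ (CV n) with hbs
  have hexp : Gf om f k a b = fun y => ∑ i, ∑ j,
      bs.repr (fderiv ℝ (fun y => cx (f y) y) y (Pi.single a 1)) i *
        (bs.repr (fderiv ℝ (fun y => cx (f y) y) y (Pi.single b 1)) j *
          om k (cx (f y) y) (bs i) (bs j)) := by
    funext y
    have ht := h.hk.triple _ (hs y)
    exact pull_exp bs (ω := om k) (fun u u' v => flat_add_left ht k u u' v)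
      (fun t u v => flat_smul_left ht k t u v) (fun u v => flat_anti ht k u v) _ _
  rw [hexp]
  have hc : ∀ (i : Fin (Module.finrank ℝ (CV n))) (e : X (2 * n)),
      ContDiff ℝ 1 (fun y => bs.repr (fderiv ℝ (fun y => cx (f y) y) y e) i) := by
    intro i e
    have h1 : ContDiff ℝ 1 (fun y => fderiv ℝ (fun y => cx (f y) y) y e) :=
      hd.clm_apply contDiff_const
    exact (LinearMap.toContinuousLinearMap (bs.coord i)).contDiff.comp h1
  refine ContDiff.sum fun i _ => ContDiff.sum fun j _ => (hc i _).mul ((hc j _).mul ?_)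
  have h1 : ContDiffOn ℝ 1 (fun w => om k w (bs i) (bs j)) (strip n) :=
    (h.hk.smooth k _ _).of_le (by exact_mod_cast le_top)
  rw [← contDiffOn_univ]
  exact h1.comp hφ1.contDiffOn fun y _ => hs y

private theorem Pf_contDiff {n : ℕ} {A I0 : Matrix (Fin (2 * n)) (Fin (2 * n)) ℝ}
    {η : ℝ} {om : Fin 3 → CV n → CV n → CV n → ℝ} (h : Near n A I0 η om)
    {f : X (2 * n) → X (2 * n)} (hf : ContDiff ℝ (⊤ : ℕ∞) f)
    (hv : ∀ y, ‖f y‖ < 1) (a b : Fin (2 * n)) : ContDiff ℝ 1 (Pf om f a b) := by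
  rw [Pf_eq hf]
  exact (Complex.ofRealCLM.contDiff.comp (Gf_contDiff h hf hv 1 a b)).add
    (contDiff_const.mul (Complex.ofRealCLM.contDiff.comp (Gf_contDiff h hf hv 2 a b)))

private theorem Pf_per {n : ℕ} {A I0 : Matrix (Fin (2 * n)) (Fin (2 * n)) ℝ}
    {η : ℝ} {om : Fin 3 → CV n → CV n → CV n → ℝ} (h : Near n A I0 η om)
    {f : X (2 * n) → X (2 * n)} (hp : Per A f)
    (hv : ∀ y, ‖f y‖ < 1) (a b : Fin (2 * n)) : Per A (Pf om f a b) := by
  intro j y
  have h1 : fderiv ℝ f (y + fun i => A i j) = fderiv ℝ f y := by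
    have h2 : (fun z => f (z + fun i => A i j)) = f := funext (hp j)
    rw [← fderiv_comp_add_right, h2]
  have h3 : cx (f y) (y + fun i => A i j) = cx (f y) y + cx 0 (fun i => A i j) := by
    rw [← cx_add, add_zero]
  have h4 : ∀ k u v, om k (cx (f y) y + cx 0 (fun i => A i j)) u v = om k (cx (f y) y) u v :=
    fun k u v => h.per k _ (cx_mem_strip.2 (hv y)) j u v
  simp only [Pf, sg]
  rw [h1, hp j y, h3, h4, h4]

private theorem pd_Pf {n : ℕ} {A I0 : Matrix (Fin (2 * n)) (Fin (2 * n)) ℝ}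
    {η : ℝ} {om : Fin 3 → CV n → CV n → CV n → ℝ} (h : Near n A I0 η om)
    {f : X (2 * n) → X (2 * n)} (hf : ContDiff ℝ (⊤ : ℕ∞) f)
    (hv : ∀ y, ‖f y‖ < 1) (a b c : Fin (2 * n)) (y : X (2 * n)) :
    pd a (Pf om f b c) y = (fderiv ℝ (Gf om f 1 b c) y (Pi.single a 1) : ℂ) +
      Complex.I * (fderiv ℝ (Gf om f 2 b c) y (Pi.single a 1) : ℂ) := by
  have h1 : ∀ k, HasFDerivAt (Gf om f k b c) (fderiv ℝ (Gf om f k b c) y) y := fun k =>
    ((Gf_contDiff h hf hv k b c).differentiable (by simp) y).hasFDerivAt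
  have h2 : ∀ k, HasFDerivAt (fun z => (Gf om f k b c z : ℂ))
      (Complex.ofRealCLM.comp (fderiv ℝ (Gf om f k b c) y)) y := fun k =>
    Complex.ofRealCLM.hasFDerivAt.comp y (h1 k)
  have h3 : HasFDerivAt (fun z => (Gf om f 1 b c z : ℂ) + Complex.I * (Gf om f 2 b c z : ℂ))
      (Complex.ofRealCLM.comp (fderiv ℝ (Gf om f 1 b c) y) +
        Complex.I • Complex.ofRealCLM.comp (fderiv ℝ (Gf om f 2 b c) y)) y :=
    (h2 1).add ((h2 2).const_mul Complex.I)
  rw [pd, Pf_eq hf, h3.fderiv]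
  simp

private theorem pd_closed {n : ℕ} {A I0 : Matrix (Fin (2 * n)) (Fin (2 * n)) ℝ}
    {η : ℝ} {om : Fin 3 → CV n → CV n → CV n → ℝ} (h : Near n A I0 η om)
    {f : X (2 * n) → X (2 * n)} (hf : ContDiff ℝ (⊤ : ℕ∞) f)
    (hv : ∀ y, ‖f y‖ < 1) (a b c : Fin (2 * n)) (y : X (2 * n)) :
    pd a (Pf om f b c) y + pd b (Pf om f c a) y + pd c (Pf om f a b) y = 0 := by
  have hφ := phi_contDiff hf
  have key : ∀ k : Fin 3, fderiv ℝ (Gf om f k b c) y (Pi.single a 1) +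
      fderiv ℝ (Gf om f k c a) y (Pi.single b 1) +
      fderiv ℝ (Gf om f k a b) y (Pi.single c 1) = 0 := by
    intro k
    exact pull_closed (ω := om k) (isOpen_strip (n := n))
      (fun w hw u u' v => flat_add_left (h.hk.triple w hw) k u u' v)
      (fun w hw t u v => flat_smul_left (h.hk.triple w hw) k t u v)
      (fun w hw u v => flat_anti (h.hk.triple w hw) k u v)
      (fun u v => (h.hk.smooth k u v).of_le (by exact_mod_cast le_top))
      (h.hk.closed k) (φ := fun y => cx (f y) y) (x := y)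
      ((hφ.of_le two_le).contDiffAt) (cx_mem_strip.2 (hv y)) _ _ _
  rw [pd_Pf h hf hv, pd_Pf h hf hv, pd_Pf h hf hv]
  have k1 := key 1
  have k2 := key 2
  have c1 : (fderiv ℝ (Gf om f 1 b c) y (Pi.single a 1) : ℂ) +
      (fderiv ℝ (Gf om f 1 c a) y (Pi.single b 1) : ℂ) +
      (fderiv ℝ (Gf om f 1 a b) y (Pi.single c 1) : ℂ) = 0 := by exact_mod_cast k1
  have c2 : (fderiv ℝ (Gf om f 2 b c) y (Pi.single a 1) : ℂ) +
      (fderiv ℝ (Gf om f 2 c a) y (Pi.single b 1) : ℂ) +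
      (fderiv ℝ (Gf om f 2 a b) y (Pi.single c 1) : ℂ) = 0 := by exact_mod_cast k2
  linear_combination c1 + Complex.I * c2

private theorem cont_pd {d : ℕ} {u : X d → ℂ} (hu : ContDiff ℝ 1 u) (j : Fin d) :
    Continuous (pd j u) :=
  (hu.continuous_fderiv (by simp)).clm_apply continuous_const

/-- The pull-back is closed. -/
theorem closed_cf {n : ℕ} {A I0 : Matrix (Fin (2 * n)) (Fin (2 * n)) ℝ} (hA : IsUnit A.det)
    {η : ℝ} {om : Fin 3 → CV n → CV n → CV n → ℝ} (h : Near n A I0 η om)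
    {f : X (2 * n) → X (2 * n)} (hf : ContDiff ℝ (⊤ : ℕ∞) f) (hp : Per A f)
    (hv : ∀ y, ‖f y‖ < 1) (ν : Fin (2 * n) → ℤ) (a b c : Fin (2 * n)) :
    (fr A ν a : ℂ) * cf A (Pf om f b c) ν + (fr A ν b : ℂ) * cf A (Pf om f c a) ν +
      (fr A ν c : ℂ) * cf A (Pf om f a b) ν = 0 := by
  have hc1 := Pf_contDiff h hf hv
  have hp1 := Pf_per h hp hv
  have k1 := cf_pd hA (hc1 b c) (hp1 b c) a ν
  have k2 := cf_pd hA (hc1 c a) (hp1 c a) b ν
  have k3 := cf_pd hA (hc1 a b) (hp1 a b) c ν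
  have s1 := cf_add (A := A) (cont_pd (hc1 b c) a) (cont_pd (hc1 c a) b) ν
  have s2 := cf_add (A := A)
    (p := fun y => pd a (Pf om f b c) y + pd b (Pf om f c a) y) ((cont_pd (hc1 b c) a).add (cont_pd (hc1 c a) b))
    (cont_pd (hc1 a b) c) ν
  have h0 : (fun y => pd a (Pf om f b c) y + pd b (Pf om f c a) y + pd c (Pf om f a b) y) =
      fun _ => 0 := funext (pd_closed h hf hv a b c)
  rw [h0] at s2
  have h1 : cf A (fun _ : X (2 * n) => (0 : ℂ)) ν = 0 := by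
    simp [cf, avg]
  rw [h1, s1, k1, k2, k3] at s2
  have h2 : Complex.I * ((fr A ν a : ℂ) * cf A (Pf om f b c) ν +
      (fr A ν b : ℂ) * cf A (Pf om f c a) ν + (fr A ν c : ℂ) * cf A (Pf om f a b) ν) = 0 := by
    rw [s2]; ring
  exact (mul_eq_zero.1 h2).resolve_left Complex.I_ne_zero

end Pool.Agent.MCL
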