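import Mathlib

/-!
# MCL/Defs : periodic functions on `ℝ^d`, averages, Fourier coefficients, trigonometric sums

`X d = ℝ^d` with the sup norm; the lattice is generated by the columns of `A` (invertible).
-/

set_option autoImplicit false

open MeasureTheory Set Filter Topology
open scoped Matrix

namespace Pool.Agent.MCL

/-- `ℝ^d` with the sup norm. -/
abbrev X (d : ℕ) : Type := Fin d → ℝ

variable {d : ℕ}

/-- `q` is periodic with respect to the lattice generated by the columns of `A`. -/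
def Per (A : Matrix (Fin d) (Fin d) ℝ) {E : Type*} (q : X d → E) : Prop :=
  ∀ (j : Fin d) (y : X d), q (y + fun i => A i j) = q y

/-- Hölder continuity with exponent `1/2` and constant `K`. -/
def Hol {E : Type*} [NormedAddCommGroup E] (K : ℝ) (q : X d → E) : Prop :=
  ∀ y z, ‖q y - q z‖ ≤ K * √‖y - z‖

/-- The partial derivative in the direction `j`. -/
noncomputable def pd {E : Type*} [NormedAddCommGroup E] [NormedSpace ℝ E] (j : Fin d)
    (q : X d → E) (y : X d) : E := fderiv ℝ q y (Pi.single j 1)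

/-- The unit cube. -/
def cube (d : ℕ) : Set (X d) := Set.Icc 0 1

/-- The average of `q` over a cell of the lattice. -/
noncomputable def avg (A : Matrix (Fin d) (Fin d) ℝ) {E : Type*} [NormedAddCommGroup E]
    [NormedSpace ℝ E] (q : X d → E) : E := ∫ s in cube d, q (A *ᵥ s)

/-- The frequency `2π A⁻ᵀ ν`. -/
noncomputable def fr (A : Matrix (Fin d) (Fin d) ℝ) (ν : Fin d → ℤ) : X d :=
  (2 * Real.pi) • (A⁻¹ᵀ *ᵥ fun i => (ν i : ℝ))

/-- The character `exp (i k·y)`. -/
noncomputable def ex (k y : X d) : ℂ := Complex.exp (Complex.I * ((k ⬝ᵥ y : ℝ) : ℂ))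

/-- The Fourier coefficient of `q`. -/
noncomputable def cf (A : Matrix (Fin d) (Fin d) ℝ) (q : X d → ℂ) (ν : Fin d → ℤ) : ℂ :=
  avg A fun y => ex (-fr A ν) y * q y

/-- A trigonometric sum. -/
noncomputable def tp (A : Matrix (Fin d) (Fin d) ℝ) (S : Finset (Fin d → ℤ))
    (c : (Fin d → ℤ) → ℂ) (y : X d) : ℂ := ∑ ν ∈ S, c ν * ex (fr A ν) y

/-- `|k|²`. -/
noncomputable def sq (k : X d) : ℝ := k ⬝ᵥ k

/-- The box `{|ν_j| ≤ N}`. -/
noncomputable def box (d N : ℕ) : Finset (Fin d → ℤ) :=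
  Fintype.piFinset fun _ => Finset.Icc (-(N : ℤ)) N

/-- The weights of the Fejér means. -/
noncomputable def fw (N : ℕ) (ν : Fin d → ℤ) : ℝ := ∏ j, max 0 (1 - |(ν j : ℝ)| / N)

/-- The Fejér mean of `q`. -/
noncomputable def fej (A : Matrix (Fin d) (Fin d) ℝ) (N : ℕ) (q : X d → ℂ) : X d → ℂ :=
  tp A (box d N) fun ν => (fw N ν : ℂ) * cf A q ν

end Pool.Agent.MCL
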