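import Pool.Agent.MCL.Fou

/-!
# MCL/Fejer : Fejér means of periodic functions
-/

set_option autoImplicit false

open MeasureTheory Set Filter Topology
open scoped Matrix

namespace Pool.Agent.MCL

variable {d : ℕ}

namespace FJ

open Complex

lemma card_diff (N : ℕ) (k : ℤ) :
    (((Finset.range N ×ˢ Finset.range N).filter
      fun p : ℕ × ℕ => (p.1 : ℤ) - p.2 = k).card : ℤ) = ((N - k.natAbs : ℕ) : ℤ) := by
  have : ((Finset.range N ×ˢ Finset.range N).filter fun p : ℕ × ℕ => (p.1 : ℤ) - p.2 = k)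
      = (Finset.range (N - k.natAbs)).image fun b => (b + k.toNat, b + (-k).toNat) := by
    ext p
    simp only [Finset.mem_filter, Finset.mem_product, Finset.mem_range, Finset.mem_image]
    constructor
    · rintro ⟨⟨h1, h2⟩, h3⟩
      refine ⟨min p.1 p.2, ?_, ?_⟩
      · omega
      · ext <;> simp <;> omega
    · rintro ⟨b, hb, rfl⟩
      simp only
      omega
  rw [this, Finset.card_image_of_injective]
  · simp
  · intro a b hab
    simp only [Prod.mk.injEq] at hab
    omega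

/-- the weight in dimension one -/
noncomputable def w1 (N : ℕ) (k : ℤ) : ℝ := max 0 (1 - |(k : ℝ)| / N)

lemma w1_card {N : ℕ} (hN : 0 < N) (k : ℤ) :
    w1 N k = (1 / N : ℝ) * (((Finset.range N ×ˢ Finset.range N).filter
      fun p : ℕ × ℕ => (p.1 : ℤ) - p.2 = k).card : ℝ) := by
  have h := card_diff N k
  have hN' : (0 : ℝ) < N := by exact_mod_cast hN
  have h2 : (((Finset.range N ×ˢ Finset.range N).filter
      fun p : ℕ × ℕ => (p.1 : ℤ) - p.2 = k).card : ℝ) = ((N - k.natAbs : ℕ) : ℝ) := by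
    exact_mod_cast h
  rw [h2]
  unfold w1
  have h3 : |(k : ℝ)| = (k.natAbs : ℝ) := by
    rw [← Int.cast_abs, Int.abs_eq_natAbs]
    simp
  rw [h3]
  rcases le_total k.natAbs N with h4 | h4
  · rw [Nat.cast_sub h4]
    have h5 : (k.natAbs : ℝ) ≤ N := by exact_mod_cast h4
    rw [max_eq_right]
    · field_simp
    · rw [sub_nonneg, div_le_one hN']
      exact h5
  · have h5 : (N : ℝ) ≤ k.natAbs := by exact_mod_cast h4
    rw [Nat.sub_eq_zero_of_le h4, max_eq_left]
    · simp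
    · rw [sub_nonpos, one_le_div hN']
      exact h5

/-- the Fejér kernel in dimension one -/
noncomputable def F1 (N : ℕ) (t : ℝ) : ℝ :=
  (1 / N : ℝ) * ‖∑ a ∈ Finset.range N, cexp (((a : ℝ) * t : ℝ) * I)‖ ^ 2

lemma F1_nonneg (N : ℕ) (t : ℝ) : 0 ≤ F1 N t := by
  unfold F1
  positivity

lemma F1_eq {N : ℕ} (hN : 0 < N) (t : ℝ) :
    ((F1 N t : ℝ) : ℂ) = ∑ k ∈ Finset.Icc (-(N : ℤ)) N, (w1 N k : ℂ) * cexp (((k : ℝ) * t : ℝ) * I) := by
  have h1 : ((‖∑ a ∈ Finset.range N, cexp (((a : ℝ) * t : ℝ) * I)‖ ^ 2 : ℝ) : ℂ)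
      = ∑ p ∈ Finset.range N ×ˢ Finset.range N, cexp ((((p.1 : ℝ) - p.2) * t : ℝ) * I) := by
    rw [← Complex.normSq_eq_norm_sq, ← Complex.mul_conj, map_sum, Finset.sum_mul_sum,
      ← Finset.sum_product']
    refine Finset.sum_congr rfl fun p _ => ?_
    rw [← Complex.exp_conj, ← Complex.exp_add]
    congr 1
    simp only [map_mul, Complex.conj_ofReal, Complex.conj_I]
    push_cast
    ring
  unfold F1
  rw [Complex.ofReal_mul, h1]
  rw [← Finset.sum_fiberwise_of_maps_to (g := fun p : ℕ × ℕ => (p.1 : ℤ) - p.2)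
    (t := Finset.Icc (-(N : ℤ)) N)]
  · rw [Finset.mul_sum]
    refine Finset.sum_congr rfl fun k _ => ?_
    rw [w1_card hN k]
    have h2 : ∀ p ∈ (Finset.range N ×ˢ Finset.range N).filter
        (fun p : ℕ × ℕ => (p.1 : ℤ) - p.2 = k),
        cexp ((((p.1 : ℝ) - p.2) * t : ℝ) * I) = cexp (((k : ℝ) * t : ℝ) * I) := by
      intro p hp
      have h3 := (Finset.mem_filter.1 hp).2
      rw [← h3]
      push_cast
      rfl
    rw [Finset.sum_congr rfl h2, Finset.sum_const, nsmul_eq_mul]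
    push_cast
    ring
  · intro p hp
    simp only [Finset.mem_product, Finset.mem_range] at hp
    rw [Finset.mem_Icc]
    omega

/-- the Fejér kernel -/
noncomputable def FK (N : ℕ) (u : X d) : ℝ := ∏ j, F1 N (2 * Real.pi * u j)

lemma FK_nonneg (N : ℕ) (u : X d) : 0 ≤ FK N u :=
  Finset.prod_nonneg fun _ _ => F1_nonneg _ _

lemma fr_dot (A : Matrix (Fin d) (Fin d) ℝ) (ν : Fin d → ℤ) (y : X d) :
    fr A ν ⬝ᵥ y = ∑ j, (ν j : ℝ) * (2 * Real.pi * (A⁻¹ *ᵥ y) j) := by
  unfold fr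
  rw [smul_dotProduct, Matrix.mulVec_transpose, ← Matrix.dotProduct_mulVec]
  unfold dotProduct
  rw [smul_eq_mul, Finset.mul_sum]
  exact Finset.sum_congr rfl fun j _ => by ring

lemma ex_fr (A : Matrix (Fin d) (Fin d) ℝ) (ν : Fin d → ℤ) (y : X d) :
    ex (fr A ν) y = ∏ j, cexp (((ν j : ℝ) * (2 * Real.pi * (A⁻¹ *ᵥ y) j) : ℝ) * I) := by
  unfold ex
  rw [← Complex.exp_sum, fr_dot, ← Finset.sum_mul, mul_comm]
  congr 2
  push_cast
  rfl

lemma FK_eq (A : Matrix (Fin d) (Fin d) ℝ) {N : ℕ} (hN : 0 < N) (y : X d) :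
    ((FK N (A⁻¹ *ᵥ y) : ℝ) : ℂ) = tp A (box d N) (fun ν => (fw N ν : ℂ)) y := by
  unfold FK tp box
  rw [Complex.ofReal_prod]
  simp_rw [F1_eq hN]
  rw [Finset.prod_univ_sum]
  refine Finset.sum_congr rfl fun ν _ => ?_
  rw [ex_fr, Finset.prod_mul_distrib]
  congr 1
  unfold fw
  rw [Complex.ofReal_prod]
  rfl

lemma norm_avg_le_avg (A : Matrix (Fin d) (Fin d) ℝ) {f : X d → ℂ} {g : X d → ℝ}
    (hg : Continuous g) (h : ∀ y, ‖f y‖ ≤ g y) : ‖avg A f‖ ≤ avg A g := by
  unfold avg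
  refine norm_integral_le_of_norm_le ?_ (Filter.Eventually.of_forall fun s => h _)
  refine Continuous.integrableOn_Icc ?_
  exact hg.comp (by fun_prop)

lemma continuous_FK (A : Matrix (Fin d) (Fin d) ℝ) (N : ℕ) :
    Continuous fun y : X d => FK N (A⁻¹ *ᵥ y) := by
  unfold FK F1
  have : Continuous fun y : X d => A⁻¹ *ᵥ y := by fun_prop
  fun_prop

/-- the Fejér mean as an average with a positive kernel -/
lemma fej_eq (A : Matrix (Fin d) (Fin d) ℝ) (hA : IsUnit A.det) {N : ℕ} (hN : 0 < N)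
    {q : X d → ℂ} (hq : Continuous q) (hp : Per A q) (y : X d) :
    fej A N q y = avg A fun x => (FK N (A⁻¹ *ᵥ (-x)) : ℂ) * q (x + y) := by
  have h1 : avg A (fun x => (FK N (A⁻¹ *ᵥ (-x)) : ℂ) * q (x + y))
      = avg A (fun x => (FK N (A⁻¹ *ᵥ (y - x)) : ℂ) * q x) := by
    have h2 := avg_shift (A := A) hA (q := fun x => (FK N (A⁻¹ *ᵥ (y - x)) : ℂ) * q x) ?_ ?_ y
    · rw [← h2]
      congr 1
      funext x
      have : y - (x + y) = -x := by abel
      rw [this]
    · refine Continuous.mul ?_ hq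
      refine Complex.continuous_ofReal.comp ?_
      exact (continuous_FK A N).comp (by fun_prop)
    · intro j x
      have h3 := tp_per hA (box d N) (fun ν => (fw N ν : ℂ)) j (y - (x + fun i => A i j))
      rw [← FK_eq A hN, ← FK_eq A hN] at h3
      have h4 : y - (x + fun i => A i j) + (fun i => A i j) = y - x := by abel
      rw [h4] at h3
      have h9 := hp j x
      beta_reduce
      rw [h9, h3]
  rw [h1]
  unfold fej tp
  have h5 : ∀ x, (FK N (A⁻¹ *ᵥ (y - x)) : ℂ) * q x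
      = ∑ ν ∈ box d N, ((fw N ν : ℂ) * ex (fr A ν) y) * (ex (-fr A ν) x * q x) := by
    intro x
    rw [FK_eq A hN]
    unfold tp
    rw [Finset.sum_mul]
    refine Finset.sum_congr rfl fun ν _ => ?_
    have h6 : ex (fr A ν) (y - x) = ex (fr A ν) y * ex (-fr A ν) x := by
      unfold ex
      rw [← Complex.exp_add]
      congr 1
      rw [dotProduct_sub, neg_dotProduct]
      push_cast
      ring
    rw [h6]
    ring
  simp_rw [h5]
  rw [avg_finset_sum]
  · refine Finset.sum_congr rfl fun ν _ => ?_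
    rw [avg_mul_left]
    unfold cf
    ring
  · intro ν _
    refine Continuous.mul continuous_const (Continuous.mul ?_ hq)
    exact (ex_contDiff _).continuous

lemma continuous_FKn (A : Matrix (Fin d) (Fin d) ℝ) (N : ℕ) :
    Continuous fun y : X d => FK N (A⁻¹ *ᵥ (-y)) :=
  (continuous_FK A N).comp continuous_neg

lemma avg_FK_mul (A : Matrix (Fin d) (Fin d) ℝ) (hA : IsUnit A.det) {N : ℕ} (hN : 0 < N)
    (μ : Fin d → ℤ) (hμ : μ ∈ box d N) :
    avg A (fun x => (FK N (A⁻¹ *ᵥ (-x)) : ℂ) * ex (fr A μ) x) = (fw N μ : ℂ) := by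
  have h5 : ∀ x, (FK N (A⁻¹ *ᵥ (-x)) : ℂ) * ex (fr A μ) x
      = ∑ ν ∈ box d N, (fw N ν : ℂ) * ex (fr A (μ - ν)) x := by
    intro x
    rw [FK_eq A hN]
    unfold tp
    rw [Finset.sum_mul]
    refine Finset.sum_congr rfl fun ν _ => ?_
    rw [mul_assoc]
    congr 1
    have h7 : fr A (μ - ν) = fr A μ + -fr A ν := by
      rw [sub_eq_add_neg, fr_add, fr_neg]
    rw [h7, ex_add]
    have h8 : ex (fr A ν) (-x) = ex (-fr A ν) x := by
      unfold ex
      rw [dotProduct_neg, neg_dotProduct]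
    rw [h8]
    ring
  simp_rw [h5]
  rw [avg_finset_sum]
  · rw [Finset.sum_eq_single_of_mem μ hμ]
    · rw [avg_mul_left, avg_ex hA]
      simp
    · intro ν _ hν
      rw [avg_mul_left, avg_ex hA, if_neg (sub_ne_zero.2 (Ne.symm hν)), mul_zero]
  · intro ν _
    exact Continuous.mul continuous_const (ex_contDiff _).continuous

lemma avg_ofReal (A : Matrix (Fin d) (Fin d) ℝ) (g : X d → ℝ) :
    avg A (fun x => (g x : ℂ)) = ((avg A g : ℝ) : ℂ) := by
  unfold avg
  exact integral_ofReal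

lemma avg_re (A : Matrix (Fin d) (Fin d) ℝ) {g : X d → ℂ} (hg : Continuous g) :
    avg A (fun x => (g x).re) = (avg A g).re := by
  unfold avg
  have h : IntegrableOn (fun s => g (A *ᵥ s)) (cube d) := by
    refine Continuous.integrableOn_Icc ?_
    exact hg.comp (by fun_prop)
  exact integral_re h

lemma fw_zero {N : ℕ} : fw N (0 : Fin d → ℤ) = 1 := by
  unfold fw
  simp

lemma zero_mem_box (N : ℕ) : (0 : Fin d → ℤ) ∈ box d N := by
  unfold box
  simp

lemma avg_FK (A : Matrix (Fin d) (Fin d) ℝ) (hA : IsUnit A.det) {N : ℕ} (hN : 0 < N) :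
    avg A (fun x => FK N (A⁻¹ *ᵥ (-x))) = 1 := by
  have h := avg_FK_mul A hA hN 0 (zero_mem_box N)
  rw [fw_zero, fr_zero] at h
  have h2 : ∀ x : X d, ex 0 x = 1 := by
    intro x
    unfold ex
    simp
  simp_rw [h2, mul_one] at h
  rw [avg_ofReal] at h
  exact_mod_cast h

end FJ

open FJ

theorem fej_hol (A : Matrix (Fin d) (Fin d) ℝ) (hA : IsUnit A.det) {N : ℕ} (hN : 0 < N)
    {q : X d → ℂ} (hq : Continuous q) (hp : Per A q) {K : ℝ} (hK : Hol K q) :
    Hol K (fej A N q) := by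
  intro y z
  rw [fej_eq A hA hN hq hp, fej_eq A hA hN hq hp, ← avg_sub]
  · have hc : Continuous fun x => (K * √‖y - z‖) * FK N (A⁻¹ *ᵥ (-x)) :=
      continuous_const.mul (continuous_FKn A N)
    refine (norm_avg_le_avg A hc fun x => ?_).trans ?_
    · rw [← mul_sub, norm_mul, Complex.norm_real, Real.norm_eq_abs, abs_of_nonneg (FK_nonneg _ _),
        mul_comm]
      refine mul_le_mul_of_nonneg_right ?_ (FK_nonneg _ _)
      have := hK (x + y) (x + z)
      rwa [add_sub_add_left_eq_sub] at this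
    · rw [avg_mul_left_real, avg_FK A hA hN, mul_one]
  · exact (Complex.continuous_ofReal.comp (continuous_FKn A N)).mul (hq.comp (by fun_prop))
  · exact (Complex.continuous_ofReal.comp (continuous_FKn A N)).mul (hq.comp (by fun_prop))

namespace FJ

open Complex

lemma sqrt_le (δ x : ℝ) (hδ : 0 < δ) (hx : 0 ≤ x) : √x ≤ δ + x ^ 2 / δ ^ 3 := by
  rcases le_total (√x) δ with h | h
  · have : 0 ≤ x ^ 2 / δ ^ 3 := by positivity
    linarith
  · have h1 : x = √x ^ 2 := (Real.sq_sqrt hx).symm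
    have h2 : √x ≤ x ^ 2 / δ ^ 3 := by
      rw [le_div_iff₀ (by positivity)]
      have h3 : δ ^ 3 ≤ √x ^ 3 := by gcongr
      calc √x * δ ^ 3 ≤ √x * √x ^ 3 := by gcongr
        _ = (√x ^ 2) ^ 2 := by ring
        _ = x ^ 2 := by rw [← h1]
    linarith

/-- distance to the nearest integer and the sine -/
lemma rnd_le (t : ℝ) : (t - round t) ^ 2 ≤ (1 - Real.cos (2 * Real.pi * t)) / 8 := by
  have h1 : Real.cos (2 * Real.pi * t) = Real.cos (2 * Real.pi * (t - round t)) := by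
    rw [mul_sub, mul_comm (2 * Real.pi) ((round t : ℤ) : ℝ), Real.cos_sub_int_mul_two_pi]
  rw [h1]
  set x := t - round t with hx
  have h2 : |x| ≤ 1 / 2 := abs_sub_round t
  have h3 : Real.cos (2 * Real.pi * x) = 1 - 2 * Real.sin (Real.pi * |x|) ^ 2 := by
    have : Real.cos (2 * Real.pi * x) = Real.cos (2 * (Real.pi * |x|)) := by
      rw [← Real.cos_abs (2 * Real.pi * x), abs_mul, abs_of_pos (by positivity : 0 < 2 * Real.pi)]
      congr 1
      ring
    rw [this, Real.cos_two_mul, Real.cos_sq']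
    ring
  rw [h3]
  have h4 := Real.mul_le_sin (x := Real.pi * |x|) (by positivity) (by
    have := Real.pi_pos
    nlinarith)
  have h5 : 2 / Real.pi * (Real.pi * |x|) = 2 * |x| := by
    field_simp
  rw [h5] at h4
  have h6 : (2 * |x|) ^ 2 ≤ Real.sin (Real.pi * |x|) ^ 2 := by
    gcongr
  have h7 : (2 * |x|) ^ 2 = 4 * x ^ 2 := by
    rw [mul_pow, sq_abs]
    norm_num
  linarith

/-- the unit frequencies -/
lemma avg_cos (A : Matrix (Fin d) (Fin d) ℝ) (hA : IsUnit A.det) {N : ℕ} (hN : 0 < N) (j : Fin d) :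
    avg A (fun x => FK N (A⁻¹ *ᵥ (-x)) * (1 - Real.cos (2 * Real.pi * (A⁻¹ *ᵥ x) j)))
      = 1 / N := by
  have h1 : ∀ x : X d, FK N (A⁻¹ *ᵥ (-x)) * (1 - Real.cos (2 * Real.pi * (A⁻¹ *ᵥ x) j))
      = FK N (A⁻¹ *ᵥ (-x)) - ((FK N (A⁻¹ *ᵥ (-x)) : ℂ) * ex (fr A (Pi.single j 1)) x).re := by
    intro x
    have h2 : (ex (fr A (Pi.single j 1)) x).re = Real.cos (2 * Real.pi * (A⁻¹ *ᵥ x) j) := by
      unfold ex
      rw [fr_dot, Finset.sum_eq_single j]
      · rw [mul_comm, Complex.exp_ofReal_mul_I_re]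
        simp
      · intro b _ hb
        simp [Pi.single_eq_of_ne hb]
      · simp
    rw [Complex.re_ofReal_mul, h2]
    ring
  simp_rw [h1]
  have hc : Continuous fun x : X d => (FK N (A⁻¹ *ᵥ (-x)) : ℂ) * ex (fr A (Pi.single j 1)) x :=
    (Complex.continuous_ofReal.comp (continuous_FKn A N)).mul (ex_contDiff _).continuous
  have hs := avg_sub (A := A) (q := fun x : X d =>
      ((FK N (A⁻¹ *ᵥ (-x)) : ℂ) * ex (fr A (Pi.single j 1)) x).re)
    (continuous_FKn A N) (Complex.continuous_re.comp hc)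
  rw [hs, avg_FK A hA hN, avg_re A hc, avg_FK_mul A hA hN]
  · have hN' : (0 : ℝ) < N := by exact_mod_cast hN
    have h3 : fw N (Pi.single j 1 : Fin d → ℤ) = 1 - 1 / N := by
      unfold fw
      rw [Finset.prod_eq_single j]
      · simp only [Pi.single_eq_same, Int.cast_one, abs_one]
        rw [max_eq_right]
        rw [sub_nonneg, div_le_one hN']
        exact_mod_cast hN
      · intro b _ hb
        simp [Pi.single_eq_of_ne hb]
      · simp
    rw [h3, Complex.ofReal_re]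
    ring
  · unfold box
    rw [Fintype.mem_piFinset]
    intro b
    rw [Finset.mem_Icc]
    by_cases hb : b = j
    · subst hb
      simp only [Pi.single_eq_same]
      omega
    · rw [Pi.single_eq_of_ne hb]
      omega

end FJ

/-- Uniform convergence of the Fejér means on Hölder classes. -/
theorem fej_approx (A : Matrix (Fin d) (Fin d) ℝ) (hA : IsUnit A.det) (K : ℝ) {ε : ℝ}
    (hε : 0 < ε) :
    ∃ N0, ∀ N ≥ N0, ∀ q : X d → ℂ, Continuous q → Per A q → Hol K q →
      ∀ y, ‖fej A N q y - q y‖ ≤ ε := by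
  -- a bound of the matrix
  obtain ⟨a, ha, hA2⟩ : ∃ a > 0, ∀ v : X d, ‖A *ᵥ v‖ ≤ a * ‖v‖ := by
    obtain ⟨a, ha⟩ := (Matrix.toLin' A).toContinuousLinearMap.bound
    refine ⟨a, ha.1, fun v => ?_⟩
    have := ha.2 v
    simpa using this
  set L := |K| + 1 with hL
  have hL0 : 0 < L := by positivity
  set δ := ε / (2 * L) with hδ
  have hδ0 : 0 < δ := by positivity
  set B := a ^ 2 * d / (8 * δ ^ 3) with hB
  have hB0 : 0 ≤ B := by positivity
  obtain ⟨N0, hN0⟩ := exists_nat_gt (L * B / (ε / 2))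
  refine ⟨N0 + 1, fun N hN q hq hp hK y => ?_⟩
  have hNpos : 0 < N := by omega
  have hNR : (0 : ℝ) < N := by exact_mod_cast hNpos
  have hN1 : L * B / (ε / 2) < N := by
    refine hN0.trans ?_
    exact_mod_cast (by omega : N0 < N)
  -- pointwise bound
  have h1 : ∀ x : X d, ‖q (x + y) - q y‖
      ≤ L * (δ + a ^ 2 / (8 * δ ^ 3) * ∑ j, (1 - Real.cos (2 * Real.pi * (A⁻¹ *ᵥ x) j))) := by
    intro x
    set u := A⁻¹ *ᵥ x with hu
    set v : X d := fun j => u j - round (u j) with hv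
    have hx : x = A *ᵥ u := by
      rw [hu, Matrix.mulVec_mulVec, Matrix.mul_nonsing_inv _ hA, Matrix.one_mulVec]
    have h2 : q (x + y) = q (A *ᵥ v + y) := by
      have h3 := Per.int hp (fun j => round (u j)) (A *ᵥ v + y)
      rw [← h3]
      congr 1
      have h4 : x = A *ᵥ v + A *ᵥ fun i => ((round (u i) : ℤ) : ℝ) := by
        rw [← Matrix.mulVec_add, hx]
        congr 1
        funext j
        simp [hv]
      rw [h4]
      abel
    rw [h2]
    have h5 := hK (A *ᵥ v + y) y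
    rw [add_sub_cancel_right] at h5
    have h6 : √‖A *ᵥ v‖ ≤ δ + a ^ 2 / (8 * δ ^ 3) * ∑ j, (1 - Real.cos (2 * Real.pi * u j)) := by
      have h7 : ‖v‖ ^ 2 ≤ ∑ j, (1 - Real.cos (2 * Real.pi * u j)) / 8 := by
        have h8 : ‖v‖ ≤ √(∑ j, (1 - Real.cos (2 * Real.pi * u j)) / 8) := by
          rw [pi_norm_le_iff_of_nonneg (Real.sqrt_nonneg _)]
          intro j
          rw [Real.norm_eq_abs]
          refine Real.abs_le_sqrt ?_
          refine (rnd_le (u j)).trans ?_
          refine Finset.single_le_sum (f := fun j => (1 - Real.cos (2 * Real.pi * u j)) / 8)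
            (fun j _ => ?_) (Finset.mem_univ j)
          have h10 := Real.cos_le_one (2 * Real.pi * u j)
          show 0 ≤ (1 - Real.cos (2 * Real.pi * u j)) / 8
          linarith
        have h9 : 0 ≤ ∑ j, (1 - Real.cos (2 * Real.pi * u j)) / 8 := by
          refine Finset.sum_nonneg fun j _ => ?_
          have := Real.cos_le_one (2 * Real.pi * u j)
          linarith
        calc ‖v‖ ^ 2 ≤ √(∑ j, (1 - Real.cos (2 * Real.pi * u j)) / 8) ^ 2 := by gcongr
          _ = _ := Real.sq_sqrt h9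
      calc √‖A *ᵥ v‖ ≤ δ + ‖A *ᵥ v‖ ^ 2 / δ ^ 3 := sqrt_le δ _ hδ0 (norm_nonneg _)
        _ ≤ δ + (a * ‖v‖) ^ 2 / δ ^ 3 := by
            gcongr
            exact hA2 v
        _ = δ + a ^ 2 / δ ^ 3 * ‖v‖ ^ 2 := by ring
        _ ≤ δ + a ^ 2 / δ ^ 3 * ∑ j, (1 - Real.cos (2 * Real.pi * u j)) / 8 := by gcongr
        _ = _ := by
            rw [← Finset.sum_div]
            ring
    calc _ ≤ K * √‖A *ᵥ v‖ := h5
      _ ≤ L * √‖A *ᵥ v‖ := by
          refine mul_le_mul_of_nonneg_right ?_ (Real.sqrt_nonneg _)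
          have := le_abs_self K
          linarith
      _ ≤ _ := by gcongr
  have hcos : Continuous fun x : X d => ∑ j, (1 - Real.cos (2 * Real.pi * (A⁻¹ *ᵥ x) j)) := by
    have : Continuous fun y : X d => A⁻¹ *ᵥ y := by fun_prop
    fun_prop
  have hone : avg A (fun x => (FK N (A⁻¹ *ᵥ (-x)) : ℂ) * q y) = q y := by
    have h2 : ∀ x : X d, (FK N (A⁻¹ *ᵥ (-x)) : ℂ) * q y = q y * (FK N (A⁻¹ *ᵥ (-x)) : ℂ) :=
      fun x => mul_comm _ _
    simp_rw [h2]
    rw [avg_mul_left, avg_ofReal, avg_FK A hA hNpos]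
    simp
  rw [fej_eq A hA hNpos hq hp]
  have hsub : (avg A fun x => (FK N (A⁻¹ *ᵥ (-x)) : ℂ) * q (x + y)) - q y
      = (avg A fun x => (FK N (A⁻¹ *ᵥ (-x)) : ℂ) * q (x + y))
        - avg A (fun x => (FK N (A⁻¹ *ᵥ (-x)) : ℂ) * q y) := by
    rw [hone]
  rw [hsub, ← avg_sub]
  · have hc : Continuous fun x : X d => L * δ * FK N (A⁻¹ *ᵥ (-x)) + L * (a ^ 2 / (8 * δ ^ 3)) *
        ∑ j, FK N (A⁻¹ *ᵥ (-x)) * (1 - Real.cos (2 * Real.pi * (A⁻¹ *ᵥ x) j)) := by
      refine (continuous_const.mul (continuous_FKn A N)).add (continuous_const.mul ?_)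
      simp_rw [← Finset.mul_sum]
      exact (continuous_FKn A N).mul hcos
    refine (norm_avg_le_avg A hc fun x => ?_).trans ?_
    · rw [← mul_sub, norm_mul, Complex.norm_real, Real.norm_eq_abs, abs_of_nonneg (FK_nonneg _ _)]
      have h3 := mul_le_mul_of_nonneg_left (h1 x) (FK_nonneg N (A⁻¹ *ᵥ (-x)))
      refine h3.trans (le_of_eq ?_)
      rw [← Finset.mul_sum]
      ring
    · have hcj : ∀ j : Fin d, Continuous fun x : X d =>
          FK N (A⁻¹ *ᵥ (-x)) * (1 - Real.cos (2 * Real.pi * (A⁻¹ *ᵥ x) j)) := by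
        intro j
        have : Continuous fun y : X d => A⁻¹ *ᵥ y := by fun_prop
        exact (continuous_FKn A N).mul (by fun_prop)
      have hadd := avg_add (A := A) (p := fun x : X d => L * δ * FK N (A⁻¹ *ᵥ (-x)))
        (q := fun x : X d => L * (a ^ 2 / (8 * δ ^ 3)) *
          ∑ j, FK N (A⁻¹ *ᵥ (-x)) * (1 - Real.cos (2 * Real.pi * (A⁻¹ *ᵥ x) j)))
        (continuous_const.mul (continuous_FKn A N))
        (continuous_const.mul (continuous_finsetSum _ fun j _ => hcj j))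
      rw [hadd, avg_mul_left_real, avg_mul_left_real, avg_finset_sum _ (fun j _ => hcj j),
        avg_FK A hA hNpos]
      simp_rw [avg_cos A hA hNpos]
      rw [Finset.sum_const, Finset.card_univ, Fintype.card_fin, nsmul_eq_mul]
      have h4 : L * δ = ε / 2 := by
        rw [hδ]
        field_simp
      have h5 : L * (a ^ 2 / (8 * δ ^ 3)) * (d * (1 / N)) = L * B / N := by
        rw [hB]
        field_simp
      rw [mul_one, h4, h5]
      have h6 : L * B / N ≤ ε / 2 := by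
        rw [div_le_iff₀ hNR]
        rw [div_lt_iff₀ (by positivity)] at hN1
        linarith
      linarith
  · exact (Complex.continuous_ofReal.comp (continuous_FKn A N)).mul (hq.comp (by fun_prop))
  · exact (Complex.continuous_ofReal.comp (continuous_FKn A N)).mul continuous_const

end Pool.Agent.MCL
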