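import Pool.Agent.MCL.Trans
import Pool.Agent.SYP.HK

/-!
# MCL/Field : the field `torus` of `HKData.Facts` from elementary facts on the charts
-/

set_option autoImplicit false

open MeasureTheory Set Filter Topology
open scoped Matrix

namespace Pool.Agent.MCL

open SYM (CV basisVec FlatTriple IsHKTripleOn imagSpace period)
open SYP (HKData Vec)

theorem torus_field {n b : ℕ} (C : HKData n b)
    (hT : ∀ h φ U om r, C.IsChart h φ U om r → IsHKTripleOn U om)
    (hP : ∀ h φ U om r, C.IsChart h φ U om r → ∀ c, ∀ w ∈ U, ∀ j l, j ≠ l →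
      period (om c) w j l = r (C.cls h c) j l)
    (hO : ∀ h φ U om r, C.IsChart h φ U om r → IsOpen U)
    (hU : ∀ h φ U om r, C.IsChart h φ U om r → ∀ w ∈ U, ∀ y : Fin (2 * n) → ℝ,
      (w + fun j => Complex.I * (y j : ℂ)) ∈ U)
    (hper : ∀ h φ U om r, C.IsChart h φ U om r → ∀ w ∈ U, ∀ j c,
      om c (w + (2 * Real.pi * Complex.I) • basisVec n j) = om c w)
    (hG : ∀ h φ U om r w₀, C.IsChart h φ U om r → Metric.ball w₀ 8 ⊆ U →
      ∀ f : (Fin (2 * n) → ℝ) → Fin (2 * n) → ℝ, ContDiff ℝ 1 f →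
      (∀ y j, f (y + Pi.single j (2 * Real.pi)) = f y) →
      (∀ y j, |f y j - (w₀ j).re| < 1) →
      (∀ y u v c, c ≠ 0 → om c (fun j => (f y j : ℂ) + Complex.I * (y j : ℂ))
        (fun j => (fderiv ℝ f y u j : ℂ) + Complex.I * (u j : ℂ))
        (fun j => (fderiv ℝ f y v j : ℂ) + Complex.I * (v j : ℂ)) = 0) →
      ∀ a, (∀ j l, r a j l = 0) → C.LagTorus h a)
    (o : Fin 3 → CV n → CV n → ℝ) (ho : FlatTriple o)
    (h12 : ∀ u ∈ imagSpace n, ∀ v ∈ imagSpace n, o 1 u v = 0 ∧ o 2 u v = 0)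
    (hI : ∀ u ∈ imagSpace n, ∃ v ∈ imagSpace n, ∀ x, o 0 u x = o 1 v (Complex.I • x)) :
    ∃ ε > 0, ∀ h φ U om r w₀, C.IsChart h φ U om r → Metric.ball w₀ 8 ⊆ U →
      (∀ w ∈ Metric.ball w₀ 8, ∀ c u v, |om c w u v - o c u v| ≤ ε * ‖u‖ * ‖v‖) →
      (∀ j l, r (C.cls h 1) j l = 0 ∧ r (C.cls h 2) j l = 0) →
      ∀ a, (∀ j l, r a j l = 0) → C.LagTorus h a := by
  obtain ⟨ε, hε, H⟩ := mclean n ho h12 hI
  refine ⟨ε, hε, ?_⟩
  intro h φ U om r w₀ hc hb hcl hr a ha
  have e0 : ∀ y : X (2 * n), cx (n := n) 0 y = fun j => Complex.I * (y j : ℂ) := by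
    intro y; funext j; simp [cx]
  have e1 : ∀ j : Fin (2 * n), cx (n := n) 0 (Pi.single j (2 * Real.pi)) =
      (2 * Real.pi * Complex.I) • basisVec n j := by
    intro j; funext l
    by_cases hjl : l = j
    · subst hjl; simp [cx, basisVec]; ring
    · simp [cx, basisVec, Pi.single_eq_of_ne hjl]
  obtain ⟨f, hf, hfp, hfv, hfz⟩ := H U om w₀ (hO h φ U om r hc)
    (fun w hw y => by rw [e0]; exact hU h φ U om r hc w hw y)
    (fun w hw j c u v => by rw [e1, hper h φ U om r hc w hw j c])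
    (hT h φ U om r hc) hb hcl
    (fun w hw j l hjl c hc0 => by
      rw [hP h φ U om r hc c w hw j l hjl]
      fin_cases c
      · exact absurd rfl hc0
      · exact (hr j l).1
      · exact (hr j l).2)
  refine hG h φ U om r w₀ hc hb (fun y j => (w₀ j).re + f y j) ?_ ?_ ?_ ?_ a ha
  · have : (fun y (j : Fin (2 * n)) => (w₀ j).re + f y j) =
        fun y => (fun j => (w₀ j).re) + f y := by
      funext y j; rfl
    rw [this]
    exact contDiff_const.add hf
  · intro y j
    funext l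
    simp only [hfp]
  · intro y j
    have h1 := norm_le_pi_norm (f y) j
    rw [Real.norm_eq_abs] at h1
    simpa using lt_of_le_of_lt h1 (hfv y)
  · intro y u v c hc0
    have hd : fderiv ℝ (fun y (j : Fin (2 * n)) => (w₀ j).re + f y j) y = fderiv ℝ f y := by
      have : (fun y (j : Fin (2 * n)) => (w₀ j).re + f y j) =
          fun y => (fun j => (w₀ j).re) + f y := by
        funext y j; rfl
      rw [this, fderiv_const_add]
    rw [hd]
    exact hfz y u v c hc0

end Pool.Agent.MCL
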