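import Pool.Agent.MCL.Defs

/-!
# MCL/Step : the complex structure `I0` of the torus and the fixed point map, definitions
-/

set_option autoImplicit false

open MeasureTheory Set Filter Topology
open scoped Matrix

namespace Pool.Agent.MCL

variable {d : ℕ}

/-- `I0` is an orthogonal complex structure on `ℝ^d`. -/
structure IsCx (I0 : Matrix (Fin d) (Fin d) ℝ) : Prop where
  transpose : I0ᵀ = -I0
  sq : I0 * I0 = -1

/-- `E' = (1 - i I0) / 2`, the projection to `(1, 0)`-vectors. -/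
noncomputable def Ep (I0 : Matrix (Fin d) (Fin d) ℝ) : Matrix (Fin d) (Fin d) ℂ :=
  (1 / 2 : ℂ) • (1 - Complex.I • I0.map (fun x => (x : ℂ)))

/-- `E'' = (1 + i I0) / 2`, the projection to `(0, 1)`-vectors. -/
noncomputable def Em (I0 : Matrix (Fin d) (Fin d) ℝ) : Matrix (Fin d) (Fin d) ℂ :=
  (1 / 2 : ℂ) • (1 + Complex.I • I0.map (fun x => (x : ℂ)))

/-- The multiplier `i k_l / |k|²`. -/
noncomputable def nf (A : Matrix (Fin d) (Fin d) ℝ) (l : Fin d) (ν : Fin d → ℤ) : ℂ :=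
  Complex.I * ((fr A ν l / sq (fr A ν) : ℝ) : ℂ)

/-- The coefficients of the solution `ζ` of the linear equation with right side `-c`. -/
noncomputable def zc (A I0 : Matrix (Fin d) (Fin d) ℝ) (c : Fin d → Fin d → (Fin d → ℤ) → ℂ)
    (j : Fin d) (ν : Fin d → ℤ) : ℂ :=
  2 * ∑ l, ∑ a, ∑ b, Ep I0 l a * Ep I0 b j * nf A l ν * c a b ν

/-- The 1-form `ζ = f + i I0 f`. -/
noncomputable def zeta (I0 : Matrix (Fin d) (Fin d) ℝ) (f : X d → X d) (j : Fin d) (y : X d) :
    ℂ := (f y j : ℂ) + Complex.I * ((I0 *ᵥ f y) j : ℂ)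

/-- One step of the iteration: the solution of the linear equation whose right side is the
Fejér mean of `-Q`. -/
noncomputable def stp (A I0 : Matrix (Fin d) (Fin d) ℝ) (N : ℕ)
    (Q : Fin d → Fin d → X d → ℂ) (y : X d) : X d := fun j =>
  (tp A (box d N) (zc A I0 (fun a b ν => (fw N ν : ℂ) * cf A (Q a b) ν) j) y).re

/-- The set of maps in which the equation is solved. -/
structure InK (A : Matrix (Fin d) (Fin d) ℝ) (δ : ℝ) (f : X d → X d) : Prop where
  smooth : ContDiff ℝ 1 f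
  per : Per A f
  val : ∀ y, ‖f y‖ ≤ δ
  der : ∀ y, ‖fderiv ℝ f y‖ ≤ δ
  hol : ∀ y z, ‖fderiv ℝ f y - fderiv ℝ f z‖ ≤ δ * √‖y - z‖

end Pool.Agent.MCL
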