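import Pool.Agent.SYM.Triple
import Pool.Agent.MCL.Step

/-!
# MCL/Geo : the standard triple, triples near it on a strip, pull-backs to graphs, definitions
-/

set_option autoImplicit false

open MeasureTheory Set Filter Topology
open scoped Matrix

namespace Pool.Agent.MCL

open SYM (CV FlatTriple IsHKTripleOn)

variable {n : ℕ}

/-- `x + i y`. -/
noncomputable def cx (x y : X (2 * n)) : CV n := fun j => (x j : ℂ) + Complex.I * (y j : ℂ)

/-- The complex symplectic form `ω_J + i ω_K`. -/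
noncomputable def sg (o : Fin 3 → CV n → CV n → ℝ) (u v : CV n) : ℂ :=
  (o 1 u v : ℂ) + Complex.I * (o 2 u v : ℂ)

/-- The euclidean scalar product of `ℂ^{2n}`. -/
noncomputable def gS (u v : CV n) : ℝ := ∑ j, (u j * (starRingEnd ℂ) (v j)).re

/-- The complex structures `I w = -I0 w̄`, `J w = i w`, `K w = i I0 w̄`. -/
noncomputable def QS (I0 : Matrix (Fin (2 * n)) (Fin (2 * n)) ℝ) : Fin 3 → CV n → CV n :=
  ![fun w j => -∑ l, (I0 j l : ℂ) * (starRingEnd ℂ) (w l),
    fun w j => Complex.I * w j,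
    fun w j => Complex.I * ∑ l, (I0 j l : ℂ) * (starRingEnd ℂ) (w l)]

/-- The standard triple. -/
noncomputable def oS (I0 : Matrix (Fin (2 * n)) (Fin (2 * n)) ℝ) (c : Fin 3) (u v : CV n) : ℝ :=
  gS (QS I0 c u) v

/-- The strip `|Re w_j| < 1`. -/
def strip (n : ℕ) : Set (CV n) := {w | ∀ j, |(w j).re| < 1}

/-- The pull-back of `ω_J + i ω_K` to the graph `y ↦ f y + i y`. -/
noncomputable def Pf (om : Fin 3 → CV n → CV n → CV n → ℝ) (f : X (2 * n) → X (2 * n))
    (a b : Fin (2 * n)) (y : X (2 * n)) : ℂ :=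
  sg (fun c => om c (cx (f y) y)) (cx (fderiv ℝ f y (Pi.single a 1)) (Pi.single a 1))
    (cx (fderiv ℝ f y (Pi.single b 1)) (Pi.single b 1))

/-- The nonlinear part of the pull-back. -/
noncomputable def Qf (om : Fin 3 → CV n → CV n → CV n → ℝ)
    (I0 : Matrix (Fin (2 * n)) (Fin (2 * n)) ℝ) (f : X (2 * n) → X (2 * n))
    (a b : Fin (2 * n)) (y : X (2 * n)) : ℂ :=
  Pf om f a b y - Pf (fun c _ => oS I0 c) f a b y

/-- `om` is a hyperkähler triple on the strip, periodic, close to the standard triple, with small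
first derivatives, and its forms `ω_J`, `ω_K` have no periods on the flat tori. -/
structure Near (n : ℕ) (A I0 : Matrix (Fin (2 * n)) (Fin (2 * n)) ℝ) (η : ℝ)
    (om : Fin 3 → CV n → CV n → CV n → ℝ) : Prop where
  hk : IsHKTripleOn (strip n) om
  per : ∀ c, ∀ w ∈ strip n, ∀ j u v, om c (w + cx 0 (fun i => A i j)) u v = om c w u v
  close : ∀ w ∈ strip n, ∀ c u v, |om c w u v - oS I0 c u v| ≤ η * ‖u‖ * ‖v‖
  lip : ∀ w ∈ strip n, ∀ c u v, ‖fderiv ℝ (fun z => om c z u v) w‖ ≤ η * ‖u‖ * ‖v‖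
  zero : ∀ w ∈ strip n, ∀ c, c ≠ 0 → ∀ j l,
    ∫ p in Icc (0 : ℝ) 1 ×ˢ Icc (0 : ℝ) 1,
      om c (w + p.1 • cx 0 (fun i => A i j) + p.2 • cx 0 (fun i => A i l))
        (cx 0 (fun i => A i j)) (cx 0 (fun i => A i l)) = 0

end Pool.Agent.MCL
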