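import Pool.Agent.MCL.Geo

/-!
# MCL/GeoL : elementary lemmas on `Geo`
-/

set_option autoImplicit false

open MeasureTheory Set Filter Topology
open scoped Matrix

namespace Pool.Agent.MCL

open SYM (CV FlatTriple IsHKTripleOn)

variable {n : ℕ}

theorem cx_add (x y x' y' : X (2 * n)) : cx (x + x') (y + y') = cx x y + cx x' y' := by
  funext j
  simp only [cx, Pi.add_apply, Complex.ofReal_add]
  ring

theorem cx_smul (t : ℝ) (x y : X (2 * n)) : cx (t • x) (t • y) = t • cx x y := by
  funext j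
  simp only [cx, Pi.smul_apply, smul_eq_mul, Complex.ofReal_mul, Complex.real_smul]
  ring

theorem cx_re_im (w : CV n) : cx (fun j => (w j).re) (fun j => (w j).im) = w := by
  funext j
  simp only [cx]
  apply Complex.ext <;> simp

private theorem cx_re (x y : X (2 * n)) (j : Fin (2 * n)) : (cx x y j).re = x j := by
  simp [cx]

private theorem cx_im (x y : X (2 * n)) (j : Fin (2 * n)) : (cx x y j).im = y j := by
  simp [cx]

theorem norm_cx_le (x y : X (2 * n)) : ‖cx x y‖ ≤ ‖x‖ + ‖y‖ := by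
  rw [pi_norm_le_iff_of_nonneg (by positivity)]
  intro j
  refine (norm_add_le _ _).trans ?_
  rw [norm_mul, Complex.norm_I, one_mul, Complex.norm_real, Complex.norm_real]
  exact add_le_add (norm_le_pi_norm x j) (norm_le_pi_norm y j)

theorem le_norm_cx_left (x y : X (2 * n)) : ‖x‖ ≤ ‖cx x y‖ := by
  rw [pi_norm_le_iff_of_nonneg (norm_nonneg _)]
  intro j
  have h1 := Complex.abs_re_le_norm (cx x y j)
  rw [cx_re] at h1
  exact h1.trans (norm_le_pi_norm (cx x y) j)

theorem le_norm_cx_right (x y : X (2 * n)) : ‖y‖ ≤ ‖cx x y‖ := by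
  rw [pi_norm_le_iff_of_nonneg (norm_nonneg _)]
  intro j
  have h1 := Complex.abs_im_le_norm (cx x y j)
  rw [cx_im] at h1
  exact h1.trans (norm_le_pi_norm (cx x y) j)

theorem isOpen_strip : IsOpen (strip n) := by
  have : strip n = ⋂ j : Fin (2 * n), {w : CV n | |(w j).re| < 1} := by
    ext w; simp [strip]
  rw [this]
  refine isOpen_iInter_of_finite fun j => ?_
  refine isOpen_lt ?_ continuous_const
  exact (Complex.continuous_re.comp (continuous_apply j)).abs

theorem cx_mem_strip {x y : X (2 * n)} : cx x y ∈ strip n ↔ ‖x‖ < 1 := by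
  rw [pi_norm_lt_iff one_pos]
  simp only [strip, mem_ofPred_eq, cx_re, Real.norm_eq_abs]

/-- The forms of a linear triple are bilinear and antisymmetric. -/
theorem flat_add_left {o : Fin 3 → CV n → CV n → ℝ} (ho : FlatTriple o) (c : Fin 3)
    (u u' v : CV n) : o c (u + u') v = o c u v + o c u' v := by
  obtain ⟨g, Q, h, ho⟩ := ho
  rw [ho, ho, ho, h.Q_add, h.g_add]

theorem flat_smul_left {o : Fin 3 → CV n → CV n → ℝ} (ho : FlatTriple o) (c : Fin 3) (t : ℝ)
    (u v : CV n) : o c (t • u) v = t * o c u v := by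
  obtain ⟨g, Q, h, ho⟩ := ho
  rw [ho, ho, h.Q_smul, h.g_smul]

theorem flat_anti {o : Fin 3 → CV n → CV n → ℝ} (ho : FlatTriple o) (c : Fin 3)
    (u v : CV n) : o c u v = -o c v u := by
  obtain ⟨g, Q, h, ho⟩ := ho
  rw [ho, ho, ← h.isometry c (Q c u) v, h.Q_sq, h.g_symm (Q c v) u]
  have := h.g_smul (-1) u (Q c v)
  rw [neg_one_smul] at this
  rw [this]; ring

private theorem gS_eq (u v : CV n) : gS u v = (u ⬝ᵥ star v).re := by
  simp only [gS, dotProduct, Complex.re_sum, Pi.star_apply]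
  rfl

private theorem QS0 (I0 : Matrix (Fin (2 * n)) (Fin (2 * n)) ℝ) (w : CV n) :
    QS I0 0 w = -((I0.map (fun x => (x : ℂ))) *ᵥ star w) := by
  funext j
  simp only [QS, Matrix.cons_val_zero, Pi.neg_apply, Matrix.mulVec, dotProduct, Matrix.map_apply,
    Pi.star_apply]
  rfl

private theorem QS1 (I0 : Matrix (Fin (2 * n)) (Fin (2 * n)) ℝ) (w : CV n) :
    QS I0 1 w = Complex.I • w := by
  funext j
  simp [QS]

private theorem QS2 (I0 : Matrix (Fin (2 * n)) (Fin (2 * n)) ℝ) (w : CV n) :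
    QS I0 2 w = Complex.I • ((I0.map (fun x => (x : ℂ))) *ᵥ star w) := by
  funext j
  simp only [QS, Pi.smul_apply, smul_eq_mul, Matrix.mulVec, dotProduct, Matrix.map_apply,
    Pi.star_apply]
  rfl

private theorem star_mv (I0 : Matrix (Fin (2 * n)) (Fin (2 * n)) ℝ) (w : CV n) :
    star ((I0.map (fun x => (x : ℂ))) *ᵥ w) = (I0.map (fun x => (x : ℂ))) *ᵥ star w := by
  funext j
  simp only [Pi.star_apply, Matrix.mulVec, dotProduct, Matrix.map_apply, star_sum, star_mul']
  refine Finset.sum_congr rfl fun l _ => ?_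
  congr 1
  exact Complex.conj_ofReal _

private theorem map_sq {I0 : Matrix (Fin (2 * n)) (Fin (2 * n)) ℝ} (hI : IsCx I0) :
    (I0.map (fun x => (x : ℂ))) * (I0.map (fun x => (x : ℂ))) = -1 := by
  have h := congrArg (fun M : Matrix (Fin (2 * n)) (Fin (2 * n)) ℝ => M.map Complex.ofRealHom) hI.sq
  simp only [Matrix.map_mul] at h
  have h2 : (-1 : Matrix (Fin (2 * n)) (Fin (2 * n)) ℝ).map Complex.ofRealHom = -1 := by
    ext i j
    by_cases hij : i = j
    · subst hij; simp
    · simp [Matrix.one_apply_ne hij]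
  rw [h2] at h
  exact h

private theorem map_tr {I0 : Matrix (Fin (2 * n)) (Fin (2 * n)) ℝ} (hI : IsCx I0) :
    (I0.map (fun x => (x : ℂ)))ᵀ = -(I0.map (fun x => (x : ℂ))) := by
  ext i j
  have := congrFun (congrFun hI.transpose i) j
  simp only [Matrix.transpose_apply, Matrix.neg_apply] at this
  simp [Matrix.transpose_apply, this]

private theorem iso_mv {I0 : Matrix (Fin (2 * n)) (Fin (2 * n)) ℝ} (hI : IsCx I0) (u v : CV n) :
    ((I0.map (fun x => (x : ℂ))) *ᵥ u) ⬝ᵥ ((I0.map (fun x => (x : ℂ))) *ᵥ v) = u ⬝ᵥ v := by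
  rw [Matrix.dotProduct_mulVec, ← Matrix.mulVec_transpose, Matrix.mulVec_mulVec, map_tr hI,
    Matrix.neg_mul, map_sq hI, neg_neg, Matrix.one_mulVec]

private theorem gS_smulI (u v : CV n) : gS (Complex.I • u) (Complex.I • v) = gS u v := by
  rw [gS_eq, gS_eq, star_smul, smul_dotProduct, dotProduct_smul, smul_smul]
  have : Complex.I * star Complex.I = 1 := by
    rw [Complex.star_def, Complex.conj_I]; simp
  rw [this, one_smul]

private theorem gS_neg (u v : CV n) : gS (-u) (-v) = gS u v := by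
  rw [gS_eq, gS_eq, star_neg, neg_dotProduct, dotProduct_neg, neg_neg]

private theorem gS_symm (u v : CV n) : gS u v = gS v u := by
  simp only [gS]
  refine Finset.sum_congr rfl fun j _ => ?_
  simp only [Complex.mul_re, Complex.conj_re, Complex.conj_im]
  ring

private theorem gS_mv {I0 : Matrix (Fin (2 * n)) (Fin (2 * n)) ℝ} (hI : IsCx I0) (u v : CV n) :
    gS ((I0.map (fun x => (x : ℂ))) *ᵥ star u) ((I0.map (fun x => (x : ℂ))) *ᵥ star v) = gS u v := by
  rw [gS_eq, star_mv, star_star, gS_symm u v, gS_eq v u]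
  have := iso_mv hI (star u) v
  rw [this, dotProduct_comm]

/-- The standard triple is a linear triple. -/
theorem oS_flat {I0 : Matrix (Fin (2 * n)) (Fin (2 * n)) ℝ} (hI : IsCx I0) :
    FlatTriple (oS (n := n) I0) := by
  refine ⟨gS, QS I0, ?_, fun _ _ _ => rfl⟩
  refine
    { g_add := ?_, g_smul := ?_, g_symm := gS_symm, g_pos := ?_, Q_add := ?_, Q_smul := ?_,
      Q_sq := ?_, I_eq := ?_, J_eq := QS1 I0, isometry := ?_ }
  · intro u v w
    rw [gS_eq, gS_eq, gS_eq, add_dotProduct, Complex.add_re]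
  · intro c u v
    rw [gS_eq, gS_eq, smul_dotProduct, Complex.real_smul, Complex.re_ofReal_mul]
  · intro u hu
    have hs : gS u u = ∑ j, Complex.normSq (u j) := by
      simp only [gS]
      refine Finset.sum_congr rfl fun j _ => ?_
      rw [Complex.mul_conj, Complex.ofReal_re]
    rw [hs]
    obtain ⟨j, hj⟩ := Function.ne_iff.1 hu
    refine Finset.sum_pos' (fun i _ => Complex.normSq_nonneg _) ⟨j, Finset.mem_univ _, ?_⟩
    exact Complex.normSq_pos.2 hj
  · intro a u v
    fin_cases a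
    · change QS I0 0 (u + v) = QS I0 0 u + QS I0 0 v
      rw [QS0, QS0, QS0, star_add, Matrix.mulVec_add, neg_add]
    · change QS I0 1 (u + v) = QS I0 1 u + QS I0 1 v
      rw [QS1, QS1, QS1, smul_add]
    · change QS I0 2 (u + v) = QS I0 2 u + QS I0 2 v
      rw [QS2, QS2, QS2, star_add, Matrix.mulVec_add, smul_add]
  · intro a c u
    have hst : star (c • u) = c • star u := by
      rw [star_smul]; rfl
    fin_cases a
    · change QS I0 0 (c • u) = c • QS I0 0 u
      rw [QS0, QS0, hst, Matrix.mulVec_smul, smul_neg]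
    · change QS I0 1 (c • u) = c • QS I0 1 u
      rw [QS1, QS1, smul_comm]
    · change QS I0 2 (c • u) = c • QS I0 2 u
      rw [QS2, QS2, hst, Matrix.mulVec_smul, smul_comm]
  · intro a u
    fin_cases a
    · change QS I0 0 (QS I0 0 u) = -u
      rw [QS0, QS0, star_neg, star_mv, star_star, Matrix.mulVec_neg, neg_neg, Matrix.mulVec_mulVec,
        map_sq hI, Matrix.neg_mulVec, Matrix.one_mulVec]
    · change QS I0 1 (QS I0 1 u) = -u
      rw [QS1, QS1, smul_smul, Complex.I_mul_I, neg_one_smul]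
    · change QS I0 2 (QS I0 2 u) = -u
      rw [QS2, QS2, star_smul, star_mv, star_star, Matrix.mulVec_smul, smul_smul,
        Matrix.mulVec_mulVec, map_sq hI, Matrix.neg_mulVec, Matrix.one_mulVec]
      have : Complex.I * star Complex.I = 1 := by
        rw [Complex.star_def, Complex.conj_I]; simp
      rw [this, one_smul]
  · intro u
    rw [QS0, QS1, QS2, smul_smul, Complex.I_mul_I, neg_one_smul]
  · intro a u v
    fin_cases a
    · change gS (QS I0 0 u) (QS I0 0 v) = gS u v
      rw [QS0, QS0, gS_neg, gS_mv hI]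
    · change gS (QS I0 1 u) (QS I0 1 v) = gS u v
      rw [QS1, QS1, gS_smulI]
    · change gS (QS I0 2 u) (QS I0 2 v) = gS u v
      rw [QS2, QS2, gS_smulI, gS_mv hI]

/-- `|oS c u v| ≤ 2n (2n) ‖u‖ ‖v‖` or any constant. -/
theorem oS_bound (I0 : Matrix (Fin (2 * n)) (Fin (2 * n)) ℝ) :
    ∃ C > 0, ∀ c (u v : CV n), |oS I0 c u v| ≤ C * ‖u‖ * ‖v‖ := by
  set K : ℝ := 1 + ∑ j, ∑ l, |I0 j l| with hK
  have hS : 0 ≤ ∑ j, ∑ l, |I0 j l| := Finset.sum_nonneg fun j _ => Finset.sum_nonneg fun l _ =>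
    abs_nonneg _
  have hK1 : 1 ≤ K := by rw [hK]; linarith
  have hg : ∀ u v : CV n, |gS u v| ≤ (2 * n : ℕ) * ‖u‖ * ‖v‖ := by
    intro u v
    simp only [gS]
    refine (Finset.abs_sum_le_sum_abs _ _).trans ?_
    have : ∀ j ∈ (Finset.univ : Finset (Fin (2 * n))),
        |(u j * (starRingEnd ℂ) (v j)).re| ≤ ‖u‖ * ‖v‖ := by
      intro j _
      refine (Complex.abs_re_le_norm _).trans ?_
      rw [norm_mul, RCLike.norm_conj]
      exact mul_le_mul (norm_le_pi_norm u j) (norm_le_pi_norm v j) (norm_nonneg _) (norm_nonneg _)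
    refine (Finset.sum_le_sum this).trans ?_
    rw [Finset.sum_const, Finset.card_univ, Fintype.card_fin, nsmul_eq_mul]
    rw [mul_assoc]
  have hmv : ∀ u : CV n, ‖(I0.map (fun x => (x : ℂ))) *ᵥ star u‖ ≤ K * ‖u‖ := by
    intro u
    rw [pi_norm_le_iff_of_nonneg (by positivity)]
    intro j
    simp only [Matrix.mulVec, dotProduct, Matrix.map_apply, Pi.star_apply]
    refine (norm_sum_le _ _).trans ?_
    have h1 : ∀ l ∈ (Finset.univ : Finset (Fin (2 * n))),
        ‖(I0 j l : ℂ) * star (u l)‖ ≤ |I0 j l| * ‖u‖ := by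
      intro l _
      rw [norm_mul, Complex.norm_real, norm_star, Real.norm_eq_abs]
      exact mul_le_mul_of_nonneg_left (norm_le_pi_norm u l) (abs_nonneg _)
    refine (Finset.sum_le_sum h1).trans ?_
    rw [← Finset.sum_mul]
    refine mul_le_mul_of_nonneg_right ?_ (norm_nonneg _)
    have h2 : ∑ l, |I0 j l| ≤ ∑ j, ∑ l, |I0 j l| :=
      Finset.single_le_sum (f := fun j => ∑ l, |I0 j l|)
        (fun j _ => Finset.sum_nonneg fun l _ => abs_nonneg _) (Finset.mem_univ j)
    rw [hK]; linarith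
  have hQ : ∀ c (u : CV n), ‖QS I0 c u‖ ≤ K * ‖u‖ := by
    intro c u
    fin_cases c
    · change ‖QS I0 0 u‖ ≤ _
      rw [QS0, norm_neg]; exact hmv u
    · change ‖QS I0 1 u‖ ≤ _
      rw [QS1, norm_smul, Complex.norm_I, one_mul]
      exact le_mul_of_one_le_left (norm_nonneg _) hK1
    · change ‖QS I0 2 u‖ ≤ _
      rw [QS2, norm_smul, Complex.norm_I, one_mul]; exact hmv u
  refine ⟨(2 * n : ℕ) * K + 1, by positivity, ?_⟩
  intro c u v
  refine (hg (QS I0 c u) v).trans ?_
  have h1 : ((2 * n : ℕ) : ℝ) * ‖QS I0 c u‖ ≤ ((2 * n : ℕ) * K + 1) * ‖u‖ := by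
    have := mul_le_mul_of_nonneg_left (hQ c u) (Nat.cast_nonneg (α := ℝ) (2 * n))
    have h2 := norm_nonneg u
    nlinarith
  exact mul_le_mul_of_nonneg_right h1 (norm_nonneg _)

private theorem gS_I (x y x' y' : X (2 * n)) :
    gS (Complex.I • cx x y) (cx x' y') = x ⬝ᵥ y' - y ⬝ᵥ x' := by
  simp only [gS, cx, Pi.smul_apply, smul_eq_mul, dotProduct]
  rw [← Finset.sum_sub_distrib]
  refine Finset.sum_congr rfl fun j _ => ?_
  simp
  ring

private theorem mv_cx (I0 : Matrix (Fin (2 * n)) (Fin (2 * n)) ℝ) (x y : X (2 * n)) :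
    (I0.map (fun x => (x : ℂ))) *ᵥ star (cx x y) = cx (I0 *ᵥ x) (-(I0 *ᵥ y)) := by
  funext j
  simp only [Matrix.mulVec, dotProduct, Matrix.map_apply, Pi.star_apply, cx, Pi.neg_apply,
    Complex.ofReal_neg, Complex.ofReal_sum, Complex.ofReal_mul]
  rw [mul_neg, Finset.mul_sum, ← sub_eq_add_neg, ← Finset.sum_sub_distrib]
  refine Finset.sum_congr rfl fun l _ => ?_
  simp
  ring

/-- The pull-back of the standard form is exact: `dζ`, `ζ = f + i I0 f`. -/
theorem Pf_flat {I0 : Matrix (Fin (2 * n)) (Fin (2 * n)) ℝ} (hI : IsCx I0)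
    {f : X (2 * n) → X (2 * n)} (hf : ContDiff ℝ 1 f) (a b : Fin (2 * n)) (y : X (2 * n)) :
    Pf (fun c _ => oS I0 c) f a b y = pd a (zeta I0 f b) y - pd b (zeta I0 f a) y := by
  have hd : DifferentiableAt ℝ f y := (hf.differentiable (by norm_num)) y
  have key : ∀ (a b : Fin (2 * n)), pd a (zeta I0 f b) y =
      ((fderiv ℝ f y (Pi.single a 1) b : ℝ) : ℂ) +
        Complex.I * ((I0 *ᵥ (fderiv ℝ f y (Pi.single a 1))) b : ℂ) := by
    intro a b
    let L : X (2 * n) →ₗ[ℝ] ℂ :=
      { toFun := fun x => (x b : ℂ) + Complex.I * ((I0 *ᵥ x) b : ℂ)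
        map_add' := by
          intro x x'
          rw [Matrix.mulVec_add]
          simp only [Pi.add_apply, Complex.ofReal_add]; ring
        map_smul' := by
          intro t x
          rw [Matrix.mulVec_smul]
          simp only [Pi.smul_apply, smul_eq_mul, Complex.ofReal_mul, RingHom.id_apply,
            Complex.real_smul]
          ring }
    have hL : zeta I0 f b = fun y => (LinearMap.toContinuousLinearMap L) (f y) := rfl
    have h1 := (LinearMap.toContinuousLinearMap L).hasFDerivAt.comp y hd.hasFDerivAt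
    unfold pd
    rw [hL]
    have h2 : fderiv ℝ (fun y => (LinearMap.toContinuousLinearMap L) (f y)) y =
        (LinearMap.toContinuousLinearMap L).comp (fderiv ℝ f y) := h1.fderiv
    rw [h2]
    rfl
  rw [key a b, key b a]
  set p := fderiv ℝ f y (Pi.single a 1) with hp
  set q := fderiv ℝ f y (Pi.single b 1) with hq
  have e1 : oS I0 1 (cx p (Pi.single a 1)) (cx q (Pi.single b 1)) = p b - q a := by
    simp only [oS, QS1]
    rw [gS_I, dotProduct_single_one, single_one_dotProduct]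
  have e2 : oS I0 2 (cx p (Pi.single a 1)) (cx q (Pi.single b 1)) =
      (I0 *ᵥ p) b - (I0 *ᵥ q) a := by
    simp only [oS, QS2]
    rw [mv_cx, gS_I, dotProduct_single_one, neg_dotProduct, dotProduct_comm,
      Matrix.dotProduct_mulVec, ← Matrix.mulVec_transpose, hI.transpose, Matrix.neg_mulVec,
      dotProduct_single_one]
    simp
  simp only [Pf, sg]
  rw [e1, e2]
  push_cast
  ring

theorem Pf_anti {A I0 : Matrix (Fin (2 * n)) (Fin (2 * n)) ℝ} {η : ℝ}
    {om : Fin 3 → CV n → CV n → CV n → ℝ} (h : Near n A I0 η om) {f : X (2 * n) → X (2 * n)}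
    (hf : ∀ y, ‖f y‖ < 1) (a b : Fin (2 * n)) (y : X (2 * n)) :
    Pf om f a b y = -Pf om f b a y := by
  have hw : cx (f y) y ∈ strip n := cx_mem_strip.2 (hf y)
  have ht := h.hk.triple _ hw
  have e := fun c u v => flat_anti ht c u v
  simp only [Pf, sg]
  rw [e 1, e 2]
  push_cast
  ring

end Pool.Agent.MCL
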