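import Pool.Agent.MCL.Fou
import Pool.Agent.MCL.Fejer

/-!
# MCL/Interp : sup norms and mean squares of periodic Hölder functions

`sup_le_of_mean`: `u y = avg (u y - u)`, `exists_cell` and Hölder continuity. `interp`: if
`|u y₀| > ε` then `|u| > ε / 2` on a ball of radius `r = (ε / (2 K))²` around `y₀`; by `avg_shift`
(translate by `y₀`) `avg u² ≥ (ε / 2)² · vol > 0` with a volume
depending only on `A, K, ε`. `avg_sq_le`: `fej A N q → q` uniformly, `avg ‖fej A N q‖²
= Σ |fw|² |cf|² ≤ B`.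
-/

set_option autoImplicit false

open MeasureTheory Set Filter Topology
open scoped Matrix

namespace Pool.Agent.MCL

variable {d : ℕ}

/-- Two values of a periodic Hölder function are close. -/
private theorem osc_le {A : Matrix (Fin d) (Fin d) ℝ} {R : ℝ}
    (hR : ∀ y : X d, ∃ ν : Fin d → ℤ, ‖y + A *ᵥ fun i => (ν i : ℝ)‖ ≤ R)
    {E : Type*} [NormedAddCommGroup E] {u : X d → E} {K : ℝ} (hK0 : 0 ≤ K)
    (hK : Hol K u) (hint : ∀ (ν : Fin d → ℤ) (y : X d),
      u (y + A *ᵥ fun i => (ν i : ℝ)) = u y) (y z : X d) :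
    ‖u y - u z‖ ≤ √(R + R) * K := by
  obtain ⟨μ, hμ⟩ := hR y
  obtain ⟨ν, hν⟩ := hR z
  rw [← hint μ y, ← hint ν z]
  refine (hK _ _).trans ?_
  rw [mul_comm]
  refine mul_le_mul_of_nonneg_right (Real.sqrt_le_sqrt ?_) hK0
  exact (norm_sub_le _ _).trans (add_le_add hμ hν)

/-- A periodic Hölder function with mean zero is bounded by its Hölder constant. -/
theorem sup_le_of_mean (A : Matrix (Fin d) (Fin d) ℝ) (hA : IsUnit A.det) :
    ∃ C > 0, ∀ (u : X d → ℂ) (K : ℝ), 0 ≤ K → Continuous u → Per A u → Hol K u →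
      avg A u = 0 → ∀ y, ‖u y‖ ≤ C * K := by
  obtain ⟨R, hR0, hR⟩ := exists_cell A hA
  refine ⟨√(R + R), Real.sqrt_pos.2 (by linarith), ?_⟩
  intro u K hK0 hu hp hK h0 y
  have h1 : avg A (fun z => u y - u z) = u y := by
    rw [avg_sub (p := fun _ => u y) (q := u) continuous_const hu, avg_const, h0, sub_zero]
  rw [← h1]
  exact norm_avg_le fun z => osc_le hR hK0 hK (fun ν y => hp.int ν y) y z

/-- The average of a nonnegative function is at least its integral over a small cube. -/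
private theorem avg_ge (A : Matrix (Fin d) (Fin d) ℝ) {v : X d → ℝ} (hv : Continuous v)
    (hv0 : ∀ y, 0 ≤ v y) {t c : ℝ} (ht : 0 ≤ t) (ht1 : t ≤ 1)
    (h : ∀ s ∈ Set.Icc (0 : X d) (fun _ => t), c ≤ v (A *ᵥ s)) :
    c * t ^ d ≤ avg A v := by
  have hc : Continuous fun s : X d => v (A *ᵥ s) := by
    refine hv.comp ?_
    exact (Matrix.mulVecLin A).continuous_of_finiteDimensional
  have hsub : Set.Icc (0 : X d) (fun _ => t) ⊆ cube d := by
    intro s hs
    refine ⟨hs.1, fun i => (hs.2 i).trans ?_⟩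
    simpa using ht1
  have hvol : (volume (Set.Icc (0 : X d) (fun _ => t))).toReal = t ^ d := by
    rw [Real.volume_Icc_pi_toReal (by intro i; simpa using ht)]
    simp
  have hint : IntegrableOn (fun s : X d => v (A *ᵥ s)) (cube d) :=
    hc.continuousOn.integrableOn_compact isCompact_Icc
  have h1 : ∫ s in Set.Icc (0 : X d) (fun _ => t), v (A *ᵥ s) ≤ avg A v := by
    refine setIntegral_mono_set hint ?_ (Filter.Eventually.of_forall hsub)
    exact Filter.Eventually.of_forall fun s => hv0 _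
  refine le_trans ?_ h1
  have h2 : ∫ _s in Set.Icc (0 : X d) (fun _ => t), c = c * t ^ d := by
    rw [setIntegral_const, smul_eq_mul, measureReal_def, hvol, mul_comm]
  rw [← h2]
  refine setIntegral_mono_on ?_ (hint.mono_set hsub) measurableSet_Icc h
  exact integrableOn_const (by exact isCompact_Icc.measure_lt_top.ne)

/-- Hölder functions with small mean square are small. -/
theorem interp (A : Matrix (Fin d) (Fin d) ℝ) (hA : IsUnit A.det) (K : ℝ) {ε : ℝ}
    (hε : 0 < ε) :
    ∃ δ > 0, ∀ u : X d → ℝ, Continuous u → Per A u → Hol K u →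
      avg A (fun y => u y ^ 2) ≤ δ → ∀ y, |u y| ≤ ε := by
  -- the radius
  set K' : ℝ := |K| + 1 with hK'
  have hK'0 : 0 < K' := by positivity
  set r : ℝ := (ε / (2 * K')) ^ 2 with hr
  have hr0 : 0 < r := by positivity
  have hsr : K' * √r = ε / 2 := by
    rw [hr, Real.sqrt_sq (by positivity)]
    field_simp
  -- a small cube
  have hcA : Continuous fun s : X d => A *ᵥ s :=
    (Matrix.mulVecLin A).continuous_of_finiteDimensional
  obtain ⟨η, hη0, hη⟩ : ∃ η > 0, ∀ s : X d, ‖s‖ < η → ‖A *ᵥ s‖ < r := by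
    have h := Metric.continuousAt_iff.1 (hcA.continuousAt (x := 0)) r hr0
    obtain ⟨η, hη0, h⟩ := h
    refine ⟨η, hη0, fun s hs => ?_⟩
    have := h (x := s) (by simpa using hs)
    simpa using this
  set t : ℝ := min 1 (η / 2) with ht
  have ht0 : 0 < t := by
    rw [ht]; positivity
  have ht1 : t ≤ 1 := min_le_left _ _
  have htη : t < η := lt_of_le_of_lt (min_le_right _ _) (by linarith)
  refine ⟨(ε / 2) ^ 2 * t ^ d / 2, by positivity, ?_⟩
  intro u hu hp hK h y
  by_contra hy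
  push Not at hy
  -- translate
  have hsh : avg A (fun z => u (z + y) ^ 2) = avg A (fun z => u z ^ 2) :=
    avg_shift hA (q := fun z => u z ^ 2) (hu.pow 2)
      (fun j z => by
        show u (z + fun i => A i j) ^ 2 = u z ^ 2
        rw [hp j z]) y
  have hge : (ε / 2) ^ 2 * t ^ d ≤ avg A (fun z => u (z + y) ^ 2) := by
    refine avg_ge A ?_ (fun z => by positivity) ht0.le ht1 ?_
    · exact ((hu.comp (continuous_id.add continuous_const)).pow 2)
    · intro s hs
      have hsn : ‖s‖ ≤ t := by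
        rw [pi_norm_le_iff_of_nonneg ht0.le]
        intro i
        rw [Real.norm_eq_abs, abs_of_nonneg (hs.1 i)]
        exact hs.2 i
      have h1 : ‖A *ᵥ s‖ < r := hη s (lt_of_le_of_lt hsn htη)
      have h2 : ‖u (A *ᵥ s + y) - u y‖ ≤ ε / 2 := by
        refine (hK _ _).trans ?_
        rw [add_sub_cancel_right, ← hsr]
        refine mul_le_mul ?_ (Real.sqrt_le_sqrt h1.le) (Real.sqrt_nonneg _) hK'0.le
        rw [hK']
        linarith [le_abs_self K]
      have h3 : ε / 2 ≤ |u (A *ᵥ s + y)| := by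
        rw [Real.norm_eq_abs] at h2
        have h4 : |u y| - |u (A *ᵥ s + y)| ≤ |u (A *ᵥ s + y) - u y| := by
          rw [abs_sub_comm]
          exact abs_sub_abs_le_abs_sub _ _
        linarith
      calc (ε / 2) ^ 2 ≤ |u (A *ᵥ s + y)| ^ 2 := by gcongr
        _ = u (A *ᵥ s + y) ^ 2 := sq_abs _
  rw [hsh] at hge
  have hpos : 0 < (ε / 2) ^ 2 * t ^ d := by positivity
  linarith

/-- Parseval's inequality for Hölder functions. -/
theorem avg_sq_le (A : Matrix (Fin d) (Fin d) ℝ) (hA : IsUnit A.det) {q : X d → ℂ}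
    (hq : Continuous q) (hp : Per A q) {K : ℝ} (hK : Hol K q) {B : ℝ}
    (h : ∀ S : Finset (Fin d → ℤ), ∑ ν ∈ S, ‖cf A q ν‖ ^ 2 ≤ B) :
    avg A (fun y => ‖q y‖ ^ 2) ≤ B := by
  -- the function is bounded
  obtain ⟨R, hR0, hR⟩ := exists_cell A hA
  have hK' : Hol (|K|) q := fun y z =>
    (hK y z).trans (mul_le_mul_of_nonneg_right (le_abs_self K) (Real.sqrt_nonneg _))
  set M : ℝ := ‖q 0‖ + √(R + R) * |K| with hM
  have hM0 : 0 ≤ M := by positivity
  have hb : ∀ y, ‖q y‖ ≤ M := by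
    intro y
    have h1 := osc_le hR (abs_nonneg K) hK' (fun ν y => hp.int ν y) y 0
    have h2 : ‖q y‖ ≤ ‖q 0‖ + ‖q y - q 0‖ := by
      have := norm_add_le (q 0) (q y - q 0)
      rwa [add_sub_cancel] at this
    rw [hM]
    linarith
  have hcont : ∀ N, Continuous (fej A N q) := fun N => (tp_contDiff _ _).continuous
  -- the averages of the Fejér means
  have hle : ∀ N, avg A (fun y => ‖fej A N q y‖ ^ 2) ≤ B := by
    intro N
    have h1 : avg A (fun y => ‖fej A N q y‖ ^ 2)
        = ∑ ν ∈ box d N, ‖(fw N ν : ℂ) * cf A q ν‖ ^ 2 := avg_sq_tp hA _ _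
    rw [h1]
    refine le_trans (Finset.sum_le_sum fun ν _ => ?_) (h (box d N))
    rw [norm_mul, mul_pow]
    have h0 : 0 ≤ fw N ν := Finset.prod_nonneg fun j _ => le_max_left _ _
    have h2 : fw N ν ≤ 1 := by
      refine Finset.prod_le_one (fun j _ => le_max_left _ _) fun j _ => ?_
      refine max_le zero_le_one ?_
      have : 0 ≤ |(ν j : ℝ)| / N := by positivity
      linarith
    have h3 : ‖(fw N ν : ℂ)‖ ^ 2 ≤ 1 := by
      rw [Complex.norm_real, Real.norm_eq_abs, abs_of_nonneg h0]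
      exact pow_le_one₀ h0 h2
    have h4 : 0 ≤ ‖cf A q ν‖ ^ 2 := by positivity
    nlinarith
  -- the limit
  have hlim : Tendsto (fun N => avg A (fun y => ‖fej A N q y‖ ^ 2)) atTop
      (𝓝 (avg A (fun y => ‖q y‖ ^ 2))) := by
    refine avg_tendsto (fun N => (hcont N).norm.pow 2) (hq.norm.pow 2) ?_
    intro ε hε
    have hD : 0 < M + M + 1 := by linarith
    obtain ⟨N0, hN0⟩ := fej_approx A hA K (ε := min 1 (ε / (M + M + 1)))
      (lt_min one_pos (div_pos hε hD))
    filter_upwards [eventually_ge_atTop N0] with N hN y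
    have h1 := hN0 N hN q hq hp hK y
    have h2 : ‖fej A N q y - q y‖ ≤ 1 := h1.trans (min_le_left _ _)
    have h3 : ‖fej A N q y - q y‖ ≤ ε / (M + M + 1) := h1.trans (min_le_right _ _)
    have h4 : ‖fej A N q y‖ ≤ M + 1 := by
      have := norm_add_le (q y) (fej A N q y - q y)
      rw [add_sub_cancel] at this
      linarith [hb y]
    have h5 : |‖fej A N q y‖ - ‖q y‖| ≤ ‖fej A N q y - q y‖ := abs_norm_sub_norm_le _ _
    have h6 : ‖fej A N q y‖ ^ 2 - ‖q y‖ ^ 2
        = (‖fej A N q y‖ - ‖q y‖) * (‖fej A N q y‖ + ‖q y‖) := by ring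
    rw [Real.norm_eq_abs, h6, abs_mul, abs_of_nonneg (a := ‖fej A N q y‖ + ‖q y‖) (by positivity)]
    calc |‖fej A N q y‖ - ‖q y‖| * (‖fej A N q y‖ + ‖q y‖)
        ≤ ε / (M + M + 1) * (M + M + 1) := by
          refine mul_le_mul (h5.trans h3) ?_ (by positivity) (by positivity)
          linarith [hb y]
      _ = ε := div_mul_cancel₀ _ hD.ne'
  exact le_of_tendsto' hlim hle

end Pool.Agent.MCL
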