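import Pool.Agent.MCL.Step
import Pool.Agent.MCL.Fou

/-!
# MCL/SchauD : the `L²`-estimate for the difference of two steps

Write both sums on the larger box (`fw N ν = 0` outside `box d N`), use `avg_sq_tp`, the bounds
`|nf_l|² ≤ 1 / |k|² ≤ 1 / c` (`fr_low`), `|k_i nf_l| ≤ 1`, `|Re z| ≤ |z|`, and that the norms of
`X d` and of continuous linear maps are bounded by the sums over the components.
-/

set_option autoImplicit false

open MeasureTheory Set Filter Topology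
open scoped Matrix

namespace Pool.Agent.MCL

variable {d : ℕ}

private theorem fw_zero {N : ℕ} (hN : 0 < N) {ν : Fin d → ℤ} (h : ν ∉ box d N) :
    fw N ν = 0 := by
  simp only [box, Fintype.mem_piFinset, Finset.mem_Icc, not_forall] at h
  obtain ⟨j, hj⟩ := h
  refine Finset.prod_eq_zero (Finset.mem_univ j) ?_
  rw [max_eq_left]
  have h1 : (N : ℤ) ≤ |ν j| := by
    by_contra hc
    push Not at hc
    rw [abs_lt] at hc
    exact hj ⟨hc.1.le, hc.2.le⟩
  have h2 : (N : ℝ) ≤ |(ν j : ℝ)| := by exact_mod_cast h1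
  have hN' : (0 : ℝ) < N := by exact_mod_cast hN
  rw [sub_nonpos, one_le_div hN']
  exact h2

private theorem box_mono {M N : ℕ} (h : M ≤ N) : box d M ⊆ box d N := by
  intro ν hν
  simp only [box, Fintype.mem_piFinset, Finset.mem_Icc] at hν ⊢
  intro j
  have := hν j
  have h' : (M : ℤ) ≤ N := by exact_mod_cast h
  exact ⟨by omega, by omega⟩

private theorem tp_ext (A : Matrix (Fin d) (Fin d) ℝ) {S T : Finset (Fin d → ℤ)} (h : S ⊆ T)
    {c : (Fin d → ℤ) → ℂ} (hc : ∀ ν, ν ∉ S → c ν = 0) (y : X d) : tp A S c y = tp A T c y := by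
  rw [tp, tp]
  refine Finset.sum_subset h fun ν _ hν => ?_
  rw [hc ν hν, zero_mul]

private theorem tp_sub (A : Matrix (Fin d) (Fin d) ℝ) (S : Finset (Fin d → ℤ))
    (c c' : (Fin d → ℤ) → ℂ) (y : X d) :
    tp A S (fun ν => c ν - c' ν) y = tp A S c y - tp A S c' y := by
  rw [tp, tp, tp, ← Finset.sum_sub_distrib]
  refine Finset.sum_congr rfl fun ν _ => ?_
  ring

private theorem zc_sub (A I0 : Matrix (Fin d) (Fin d) ℝ) (c c' : Fin d → Fin d → (Fin d → ℤ) → ℂ)
    (j : Fin d) (ν : Fin d → ℤ) :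
    zc A I0 (fun a b ν => c a b ν - c' a b ν) j ν = zc A I0 c j ν - zc A I0 c' j ν := by
  rw [zc, zc, zc, ← mul_sub, ← Finset.sum_sub_distrib]
  congr 1
  refine Finset.sum_congr rfl fun l _ => ?_
  rw [← Finset.sum_sub_distrib]
  refine Finset.sum_congr rfl fun a _ => ?_
  rw [← Finset.sum_sub_distrib]
  refine Finset.sum_congr rfl fun b _ => ?_
  ring

private theorem zc_zero (A I0 : Matrix (Fin d) (Fin d) ℝ) {c : Fin d → Fin d → (Fin d → ℤ) → ℂ}
    {ν : Fin d → ℤ} (h : ∀ a b, c a b ν = 0) (j : Fin d) : zc A I0 c j ν = 0 := by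
  rw [zc]
  simp only [h, mul_zero, Finset.sum_const_zero]

private theorem norm_sq_pi (v : X d) : ‖v‖ ^ 2 ≤ ∑ j, |v j| ^ 2 := by
  have h : ‖v‖ ≤ √(∑ j, |v j| ^ 2) := by
    refine (pi_norm_le_iff_of_nonneg (Real.sqrt_nonneg _)).2 fun j => ?_
    rw [Real.norm_eq_abs]
    refine Real.le_sqrt_of_sq_le ?_
    exact Finset.single_le_sum (f := fun j => |v j| ^ 2) (fun i _ => by positivity)
      (Finset.mem_univ j)
  calc ‖v‖ ^ 2 ≤ (√(∑ j, |v j| ^ 2)) ^ 2 := by gcongr
    _ = ∑ j, |v j| ^ 2 := Real.sq_sqrt (Finset.sum_nonneg fun i _ => by positivity)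

private theorem norm_sq_clm (T : X d →L[ℝ] X d) :
    ‖T‖ ^ 2 ≤ d * ∑ i, ∑ j, |T (Pi.single i 1) j| ^ 2 := by
  have h : ‖T‖ ≤ ∑ i, ‖T (Pi.single i 1)‖ := by
    refine T.opNorm_le_bound (Finset.sum_nonneg fun i _ => norm_nonneg _) fun v => ?_
    have e : v = ∑ i, v i • (Pi.single i 1 : X d) := by
      ext k
      rw [Finset.sum_apply]
      simp [Pi.single_apply]
    conv_lhs => rw [e, map_sum]
    refine (norm_sum_le _ _).trans ?_
    rw [Finset.sum_mul]
    refine Finset.sum_le_sum fun i _ => ?_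
    rw [map_smul, norm_smul, mul_comm]
    exact mul_le_mul_of_nonneg_left (norm_le_pi_norm v i) (norm_nonneg _)
  calc ‖T‖ ^ 2 ≤ (∑ i, ‖T (Pi.single i 1)‖) ^ 2 := by gcongr
    _ ≤ (Finset.univ : Finset (Fin d)).card * ∑ i, ‖T (Pi.single i 1)‖ ^ 2 :=
      sq_sum_le_card_mul_sum_sq
    _ = d * ∑ i, ‖T (Pi.single i 1)‖ ^ 2 := by rw [Finset.card_univ, Fintype.card_fin]
    _ ≤ d * ∑ i, ∑ j, |T (Pi.single i 1) j| ^ 2 := by
      refine mul_le_mul_of_nonneg_left ?_ (by positivity)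
      exact Finset.sum_le_sum fun i _ => norm_sq_pi _

private theorem comp_sq (k : X d) (i : Fin d) : k i ^ 2 ≤ sq k := by
  rw [sq, dotProduct]
  refine le_trans (le_of_eq (by ring)) (Finset.single_le_sum (f := fun j => k j * k j)
    (fun i _ => mul_self_nonneg _) (Finset.mem_univ i))

/-- the weighted bound for `zc` -/
private theorem zc_bound (A I0 : Matrix (Fin d) (Fin d) ℝ) {E B : ℝ} (hE : 0 ≤ E)
    (hEp : ∀ l a, ‖Ep I0 l a‖ ≤ E) (hB : 0 ≤ B) (w : ℂ) (ν : Fin d → ℤ)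
    (hw : ∀ l, ‖w * nf A l ν‖ ≤ B) (c : Fin d → Fin d → (Fin d → ℤ) → ℂ) (j : Fin d) :
    ‖w * zc A I0 c j ν‖ ^ 2 ≤ (2 * d * (E * E * B)) ^ 2 * d ^ 2 * ∑ a, ∑ b, ‖c a b ν‖ ^ 2 := by
  have h1 : ‖w * zc A I0 c j ν‖ ≤ 2 * d * (E * E * B) * ∑ a, ∑ b, ‖c a b ν‖ := by
    have e : w * zc A I0 c j ν =
        2 * ∑ l, ∑ a, ∑ b, Ep I0 l a * Ep I0 b j * (w * nf A l ν) * c a b ν := by
      rw [zc, mul_left_comm, Finset.mul_sum]
      congr 1
      refine Finset.sum_congr rfl fun l _ => ?_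
      rw [Finset.mul_sum]
      refine Finset.sum_congr rfl fun a _ => ?_
      rw [Finset.mul_sum]
      refine Finset.sum_congr rfl fun b _ => ?_
      ring
    rw [e, norm_mul, Complex.norm_ofNat]
    have h2 : ‖∑ l, ∑ a, ∑ b, Ep I0 l a * Ep I0 b j * (w * nf A l ν) * c a b ν‖ ≤
        ∑ _l : Fin d, ∑ a, ∑ b, E * E * B * ‖c a b ν‖ := by
      refine (norm_sum_le _ _).trans (Finset.sum_le_sum fun l _ => ?_)
      refine (norm_sum_le _ _).trans (Finset.sum_le_sum fun a _ => ?_)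
      refine (norm_sum_le _ _).trans (Finset.sum_le_sum fun b _ => ?_)
      rw [norm_mul, norm_mul, norm_mul]
      have := hEp l a
      have := hEp b j
      have := hw l
      gcongr
    calc 2 * ‖∑ l, ∑ a, ∑ b, Ep I0 l a * Ep I0 b j * (w * nf A l ν) * c a b ν‖
        ≤ 2 * ∑ _l : Fin d, ∑ a, ∑ b, E * E * B * ‖c a b ν‖ := by gcongr
      _ = 2 * d * (E * E * B) * ∑ a, ∑ b, ‖c a b ν‖ := by
        rw [Finset.sum_const, Finset.card_univ, Fintype.card_fin, nsmul_eq_mul]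
        simp only [← Finset.mul_sum]
        ring
  have h2 : (∑ a, ∑ b, ‖c a b ν‖) ^ 2 ≤ (d : ℝ) ^ 2 * ∑ a, ∑ b, ‖c a b ν‖ ^ 2 := by
    calc (∑ a, ∑ b, ‖c a b ν‖) ^ 2
        ≤ (Finset.univ : Finset (Fin d)).card * ∑ a, (∑ b, ‖c a b ν‖) ^ 2 :=
          sq_sum_le_card_mul_sum_sq
      _ ≤ (Finset.univ : Finset (Fin d)).card *
          ∑ a, ((Finset.univ : Finset (Fin d)).card * ∑ b, ‖c a b ν‖ ^ 2) := by
          refine mul_le_mul_of_nonneg_left ?_ (by positivity)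
          exact Finset.sum_le_sum fun a _ => sq_sum_le_card_mul_sum_sq
      _ = (d : ℝ) ^ 2 * ∑ a, ∑ b, ‖c a b ν‖ ^ 2 := by
          rw [Finset.card_univ, Fintype.card_fin, ← Finset.mul_sum]; ring
  calc ‖w * zc A I0 c j ν‖ ^ 2 ≤ (2 * d * (E * E * B) * ∑ a, ∑ b, ‖c a b ν‖) ^ 2 := by gcongr
    _ = (2 * d * (E * E * B)) ^ 2 * (∑ a, ∑ b, ‖c a b ν‖) ^ 2 := by ring
    _ ≤ (2 * d * (E * E * B)) ^ 2 * ((d : ℝ) ^ 2 * ∑ a, ∑ b, ‖c a b ν‖ ^ 2) := by gcongr
    _ = _ := by ring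

/-- The `L²`-estimate for the difference of two steps. -/
theorem stp_diff (A I0 : Matrix (Fin d) (Fin d) ℝ) (hA : IsUnit A.det) :
    ∃ C > 0, ∀ (M N : ℕ) (Q R : Fin d → Fin d → X d → ℂ), 0 < M → 0 < N →
      (∀ a b, Continuous (Q a b)) → (∀ a b, Continuous (R a b)) →
      avg A (fun y => ‖stp A I0 M Q y - stp A I0 N R y‖ ^ 2) +
        avg A (fun y => ‖fderiv ℝ (stp A I0 M Q) y - fderiv ℝ (stp A I0 N R) y‖ ^ 2) ≤
      C * ∑ a, ∑ b, avg A (fun y => ‖fej A M (Q a b) y - fej A N (R a b) y‖ ^ 2) := by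
  classical
  obtain ⟨c0, hc0, hlow⟩ := fr_low A hA
  -- bounds
  let E : ℝ := ∑ l, ∑ a, ‖Ep I0 l a‖
  have hE : 0 ≤ E := Finset.sum_nonneg fun l _ => Finset.sum_nonneg fun a _ => norm_nonneg _
  have hEp : ∀ l a, ‖Ep I0 l a‖ ≤ E := by
    intro l a
    calc ‖Ep I0 l a‖ ≤ ∑ a, ‖Ep I0 l a‖ :=
          Finset.single_le_sum (f := fun a => ‖Ep I0 l a‖) (fun _ _ => norm_nonneg _)
            (Finset.mem_univ a)
      _ ≤ E := Finset.single_le_sum (f := fun l => ∑ a, ‖Ep I0 l a‖)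
            (fun _ _ => Finset.sum_nonneg fun a _ => norm_nonneg _) (Finset.mem_univ l)
  have hnorm : ∀ (l : Fin d) (ν : Fin d → ℤ), ‖nf A l ν‖ = |fr A ν l| / sq (fr A ν) := by
    intro l ν
    rw [nf, norm_mul, Complex.norm_I, one_mul, Complex.norm_real, Real.norm_eq_abs, abs_div,
      abs_of_nonneg (sq_nonneg (fr A ν))]
  let B : ℝ := √(1 / c0)
  have hB : 0 ≤ B := Real.sqrt_nonneg _
  have hnf : ∀ (l : Fin d) (ν : Fin d → ℤ), ‖(1 : ℂ) * nf A l ν‖ ≤ B := by
    intro l ν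
    rw [one_mul, hnorm]
    by_cases hν : ν = 0
    · rw [hν, fr_zero]; simp [B]
    · have h1 := hlow ν hν
      have h2 := comp_sq (fr A ν) l
      have h3 : 0 < sq (fr A ν) := hc0.trans_le h1
      refine Real.le_sqrt_of_sq_le ?_
      rw [div_pow, sq_abs, div_le_div_iff₀ (by positivity) hc0]
      calc fr A ν l ^ 2 * c0 ≤ sq (fr A ν) * sq (fr A ν) := by gcongr
        _ = 1 * sq (fr A ν) ^ 2 := by ring
  have hnf' : ∀ (i l : Fin d) (ν : Fin d → ℤ),
      ‖(Complex.I * (fr A ν i : ℂ)) * nf A l ν‖ ≤ 1 := by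
    intro i l ν
    rw [norm_mul, norm_mul, Complex.norm_I, one_mul, Complex.norm_real, Real.norm_eq_abs, hnorm]
    have h1 := comp_sq (fr A ν) i
    have h2 := comp_sq (fr A ν) l
    rcases (sq_nonneg (fr A ν)).eq_or_lt with h3 | h3
    · rw [← h3]; simp
    · rw [← mul_div_assoc, div_le_one h3]
      have h4 : (|fr A ν i| * |fr A ν l|) ^ 2 ≤ sq (fr A ν) ^ 2 := by
        rw [mul_pow, sq_abs, sq_abs]
        calc fr A ν i ^ 2 * fr A ν l ^ 2 ≤ sq (fr A ν) * sq (fr A ν) := by gcongr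
          _ = sq (fr A ν) ^ 2 := by ring
      exact le_of_sq_le_sq h4 h3.le
  let K1 : ℝ := (2 * d * (E * E * B)) ^ 2 * d ^ 2
  let K2 : ℝ := (2 * d * (E * E * 1)) ^ 2 * d ^ 2
  have hK1 : 0 ≤ K1 := by positivity
  have hK2 : 0 ≤ K2 := by positivity
  refine ⟨d * K1 + d * (d * (d * K2)) + 1, by positivity, ?_⟩
  intro M N Q R hM hN _ _
  let S := box d (max M N)
  have hSM : box d M ⊆ S := box_mono (le_max_left _ _)
  have hSN : box d N ⊆ S := box_mono (le_max_right _ _)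
  let cM : Fin d → Fin d → (Fin d → ℤ) → ℂ := fun a b ν => (fw M ν : ℂ) * cf A (Q a b) ν
  let cN : Fin d → Fin d → (Fin d → ℤ) → ℂ := fun a b ν => (fw N ν : ℂ) * cf A (R a b) ν
  let c : Fin d → Fin d → (Fin d → ℤ) → ℂ := fun a b ν => cM a b ν - cN a b ν
  have hcM : ∀ ν, ν ∉ box d M → ∀ a b, cM a b ν = 0 := by
    intro ν hν a b
    show (fw M ν : ℂ) * cf A (Q a b) ν = 0
    rw [fw_zero hM hν]; simp
  have hcN : ∀ ν, ν ∉ box d N → ∀ a b, cN a b ν = 0 := by
    intro ν hν a b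
    show (fw N ν : ℂ) * cf A (R a b) ν = 0
    rw [fw_zero hN hν]; simp
  let Z : Fin d → X d → ℂ := fun j => tp A S (zc A I0 c j)
  have hM1 : ∀ y j, stp A I0 M Q y j = (tp A S (zc A I0 cM j) y).re := by
    intro y j
    show (tp A (box d M) (zc A I0 cM j) y).re = _
    rw [tp_ext A hSM (fun ν hν => zc_zero A I0 (hcM ν hν) j)]
  have hN1 : ∀ y j, stp A I0 N R y j = (tp A S (zc A I0 cN j) y).re := by
    intro y j
    show (tp A (box d N) (zc A I0 cN j) y).re = _
    rw [tp_ext A hSN (fun ν hν => zc_zero A I0 (hcN ν hν) j)]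
  have hZ : ∀ y j, Z j y = tp A S (zc A I0 cM j) y - tp A S (zc A I0 cN j) y := by
    intro y j
    rw [← tp_sub]
    show tp A S (zc A I0 c j) y = _
    congr 1
    ext ν
    exact zc_sub A I0 cM cN j ν
  have hF : ∀ y j, (stp A I0 M Q y - stp A I0 N R y) j = (Z j y).re := by
    intro y j
    rw [Pi.sub_apply, hM1, hN1, hZ, Complex.sub_re]
  have hZd : ∀ j, ContDiff ℝ (⊤ : ℕ∞) (Z j) := fun j => tp_contDiff _ _
  -- Parseval for the right side
  have hR : ∀ a b, avg A (fun y => ‖fej A M (Q a b) y - fej A N (R a b) y‖ ^ 2) =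
      ∑ ν ∈ S, ‖c a b ν‖ ^ 2 := by
    intro a b
    rw [← avg_sq_tp hA]
    congr 1
    ext y
    have e1 : fej A M (Q a b) y = tp A S (cM a b) y :=
      tp_ext A hSM (c := cM a b) (fun ν hν => hcM ν hν a b) y
    have e2 : fej A N (R a b) y = tp A S (cN a b) y :=
      tp_ext A hSN (c := cN a b) (fun ν hν => hcN ν hν a b) y
    rw [e1, e2, ← tp_sub]
  have hZs : ∀ (w : (Fin d → ℤ) → ℂ) (K : ℝ),
      (∀ j ν, ‖w ν * zc A I0 c j ν‖ ^ 2 ≤ K * ∑ a, ∑ b, ‖c a b ν‖ ^ 2) → ∀ j,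
      avg A (fun y => ‖tp A S (fun ν => w ν * zc A I0 c j ν) y‖ ^ 2) ≤
        K * ∑ a, ∑ b, avg A (fun y => ‖fej A M (Q a b) y - fej A N (R a b) y‖ ^ 2) := by
    intro w K hK j
    rw [avg_sq_tp hA]
    calc ∑ ν ∈ S, ‖w ν * zc A I0 c j ν‖ ^ 2 ≤ ∑ ν ∈ S, K * ∑ a, ∑ b, ‖c a b ν‖ ^ 2 :=
          Finset.sum_le_sum fun ν _ => hK j ν
      _ = K * ∑ a, ∑ b, avg A (fun y => ‖fej A M (Q a b) y - fej A N (R a b) y‖ ^ 2) := by
          rw [← Finset.mul_sum, Finset.sum_comm]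
          congr 1
          refine Finset.sum_congr rfl fun a _ => ?_
          rw [Finset.sum_comm]
          exact Finset.sum_congr rfl fun b _ => (hR a b).symm
  set T := ∑ a, ∑ b, avg A (fun y => ‖fej A M (Q a b) y - fej A N (R a b) y‖ ^ 2) with hT
  have hT0 : 0 ≤ T := Finset.sum_nonneg fun a _ => Finset.sum_nonneg fun b _ =>
    avg_nonneg fun y => by positivity
  have hcont : ∀ (c' : (Fin d → ℤ) → ℂ), Continuous (fun y => ‖tp A S c' y‖ ^ 2) := fun c' =>
    ((tp_contDiff S c').continuous.norm).pow 2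
  have hsM : ContDiff ℝ (⊤ : ℕ∞) (stp A I0 M Q) := by
    refine contDiff_pi.2 fun j => ?_
    exact Complex.reCLM.contDiff.comp (tp_contDiff _ _)
  have hsN : ContDiff ℝ (⊤ : ℕ∞) (stp A I0 N R) := by
    refine contDiff_pi.2 fun j => ?_
    exact Complex.reCLM.contDiff.comp (tp_contDiff _ _)
  -- first part
  have p1 : avg A (fun y => ‖stp A I0 M Q y - stp A I0 N R y‖ ^ 2) ≤ d * K1 * T := by
    calc avg A (fun y => ‖stp A I0 M Q y - stp A I0 N R y‖ ^ 2)
        ≤ avg A (fun y => ∑ j, ‖tp A S (fun ν => 1 * zc A I0 c j ν) y‖ ^ 2) := by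
          refine avg_mono ?_ ?_ fun y => ?_
          · exact ((hsM.continuous.sub hsN.continuous).norm).pow 2
          · exact continuous_finset_sum _ fun j _ => hcont _
          · refine (norm_sq_pi _).trans (Finset.sum_le_sum fun j _ => ?_)
            rw [hF]
            have e : tp A S (fun ν => 1 * zc A I0 c j ν) y = Z j y := by
              simp only [one_mul]; rfl
            rw [e]
            gcongr
            exact Complex.abs_re_le_norm _
      _ = ∑ j, avg A (fun y => ‖tp A S (fun ν => 1 * zc A I0 c j ν) y‖ ^ 2) :=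
          avg_finset_sum _ fun j _ => hcont _
      _ ≤ ∑ _j : Fin d, K1 * T := Finset.sum_le_sum fun j _ =>
          hZs (fun _ => 1) K1 (fun j ν => zc_bound A I0 hE hEp hB 1 ν (fun l => hnf l ν) c j) j
      _ = d * K1 * T := by
          rw [Finset.sum_const, Finset.card_univ, Fintype.card_fin, nsmul_eq_mul]; ring
  -- second part
  have hder : ∀ y i j, (fderiv ℝ (stp A I0 M Q) y - fderiv ℝ (stp A I0 N R) y)
      (Pi.single i 1) j =
      (tp A S (fun ν => (Complex.I * (fr A ν i : ℂ)) * zc A I0 c j ν) y).re := by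
    intro y i j
    have e1 : fderiv ℝ (stp A I0 M Q) y - fderiv ℝ (stp A I0 N R) y =
        fderiv ℝ (fun y => stp A I0 M Q y - stp A I0 N R y) y :=
      (fderiv_fun_sub ((hsM.differentiable (by simp)) y) ((hsN.differentiable (by simp)) y)).symm
    have e2 : (fun y => stp A I0 M Q y - stp A I0 N R y) = fun y j => (Z j y).re := by
      ext y j; exact hF y j
    have e3 : HasFDerivAt (fun y (j : Fin d) => (Z j y).re)
        (ContinuousLinearMap.pi fun j => Complex.reCLM.comp (fderiv ℝ (Z j) y)) y :=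
      hasFDerivAt_pi.2 fun j =>
        Complex.reCLM.hasFDerivAt.comp y ((hZd j).differentiable (by simp) y).hasFDerivAt
    rw [e1, e2, e3.fderiv]
    show (fderiv ℝ (Z j) y (Pi.single i 1)).re = _
    congr 1
    exact pd_tp S _ i y
  have p2 : avg A (fun y => ‖fderiv ℝ (stp A I0 M Q) y - fderiv ℝ (stp A I0 N R) y‖ ^ 2) ≤
      d * (d * (d * K2)) * T := by
    calc avg A (fun y => ‖fderiv ℝ (stp A I0 M Q) y - fderiv ℝ (stp A I0 N R) y‖ ^ 2)
        ≤ avg A (fun y => (d : ℝ) * ∑ i, ∑ j,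
            ‖tp A S (fun ν => (Complex.I * (fr A ν i : ℂ)) * zc A I0 c j ν) y‖ ^ 2) := by
          refine avg_mono ?_ ?_ fun y => ?_
          · exact (((hsM.continuous_fderiv (by simp)).sub
              (hsN.continuous_fderiv (by simp))).norm).pow 2
          · exact continuous_const.mul (continuous_finset_sum _ fun i _ =>
              continuous_finset_sum _ fun j _ => hcont _)
          · refine (norm_sq_clm _).trans ?_
            refine mul_le_mul_of_nonneg_left ?_ (by positivity)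
            refine Finset.sum_le_sum fun i _ => Finset.sum_le_sum fun j _ => ?_
            rw [hder]
            gcongr
            exact Complex.abs_re_le_norm _
      _ = (d : ℝ) * ∑ i, ∑ j, avg A (fun y =>
            ‖tp A S (fun ν => (Complex.I * (fr A ν i : ℂ)) * zc A I0 c j ν) y‖ ^ 2) := by
          rw [avg_mul_left_real, avg_finset_sum _ fun i _ =>
            continuous_finset_sum _ fun j _ => hcont _]
          congr 1
          exact Finset.sum_congr rfl fun i _ => avg_finset_sum _ fun j _ => hcont _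
      _ ≤ (d : ℝ) * ∑ _i : Fin d, ∑ _j : Fin d, K2 * T := by
          refine mul_le_mul_of_nonneg_left ?_ (by positivity)
          refine Finset.sum_le_sum fun i _ => Finset.sum_le_sum fun j _ => ?_
          exact hZs (fun ν => Complex.I * (fr A ν i : ℂ)) K2 (fun j ν =>
            zc_bound A I0 hE hEp zero_le_one _ ν (fun l => hnf' i l ν) c j) j
      _ = d * (d * (d * K2)) * T := by
          simp only [Finset.sum_const, Finset.card_univ, Fintype.card_fin, nsmul_eq_mul]; ring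
  calc _ ≤ d * K1 * T + d * (d * (d * K2)) * T := add_le_add p1 p2
    _ ≤ (d * K1 + d * (d * (d * K2)) + 1) * T := by nlinarith

end Pool.Agent.MCL
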