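import Pool.Agent.MCL.Schau
import Pool.Agent.MCL.SchauD

/-!
# MCL/Iter : solution of the fixed point equation

`u 0 = 0`, `u (p+1) = stp A I0 (p+1) (Qn (u p))`; all `u p` are in `InK A δ` (`stp_inK`, monotone in
`δ`). With `D(f, g)² = avg ‖f - g‖² + avg ‖Df - Dg‖²` and the error
`e_p = sup ‖fej (p+1) q - q‖ → 0` over the Hölder class (`fej_approx`), `stp_diff` and the second
hypothesis give `D(u (p+1), u (q+1)) ≤ D(u p, u q) / 2 + C (e_p + e_q)`, and `D ≤ B` always, so `u`
is Cauchy for `D`. By `interp` (the components of `u p - u q` and of its derivative are Hölder with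
constant `2 δ` times a constant; use `exists_cell` for `u` itself) `u` is Cauchy in `C¹`; the limit
`f` is `C¹` with the limit derivative (`hasFDerivAt_of_tendstoUniformly`) and lies in `InK A δ`.
Pass to the limit in `cf_zeta_stp` (`cf_tendsto`, `fw (p+1) ν → 1`).
-/

set_option autoImplicit false

open MeasureTheory Set Filter Topology
open scoped Matrix

namespace Pool.Agent.MCL

variable {d : ℕ}

namespace Iter

/-- The squared distance of `f` and `g` in the Sobolev space `H¹`. -/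
private noncomputable def dd (A : Matrix (Fin d) (Fin d) ℝ) (f g : X d → X d) : ℝ :=
  avg A (fun y => ‖f y - g y‖ ^ 2) + avg A (fun y => ‖fderiv ℝ f y - fderiv ℝ g y‖ ^ 2)

private theorem inK_mono {A : Matrix (Fin d) (Fin d) ℝ} {δ δ' : ℝ} (h : δ ≤ δ')
    {f : X d → X d} (hf : InK A δ f) : InK A δ' f where
  smooth := hf.smooth
  per := hf.per
  val y := (hf.val y).trans h
  der y := (hf.der y).trans h
  hol y z := (hf.hol y z).trans (mul_le_mul_of_nonneg_right h (Real.sqrt_nonneg _))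

private theorem inK_zero (A : Matrix (Fin d) (Fin d) ℝ) {δ : ℝ} (hδ : 0 < δ) :
    InK A δ (fun _ => (0 : X d)) where
  smooth := contDiff_const
  per _ _ := rfl
  val _ := by simpa using hδ.le
  der _ := by simpa using hδ.le
  hol _ _ := by
    simp only [fderiv_fun_const, Pi.zero_apply, sub_self, norm_zero]
    positivity

/-- A sequence that is asymptotically contracted is Cauchy. -/
private theorem contract {E : ℕ → ℕ → ℝ} {B : ℝ} (hB : ∀ p q, E p q ≤ B)
    (h : ∀ η > 0, ∃ N, ∀ p ≥ N, ∀ q ≥ N, E (p + 1) (q + 1) ≤ E p q / 2 + η) :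
    ∀ ε > 0, ∃ N, ∀ p ≥ N, ∀ q ≥ N, E p q ≤ ε := by
  intro ε hε
  obtain ⟨N, hN⟩ := h (ε / 4) (by positivity)
  have key : ∀ k p q, N ≤ p → N ≤ q → E (p + k) (q + k) ≤ |B| / 2 ^ k + ε / 2 := by
    intro k
    induction k with
    | zero =>
      intro p q _ _
      have h1 := hB p q
      have h2 := le_abs_self B
      simp only [add_zero, pow_zero, div_one]
      linarith
    | succ k ih =>
      intro p q hp hq
      have h1 := hN (p + k) (by omega) (q + k) (by omega)
      have h2 := ih p q hp hq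
      have h3 : |B| / 2 ^ (k + 1) = |B| / 2 ^ k / 2 := by
        rw [pow_succ, div_div]
      rw [h3, ← add_assoc, ← add_assoc]
      linarith
  obtain ⟨k, hk⟩ := pow_unbounded_of_one_lt (|B| / (ε / 2)) (one_lt_two : (1 : ℝ) < 2)
  refine ⟨N + k, fun p hp q hq => ?_⟩
  have h1 := key k (p - k) (q - k) (by omega) (by omega)
  rw [Nat.sub_add_cancel (by omega), Nat.sub_add_cancel (by omega)] at h1
  have h2 : |B| / 2 ^ k ≤ ε / 2 := by
    rw [div_le_iff₀ (by positivity)]
    rw [div_lt_iff₀ (by positivity)] at hk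
    linarith
  linarith

private theorem cont_val {A : Matrix (Fin d) (Fin d) ℝ} {δ : ℝ} {f g : X d → X d}
    (hf : InK A δ f) (hg : InK A δ g) : Continuous fun y => ‖f y - g y‖ ^ 2 :=
  ((hf.smooth.continuous.sub hg.smooth.continuous).norm).pow 2

private theorem cont_der {A : Matrix (Fin d) (Fin d) ℝ} {δ : ℝ} {f g : X d → X d}
    (hf : InK A δ f) (hg : InK A δ g) :
    Continuous fun y => ‖fderiv ℝ f y - fderiv ℝ g y‖ ^ 2 :=
  (((hf.smooth.continuous_fderiv one_ne_zero).sub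
    (hg.smooth.continuous_fderiv one_ne_zero)).norm).pow 2

private theorem dd_le {A : Matrix (Fin d) (Fin d) ℝ} {δ : ℝ} {f g : X d → X d}
    (hf : InK A δ f) (hg : InK A δ g) : dd A f g ≤ 8 * δ ^ 2 := by
  have h1 : avg A (fun y => ‖f y - g y‖ ^ 2) ≤ avg A (fun _ : X d => (2 * δ) ^ 2) := by
    refine avg_mono (cont_val hf hg) continuous_const fun y => ?_
    refine pow_le_pow_left₀ (norm_nonneg _) ?_ 2
    have := norm_sub_le (f y) (g y)
    have := hf.val y
    have := hg.val y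
    linarith
  have h2 : avg A (fun y => ‖fderiv ℝ f y - fderiv ℝ g y‖ ^ 2) ≤
      avg A (fun _ : X d => (2 * δ) ^ 2) := by
    refine avg_mono (cont_der hf hg) continuous_const fun y => ?_
    refine pow_le_pow_left₀ (norm_nonneg _) ?_ 2
    have := norm_sub_le (fderiv ℝ f y) (fderiv ℝ g y)
    have := hf.der y
    have := hg.der y
    linarith
  rw [avg_const] at h1 h2
  unfold dd
  nlinarith

private theorem ptw {x e κ a b : ℝ} (hx : 0 ≤ x) (h : x ≤ 2 * e + κ * (a + b)) :
    x ^ 2 ≤ 8 * e ^ 2 + 4 * κ ^ 2 * (a ^ 2 + b ^ 2) := by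
  have h1 : x ^ 2 ≤ (2 * e + κ * (a + b)) ^ 2 := pow_le_pow_left₀ hx h 2
  have h2 : (2 * e + κ * (a + b)) ^ 2 ≤ 2 * (2 * e) ^ 2 + 2 * (κ * (a + b)) ^ 2 := by
    nlinarith [_root_.sq_nonneg (2 * e - κ * (a + b))]
  have h3 : 2 * (κ * (a + b)) ^ 2 ≤ 4 * κ ^ 2 * (a ^ 2 + b ^ 2) := by
    nlinarith [mul_nonneg (_root_.sq_nonneg κ) (_root_.sq_nonneg (a - b))]
  nlinarith

/-- One step of the iteration contracts the `H¹`-distance up to the error of the Fejér means. -/
private theorem step_est (A I0 : Matrix (Fin d) (Fin d) ℝ) {C κ δ e : ℝ}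
    (hC : 0 < C)
    (hdiff : ∀ (M N : ℕ) (Q R : Fin d → Fin d → X d → ℂ), 0 < M → 0 < N →
      (∀ a b, Continuous (Q a b)) → (∀ a b, Continuous (R a b)) →
      avg A (fun y => ‖stp A I0 M Q y - stp A I0 N R y‖ ^ 2) +
        avg A (fun y => ‖fderiv ℝ (stp A I0 M Q) y - fderiv ℝ (stp A I0 N R) y‖ ^ 2) ≤
      C * ∑ a, ∑ b, avg A (fun y => ‖fej A M (Q a b) y - fej A N (R a b) y‖ ^ 2))
    {f g : X d → X d} (hf : InK A δ f) (hg : InK A δ g)
    (Q R : Fin d → Fin d → X d → ℂ) (hQ : ∀ a b, Continuous (Q a b))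
    (hR : ∀ a b, Continuous (R a b)) {M N : ℕ} (hM : 0 < M) (hN : 0 < N)
    (hQe : ∀ a b y, ‖fej A M (Q a b) y - Q a b y‖ ≤ e)
    (hRe : ∀ a b y, ‖fej A N (R a b) y - R a b y‖ ≤ e)
    (hQR : ∀ a b y, ‖Q a b y - R a b y‖ ≤
      κ * (‖f y - g y‖ + ‖fderiv ℝ f y - fderiv ℝ g y‖)) :
    dd A (stp A I0 M Q) (stp A I0 N R) ≤
      C * ((d : ℝ) * (d : ℝ)) * (8 * e ^ 2 + 4 * κ ^ 2 * dd A f g) := by
  refine (hdiff M N Q R hM hN hQ hR).trans ?_
  have h1 : ∀ a b, avg A (fun y => ‖fej A M (Q a b) y - fej A N (R a b) y‖ ^ 2) ≤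
      8 * e ^ 2 + 4 * κ ^ 2 * dd A f g := by
    intro a b
    have hc1 : Continuous (fun y => ‖fej A M (Q a b) y - fej A N (R a b) y‖ ^ 2) :=
      (((tp_contDiff _ _).continuous.sub (tp_contDiff _ _).continuous).norm).pow 2
    have hc2 : Continuous (fun y => ‖f y - g y‖ ^ 2 + ‖fderiv ℝ f y - fderiv ℝ g y‖ ^ 2) :=
      (cont_val hf hg).add (cont_der hf hg)
    have h2 : avg A (fun y => ‖fej A M (Q a b) y - fej A N (R a b) y‖ ^ 2) ≤
        avg A (fun y => 8 * e ^ 2 +
          4 * κ ^ 2 * (‖f y - g y‖ ^ 2 + ‖fderiv ℝ f y - fderiv ℝ g y‖ ^ 2)) := by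
      refine avg_mono hc1 (continuous_const.add (continuous_const.mul hc2)) fun y => ?_
      refine ptw (norm_nonneg _) ?_
      have h3 : fej A M (Q a b) y - fej A N (R a b) y =
          (fej A M (Q a b) y - Q a b y) + (Q a b y - R a b y) -
            (fej A N (R a b) y - R a b y) := by ring
      rw [h3]
      have h4 := norm_sub_le ((fej A M (Q a b) y - Q a b y) + (Q a b y - R a b y))
        (fej A N (R a b) y - R a b y)
      have h5 := norm_add_le (fej A M (Q a b) y - Q a b y) (Q a b y - R a b y)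
      have h6 := hQe a b y
      have h7 := hRe a b y
      have h8 := hQR a b y
      linarith
    refine h2.trans (le_of_eq ?_)
    have e1 := avg_add (A := A) (p := fun _ : X d => 8 * e ^ 2)
      (q := fun y => 4 * κ ^ 2 * (‖f y - g y‖ ^ 2 + ‖fderiv ℝ f y - fderiv ℝ g y‖ ^ 2))
      continuous_const (continuous_const.mul hc2)
    rw [e1, avg_const, avg_mul_left_real, avg_add (cont_val hf hg) (cont_der hf hg)]
    rfl
  have h2 : ∑ a : Fin d, ∑ b : Fin d,
      avg A (fun y => ‖fej A M (Q a b) y - fej A N (R a b) y‖ ^ 2) ≤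
      ∑ _a : Fin d, ∑ _b : Fin d, (8 * e ^ 2 + 4 * κ ^ 2 * dd A f g) :=
    Finset.sum_le_sum fun a _ => Finset.sum_le_sum fun b _ => h1 a b
  have h3 : ∑ _a : Fin d, ∑ _b : Fin d, (8 * e ^ 2 + 4 * κ ^ 2 * dd A f g) =
      (d : ℝ) * (d : ℝ) * (8 * e ^ 2 + 4 * κ ^ 2 * dd A f g) := by
    simp only [Finset.sum_const, Finset.card_univ, Fintype.card_fin, nsmul_eq_mul]
    ring
  rw [h3] at h2
  rw [mul_assoc]
  exact mul_le_mul_of_nonneg_left h2 hC.le

private theorem norm_comp_le {v : X d} (j : Fin d) : |v j| ≤ ‖v‖ := by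
  have := norm_le_pi_norm v j
  rwa [Real.norm_eq_abs] at this

private theorem norm_single (i : Fin d) : ‖(Pi.single i 1 : X d)‖ = 1 := by
  rw [Pi.norm_single, norm_one]

private theorem opNorm_le {L : X d →L[ℝ] X d} {e : ℝ} (he : 0 ≤ e)
    (h : ∀ i, ‖L (Pi.single i 1)‖ ≤ e) : ‖L‖ ≤ d * e := by
  refine L.opNorm_le_bound (by positivity) fun x => ?_
  have hx : x = ∑ i, x i • (Pi.single i 1 : X d) := by
    ext k
    simp [Finset.sum_apply, Pi.single_apply]
  have h1 : L x = ∑ i, x i • L (Pi.single i 1) := by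
    conv_lhs => rw [hx]
    simp only [map_sum, map_smul]
  rw [h1]
  refine (norm_sum_le _ _).trans ?_
  have h2 : ∀ i ∈ (Finset.univ : Finset (Fin d)), ‖x i • L (Pi.single i 1)‖ ≤ ‖x‖ * e := by
    intro i _
    rw [norm_smul]
    exact mul_le_mul (norm_le_pi_norm x i) (h i) (norm_nonneg _) (norm_nonneg _)
  refine (Finset.sum_le_sum h2).trans (le_of_eq ?_)
  simp only [Finset.sum_const, Finset.card_univ, Fintype.card_fin, nsmul_eq_mul]
  ring

private theorem fderiv_per {A : Matrix (Fin d) (Fin d) ℝ} {f : X d → X d} (hf : Per A f) :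
    Per A (fderiv ℝ f) := by
  intro j y
  have h : (fun x => f (x + fun i => A i j)) = f := funext fun x => hf j x
  have h1 := fderiv_comp_add_right (𝕜 := ℝ) (f := f) (x := y) (fun i => A i j)
  rw [h] at h1
  exact h1.symm

private theorem lip {A : Matrix (Fin d) (Fin d) ℝ} {δ : ℝ} {f : X d → X d} (hf : InK A δ f)
    (y z : X d) : ‖f y - f z‖ ≤ δ * ‖y - z‖ :=
  Convex.norm_image_sub_le_of_norm_fderiv_le (𝕜 := ℝ) (s := Set.univ)
    (fun x _ => (hf.smooth.differentiable one_ne_zero) x) (fun x _ => hf.der x) convex_univ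
    (Set.mem_univ z) (Set.mem_univ y)

private theorem hol_val {A : Matrix (Fin d) (Fin d) ℝ} {δ : ℝ} (hδ : 0 < δ) {f : X d → X d}
    (hf : InK A δ f) (y z : X d) : ‖f y - f z‖ ≤ 2 * δ * √‖y - z‖ := by
  rcases le_total ‖y - z‖ 1 with h | h
  · have h1 := lip hf y z
    have h2 : ‖y - z‖ ≤ √‖y - z‖ := by
      have h3 : √‖y - z‖ ≤ 1 := Real.sqrt_le_one.mpr h
      have h4 := Real.mul_self_sqrt (norm_nonneg (y - z))
      nlinarith [Real.sqrt_nonneg ‖y - z‖]
    have h5 : δ * ‖y - z‖ ≤ δ * √‖y - z‖ := mul_le_mul_of_nonneg_left h2 hδ.le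
    have h6 : 0 ≤ δ * √‖y - z‖ := by positivity
    linarith
  · have h1 : 1 ≤ √‖y - z‖ := Real.one_le_sqrt.mpr h
    have h2 := norm_sub_le (f y) (f z)
    have h3 := hf.val y
    have h4 := hf.val z
    nlinarith

/-- Closeness in `H¹` implies closeness in `C¹` in the class `InK`. -/
private theorem comp_small (A : Matrix (Fin d) (Fin d) ℝ) (hA : IsUnit A.det) {δ ε : ℝ}
    (hδ : 0 < δ) (hε : 0 < ε) :
    ∃ η > 0, ∀ f g : X d → X d, InK A δ f → InK A δ g → dd A f g ≤ η → ∀ y,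
      ‖f y - g y‖ ≤ ε ∧ ‖fderiv ℝ f y - fderiv ℝ g y‖ ≤ ε := by
  have hd : (0 : ℝ) < (d : ℝ) + 1 := by positivity
  obtain ⟨η, hη, H⟩ := interp A hA (4 * δ) (ε := ε / ((d : ℝ) + 1)) (by positivity)
  refine ⟨η, hη, fun f g hf hg hfg y => ?_⟩
  have hle : ε / ((d : ℝ) + 1) ≤ ε := by
    rw [div_le_iff₀ hd]
    nlinarith [(Nat.cast_nonneg d : (0 : ℝ) ≤ d)]
  have hdf := hf.smooth.continuous_fderiv one_ne_zero
  have hdg := hg.smooth.continuous_fderiv one_ne_zero
  have n1 : 0 ≤ avg A (fun y => ‖f y - g y‖ ^ 2) := avg_nonneg fun y => by positivity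
  have n2 : 0 ≤ avg A (fun y => ‖fderiv ℝ f y - fderiv ℝ g y‖ ^ 2) :=
    avg_nonneg fun y => by positivity
  unfold dd at hfg
  constructor
  · rw [pi_norm_le_iff_of_nonneg hε.le]
    intro j
    have hc : Continuous fun y => f y j - g y j :=
      ((continuous_apply j).comp hf.smooth.continuous).sub
        ((continuous_apply j).comp hg.smooth.continuous)
    have h1 : avg A (fun y => (f y j - g y j) ^ 2) ≤ η := by
      refine (avg_mono (p := fun y => (f y j - g y j) ^ 2) (hc.pow 2) (cont_val hf hg)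
        fun y => ?_).trans (by linarith)
      rw [← sq_abs]
      exact pow_le_pow_left₀ (abs_nonneg _) (norm_comp_le (v := f y - g y) j) 2
    have h2 := H (fun y => f y j - g y j) hc
      (fun i y => by
        show f _ j - g _ j = f y j - g y j
        rw [hf.per i y, hg.per i y])
      (fun y z => by
        have h3 := hol_val hδ hf y z
        have h4 := hol_val hδ hg y z
        have h5 := norm_comp_le (v := f y - f z) j
        have h6 := norm_comp_le (v := g y - g z) j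
        simp only [Pi.sub_apply] at h5 h6
        have h7 : f y j - g y j - (f z j - g z j) = (f y j - f z j) - (g y j - g z j) := by ring
        rw [h7, Real.norm_eq_abs]
        have h8 := abs_sub (f y j - f z j) (g y j - g z j)
        linarith) h1 y
    rw [Real.norm_eq_abs]
    exact h2.trans hle
  · have h0 : ∀ i, ‖(fderiv ℝ f y - fderiv ℝ g y) (Pi.single i 1)‖ ≤ ε / ((d : ℝ) + 1) := by
      intro i
      rw [pi_norm_le_iff_of_nonneg (by positivity)]
      intro j
      have hc : Continuous fun y => fderiv ℝ f y (Pi.single i 1) j -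
          fderiv ℝ g y (Pi.single i 1) j :=
        ((continuous_apply j).comp (hdf.clm_apply continuous_const)).sub
          ((continuous_apply j).comp (hdg.clm_apply continuous_const))
      have hb : ∀ L : X d →L[ℝ] X d, |L (Pi.single i 1) j| ≤ ‖L‖ := by
        intro L
        refine (norm_comp_le j).trans ?_
        have := L.le_opNorm (Pi.single i 1)
        rwa [norm_single, mul_one] at this
      have h1 : avg A (fun y => (fderiv ℝ f y (Pi.single i 1) j -
          fderiv ℝ g y (Pi.single i 1) j) ^ 2) ≤ η := by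
        refine (avg_mono (p := fun y => (fderiv ℝ f y (Pi.single i 1) j -
          fderiv ℝ g y (Pi.single i 1) j) ^ 2) (hc.pow 2) (cont_der hf hg)
          fun y => ?_).trans (by linarith)
        rw [← sq_abs]
        exact pow_le_pow_left₀ (abs_nonneg _) (hb (fderiv ℝ f y - fderiv ℝ g y)) 2
      have h2 := H (fun y => fderiv ℝ f y (Pi.single i 1) j - fderiv ℝ g y (Pi.single i 1) j) hc
        (fun k y => by
          show fderiv ℝ f _ _ j - fderiv ℝ g _ _ j = _
          rw [fderiv_per hf.per k y, fderiv_per hg.per k y])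
        (fun y z => by
          have h3 := hf.hol y z
          have h4 := hg.hol y z
          have h5 := hb (fderiv ℝ f y - fderiv ℝ f z)
          have h6 := hb (fderiv ℝ g y - fderiv ℝ g z)
          simp only [_root_.sub_apply, Pi.sub_apply] at h5 h6
          have h7 : fderiv ℝ f y (Pi.single i 1) j - fderiv ℝ g y (Pi.single i 1) j -
              (fderiv ℝ f z (Pi.single i 1) j - fderiv ℝ g z (Pi.single i 1) j) =
              (fderiv ℝ f y (Pi.single i 1) j - fderiv ℝ f z (Pi.single i 1) j) -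
              (fderiv ℝ g y (Pi.single i 1) j - fderiv ℝ g z (Pi.single i 1) j) := by ring
          rw [h7, Real.norm_eq_abs]
          have h8 := abs_sub (fderiv ℝ f y (Pi.single i 1) j - fderiv ℝ f z (Pi.single i 1) j)
            (fderiv ℝ g y (Pi.single i 1) j - fderiv ℝ g z (Pi.single i 1) j)
          have h9 : 0 ≤ δ * √‖y - z‖ := by positivity
          linarith) h1 y
      rw [Real.norm_eq_abs]
      exact h2
    refine (opNorm_le (by positivity) h0).trans ?_
    rw [mul_div_assoc', div_le_iff₀ hd]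
    nlinarith [(Nat.cast_nonneg d : (0 : ℝ) ≤ d)]

/-- The limit in `C¹` of a sequence in `InK A δ` that is Cauchy in `C¹`. -/
private theorem exists_lim {A : Matrix (Fin d) (Fin d) ℝ} {δ : ℝ} {u : ℕ → X d → X d}
    (hu : ∀ p, InK A δ (u p))
    (hc : ∀ ε > 0, ∃ N, ∀ p ≥ N, ∀ q ≥ N, ∀ y, ‖u p y - u q y‖ ≤ ε ∧
      ‖fderiv ℝ (u p) y - fderiv ℝ (u q) y‖ ≤ ε) :
    ∃ f, InK A δ f ∧ ∀ ε > 0, ∀ᶠ p in atTop, ∀ y, ‖u p y - f y‖ ≤ ε ∧
      ‖fderiv ℝ (u p) y - fderiv ℝ f y‖ ≤ ε := by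
  have hc1 : ∀ y, ∃ l, Tendsto (fun p => u p y) atTop (𝓝 l) := by
    intro y
    refine cauchySeq_tendsto_of_complete (Metric.cauchySeq_iff.mpr fun ε hε => ?_)
    obtain ⟨N, hN⟩ := hc (ε / 2) (by positivity)
    refine ⟨N, fun p hp q hq => ?_⟩
    rw [dist_eq_norm]
    have := (hN p hp q hq y).1
    linarith
  have hc2 : ∀ y, ∃ l, Tendsto (fun p => fderiv ℝ (u p) y) atTop (𝓝 l) := by
    intro y
    refine cauchySeq_tendsto_of_complete (Metric.cauchySeq_iff.mpr fun ε hε => ?_)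
    obtain ⟨N, hN⟩ := hc (ε / 2) (by positivity)
    refine ⟨N, fun p hp q hq => ?_⟩
    rw [dist_eq_norm]
    have := (hN p hp q hq y).2
    linarith
  choose f hf using hc1
  choose G hG using hc2
  have hlim : ∀ ε > 0, ∃ N, ∀ p ≥ N, ∀ y, ‖u p y - f y‖ ≤ ε ∧
      ‖fderiv ℝ (u p) y - G y‖ ≤ ε := by
    intro ε hε
    obtain ⟨N, hN⟩ := hc ε hε
    refine ⟨N, fun p hp y => ⟨?_, ?_⟩⟩
    · refine le_of_tendsto ((tendsto_const_nhds.sub (hf y)).norm)
        (eventually_atTop.mpr ⟨N, fun q hq => (hN p hp q hq y).1⟩)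
    · refine le_of_tendsto ((tendsto_const_nhds.sub (hG y)).norm)
        (eventually_atTop.mpr ⟨N, fun q hq => (hN p hp q hq y).2⟩)
  have hunif : TendstoUniformly (fun p => fderiv ℝ (u p)) G atTop := by
    rw [Metric.tendstoUniformly_iff]
    intro ε hε
    obtain ⟨N, hN⟩ := hlim (ε / 2) (by positivity)
    refine eventually_atTop.mpr ⟨N, fun p hp y => ?_⟩
    rw [dist_comm, dist_eq_norm]
    have := (hN p hp y).2
    linarith
  have hder : ∀ y, HasFDerivAt f (G y) y := by
    refine fun y => hasFDerivAt_of_tendstoUniformly hunif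
      (fun p x => ((hu p).smooth.differentiable one_ne_zero x).hasFDerivAt) hf y
  have hGc : Continuous G :=
    hunif.continuous (Frequently.of_forall fun p =>
      (hu p).smooth.continuous_fderiv one_ne_zero)
  have hfd : ∀ y, fderiv ℝ f y = G y := fun y => (hder y).fderiv
  refine ⟨f, ⟨?_, ?_, ?_, ?_, ?_⟩, ?_⟩
  · rw [contDiff_one_iff_fderiv]
    refine ⟨fun y => (hder y).differentiableAt, ?_⟩
    have : fderiv ℝ f = G := funext hfd
    rw [this]
    exact hGc
  · intro j y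
    refine tendsto_nhds_unique (hf _) ?_
    have : (fun p => u p (y + fun i => A i j)) = fun p => u p y :=
      funext fun p => (hu p).per j y
    rw [this]
    exact hf y
  · intro y
    exact le_of_tendsto (hf y).norm (Eventually.of_forall fun p => (hu p).val y)
  · intro y
    rw [hfd]
    exact le_of_tendsto (hG y).norm (Eventually.of_forall fun p => (hu p).der y)
  · intro y z
    rw [hfd, hfd]
    exact le_of_tendsto ((hG y).sub (hG z)).norm (Eventually.of_forall fun p => (hu p).hol y z)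
  · intro ε hε
    obtain ⟨N, hN⟩ := hlim ε hε
    refine eventually_atTop.mpr ⟨N, fun p hp y => ?_⟩
    rw [hfd]
    exact hN p hp y

private theorem fw_tendsto (ν : Fin d → ℤ) :
    Tendsto (fun p : ℕ => (fw (p + 1) ν : ℂ)) atTop (𝓝 1) := by
  have h1 : Tendsto (fun p : ℕ => fw (p + 1) ν) atTop (𝓝 1) := by
    have h2 : Tendsto (fun p : ℕ => ∏ j, max 0 (1 - |(ν j : ℝ)| / ((p + 1 : ℕ) : ℝ))) atTop
        (𝓝 (∏ _j : Fin d, (1 : ℝ))) := by
      refine tendsto_finsetProd _ fun j _ => ?_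
      have h3 : Tendsto (fun p : ℕ => |(ν j : ℝ)| / ((p + 1 : ℕ) : ℝ)) atTop (𝓝 0) := by
        have h4 : Tendsto (fun p : ℕ => ((p + 1 : ℕ) : ℝ)) atTop atTop :=
          tendsto_natCast_atTop_atTop.comp (tendsto_add_atTop_nat 1)
        exact tendsto_const_nhds.div_atTop h4
      have h5 : Tendsto (fun p : ℕ => max 0 (1 - |(ν j : ℝ)| / ((p + 1 : ℕ) : ℝ))) atTop
          (𝓝 (max 0 (1 - 0))) := tendsto_const_nhds.max (tendsto_const_nhds.sub h3)
      simpa using h5
    simpa [fw] using h2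
  have h2 := (Complex.continuous_ofReal.tendsto 1).comp h1
  rw [Complex.ofReal_one] at h2
  exact h2

private theorem zeta_sub_le (I0 : Matrix (Fin d) (Fin d) ℝ) (j : Fin d) {f g : X d → X d}
    {y : X d} : ‖zeta I0 f j y - zeta I0 g j y‖ ≤ (1 + ∑ i, |I0 j i|) * ‖f y - g y‖ := by
  have h1 : zeta I0 f j y - zeta I0 g j y =
      ((f y - g y) j : ℂ) + Complex.I * ((I0 *ᵥ (f y - g y)) j : ℂ) := by
    simp only [zeta, Matrix.mulVec_sub, Pi.sub_apply]
    push_cast
    ring
  rw [h1]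
  refine (norm_add_le _ _).trans ?_
  rw [norm_mul, Complex.norm_I, one_mul, Complex.norm_real, Complex.norm_real, add_mul, one_mul]
  refine add_le_add (norm_le_pi_norm _ j) ?_
  rw [Matrix.mulVec, dotProduct, Finset.sum_mul]
  refine (norm_sum_le _ _).trans (Finset.sum_le_sum fun i _ => ?_)
  rw [norm_mul, Real.norm_eq_abs]
  exact mul_le_mul_of_nonneg_left (norm_le_pi_norm _ i) (abs_nonneg _)

private theorem zeta_cont (I0 : Matrix (Fin d) (Fin d) ℝ) (j : Fin d) {f : X d → X d}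
    (hf : Continuous f) : Continuous (zeta I0 f j) := by
  have h1 : Continuous fun y => I0 *ᵥ f y := Continuous.matrix_mulVec continuous_const hf
  have h2 : Continuous fun y => (I0 *ᵥ f y) j := (continuous_apply j).comp h1
  have h3 : Continuous fun y => f y j := (continuous_apply j).comp hf
  exact (Complex.continuous_ofReal.comp h3).add
    (continuous_const.mul (Complex.continuous_ofReal.comp h2))

/-- The iterates. -/
private noncomputable def it (A I0 : Matrix (Fin d) (Fin d) ℝ)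
    (Qn : (X d → X d) → Fin d → Fin d → X d → ℂ) : ℕ → X d → X d
  | 0 => fun _ => 0
  | p + 1 => stp A I0 (p + 1) (Qn (it A I0 Qn p))

end Iter

open Iter in
/-- For a small nonlinearity `Qn` the equation `ζ_f = L Qn(f)` has a solution `f`, which is a limit
in `C¹` of smooth maps. -/
theorem iter (A I0 : Matrix (Fin d) (Fin d) ℝ) (hA : IsUnit A.det) (hI : IsCx I0) {δ : ℝ}
    (hδ : 0 < δ) :
    ∃ κ > 0, ∀ Qn : (X d → X d) → Fin d → Fin d → X d → ℂ,
      (∀ f, InK A δ f → ∀ a b,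
        Continuous (Qn f a b) ∧ Per A (Qn f a b) ∧ Hol κ (Qn f a b)) →
      (∀ f g, InK A δ f → InK A δ g → ∀ a b y, ‖Qn f a b y - Qn g a b y‖ ≤
        κ * (‖f y - g y‖ + ‖fderiv ℝ f y - fderiv ℝ g y‖)) →
      ∃ (f : X d → X d) (u : ℕ → X d → X d), InK A δ f ∧
        (∀ p, InK A δ (u p) ∧ ContDiff ℝ (⊤ : ℕ∞) (u p)) ∧
        (∀ ε > 0, ∀ᶠ p in atTop, ∀ y, ‖u p y - f y‖ ≤ ε ∧
          ‖fderiv ℝ (u p) y - fderiv ℝ f y‖ ≤ ε) ∧
        ∀ j ν, cf A (zeta I0 f j) ν = zc A I0 (fun a b => cf A (Qn f a b)) j ν := by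
  obtain ⟨C1, hC1, hin⟩ := stp_inK A I0 hA hI
  obtain ⟨C2, hC2, hdiff⟩ := stp_diff A I0 hA
  set D : ℝ := C2 * ((d : ℝ) * (d : ℝ)) with hD
  have hD0 : 0 ≤ D := by positivity
  set κ : ℝ := min (δ / C1) (1 / (8 * (D + 1))) with hκdef
  have hκ : 0 < κ := lt_min (by positivity) (by positivity)
  have hκ1 : C1 * κ ≤ δ := by
    have h1 : κ ≤ δ / C1 := min_le_left _ _
    rw [le_div_iff₀ hC1] at h1
    linarith
  have hκ2 : D * (4 * κ ^ 2) ≤ 1 / 2 := by
    have h1 : κ ≤ 1 / (8 * (D + 1)) := min_le_right _ _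
    rw [le_div_iff₀ (by positivity)] at h1
    have h2 : κ ≤ 1 := by nlinarith
    have h3 : κ ^ 2 ≤ κ := by nlinarith
    have h4 : D * (4 * κ ^ 2) ≤ D * (4 * κ) :=
      mul_le_mul_of_nonneg_left (by linarith) hD0
    nlinarith
  refine ⟨κ, hκ, fun Qn hQ1 hQ2 => ?_⟩
  set u : ℕ → X d → X d := it A I0 Qn with hu
  have huK : ∀ p, InK A δ (u p) := by
    intro p
    induction p with
    | zero => exact inK_zero A hδ
    | succ p ih =>
      exact inK_mono hκ1 (hin (p + 1) (Qn (u p)) κ (Nat.succ_pos p) hκ.le (hQ1 (u p) ih))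
  have husm : ∀ p, ContDiff ℝ (⊤ : ℕ∞) (u p) := by
    intro p
    cases p with
    | zero => exact contDiff_const
    | succ p => exact stp_contDiff A I0 (p + 1) (Qn (u p))
  have hcontr : ∀ η > 0, ∃ N, ∀ p ≥ N, ∀ q ≥ N,
      dd A (u (p + 1)) (u (q + 1)) ≤ dd A (u p) (u q) / 2 + η := by
    intro η hη
    set e : ℝ := min 1 (η / (8 * (D + 1))) with he
    have he0 : 0 < e := lt_min one_pos (by positivity)
    have he1 : D * (8 * e ^ 2) ≤ η := by
      have h1 : e ≤ 1 := min_le_left _ _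
      have h2 : e ≤ η / (8 * (D + 1)) := min_le_right _ _
      rw [le_div_iff₀ (by positivity)] at h2
      have h3 : e ^ 2 ≤ e := by nlinarith
      have h4 : D * (8 * e ^ 2) ≤ D * (8 * e) := mul_le_mul_of_nonneg_left (by linarith) hD0
      nlinarith
    obtain ⟨N0, hN0⟩ := fej_approx A hA κ he0
    refine ⟨N0, fun p hp q hq => ?_⟩
    have h1 := step_est A I0 hC2 hdiff (huK p) (huK q) (Qn (u p)) (Qn (u q))
      (fun a b => (hQ1 _ (huK p) a b).1) (fun a b => (hQ1 _ (huK q) a b).1)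
      (Nat.succ_pos p) (Nat.succ_pos q)
      (fun a b => hN0 (p + 1) (by omega) _ (hQ1 _ (huK p) a b).1 (hQ1 _ (huK p) a b).2.1
        (hQ1 _ (huK p) a b).2.2)
      (fun a b => hN0 (q + 1) (by omega) _ (hQ1 _ (huK q) a b).1 (hQ1 _ (huK q) a b).2.1
        (hQ1 _ (huK q) a b).2.2)
      (hQ2 _ _ (huK p) (huK q))
    have h2 : 0 ≤ dd A (u p) (u q) :=
      add_nonneg (avg_nonneg fun y => by positivity) (avg_nonneg fun y => by positivity)
    have h3 : D * (4 * κ ^ 2) * dd A (u p) (u q) ≤ 1 / 2 * dd A (u p) (u q) :=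
      mul_le_mul_of_nonneg_right hκ2 h2
    have h4 : dd A (u (p + 1)) (u (q + 1)) ≤
        D * (8 * e ^ 2 + 4 * κ ^ 2 * dd A (u p) (u q)) := h1
    nlinarith
  have hcau := contract (E := fun p q => dd A (u p) (u q)) (B := 8 * δ ^ 2)
    (fun p q => dd_le (huK p) (huK q)) hcontr
  obtain ⟨f, hf, hlim⟩ := exists_lim huK (fun ε hε => by
    obtain ⟨η, hη, H⟩ := comp_small A hA hδ hε
    obtain ⟨N, hN⟩ := hcau η hη
    exact ⟨N, fun p hp q hq => H _ _ (huK p) (huK q) (hN p hp q hq)⟩)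
  refine ⟨f, u, hf, fun p => ⟨huK p, husm p⟩, hlim, fun j ν => ?_⟩
  -- the left side
  have hL : Tendsto (fun p => cf A (zeta I0 (u (p + 1)) j) ν) atTop
      (𝓝 (cf A (zeta I0 f j) ν)) := by
    refine cf_tendsto (fun p => zeta_cont I0 j (huK (p + 1)).smooth.continuous)
      (zeta_cont I0 j hf.smooth.continuous) (fun ε hε => ?_) ν
    have hS : 0 < 1 + ∑ i, |I0 j i| := by
      have : 0 ≤ ∑ i, |I0 j i| := Finset.sum_nonneg fun i _ => abs_nonneg _
      linarith
    have h1 := (tendsto_add_atTop_nat 1).eventually (hlim (ε / (1 + ∑ i, |I0 j i|)) (by positivity))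
    filter_upwards [h1] with p hp y
    refine (zeta_sub_le I0 j).trans ?_
    have h2 := (hp y).1
    rw [le_div_iff₀ hS] at h2
    linarith
  -- the right side
  have hR1 : ∀ a b, Tendsto (fun p : ℕ => (fw (p + 1) ν : ℂ) * cf A (Qn (u p) a b) ν) atTop
      (𝓝 (cf A (Qn f a b) ν)) := by
    intro a b
    have h1 : Tendsto (fun p => cf A (Qn (u p) a b) ν) atTop (𝓝 (cf A (Qn f a b) ν)) := by
      refine cf_tendsto (fun p => (hQ1 _ (huK p) a b).1) (hQ1 _ hf a b).1 (fun ε hε => ?_) ν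
      filter_upwards [hlim (ε / (2 * κ)) (by positivity)] with p hp y
      refine (hQ2 _ _ (huK p) hf a b y).trans ?_
      have h2 := (hp y).1
      have h3 := (hp y).2
      rw [le_div_iff₀ (by positivity)] at h2 h3
      linarith
    have h2 := (fw_tendsto ν).mul h1
    rwa [one_mul] at h2
  have hR : Tendsto (fun p : ℕ => zc A I0
      (fun a b ν => (fw (p + 1) ν : ℂ) * cf A (Qn (u p) a b) ν) j ν) atTop
      (𝓝 (zc A I0 (fun a b => cf A (Qn f a b)) j ν)) := by
    unfold zc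
    refine tendsto_const_nhds.mul (tendsto_finsetSum _ fun l _ =>
      tendsto_finsetSum _ fun a _ => tendsto_finsetSum _ fun b _ =>
        tendsto_const_nhds.mul (hR1 a b))
  refine tendsto_nhds_unique hL ?_
  have heq : (fun p : ℕ => cf A (zeta I0 (u (p + 1)) j) ν) = fun p : ℕ => zc A I0
      (fun a b ν => (fw (p + 1) ν : ℂ) * cf A (Qn (u p) a b) ν) j ν :=
    funext fun p => cf_zeta_stp A I0 hA hI (Nat.succ_pos p) (Qn (u p)) j ν
  rw [heq]
  exact hR

end Pool.Agent.MCL
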