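import Pool.Agent.MCL.GeoL
import Pool.Agent.MCL.Fou
import Pool.Agent.MCL.Pull

/-!
# MCL/MeanH : the mean of the pull-back is constant along `t ↦ t f`
-/

set_option autoImplicit false

open MeasureTheory Set Filter Topology
open scoped Matrix

namespace Pool.Agent.MCL

open SYM (CV FlatTriple IsHKTripleOn)

variable {n : ℕ}

/-- `cx` as a linear map. -/
noncomputable def cxL (n : ℕ) : (X (2 * n) × X (2 * n)) →L[ℝ] CV n :=
  LinearMap.toContinuousLinearMap
    { toFun := fun p => cx p.1 p.2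
      map_add' := fun _ _ => cx_add _ _ _ _
      map_smul' := fun _ _ => cx_smul _ _ _ }

theorem cxL_apply (x y : X (2 * n)) : cxL n (x, y) = cx x y := rfl

/-- The homotopy `(t, y) ↦ t f y + i y`. -/
noncomputable def Hm (f : X (2 * n) → X (2 * n)) (z : ℝ × X (2 * n)) : CV n :=
  cx (z.1 • f z.2) z.2

theorem Hm_contDiff {f : X (2 * n) → X (2 * n)} (hf : ContDiff ℝ (⊤ : ℕ∞) f) :
    ContDiff ℝ (⊤ : ℕ∞) (Hm f) := by
  have h1 : Hm f = fun z => cxL n (z.1 • f z.2, z.2) := rfl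
  rw [h1]
  exact (cxL n).contDiff.comp
    ((contDiff_fst.smul (hf.comp contDiff_snd)).prodMk contDiff_snd)

theorem Hm_fderiv {f : X (2 * n) → X (2 * n)} (hf : ContDiff ℝ (⊤ : ℕ∞) f) (t : ℝ)
    (y : X (2 * n)) (τ : ℝ) (v : X (2 * n)) :
    fderiv ℝ (Hm f) (t, y) (τ, v) = cx (τ • f y + t • fderiv ℝ f y v) v := by
  have h1 : Hm f = fun z => cxL n (z.1 • f z.2, z.2) := rfl
  have hd : HasFDerivAt f (fderiv ℝ f y) y :=
    ((hf.differentiable (by simp)) y).hasFDerivAt
  have h2 : HasFDerivAt (fun z : ℝ × X (2 * n) => f z.2)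
      ((fderiv ℝ f y).comp (ContinuousLinearMap.snd ℝ ℝ (X (2 * n)))) (t, y) :=
    HasFDerivAt.comp (t, y) (show HasFDerivAt f (fderiv ℝ f y) ((t, y) : ℝ × X (2 * n)).2 from hd)
      hasFDerivAt_snd
  have h3 : HasFDerivAt (fun z : ℝ × X (2 * n) => z.1 • f z.2) _ (t, y) :=
    (hasFDerivAt_fst (𝕜 := ℝ) (E := ℝ) (F := X (2 * n)) (p := (t, y))).smul h2
  have h4 : HasFDerivAt (fun z : ℝ × X (2 * n) => (z.1 • f z.2, z.2)) _ (t, y) :=
    h3.prodMk hasFDerivAt_snd
  have h5 := (cxL n).hasFDerivAt.comp (t, y) h4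
  rw [h1]
  have h6 : fderiv ℝ (fun z : ℝ × X (2 * n) => cxL n (z.1 • f z.2, z.2)) (t, y) = _ := h5.fderiv
  rw [h6]
  simp only [ContinuousLinearMap.comp_apply, ContinuousLinearMap.prod_apply, cxL_apply,
    ContinuousLinearMap.coe_snd']
  simp
  rw [add_comm]

/-- The coefficients of the pull-back by the homotopy. -/
noncomputable def Gm (w : CV n → CV n → CV n → ℝ) (f : X (2 * n) → X (2 * n))
    (e e' : ℝ × X (2 * n)) (z : ℝ × X (2 * n)) : ℝ :=
  w (Hm f z) (fderiv ℝ (Hm f) z e) (fderiv ℝ (Hm f) z e')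

theorem Gm_contDiffAt {w : CV n → CV n → CV n → ℝ}
    (hadd : ∀ z ∈ strip n, ∀ u u' v, w z (u + u') v = w z u v + w z u' v)
    (hsmul : ∀ z ∈ strip n, ∀ (t : ℝ) u v, w z (t • u) v = t * w z u v)
    (hanti : ∀ z ∈ strip n, ∀ u v, w z u v = -w z v u)
    (hsm : ∀ u v, ContDiffOn ℝ 1 (fun z => w z u v) (strip n))
    {f : X (2 * n) → X (2 * n)} (hf : ContDiff ℝ (⊤ : ℕ∞) f) (e e' : ℝ × X (2 * n))
    {z : ℝ × X (2 * n)} (hz : Hm f z ∈ strip n) : ContDiffAt ℝ 1 (Gm w f e e') z := by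
  classical
  set b := Module.finBasis ℝ (CV n) with hb
  let c : Fin (Module.finrank ℝ (CV n)) → (CV n →L[ℝ] ℝ) := fun i =>
    LinearMap.toContinuousLinearMap (b.coord i)
  have hc : ∀ i u, c i u = b.repr u i := fun i u => by simp [c]
  have hH : ContDiff ℝ (⊤ : ℕ∞) (Hm f) := Hm_contDiff hf
  have hH1 : ContDiff ℝ 1 (fderiv ℝ (Hm f)) :=
    hH.fderiv_right (m := 1) (WithTop.coe_le_coe.2 (le_top : (1 + 1 : ℕ∞) ≤ ⊤))
  have hHe : ∀ e, ContDiff ℝ 1 (fun z => fderiv ℝ (Hm f) z e) := fun e =>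
    hH1.clm_apply contDiff_const
  have hev : Gm w f e e' =ᶠ[𝓝 z] fun z => ∑ i, ∑ j, c i (fderiv ℝ (Hm f) z e) *
      (c j (fderiv ℝ (Hm f) z e') * w (Hm f z) (b i) (b j)) := by
    have h1 : ∀ᶠ z in 𝓝 z, Hm f z ∈ strip n :=
      hH.continuous.continuousAt.eventually_mem (isOpen_strip.mem_nhds hz)
    filter_upwards [h1] with z hz
    unfold Gm
    rw [pull_exp b (hadd _ hz) (hsmul _ hz) (hanti _ hz)]
    simp only [hc]
  refine ContDiffAt.congr_of_eventuallyEq ?_ hev
  refine ContDiffAt.sum fun i _ => ContDiffAt.sum fun j _ => ?_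
  refine ContDiffAt.mul ?_ (ContDiffAt.mul ?_ ?_)
  · exact ((c i).contDiff.comp (hHe e)).contDiffAt
  · exact ((c j).contDiff.comp (hHe e')).contDiffAt
  · have h2 : ContDiffAt ℝ 1 (fun z => w z (b i) (b j)) (Hm f z) :=
      (hsm (b i) (b j)).contDiffAt (isOpen_strip.mem_nhds hz)
    exact ContDiffAt.comp z h2 ((hH.of_le (by exact_mod_cast le_top)).contDiffAt)

theorem Hm_shift {A : Matrix (Fin (2 * n)) (Fin (2 * n)) ℝ} {f : X (2 * n) → X (2 * n)}
    (hp : Per A f) (j : Fin (2 * n)) (z : ℝ × X (2 * n)) :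
    Hm f (z + (0, fun i => A i j)) = Hm f z + cx 0 (fun i => A i j) := by
  simp only [Hm, Prod.fst_add, Prod.snd_add, add_zero]
  rw [hp j z.2, ← cx_add, add_zero]

theorem Hm_fderiv_shift {A : Matrix (Fin (2 * n)) (Fin (2 * n)) ℝ} {f : X (2 * n) → X (2 * n)}
    (hp : Per A f) (j : Fin (2 * n)) (z : ℝ × X (2 * n)) :
    fderiv ℝ (Hm f) (z + (0, fun i => A i j)) = fderiv ℝ (Hm f) z := by
  rw [← fderiv_comp_add_right]
  have h1 : (fun z => Hm f (z + (0, fun i => A i j))) = fun z => Hm f z + cx 0 (fun i => A i j) :=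
    funext fun z => Hm_shift hp j z
  rw [h1, fderiv_add_const]

theorem Gm_per {A I0 : Matrix (Fin (2 * n)) (Fin (2 * n)) ℝ} {η : ℝ}
    {om : Fin 3 → CV n → CV n → CV n → ℝ} (h : Near n A I0 η om)
    {f : X (2 * n) → X (2 * n)} (hp : Per A f) (c : Fin 3) (e e' : ℝ × X (2 * n)) (t : ℝ)
    (ht : ∀ y, Hm f (t, y) ∈ strip n) : Per A (fun y => Gm (om c) f e e' (t, y)) := by
  intro j y
  have h1 : ((t, y + fun i => A i j) : ℝ × X (2 * n)) = (t, y) + (0, fun i => A i j) := by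
    simp
  simp only [Gm]
  rw [h1, Hm_fderiv_shift hp, Hm_shift hp, h.per c _ (ht y)]

/-- The mean does not change along the homotopy. -/
theorem avg_Gm {A I0 : Matrix (Fin (2 * n)) (Fin (2 * n)) ℝ} (hA : IsUnit A.det)
    {η : ℝ} {om : Fin 3 → CV n → CV n → CV n → ℝ} (h : Near n A I0 η om)
    {f : X (2 * n) → X (2 * n)} (hf : ContDiff ℝ (⊤ : ℕ∞) f) (hp : Per A f)
    (hv : ∀ y, ‖f y‖ < 1) (c : Fin 3) (a b : Fin (2 * n)) :
    avg A (fun y => Gm (om c) f (0, Pi.single a 1) (0, Pi.single b 1) (1, y)) =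
      avg A (fun y => Gm (om c) f (0, Pi.single a 1) (0, Pi.single b 1) (0, y)) := by
  have hadd : ∀ z ∈ strip n, ∀ u u' v, om c z (u + u') v = om c z u v + om c z u' v :=
    fun z hz u u' v => flat_add_left (h.hk.triple z hz) c u u' v
  have hsmul : ∀ z ∈ strip n, ∀ (t : ℝ) u v, om c z (t • u) v = t * om c z u v :=
    fun z hz t u v => flat_smul_left (h.hk.triple z hz) c t u v
  have hanti : ∀ z ∈ strip n, ∀ u v, om c z u v = -om c z v u :=
    fun z hz u v => flat_anti (h.hk.triple z hz) c u v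
  have hsm : ∀ u v, ContDiffOn ℝ 1 (fun z => om c z u v) (strip n) := fun u v =>
    (h.hk.smooth c u v).of_le (by exact_mod_cast le_top)
  have hin : ∀ t ∈ Icc (0 : ℝ) 1, ∀ y, Hm f (t, y) ∈ strip n := by
    intro t ht y
    refine cx_mem_strip.2 ?_
    change ‖t • f y‖ < 1
    rw [norm_smul, Real.norm_eq_abs, abs_of_nonneg ht.1]
    calc t * ‖f y‖ ≤ 1 * ‖f y‖ := mul_le_mul_of_nonneg_right ht.2 (norm_nonneg _)
      _ < 1 := by rw [one_mul]; exact hv y
  have hG : ∀ e e', ∀ t ∈ Icc (0 : ℝ) 1, ∀ y, ContDiffAt ℝ 1 (Gm (om c) f e e') (t, y) :=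
    fun e e' t ht y => Gm_contDiffAt hadd hsmul hanti hsm hf e e' (hin t ht y)
  set ea : ℝ × X (2 * n) := (0, Pi.single a 1) with hea
  set eb : ℝ × X (2 * n) := (0, Pi.single b 1) with heb
  set e1 : ℝ × X (2 * n) := (1, 0) with he1
  set G : ℝ × X (2 * n) → ℝ := Gm (om c) f ea eb with hGdef
  set D : ℝ × X (2 * n) → ℝ := fun z => fderiv ℝ G z e1 with hD
  -- the restriction of `G` to `{t} × X`
  have hres : ∀ e e', ∀ t ∈ Icc (0 : ℝ) 1, ContDiff ℝ 1 (fun y => Gm (om c) f e e' (t, y)) := by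
    intro e e' t ht
    rw [contDiff_iff_contDiffAt]
    intro y
    have h1 : ContDiffAt ℝ 1 (fun y : X (2 * n) => ((t, y) : ℝ × X (2 * n))) y :=
      contDiffAt_const.prodMk contDiffAt_id
    exact ContDiffAt.comp y (hG e e' t ht y) h1
  have hpdr : ∀ e e', ∀ t ∈ Icc (0 : ℝ) 1, ∀ j y,
      pd j (fun y => Gm (om c) f e e' (t, y)) y =
        fderiv ℝ (Gm (om c) f e e') (t, y) (0, Pi.single j 1) := by
    intro e e' t ht j y
    have h1 : HasFDerivAt (fun y : X (2 * n) => ((t, y) : ℝ × X (2 * n)))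
        (ContinuousLinearMap.inr ℝ ℝ (X (2 * n))) y := hasFDerivAt_prodMk_right t y
    have h2 : HasFDerivAt (Gm (om c) f e e') (fderiv ℝ (Gm (om c) f e e') (t, y)) (t, y) :=
      ((hG e e' t ht y).differentiableAt (by norm_num)).hasFDerivAt
    have h3 := HasFDerivAt.comp y h2 h1
    unfold pd
    have h4 : fderiv ℝ (fun y => Gm (om c) f e e' (t, y)) y =
        (fderiv ℝ (Gm (om c) f e e') (t, y)).comp (ContinuousLinearMap.inr ℝ ℝ (X (2 * n))) :=
      h3.fderiv
    rw [h4]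
    rfl
  -- closedness
  have hcl : ∀ t ∈ Icc (0 : ℝ) 1, avg A (fun y => D (t, y)) = 0 := by
    intro t ht
    have h1 : ∀ y, D (t, y) = (-1) * pd a (fun y => Gm (om c) f eb e1 (t, y)) y +
        (-1) * pd b (fun y => Gm (om c) f e1 ea (t, y)) y := by
      intro y
      rw [hpdr eb e1 t ht a y, hpdr e1 ea t ht b y]
      have h2 := pull_closed isOpen_strip hadd hsmul hanti hsm (h.hk.closed c)
        (φ := Hm f) (x := (t, y))
        (((Hm_contDiff hf).of_le (WithTop.coe_le_coe.2 (le_top : (2 : ℕ∞) ≤ ⊤))).contDiffAt)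
        (hin t ht y) e1 ea eb
      have h3 : D (t, y) + fderiv ℝ (Gm (om c) f eb e1) (t, y) ea +
        fderiv ℝ (Gm (om c) f e1 ea) (t, y) eb = 0 := h2
      rw [← hea, ← heb]
      linarith
    have hc1 : Continuous (pd a (fun y => Gm (om c) f eb e1 (t, y))) := by
      unfold pd
      exact ((hres eb e1 t ht).continuous_fderiv (by norm_num)).clm_apply continuous_const
    have hc2 : Continuous (pd b (fun y => Gm (om c) f e1 ea (t, y))) := by
      unfold pd
      exact ((hres e1 ea t ht).continuous_fderiv (by norm_num)).clm_apply continuous_const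
    have h4 : (fun y => D (t, y)) = fun y => (-1) * pd a (fun y => Gm (om c) f eb e1 (t, y)) y +
        (-1) * pd b (fun y => Gm (om c) f e1 ea (t, y)) y := funext h1
    rw [h4, avg_add (p := fun y => (-1) * pd a (fun y => Gm (om c) f eb e1 (t, y)) y)
      (q := fun y => (-1) * pd b (fun y => Gm (om c) f e1 ea (t, y)) y)
      (continuous_const.mul hc1) (continuous_const.mul hc2),
      avg_mul_left_real, avg_mul_left_real,
      avg_pd hA (hres eb e1 t ht) (Gm_per h hp c eb e1 t (hin t ht)) a,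
      avg_pd hA (hres e1 ea t ht) (Gm_per h hp c e1 ea t (hin t ht)) b]
    simp
  -- the fundamental theorem
  have hDc : ∀ t ∈ Icc (0 : ℝ) 1, ∀ y, ContinuousAt D (t, y) := by
    intro t ht y
    have h1 : ContDiffAt ℝ 0 (fderiv ℝ G) (t, y) := (hG ea eb t ht y).fderiv_right (by norm_num)
    exact (h1.continuousAt).clm_apply continuousAt_const
  have hft : ∀ y, ∫ t in (0 : ℝ)..1, D (t, y) = G (1, y) - G (0, y) := by
    intro y
    refine intervalIntegral.integral_eq_sub_of_hasDerivAt (f := fun t => G (t, y)) ?_ ?_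
    · intro t ht
      rw [uIcc_of_le zero_le_one] at ht
      have h1 : HasFDerivAt (fun t : ℝ => ((t, y) : ℝ × X (2 * n)))
          (ContinuousLinearMap.inl ℝ ℝ (X (2 * n))) t := hasFDerivAt_prodMk_left t y
      have h2 : HasFDerivAt G (fderiv ℝ G (t, y)) (t, y) :=
        ((hG ea eb t ht y).differentiableAt (by norm_num)).hasFDerivAt
      have h3 := (HasFDerivAt.comp t h2 h1).hasDerivAt
      have h4 : ((fderiv ℝ G (t, y)).comp (ContinuousLinearMap.inl ℝ ℝ (X (2 * n)))) 1 =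
          D (t, y) := rfl
      rw [h4] at h3
      exact h3
    · refine ContinuousOn.intervalIntegrable ?_
      intro t ht
      rw [uIcc_of_le zero_le_one] at ht
      have h1 : ContinuousAt (fun t : ℝ => ((t, y) : ℝ × X (2 * n))) t := by fun_prop
      exact (ContinuousAt.comp (f := fun t : ℝ => ((t, y) : ℝ × X (2 * n)))
        (hDc t ht y) h1).continuousWithinAt
  -- Fubini
  have hcont : ∀ t ∈ Icc (0 : ℝ) 1, Continuous (fun y => G (t, y)) := fun t ht =>
    (hres ea eb t ht).continuous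
  have hsub : avg A (fun y => G (1, y)) - avg A (fun y => G (0, y)) =
      avg A (fun y => ∫ t in (0 : ℝ)..1, D (t, y)) := by
    rw [← avg_sub (hcont 1 ⟨zero_le_one, le_rfl⟩) (hcont 0 ⟨le_rfl, zero_le_one⟩)]
    congr 1
    funext y
    rw [hft y]
  have hswap : avg A (fun y => ∫ t in (0 : ℝ)..1, D (t, y)) =
      ∫ t in (0 : ℝ)..1, avg A (fun y => D (t, y)) := by
    unfold avg
    simp only [intervalIntegral.integral_of_le (zero_le_one (α := ℝ)),
      ← integral_Icc_eq_integral_Ioc]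
    rw [integral_integral_swap]
    have h1 : IntegrableOn (fun p : X (2 * n) × ℝ => D (p.2, A *ᵥ p.1))
        (cube (2 * n) ×ˢ Icc (0 : ℝ) 1) (volume.prod volume) := by
      refine ContinuousOn.integrableOn_compact ?_ ?_
      · exact isCompact_Icc.prod isCompact_Icc
      · rintro ⟨s, t⟩ ⟨_, ht⟩
        have h2 : ContinuousAt (fun p : X (2 * n) × ℝ => ((p.2, A *ᵥ p.1) : ℝ × X (2 * n)))
            (s, t) := by
          have : Continuous (fun p : X (2 * n) × ℝ => ((p.2, A *ᵥ p.1) : ℝ × X (2 * n))) :=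
            continuous_snd.prodMk
              ((Continuous.matrix_mulVec continuous_const continuous_fst))
          exact this.continuousAt
        exact (ContinuousAt.comp
          (f := fun p : X (2 * n) × ℝ => ((p.2, A *ᵥ p.1) : ℝ × X (2 * n)))
          (hDc t ht (A *ᵥ s)) h2).continuousWithinAt
    rw [IntegrableOn, ← Measure.prod_restrict] at h1
    exact h1
  have hzero : ∫ t in (0 : ℝ)..1, avg A (fun y => D (t, y)) = 0 := by
    rw [intervalIntegral.integral_congr (g := fun _ => (0 : ℝ))]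
    · simp
    · intro t ht
      rw [uIcc_of_le zero_le_one] at ht
      exact hcl t ht
  have := hsub.trans (hswap.trans hzero)
  linarith

theorem Pf_eq_Gm (om : Fin 3 → CV n → CV n → CV n → ℝ)
    {f : X (2 * n) → X (2 * n)} (hf : ContDiff ℝ (⊤ : ℕ∞) f) (a b : Fin (2 * n))
    (y : X (2 * n)) :
    Pf om f a b y = (Gm (om 1) f (0, Pi.single a 1) (0, Pi.single b 1) (1, y) : ℂ) +
      Complex.I * (Gm (om 2) f (0, Pi.single a 1) (0, Pi.single b 1) (1, y) : ℂ) := by
  simp only [Pf, sg, Gm, Hm_fderiv hf]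
  simp [Hm]

theorem Pf_zero_eq_Gm (om : Fin 3 → CV n → CV n → CV n → ℝ)
    {f : X (2 * n) → X (2 * n)} (hf : ContDiff ℝ (⊤ : ℕ∞) f) (a b : Fin (2 * n))
    (y : X (2 * n)) :
    Pf om (fun _ => 0) a b y = (Gm (om 1) f (0, Pi.single a 1) (0, Pi.single b 1) (0, y) : ℂ) +
      Complex.I * (Gm (om 2) f (0, Pi.single a 1) (0, Pi.single b 1) (0, y) : ℂ) := by
  simp only [Pf, sg, Gm, Hm_fderiv hf]
  simp [Hm]

theorem avg_sg {A : Matrix (Fin (2 * n)) (Fin (2 * n)) ℝ} {p q : X (2 * n) → ℝ}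
    (hp : Continuous p) (hq : Continuous q) :
    avg A (fun y => (p y : ℂ) + Complex.I * (q y : ℂ)) =
      ((avg A p : ℝ) : ℂ) + Complex.I * ((avg A q : ℝ) : ℂ) := by
  rw [avg_add (p := fun y => (p y : ℂ)) (q := fun y => Complex.I * (q y : ℂ))
    (Complex.continuous_ofReal.comp hp)
    (continuous_const.mul (Complex.continuous_ofReal.comp hq)), avg_mul_left]
  unfold avg
  rw [integral_complex_ofReal, integral_complex_ofReal]

/-- The mean of the pull-back does not change along `t ↦ t f`. -/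
theorem mean_homotopy {A I0 : Matrix (Fin (2 * n)) (Fin (2 * n)) ℝ} (hA : IsUnit A.det)
    {η : ℝ} {om : Fin 3 → CV n → CV n → CV n → ℝ} (h : Near n A I0 η om)
    {f : X (2 * n) → X (2 * n)} (hf : ContDiff ℝ (⊤ : ℕ∞) f) (hp : Per A f)
    (hv : ∀ y, ‖f y‖ < 1) (a b : Fin (2 * n)) :
    avg A (Pf om f a b) = avg A (Pf om (fun _ => 0) a b) := by
  have hc : ∀ c : Fin 3, ∀ t ∈ Icc (0 : ℝ) 1,
      Continuous (fun y => Gm (om c) f (0, Pi.single a 1) (0, Pi.single b 1) (t, y)) := by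
    intro c t ht
    rw [continuous_iff_continuousAt]
    intro y
    have hin : Hm f (t, y) ∈ strip n := by
      refine cx_mem_strip.2 ?_
      change ‖t • f y‖ < 1
      rw [norm_smul, Real.norm_eq_abs, abs_of_nonneg ht.1]
      calc t * ‖f y‖ ≤ 1 * ‖f y‖ := mul_le_mul_of_nonneg_right ht.2 (norm_nonneg _)
        _ < 1 := by rw [one_mul]; exact hv y
    have h1 := (Gm_contDiffAt (w := om c)
      (fun z hz u u' v => flat_add_left (h.hk.triple z hz) c u u' v)
      (fun z hz t u v => flat_smul_left (h.hk.triple z hz) c t u v)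
      (fun z hz u v => flat_anti (h.hk.triple z hz) c u v)
      (fun u v => (h.hk.smooth c u v).of_le (by exact_mod_cast le_top)) hf
      (0, Pi.single a 1) (0, Pi.single b 1) hin).continuousAt
    exact ContinuousAt.comp (f := fun y : X (2 * n) => ((t, y) : ℝ × X (2 * n))) h1 (by fun_prop)
  have h1 : (Pf om f a b) = _ := funext fun y => Pf_eq_Gm om hf a b y
  have h2 : (Pf om (fun _ => 0) a b) = _ := funext fun y => Pf_zero_eq_Gm om hf a b y
  rw [h1, h2, avg_sg (hc 1 1 ⟨zero_le_one, le_rfl⟩) (hc 2 1 ⟨zero_le_one, le_rfl⟩),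
    avg_sg (hc 1 0 ⟨le_rfl, zero_le_one⟩) (hc 2 0 ⟨le_rfl, zero_le_one⟩),
    avg_Gm hA h hf hp hv 1 a b, avg_Gm hA h hf hp hv 2 a b]

end Pool.Agent.MCL
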