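import Pool.Agent.MCL.GeoL
import Pool.Agent.MCL.Avg

/-!
# MCL/MeanZ : the pull-back to the flat torus has mean zero
-/

set_option autoImplicit false

open MeasureTheory Set Filter Topology
open scoped Matrix

namespace Pool.Agent.MCL

open SYM (CV FlatTriple IsHKTripleOn)

variable {n : ℕ}

theorem cx_zero_mem (y : X (2 * n)) : cx 0 y ∈ strip n := by
  rw [cx_mem_strip]; simp

private theorem cx_zero_add (y z : X (2 * n)) : cx 0 (y + z) = cx 0 y + cx 0 z := by
  have h := cx_add (0 : X (2 * n)) y 0 z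
  rwa [add_zero] at h

private theorem cx_zero_smul (t : ℝ) (y : X (2 * n)) : cx 0 (t • y) = t • cx 0 y := by
  have h := cx_smul t (0 : X (2 * n)) y
  rwa [smul_zero] at h

private theorem cx_zero_cont : Continuous fun y : X (2 * n) => cx 0 y := by
  unfold cx
  fun_prop

private theorem cx_zero_sum {ι : Type*} (S : Finset ι) (F : ι → X (2 * n)) :
    cx 0 (∑ i ∈ S, F i) = ∑ i ∈ S, cx 0 (F i) := by
  classical
  induction S using Finset.induction_on with
  | empty =>
    simp only [Finset.sum_empty]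
    funext j
    simp [cx]
  | insert a S ha ih => rw [Finset.sum_insert ha, Finset.sum_insert ha, cx_zero_add, ih]

theorem om_cont {A I0 : Matrix (Fin (2 * n)) (Fin (2 * n)) ℝ}
    {η : ℝ} {om : Fin 3 → CV n → CV n → CV n → ℝ} (h : Near n A I0 η om) (c : Fin 3)
    (u v : CV n) : Continuous fun y : X (2 * n) => om c (cx 0 y) u v := by
  have h1 : ContinuousOn (fun w => om c w u v) (strip n) := (h.hk.smooth c u v).continuousOn
  have h2 := h1.comp_continuous (f := fun y : X (2 * n) => cx 0 y) cx_zero_cont cx_zero_mem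
  exact h2

/-- The mean of a component of the form along a flat torus is zero. -/
theorem avg_om_zero {A I0 : Matrix (Fin (2 * n)) (Fin (2 * n)) ℝ} (hA : IsUnit A.det)
    {η : ℝ} {om : Fin 3 → CV n → CV n → CV n → ℝ} (h : Near n A I0 η om) {c : Fin 3}
    (hc : c ≠ 0) (j l : Fin (2 * n)) :
    avg A (fun y => om c (cx 0 y) (cx 0 fun i => A i j) (cx 0 fun i => A i l)) = 0 := by
  set Aj : X (2 * n) := fun i => A i j with hAj
  set Al : X (2 * n) := fun i => A i l with hAl
  set q : X (2 * n) → ℝ := fun y => om c (cx 0 y) (cx 0 Aj) (cx 0 Al) with hq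
  have hqc : Continuous q := om_cont h c _ _
  have hqp : Per A q := by
    intro k y
    show om c (cx 0 (y + fun i => A i k)) _ _ = om c (cx 0 y) _ _
    rw [cx_zero_add]
    exact h.per c _ (cx_zero_mem y) k _ _
  set S : Set (ℝ × ℝ) := Icc (0 : ℝ) 1 ×ˢ Icc (0 : ℝ) 1 with hS
  have hvol : (volume : Measure (ℝ × ℝ)).real S = 1 := by
    rw [Measure.real, Measure.volume_eq_prod, hS, Measure.prod_prod]
    simp
  have h1 : ∫ p in S, avg A (fun y => q (y + (p.1 • Aj + p.2 • Al))) = avg A q := by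
    have : ∀ p : ℝ × ℝ, avg A (fun y => q (y + (p.1 • Aj + p.2 • Al))) = avg A q :=
      fun p => avg_shift hA hqc hqp _
    simp_rw [this]
    rw [setIntegral_const, hvol, one_smul]
  rw [← h1]
  unfold avg
  have hcont : Continuous (Function.uncurry fun (p : ℝ × ℝ) (s : X (2 * n)) =>
      q (A *ᵥ s + (p.1 • Aj + p.2 • Al))) := by
    refine hqc.comp ?_
    have h3 : Continuous fun s : X (2 * n) => A *ᵥ s :=
      (Matrix.mulVecLin A).continuous_of_finiteDimensional
    have h4 := h3.comp (continuous_snd (X := ℝ × ℝ) (Y := X (2 * n)))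
    refine h4.add ?_
    fun_prop
  have hint : Integrable (Function.uncurry fun (p : ℝ × ℝ) (s : X (2 * n)) =>
      q (A *ᵥ s + (p.1 • Aj + p.2 • Al)))
      ((volume.restrict S).prod (volume.restrict (cube (2 * n)))) := by
    rw [Measure.prod_restrict]
    exact hcont.continuousOn.integrableOn_compact
      ((isCompact_Icc.prod isCompact_Icc).prod isCompact_Icc)
  rw [integral_integral_swap hint]
  rw [← integral_zero (X (2 * n)) ℝ (μ := volume.restrict (cube (2 * n)))]
  refine integral_congr_ae (Eventually.of_forall fun s => ?_)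
  show ∫ p in S, q (A *ᵥ s + (p.1 • Aj + p.2 • Al)) = 0
  have h5 := h.zero (cx 0 (A *ᵥ s)) (cx_zero_mem _) c hc j l
  rw [← h5]
  refine setIntegral_congr_fun (measurableSet_Icc.prod measurableSet_Icc) fun p _ => ?_
  show om c (cx 0 (A *ᵥ s + (p.1 • Aj + p.2 • Al))) _ _ = _
  rw [cx_zero_add, cx_zero_add, cx_zero_smul, cx_zero_smul, add_assoc]

private theorem avg_ofReal {A : Matrix (Fin (2 * n)) (Fin (2 * n)) ℝ} (q : X (2 * n) → ℝ) :
    avg A (fun y => ((q y : ℝ) : ℂ)) = ((avg A q : ℝ) : ℂ) := by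
  unfold avg
  exact integral_ofReal

/-- For a form bilinear at each point. -/
theorem avg_om_bilin {A I0 : Matrix (Fin (2 * n)) (Fin (2 * n)) ℝ} (hA : IsUnit A.det)
    {η : ℝ} {om : Fin 3 → CV n → CV n → CV n → ℝ} (h : Near n A I0 η om) {c : Fin 3}
    (hc : c ≠ 0) (u v : X (2 * n)) :
    avg A (fun y => om c (cx 0 y) (cx 0 u) (cx 0 v)) = 0 := by
  classical
  have hexp : ∀ u : X (2 * n), u = ∑ j, (A⁻¹ *ᵥ u) j • fun i => A i j := by
    intro u
    have h1 : A *ᵥ (A⁻¹ *ᵥ u) = u := by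
      rw [Matrix.mulVec_mulVec, Matrix.mul_nonsing_inv A hA, Matrix.one_mulVec]
    conv_lhs => rw [← h1]
    funext i
    simp only [Matrix.mulVec, dotProduct, Finset.sum_apply, Pi.smul_apply, smul_eq_mul]
    refine Finset.sum_congr rfl fun j _ => ?_
    ring
  have hleft : ∀ (w : CV n), w ∈ strip n → ∀ (S : Finset (Fin (2 * n)))
      (a : Fin (2 * n) → ℝ) (F : Fin (2 * n) → CV n) (v : CV n),
      om c w (∑ j ∈ S, a j • F j) v = ∑ j ∈ S, a j * om c w (F j) v := by
    intro w hw S a F v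
    have ht := h.hk.triple w hw
    have hadd := flat_add_left ht c
    have hsm := flat_smul_left ht c
    induction S using Finset.induction_on with
    | empty =>
      simp only [Finset.sum_empty]
      have := hsm 0 0 v
      simpa using this
    | insert b S hb ih =>
      rw [Finset.sum_insert hb, Finset.sum_insert hb, ← ih]
      have h1 := hadd (a b • F b) (∑ j ∈ S, a j • F j) v
      have h2 := hsm (a b) (F b) v
      change om c w (a b • F b + ∑ j ∈ S, a j • F j) v = _ at h1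
      change om c w (a b • F b) v = _ at h2
      rw [h1, h2]
  have hanti : ∀ (w : CV n), w ∈ strip n → ∀ u v, om c w u v = -om c w v u := by
    intro w hw u v
    exact flat_anti (h.hk.triple w hw) c u v
  have hright : ∀ (w : CV n), w ∈ strip n → ∀ (S : Finset (Fin (2 * n)))
      (a : Fin (2 * n) → ℝ) (F : Fin (2 * n) → CV n) (v : CV n),
      om c w v (∑ j ∈ S, a j • F j) = ∑ j ∈ S, a j * om c w v (F j) := by
    intro w hw S a F v
    rw [hanti w hw, hleft w hw, ← Finset.sum_neg_distrib]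
    refine Finset.sum_congr rfl fun j _ => ?_
    rw [hanti w hw (F j) v]; ring
  have hmain : ∀ y : X (2 * n), om c (cx 0 y) (cx 0 u) (cx 0 v) =
      ∑ j, ∑ l, ((A⁻¹ *ᵥ u) j * (A⁻¹ *ᵥ v) l) *
        om c (cx 0 y) (cx 0 fun i => A i j) (cx 0 fun i => A i l) := by
    intro y
    have hw := cx_zero_mem (n := n) y
    have hu : cx 0 u = ∑ j, (A⁻¹ *ᵥ u) j • cx 0 fun i => A i j := by
      conv_lhs => rw [hexp u]
      rw [cx_zero_sum]
      refine Finset.sum_congr rfl fun j _ => cx_zero_smul _ _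
    have hv : cx 0 v = ∑ j, (A⁻¹ *ᵥ v) j • cx 0 fun i => A i j := by
      conv_lhs => rw [hexp v]
      rw [cx_zero_sum]
      refine Finset.sum_congr rfl fun j _ => cx_zero_smul _ _
    rw [hu, hleft _ hw]
    refine Finset.sum_congr rfl fun j _ => ?_
    rw [hv, hright _ hw, Finset.mul_sum]
    refine Finset.sum_congr rfl fun l _ => ?_
    ring
  have hc2 : ∀ j l, Continuous fun y : X (2 * n) => ((A⁻¹ *ᵥ u) j * (A⁻¹ *ᵥ v) l) *
      om c (cx 0 y) (cx 0 fun i => A i j) (cx 0 fun i => A i l) := by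
    intro j l
    exact continuous_const.mul (om_cont h c _ _)
  calc avg A (fun y => om c (cx 0 y) (cx 0 u) (cx 0 v))
      = avg A (fun y => ∑ j, ∑ l, ((A⁻¹ *ᵥ u) j * (A⁻¹ *ᵥ v) l) *
        om c (cx 0 y) (cx 0 fun i => A i j) (cx 0 fun i => A i l)) := by
        congr 1
        funext y
        exact hmain y
    _ = ∑ j, avg A (fun y => ∑ l, ((A⁻¹ *ᵥ u) j * (A⁻¹ *ᵥ v) l) *
        om c (cx 0 y) (cx 0 fun i => A i j) (cx 0 fun i => A i l)) :=
        avg_finset_sum Finset.univ fun j _ => continuous_finsetSum _ fun l _ => hc2 j l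
    _ = ∑ j, ∑ l, avg A (fun y => ((A⁻¹ *ᵥ u) j * (A⁻¹ *ᵥ v) l) *
        om c (cx 0 y) (cx 0 fun i => A i j) (cx 0 fun i => A i l)) :=
        Finset.sum_congr rfl fun j _ => avg_finset_sum Finset.univ fun l _ => hc2 j l
    _ = 0 := by
        refine Finset.sum_eq_zero fun j _ => Finset.sum_eq_zero fun l _ => ?_
        rw [avg_mul_left_real, avg_om_zero hA h hc j l, mul_zero]

/-- The pull-back to the flat torus has mean zero. -/
theorem mean_zero_zero {A I0 : Matrix (Fin (2 * n)) (Fin (2 * n)) ℝ} (hA : IsUnit A.det)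
    {η : ℝ} {om : Fin 3 → CV n → CV n → CV n → ℝ} (h : Near n A I0 η om)
    (a b : Fin (2 * n)) :
    avg A (Pf om (fun _ => (0 : X (2 * n))) a b) = 0 := by
  have hP : Pf om (fun _ => (0 : X (2 * n))) a b = fun y =>
      ((om 1 (cx 0 y) (cx 0 (Pi.single a 1)) (cx 0 (Pi.single b 1)) : ℝ) : ℂ) +
        Complex.I * ((om 2 (cx 0 y) (cx 0 (Pi.single a 1)) (cx 0 (Pi.single b 1)) : ℝ) : ℂ) := by
    funext y
    simp [Pf, sg]
  rw [hP]
  have h1 := avg_om_bilin hA h (c := 1) (by decide) (Pi.single a 1) (Pi.single b 1)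
  have h2 := avg_om_bilin hA h (c := 2) (by decide) (Pi.single a 1) (Pi.single b 1)
  have hc1 := om_cont h 1 (cx 0 (Pi.single a 1)) (cx 0 (Pi.single b 1))
  have hc2 := om_cont h 2 (cx 0 (Pi.single a 1)) (cx 0 (Pi.single b 1))
  have e0 := avg_add (A := A)
    (p := fun y => ((om 1 (cx 0 y) (cx 0 (Pi.single a 1)) (cx 0 (Pi.single b 1)) : ℝ) : ℂ))
    (q := fun y => Complex.I *
      ((om 2 (cx 0 y) (cx 0 (Pi.single a 1)) (cx 0 (Pi.single b 1)) : ℝ) : ℂ))
    (Complex.continuous_ofReal.comp hc1)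
    (continuous_const.mul (Complex.continuous_ofReal.comp hc2))
  rw [e0, avg_mul_left]
  have e1 := avg_ofReal (A := A)
    (fun y => om 1 (cx 0 y) (cx 0 (Pi.single a 1)) (cx 0 (Pi.single b 1)))
  have e2 := avg_ofReal (A := A)
    (fun y => om 2 (cx 0 y) (cx 0 (Pi.single a 1)) (cx 0 (Pi.single b 1)))
  rw [e1, e2, h1, h2]
  simp

end Pool.Agent.MCL
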