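import Pool.Agent.MCL.GeoL
import Pool.Agent.MCL.Fou
import Pool.Agent.MCL.Pull
import Pool.Agent.MCL.MeanH
import Pool.Agent.MCL.MeanZ

/-!
# MCL/Mean : the pull-back has mean zero

`pull_closed` for `φ (t, y) = cx (t f y) y` on `ℝ × X` (near `|t| ≤ 1`) gives
`∂_t P_{tf}(a, b) = ∂_a (..) + ∂_b (..)` with periodic `C¹` functions, so by `avg_pd` and
differentiation under the integral sign `t ↦ avg (Pf om (t f) a b)` is constant on `[0, 1]`
(`MCL/MeanH`). For `f = 0` expand `e_a, e_b` in the columns of `A`, and use `avg_shift` and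
`Near.zero` (Fubini) (`MCL/MeanZ`).
-/

set_option autoImplicit false

open MeasureTheory Set Filter Topology
open scoped Matrix

namespace Pool.Agent.MCL

open SYM (CV FlatTriple IsHKTripleOn)

/-- The pull-back has mean zero: this is clear for `f = 0` (no periods), and the mean does not
change along `t ↦ t f`. -/
theorem mean_zero {n : ℕ} {A I0 : Matrix (Fin (2 * n)) (Fin (2 * n)) ℝ} (hA : IsUnit A.det)
    {η : ℝ} {om : Fin 3 → CV n → CV n → CV n → ℝ} (h : Near n A I0 η om)
    {f : X (2 * n) → X (2 * n)} (hf : ContDiff ℝ (⊤ : ℕ∞) f) (hp : Per A f)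
    (hv : ∀ y, ‖f y‖ < 1) (a b : Fin (2 * n)) :
    avg A (Pf om f a b) = 0 := by
  rw [mean_homotopy hA h hf hp hv a b, mean_zero_zero hA h a b]

end Pool.Agent.MCL
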