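import Pool.Agent.MCL.GeoL

/-!
# MCL/Norm : normal form of a linear triple along a complex Lagrangian imaginary space
-/

set_option autoImplicit false

open MeasureTheory Set Filter Topology
open scoped Matrix

namespace Pool.Agent.MCL

open SYM (CV FlatTriple IsHKTripleOn imagSpace)

variable {n : ℕ}

/-- A real matrix acting on `ℂ^{2n}`. -/
noncomputable def mc (M : Matrix (Fin (2 * n)) (Fin (2 * n)) ℝ) (u : CV n) : CV n :=
  fun j => ∑ l, (M j l : ℂ) * u l

/-- The linear maps of a linear hyperkähler structure. -/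
private theorem bundle' {o : Fin 3 → CV n → CV n → ℝ} (ho : FlatTriple o) :
    ∃ (g : CV n →ₗ[ℝ] CV n →ₗ[ℝ] ℝ) (Q : Fin 3 → CV n →ₗ[ℝ] CV n),
      (∀ u v, g u v = g v u) ∧ (∀ u, u ≠ 0 → 0 < g u u) ∧
      (∀ a u, Q a (Q a u) = -u) ∧ (∀ u, Q 0 u = Q 1 (Q 2 u)) ∧
      (∀ u, Q 1 u = Complex.I • u) ∧ (∀ a u v, g (Q a u) (Q a v) = g u v) ∧
      ∀ a u v, o a u v = g (Q a u) v := by
  obtain ⟨g, Q, h, ho⟩ := ho
  refine ⟨LinearMap.mk₂ ℝ g h.g_add h.g_smul
    (fun u v w => by rw [h.g_symm, h.g_add, h.g_symm v, h.g_symm w])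
    (fun c u v => by rw [h.g_symm, h.g_smul, h.g_symm v]; rfl),
    fun a => { toFun := Q a, map_add' := h.Q_add a, map_smul' := h.Q_smul a },
    h.g_symm, h.g_pos, h.Q_sq, h.I_eq, h.J_eq, h.isometry, ho⟩

/-- Real vectors in `ℂ^{2n}`. -/
private noncomputable def RL (n : ℕ) : X (2 * n) →ₗ[ℝ] CV n where
  toFun x := fun j => (x j : ℂ)
  map_add' x y := by
    funext j
    simp
  map_smul' c x := by
    funext j
    simp

private theorem RL_apply (x : X (2 * n)) (j : Fin (2 * n)) : RL n x j = (x j : ℂ) := rfl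

private noncomputable def ReV (u : CV n) : X (2 * n) := fun j => (u j).re
private noncomputable def ImV (u : CV n) : X (2 * n) := fun j => (u j).im

private theorem split (u : CV n) : u = RL n (ReV u) + Complex.I • RL n (ImV u) := by
  funext j
  apply Complex.ext <;> simp [RL_apply, ReV, ImV]

private theorem RL_ne {x : X (2 * n)} (hx : x ≠ 0) : RL n x ≠ 0 := by
  intro h
  apply hx
  funext j
  have := congrFun h j
  rw [RL_apply] at this
  simpa using this

private theorem mem_imag (x : X (2 * n)) : Complex.I • RL n x ∈ imagSpace n := by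
  intro j
  simp [RL_apply]

private theorem mem_imag_eq {v : CV n} (hv : v ∈ imagSpace n) :
    v = Complex.I • RL n (ImV v) := by
  funext j
  have h := hv j
  apply Complex.ext <;> simp [RL_apply, ImV, h]

private theorem mc_eq (M : Matrix (Fin (2 * n)) (Fin (2 * n)) ℝ) (u : CV n) :
    mc M u = RL n (M *ᵥ ReV u) + Complex.I • RL n (M *ᵥ ImV u) := by
  funext j
  apply Complex.ext
  · simp [mc, RL_apply, ReV, ImV, Matrix.mulVec, dotProduct, Complex.re_sum]
  · simp [mc, RL_apply, ReV, ImV, Matrix.mulVec, dotProduct, Complex.im_sum]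

private theorem QS0_eq (I0 : Matrix (Fin (2 * n)) (Fin (2 * n)) ℝ) (u : CV n) :
    QS I0 0 u = RL n (-(I0 *ᵥ ReV u)) + Complex.I • RL n (I0 *ᵥ ImV u) := by
  funext j
  apply Complex.ext
  · simp [QS, RL_apply, ReV, ImV, Matrix.mulVec, dotProduct, Complex.re_sum]
  · simp [QS, RL_apply, ReV, ImV, Matrix.mulVec, dotProduct, Complex.im_sum]

private theorem QS1_eq (I0 : Matrix (Fin (2 * n)) (Fin (2 * n)) ℝ) (u : CV n) :
    QS I0 1 u = Complex.I • u := by
  funext j
  simp [QS]

private theorem QS2_eq (I0 : Matrix (Fin (2 * n)) (Fin (2 * n)) ℝ) (u : CV n) :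
    QS I0 2 u = -(Complex.I • QS I0 0 u) := by
  funext j
  simp [QS]

private theorem gS_eq (u v : CV n) : gS u v = ReV u ⬝ᵥ ReV v + ImV u ⬝ᵥ ImV v := by
  simp only [gS, dotProduct, ReV, ImV, ← Finset.sum_add_distrib]
  refine Finset.sum_congr rfl fun j _ => ?_
  simp [Complex.mul_re]

private theorem ReV_split (x y : X (2 * n)) : ReV (RL n x + Complex.I • RL n y) = x := by
  funext j
  simp [ReV, RL_apply]

private theorem ImV_split (x y : X (2 * n)) : ImV (RL n x + Complex.I • RL n y) = y := by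
  funext j
  simp [ImV, RL_apply]

open scoped MatrixOrder in
/-- A positive definite form is `1` in a suitable basis. -/
private theorem exists_orth {m : ℕ} (G : Matrix (Fin m) (Fin m) ℝ) (hG : G.PosDef) :
    ∃ M : Matrix (Fin m) (Fin m) ℝ, IsUnit M.det ∧ Mᵀ * G * M = 1 := by
  obtain ⟨B, hB⟩ := CStarAlgebra.nonneg_iff_eq_star_mul_self.mp hG.posSemidef.nonneg
  have hstar : star B = Bᵀ := by
    ext i j
    simp [Matrix.star_apply]
  rw [hstar] at hB
  have hdet : IsUnit B.det := by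
    rw [isUnit_iff_ne_zero]
    intro h0
    have h1 := hG.det_pos
    rw [hB, Matrix.det_mul, h0, mul_zero] at h1
    exact lt_irrefl _ h1
  refine ⟨B⁻¹, ?_, ?_⟩
  · exact (Matrix.isUnit_nonsing_inv_det_iff).2 hdet
  · rw [hB]
    have h1 : B⁻¹ᵀ * (Bᵀ * B) * B⁻¹ = (B * B⁻¹)ᵀ * (B * B⁻¹) := by
      rw [Matrix.transpose_mul]
      simp only [Matrix.mul_assoc]
    rw [h1, Matrix.mul_nonsing_inv _ hdet]
    simp

/-- Proof: `g(e_j, i e_l) = 0` since `o 1` vanishes on `i ℝ^{2n}`; let `Mᵀ G M = 1` for the Gram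
matrix `G` of `g` on `ℝ^{2n}`; `I (i y) = i I1 y`, `I w = - I1 w̄`, `I0 = M⁻¹ I1 M`. -/
theorem norm_form {o : Fin 3 → CV n → CV n → ℝ} (ho : FlatTriple o)
    (h12 : ∀ u ∈ imagSpace n, ∀ v ∈ imagSpace n, o 1 u v = 0 ∧ o 2 u v = 0)
    (hI : ∀ u ∈ imagSpace n, ∃ v ∈ imagSpace n, ∀ x, o 0 u x = o 1 v (Complex.I • x)) :
    ∃ I0 M : Matrix (Fin (2 * n)) (Fin (2 * n)) ℝ, IsCx I0 ∧ IsUnit M.det ∧
      ∀ c u v, o c (mc M u) (mc M v) = oS I0 c u v := by
  obtain ⟨g, Q, hs, hp, hQQ, hQI, hQJ, hiso, ho⟩ := bundle' ho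
  have hII : ∀ u : CV n, Complex.I • Complex.I • u = -u := by
    intro u
    rw [smul_smul, Complex.I_mul_I, neg_smul, one_smul]
  -- `g` is invariant under `i`
  have hgJ : ∀ u v, g (Complex.I • u) (Complex.I • v) = g u v := by
    intro u v
    rw [← hQJ, ← hQJ, hiso]
  -- `g(x, i y) = 0`
  have hmix : ∀ x y, g (RL n x) (Complex.I • RL n y) = 0 := by
    intro x y
    have h := (h12 _ (mem_imag x) _ (mem_imag y)).1
    rw [ho, hQJ, hII, map_neg, LinearMap.neg_apply, neg_eq_zero] at h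
    exact h
  have hmix' : ∀ x y, g (Complex.I • RL n y) (RL n x) = 0 := by
    intro x y
    rw [hs, hmix]
  -- `g` on `x + i y`
  have hgsplit : ∀ x y x' y' : X (2 * n), g (RL n x + Complex.I • RL n y)
      (RL n x' + Complex.I • RL n y') = g (RL n x) (RL n x') + g (RL n y) (RL n y') := by
    intro x y x' y'
    simp only [map_add, LinearMap.add_apply, hmix, hmix', hgJ]
    ring
  -- the Gram matrix
  set G : Matrix (Fin (2 * n)) (Fin (2 * n)) ℝ :=
    Matrix.of fun j l => g (RL n (Pi.single j 1)) (RL n (Pi.single l 1)) with hGdef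
  have hG : ∀ x y : X (2 * n), g (RL n x) (RL n y) = x ⬝ᵥ (G *ᵥ y) := by
    intro x y
    have hx : ∀ x : X (2 * n), x = ∑ j, x j • (Pi.single j 1 : X (2 * n)) := by
      intro x
      funext l
      rw [Finset.sum_apply]
      simp [Pi.single_apply]
    conv_lhs => rw [hx x, hx y]
    simp only [map_sum, map_smul, LinearMap.sum_apply, LinearMap.smul_apply, smul_eq_mul]
    simp only [dotProduct, Matrix.mulVec, hGdef, Matrix.of_apply, Finset.mul_sum]
    rw [Finset.sum_comm]
    refine Finset.sum_congr rfl fun j _ => Finset.sum_congr rfl fun l _ => ?_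
    ring
  have hGpd : G.PosDef := by
    refine Matrix.PosDef.of_dotProduct_mulVec_pos ?_ ?_
    · ext j l
      simp only [Matrix.conjTranspose_apply, hGdef, Matrix.of_apply, star_trivial]
      exact hs _ _
    · intro x hx
      rw [star_trivial, ← hG]
      exact hp _ (RL_ne hx)
  obtain ⟨M, hM, hMG⟩ := exists_orth G hGpd
  have hgM : ∀ x y : X (2 * n), g (RL n (M *ᵥ x)) (RL n (M *ᵥ y)) = x ⬝ᵥ y := by
    intro x y
    rw [hG, Matrix.mulVec_mulVec, Matrix.dotProduct_mulVec, ← Matrix.vecMul_transpose,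
      Matrix.vecMul_vecMul, ← Matrix.mul_assoc, hMG, Matrix.vecMul_one]
  have hgM' : ∀ u v : CV n, g (mc M u) (mc M v) = gS u v := by
    intro u v
    rw [mc_eq, mc_eq, hgsplit, hgM, hgM, gS_eq]
  -- the matrix of `I`
  have hQV : ∀ u ∈ imagSpace n, Q 0 u ∈ imagSpace n := by
    intro u hu
    obtain ⟨v, hv, h⟩ := hI u hu
    have h1 : ∀ x, g (Q 0 u - v) x = 0 := by
      intro x
      have h2 := h x
      rw [ho, ho, hQJ, hgJ] at h2
      rw [map_sub, LinearMap.sub_apply, h2, sub_self]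
    have h3 : Q 0 u - v = 0 := by
      by_contra hne
      exact absurd (h1 (Q 0 u - v)) (hp _ hne).ne'
    rw [sub_eq_zero.1 h3]
    exact hv
  let L1 : X (2 * n) →ₗ[ℝ] X (2 * n) :=
    { toFun := fun y => ImV (Q 0 (Complex.I • RL n y))
      map_add' := by
        intro x y
        rw [map_add, smul_add, map_add]
        funext j
        simp [ImV]
      map_smul' := by
        intro c x
        rw [(RL n).map_smul, smul_comm Complex.I c, (Q 0).map_smul]
        funext j
        simp [ImV] }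
  set I1 : Matrix (Fin (2 * n)) (Fin (2 * n)) ℝ := LinearMap.toMatrix' L1 with hI1
  have hQ0im : ∀ y, Q 0 (Complex.I • RL n y) = Complex.I • RL n (I1 *ᵥ y) := by
    intro y
    rw [hI1, LinearMap.toMatrix'_mulVec]
    exact mem_imag_eq (hQV _ (mem_imag y))
  -- `Q 0` anticommutes with `i`
  have hQ2 : ∀ u, Q 2 u = -(Complex.I • Q 0 u) := by
    intro u
    rw [hQI, hQJ, hII, neg_neg]
  have hanti : ∀ u, Q 0 (Complex.I • u) = -(Complex.I • Q 0 u) := by
    intro u
    -- `-u = Q 2 (Q 2 u) = I Q0 (I Q0 u)`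
    have h1 : ∀ w, Complex.I • Q 0 (Complex.I • Q 0 w) = -w := by
      intro w
      have := hQQ 2 w
      rw [hQ2, hQ2, map_neg, smul_neg, neg_neg] at this
      exact this
    have h2 : ∀ w, Q 0 (Complex.I • Q 0 w) = Complex.I • w := by
      intro w
      have h3 := congrArg (fun z => -(Complex.I • z)) (h1 w)
      simp only [hII, neg_neg, smul_neg] at h3
      exact h3
    have h4 := h2 (Q 0 u)
    rw [hQQ, smul_neg, map_neg] at h4
    rw [← neg_neg (Q 0 (Complex.I • u)), h4]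
  have hQ0re : ∀ x, Q 0 (RL n x) = -RL n (I1 *ᵥ x) := by
    intro x
    have h1 : RL n x = -(Complex.I • (Complex.I • RL n x)) := by rw [hII, neg_neg]
    rw [h1, map_neg, hanti, neg_neg, hQ0im, hII]
  have hI1sq : I1 * I1 = -1 := by
    apply Matrix.toLin'.injective
    apply LinearMap.ext
    intro y
    have h1 : Q 0 (Q 0 (RL n y)) = -RL n y := hQQ 0 _
    rw [hQ0re, map_neg, hQ0re, neg_neg, ← map_neg, Matrix.mulVec_mulVec] at h1
    have h2 : ∀ x y : X (2 * n), RL n x = RL n y → x = y := by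
      intro x y h
      have := congrArg ReV h
      have e : ∀ x : X (2 * n), ReV (RL n x) = x := by
        intro x
        funext j
        simp [ReV, RL_apply]
      rwa [e, e] at this
    have h3 := h2 _ _ h1
    rw [Matrix.toLin'_apply, Matrix.toLin'_apply, h3, Matrix.neg_mulVec, Matrix.one_mulVec]
  have hMM : M * M⁻¹ = 1 := Matrix.mul_nonsing_inv _ hM
  have hMM' : M⁻¹ * M = 1 := Matrix.nonsing_inv_mul _ hM
  have hMI : M * (M⁻¹ * I1 * M) = I1 * M := by
    rw [← Matrix.mul_assoc, ← Matrix.mul_assoc, hMM, Matrix.one_mul]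
  have hQM : ∀ c u, Q c (mc M u) = mc M (QS (M⁻¹ * I1 * M) c u) := by
    have h0 : ∀ u, Q 0 (mc M u) = mc M (QS (M⁻¹ * I1 * M) 0 u) := by
      intro u
      rw [mc_eq, QS0_eq, map_add, hQ0re, hQ0im, mc_eq, ReV_split, ImV_split,
        Matrix.mulVec_mulVec, Matrix.mulVec_mulVec, ← hMI, Matrix.mulVec_neg,
        Matrix.mulVec_mulVec, Matrix.mulVec_mulVec, map_neg]
    have hI' : ∀ u : CV n, mc M (Complex.I • u) = Complex.I • mc M u := by
      intro u
      funext j
      simp only [mc, Pi.smul_apply, smul_eq_mul, Finset.mul_sum]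
      refine Finset.sum_congr rfl fun l _ => ?_
      ring
    have hN' : ∀ u : CV n, mc M (-u) = -mc M u := by
      intro u
      funext j
      simp only [mc, Pi.neg_apply, mul_neg, Finset.sum_neg_distrib]
    intro c u
    fin_cases c
    · exact h0 u
    · change Q 1 (mc M u) = mc M (QS (M⁻¹ * I1 * M) 1 u)
      rw [hQJ, QS1_eq, hI']
    · change Q 2 (mc M u) = mc M (QS (M⁻¹ * I1 * M) 2 u)
      rw [hQ2, QS2_eq, hN', hI', h0]
  refine ⟨M⁻¹ * I1 * M, M, ⟨?_, ?_⟩, hM, ?_⟩
  · -- antisymmetry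
    have hskew : ∀ u v, g (Q 0 u) v = -g u (Q 0 v) := by
      intro u v
      have h1 := hiso 0 u (Q 0 v)
      rw [hQQ, map_neg] at h1
      linarith
    have h2 : ∀ x y : X (2 * n), ((M⁻¹ * I1 * M) *ᵥ x) ⬝ᵥ y = -(x ⬝ᵥ ((M⁻¹ * I1 * M) *ᵥ y)) := by
      intro x y
      rw [← hgM, ← hgM, Matrix.mulVec_mulVec, Matrix.mulVec_mulVec, hMI,
        ← Matrix.mulVec_mulVec, ← Matrix.mulVec_mulVec]
      have h3 := hskew (RL n (M *ᵥ x)) (RL n (M *ᵥ y))
      rw [hQ0re, hQ0re, map_neg, map_neg, LinearMap.neg_apply, neg_neg] at h3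
      linarith
    ext j l
    have h4 := h2 (Pi.single j 1) (Pi.single l 1)
    rw [Matrix.mulVec_single_one, Matrix.mulVec_single_one, dotProduct_single_one,
      single_one_dotProduct] at h4
    simp only [Matrix.col_apply] at h4
    rw [Matrix.transpose_apply, Matrix.neg_apply]
    exact h4
  · calc M⁻¹ * I1 * M * (M⁻¹ * I1 * M) = M⁻¹ * I1 * (M * M⁻¹) * I1 * M := by
          simp only [Matrix.mul_assoc]
      _ = M⁻¹ * (I1 * I1) * M := by
          rw [hMM, Matrix.mul_one]
          simp only [Matrix.mul_assoc]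
      _ = -1 := by
          rw [hI1sq, Matrix.mul_neg, Matrix.mul_one, Matrix.neg_mul, hMM']
  · intro c u v
    rw [ho, hQM, hgM']
    rfl

end Pool.Agent.MCL
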