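import Pool.Agent.MCL.GeoL
import Pool.Agent.MCL.Alg

/-!
# MCL/Point : on a graph the part of type `(0, 2)` of the pull-back of `ω_J + i ω_K` is quadratic
-/

set_option autoImplicit false

open MeasureTheory Set Filter Topology
open scoped Matrix

namespace Pool.Agent.MCL

open SYM (CV FlatTriple IsHKTripleOn)

/-- Real-linear functions in coordinates. -/
theorem pt_lin {d : ℕ} {F : X d → ℂ} (h1 : ∀ u v, F (u + v) = F u + F v)
    (h2 : ∀ (t : ℝ) u, F (t • u) = (t : ℂ) * F u) (u : X d) :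
    F u = ∑ a, (u a : ℂ) * F (Pi.single a 1) := by
  let L : X d →ₗ[ℝ] ℂ :=
    { toFun := F
      map_add' := h1
      map_smul' := fun t u => by simp [h2 t u] }
  have hu : u = ∑ a, u a • (Pi.single a (1 : ℝ) : X d) := by
    funext j
    simp [Finset.sum_apply, Pi.single_apply]
  have h3 : L u = L (∑ a, u a • (Pi.single a (1 : ℝ) : X d)) := by rw [← hu]
  rw [map_sum] at h3
  calc F u = L u := rfl
    _ = ∑ a, L (u a • (Pi.single a (1 : ℝ) : X d)) := h3
    _ = _ := Finset.sum_congr rfl fun a _ => h2 _ _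

section sg

variable {n : ℕ} {o : Fin 3 → CV n → CV n → ℝ}

theorem pt_sg_add_left (ho : FlatTriple o) (u u' v : CV n) :
    sg o (u + u') v = sg o u v + sg o u' v := by
  simp only [sg, flat_add_left ho]
  push_cast
  ring

theorem pt_sg_smul_left (ho : FlatTriple o) (t : ℝ) (u v : CV n) :
    sg o (t • u) v = (t : ℂ) * sg o u v := by
  simp only [sg, flat_smul_left ho]
  push_cast
  ring

theorem pt_sg_anti (ho : FlatTriple o) (u v : CV n) : sg o u v = -sg o v u := by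
  simp only [sg]
  rw [flat_anti ho 1 u v, flat_anti ho 2 u v]
  push_cast
  ring

theorem pt_sg_add_right (ho : FlatTriple o) (u v v' : CV n) :
    sg o u (v + v') = sg o u v + sg o u v' := by
  rw [pt_sg_anti ho, pt_sg_add_left ho, pt_sg_anti ho v u, pt_sg_anti ho v' u]
  ring

theorem pt_sg_smul_right (ho : FlatTriple o) (t : ℝ) (u v : CV n) :
    sg o u (t • v) = (t : ℂ) * sg o u v := by
  rw [pt_sg_anti ho, pt_sg_smul_left ho, pt_sg_anti ho v u]
  ring

theorem pt_sg_sub_left (ho : FlatTriple o) (u u' v : CV n) :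
    sg o (u - u') v = sg o u v - sg o u' v := by
  have h1 : u - u' = u + (-1 : ℝ) • u' := by
    rw [neg_one_smul, sub_eq_add_neg]
  rw [h1, pt_sg_add_left ho, pt_sg_smul_left ho]
  push_cast
  ring

theorem pt_sg_sub_right (ho : FlatTriple o) (u v v' : CV n) :
    sg o u (v - v') = sg o u v - sg o u v' := by
  rw [pt_sg_anti ho, pt_sg_sub_left ho, pt_sg_anti ho v u, pt_sg_anti ho v' u]
  ring

/-- `σ` is of type `(2, 0)` for `I`. -/
theorem pt_sg_I {g : CV n → CV n → ℝ} {Q : Fin 3 → CV n → CV n} (hQ : SYM.IsHKStructure g Q)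
    (ho : ∀ a u v, o a u v = g (Q a u) v) (u v : CV n) :
    sg o (Q 0 u) v = Complex.I * sg o u v := by
  have hneg : ∀ a w, Q a (-w) = -Q a w := fun a w => by
    have := hQ.Q_smul a (-1) w
    simpa using this
  have hgneg : ∀ w w', g (-w) w' = -g w w' := fun w w' => by
    have := hQ.g_smul (-1) w w'
    simpa using this
  -- `K (i v) = - i K v`
  have h2 : ∀ w, Q 2 (Complex.I • w) = -(Complex.I • Q 2 w) := by
    intro w
    have h3 := hQ.Q_sq 0 (Q 2 w)
    rw [hQ.I_eq, hQ.I_eq, hQ.Q_sq 2, hQ.J_eq, hQ.J_eq, smul_neg, hneg] at h3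
    have h4 : Complex.I • Q 2 (Complex.I • w) = Q 2 w := by
      have h5 := congrArg Neg.neg h3
      simpa using h5
    calc Q 2 (Complex.I • w) = -(Complex.I • (Complex.I • Q 2 (Complex.I • w))) := by
          rw [smul_smul, Complex.I_mul_I, neg_one_smul, neg_neg]
      _ = -(Complex.I • Q 2 w) := by rw [h4]
  have h20 : Q 2 (Q 0 u) = Q 1 u := by
    rw [hQ.I_eq, hQ.J_eq, h2, hQ.Q_sq, smul_neg, neg_neg, hQ.J_eq]
  have h10 : Q 1 (Q 0 u) = -Q 2 u := by
    rw [hQ.I_eq, hQ.Q_sq]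
  simp only [sg, ho, h20, h10, hgneg]
  push_cast
  linear_combination (-(g (Q 2 u) v : ℂ)) * Complex.I_mul_I

theorem pt_sg_close {I0 : Matrix (Fin (2 * n)) (Fin (2 * n)) ℝ} {η : ℝ}
    (h : ∀ c u v, |o c u v - oS I0 c u v| ≤ η * ‖u‖ * ‖v‖) (u v : CV n) :
    ‖sg o u v - sg (oS I0) u v‖ ≤ 2 * (η * ‖u‖ * ‖v‖) := by
  have h1 : sg o u v - sg (oS I0) u v =
      ((o 1 u v - oS I0 1 u v : ℝ) : ℂ) + Complex.I * ((o 2 u v - oS I0 2 u v : ℝ) : ℂ) := by
    simp only [sg]
    push_cast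
    ring
  rw [h1]
  refine (norm_add_le _ _).trans ?_
  rw [norm_mul, Complex.norm_I, one_mul, Complex.norm_real, Complex.norm_real,
    Real.norm_eq_abs, Real.norm_eq_abs]
  linarith [h 1 u v, h 2 u v]

/-- `σ_S` vanishes on real vectors. -/
theorem pt_sgS_real (I0 : Matrix (Fin (2 * n)) (Fin (2 * n)) ℝ) (x x' : X (2 * n)) :
    sg (oS I0) (cx x 0) (cx x' 0) = 0 := by
  have h1 : oS I0 1 (cx x 0) (cx x' 0) = 0 := by
    simp [oS, gS, QS, cx]
  have h2 : oS I0 2 (cx x 0) (cx x' 0) = 0 := by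
    have h3 : ∀ j, (∑ l, (I0 j l : ℂ) * (starRingEnd ℂ) (cx x 0 l) : ℂ) =
        ((∑ l, I0 j l * x l : ℝ) : ℂ) := by
      intro j
      simp [cx]
    simp only [oS, gS, QS]
    refine Finset.sum_eq_zero fun j _ => ?_
    simp only [Matrix.cons_val]
    rw [h3 j]
    simp [cx]
  simp [sg, h1, h2]

theorem pt_sgS_single (I0 : Matrix (Fin (2 * n)) (Fin (2 * n)) ℝ) (x : X (2 * n))
    (j : Fin (2 * n)) : |x j| ≤ ‖sg (oS I0) (cx x 0) (cx 0 (Pi.single j 1))‖ := by
  have h1 : oS I0 1 (cx x 0) (cx 0 (Pi.single j 1)) = x j := by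
    simp only [oS, gS, QS, cx, Matrix.cons_val]
    rw [Finset.sum_eq_single j]
    · simp
    · intro l _ hl
      simp [Pi.single_eq_of_ne hl]
    · simp
  have h2 : (sg (oS I0) (cx x 0) (cx 0 (Pi.single j 1))).re = x j := by
    simp [sg, h1]
  rw [← h2]
  exact Complex.abs_re_le_norm _

end sg

section QS0

variable {n : ℕ}

theorem pt_gS_sub (u u' v : CV n) : gS (u - u') v = gS u v - gS u' v := by
  simp only [gS, Pi.sub_apply, sub_mul, Complex.sub_re, Finset.sum_sub_distrib]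

theorem pt_gS_self (u : CV n) (j : Fin (2 * n)) : ‖u j‖ ^ 2 ≤ gS u u := by
  have h1 : ∀ l, (u l * (starRingEnd ℂ) (u l)).re = ‖u l‖ ^ 2 := by
    intro l
    rw [Complex.mul_conj, Complex.ofReal_re, Complex.normSq_eq_norm_sq]
  simp only [gS, h1]
  exact Finset.single_le_sum (f := fun l => ‖u l‖ ^ 2) (fun l _ => sq_nonneg _)
    (Finset.mem_univ j)

theorem pt_QS_add (I0 : Matrix (Fin (2 * n)) (Fin (2 * n)) ℝ) (u v : CV n) :
    QS I0 0 (u + v) = QS I0 0 u + QS I0 0 v := by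
  funext j
  simp only [QS, Matrix.cons_val_zero, Pi.add_apply, map_add, mul_add, Finset.sum_add_distrib]
  ring

theorem pt_QS_bound (I0 : Matrix (Fin (2 * n)) (Fin (2 * n)) ℝ) (u : CV n) :
    ‖QS I0 0 u‖ ≤ (∑ j, ∑ l, |I0 j l|) * ‖u‖ := by
  have hB : 0 ≤ (∑ j, ∑ l, |I0 j l|) := Finset.sum_nonneg fun j _ =>
    Finset.sum_nonneg fun l _ => abs_nonneg _
  refine (pi_norm_le_iff_of_nonneg (mul_nonneg hB (norm_nonneg _))).2 fun j => ?_
  simp only [QS, Matrix.cons_val_zero]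
  rw [norm_neg]
  refine (norm_sum_le _ _).trans ?_
  have h1 : ∑ l, ‖(I0 j l : ℂ) * (starRingEnd ℂ) (u l)‖ ≤ (∑ l, |I0 j l|) * ‖u‖ := by
    rw [Finset.sum_mul]
    refine Finset.sum_le_sum fun l _ => ?_
    rw [norm_mul, RCLike.norm_conj, Complex.norm_real, Real.norm_eq_abs]
    exact mul_le_mul_of_nonneg_left (norm_le_pi_norm u l) (abs_nonneg _)
  refine h1.trans (mul_le_mul_of_nonneg_right ?_ (norm_nonneg _))
  exact Finset.single_le_sum (f := fun j => ∑ l, |I0 j l|)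
    (fun j _ => Finset.sum_nonneg fun l _ => abs_nonneg _) (Finset.mem_univ j)

theorem pt_QS_single (I0 : Matrix (Fin (2 * n)) (Fin (2 * n)) ℝ) (a : Fin (2 * n)) :
    QS I0 0 (cx 0 (Pi.single a 1)) = cx 0 (fun j => I0 j a) := by
  funext j
  simp only [QS, Matrix.cons_val_zero, cx]
  rw [Finset.sum_eq_single a]
  · simp
    ring
  · intro l _ hl
    simp [Pi.single_eq_of_ne hl]
  · simp

theorem pt_Q0 {I0 : Matrix (Fin (2 * n)) (Fin (2 * n)) ℝ} {η : ℝ} (hη : 0 ≤ η) (hη' : η ≤ 1 / 2)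
    {o : Fin 3 → CV n → CV n → ℝ} {g : CV n → CV n → ℝ} {Q : Fin 3 → CV n → CV n}
    (hQ : SYM.IsHKStructure g Q) (ho : ∀ a u v, o a u v = g (Q a u) v)
    (h : ∀ c u v, |o c u v - oS I0 c u v| ≤ η * ‖u‖ * ‖v‖) (w : CV n) :
    ‖Q 0 w - QS I0 0 w‖ ≤ 2 * η * ((∑ j, ∑ l, |I0 j l|) + 1) * ‖w‖ := by
  set B := (∑ j, ∑ l, |I0 j l|) with hB
  have hgneg : ∀ w w', g (-w) w' = -g w w' := fun w w' => by
    have := hQ.g_smul (-1) w w'
    simpa using this
  have hg : ∀ u v, |gS u v - g u v| ≤ η * ‖u‖ * ‖v‖ := by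
    intro u v
    have h1 := h 1 (Complex.I • u) v
    have h2 : o 1 (Complex.I • u) v = -g u v := by
      rw [ho, hQ.J_eq, smul_smul, Complex.I_mul_I, neg_one_smul, hgneg]
    have h3 : oS I0 1 (Complex.I • u) v = -gS u v := by
      simp only [oS, gS, QS, Matrix.cons_val, Pi.smul_apply, smul_eq_mul]
      rw [← Finset.sum_neg_distrib]
      refine Finset.sum_congr rfl fun j _ => ?_
      rw [← mul_assoc, Complex.I_mul_I, neg_one_mul, neg_mul, Complex.neg_re]
    rw [h2, h3, norm_smul, Complex.norm_I, one_mul] at h1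
    have h4 : -g u v - -gS u v = gS u v - g u v := by ring
    rwa [h4] at h1
  set D := Q 0 w - QS I0 0 w with hD
  have hK : gS D D ≤ η * (‖Q 0 w‖ + ‖w‖) * ‖D‖ := by
    have h1 : gS D D = (gS (Q 0 w) D - g (Q 0 w) D) + (o 0 w D - oS I0 0 w D) := by
      conv_lhs => rw [hD, pt_gS_sub]
      rw [ho]
      simp only [oS]
      ring
    rw [h1]
    have h2 := (abs_le.1 (hg (Q 0 w) D)).2
    have h3 := (abs_le.1 (h 0 w D)).2
    nlinarith
  have hK2 : ‖D‖ ≤ η * (‖Q 0 w‖ + ‖w‖) := by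
    set K := η * (‖Q 0 w‖ + ‖w‖) with hKd
    have hK0 : 0 ≤ K := by positivity
    by_contra hcon
    push Not at hcon
    have hDpos : 0 < ‖D‖ := lt_of_le_of_lt hK0 hcon
    have h1 : ‖D‖ ≤ √(K * ‖D‖) := by
      refine (pi_norm_le_iff_of_nonneg (Real.sqrt_nonneg _)).2 fun j => ?_
      exact Real.le_sqrt_of_sq_le ((pt_gS_self D j).trans hK)
    have h2 : ‖D‖ ^ 2 ≤ K * ‖D‖ := by
      have := (Real.le_sqrt' hDpos).1 h1
      exact this
    nlinarith
  have h3 : ‖Q 0 w‖ ≤ ‖D‖ + B * ‖w‖ := by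
    have h4 : Q 0 w = D + QS I0 0 w := by rw [hD]; abel
    rw [h4]
    exact (norm_add_le _ _).trans (add_le_add_right (pt_QS_bound I0 w) _)
  have h5 : ‖D‖ ≤ η * (‖D‖ + B * ‖w‖ + ‖w‖) :=
    hK2.trans (mul_le_mul_of_nonneg_left (by linarith) hη)
  have h6 : η * ‖D‖ ≤ 1 / 2 * ‖D‖ := mul_le_mul_of_nonneg_right hη' (norm_nonneg _)
  nlinarith

end QS0

theorem pt_Em {n : ℕ} (I0 : Matrix (Fin (2 * n)) (Fin (2 * n)) ℝ) (F : X (2 * n) → ℂ)
    (hF : ∀ u, F u = ∑ c, (u c : ℂ) * F (Pi.single c 1)) (a : Fin (2 * n)) :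
    ∑ c, Em I0 c a * F (Pi.single c 1) =
      1 / 2 * (F (Pi.single a 1) + Complex.I * F (fun j => I0 j a)) := by
  have h1 : ∀ c, Em I0 c a = 1 / 2 * ((if c = a then 1 else 0) + Complex.I * (I0 c a : ℂ)) := by
    intro c
    simp [Em, Matrix.one_apply]
  calc ∑ c, Em I0 c a * F (Pi.single c 1)
      = ∑ c, ((if c = a then 1 / 2 * F (Pi.single c 1) else 0) +
          1 / 2 * Complex.I * ((I0 c a : ℂ) * F (Pi.single c 1))) := by
        refine Finset.sum_congr rfl fun c _ => ?_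
        rw [h1 c]
        split_ifs <;> ring
    _ = 1 / 2 * F (Pi.single a 1) +
          1 / 2 * Complex.I * ∑ c, (I0 c a : ℂ) * F (Pi.single c 1) := by
        rw [Finset.sum_add_distrib, Finset.sum_ite_eq', if_pos (Finset.mem_univ a),
          Finset.mul_sum]
    _ = _ := by
        rw [hF (fun j => I0 j a)]
        ring

/-- Pointwise estimate. Proof: `W u = L u + i u`, `I (W u) = W (c u) + N u` with `N u` real; then
`σ(N u, W v) = i p(u, v) - p(c u, v)`, so `|N u| ≤ C |p| |u|`, and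
`p(u, v) - p(c u, c v) + i p(c u, v) + i p(u, c v) = -σ(N u, N v)`; finally `|c - I0|`, `|p|` and
`|σ - σ_S|` are `≤ C (η + δ)`. -/
theorem point (n : ℕ) (I0 : Matrix (Fin (2 * n)) (Fin (2 * n)) ℝ) (hI : IsCx I0) :
    ∃ C > 0, ∃ c0 > 0, ∀ (η δ : ℝ), 0 ≤ η → η ≤ c0 → 0 ≤ δ → δ ≤ c0 →
      ∀ o : Fin 3 → CV n → CV n → ℝ, FlatTriple o →
      (∀ c u v, |o c u v - oS I0 c u v| ≤ η * ‖u‖ * ‖v‖) →
      ∀ L : X (2 * n) →L[ℝ] X (2 * n), ‖L‖ ≤ δ →
      ∀ p : Fin (2 * n) → Fin (2 * n) → ℂ,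
      (∀ a b, p a b = sg o (cx (L (Pi.single a 1)) (Pi.single a 1))
        (cx (L (Pi.single b 1)) (Pi.single b 1))) →
      ∀ M : ℝ, (∀ a b, ‖p a b‖ ≤ M) →
      ∀ a b, ‖∑ c, ∑ e, Em I0 c a * Em I0 e b * p c e‖ ≤ C * (η + δ) * M := by
  set B := (∑ j, ∑ l, |I0 j l|) with hB
  have hB0 : 0 ≤ B := Finset.sum_nonneg fun j _ => Finset.sum_nonneg fun l _ => abs_nonneg _
  set m : ℝ := ((2 * n : ℕ) : ℝ) with hm
  have hm0 : 0 ≤ m := Nat.cast_nonneg _
  refine ⟨m ^ 2 * (4 * (2 * B + 2) * (3 * B + 2) + 4 * (B + 1) * (3 * B + 3)) + 1, by positivity,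
    1 / 8, by norm_num, ?_⟩
  intro η δ hη hη8 hδ hδ8 o ho hcl L hL p hp M hM a b
  obtain ⟨g, Q, hQ, hoQ⟩ := id ho
  have hM0 : 0 ≤ M := (norm_nonneg _).trans (hM a b)
  -- the frame
  set W : X (2 * n) → CV n := fun u => cx (L u) u with hW
  have hWadd : ∀ u v, W (u + v) = W u + W v := fun u v => by
    simp only [hW, map_add, cx_add]
  have hWsmul : ∀ (t : ℝ) u, W (t • u) = t • W u := fun t u => by
    simp only [hW, map_smul, cx_smul]
  have hLle : ∀ u, ‖L u‖ ≤ δ * ‖u‖ := fun u =>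
    (L.le_opNorm u).trans (mul_le_mul_of_nonneg_right hL (norm_nonneg _))
  have hWle : ∀ u, ‖W u‖ ≤ 2 * ‖u‖ := fun u => by
    refine (norm_cx_le _ _).trans ?_
    have h1 := hLle u
    have h2 : δ * ‖u‖ ≤ 1 * ‖u‖ := mul_le_mul_of_nonneg_right (by linarith) (norm_nonneg _)
    linarith
  set P : X (2 * n) → X (2 * n) → ℂ := fun u v => sg o (W u) (W v) with hP
  have hPexpL : ∀ u v, P u v = ∑ c, (u c : ℂ) * P (Pi.single c 1) v := fun u v =>
    pt_lin (F := fun u => P u v) (fun u u' => by simp only [hP, hWadd, pt_sg_add_left ho])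
      (fun t u => by simp only [hP, hWsmul, pt_sg_smul_left ho]) u
  have hPexpR : ∀ u v, P u v = ∑ c, (v c : ℂ) * P u (Pi.single c 1) := fun u v =>
    pt_lin (F := fun v => P u v) (fun v v' => by simp only [hP, hWadd, pt_sg_add_right ho])
      (fun t v => by simp only [hP, hWsmul, pt_sg_smul_right ho]) v
  have hPsubL : ∀ u u' v, P (u - u') v = P u v - P u' v := by
    intro u u' v
    have h1 : u = (u - u') + u' := by abel
    have h2 : P u v = P (u - u') v + P u' v := by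
      conv_lhs => rw [h1]
      simp only [hP, hWadd, pt_sg_add_left ho]
    rw [h2]; ring
  have hPsubR : ∀ u v v', P u (v - v') = P u v - P u v' := by
    intro u v v'
    have h1 : v = (v - v') + v' := by abel
    have h2 : P u v = P u (v - v') + P u v' := by
      conv_lhs => rw [h1]
      simp only [hP, hWadd, pt_sg_add_right ho]
    rw [h2]; ring
  have hPe : ∀ c e, P (Pi.single c 1) (Pi.single e 1) = p c e := fun c e => (hp c e).symm
  have hPM : ∀ u v, ‖P u v‖ ≤ m ^ 2 * M * (‖u‖ * ‖v‖) := by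
    intro u v
    rw [hPexpL]
    refine (norm_sum_le _ _).trans ?_
    have h1 : ∀ c, ‖(u c : ℂ) * P (Pi.single c 1) v‖ ≤ m * M * (‖u‖ * ‖v‖) := by
      intro c
      rw [norm_mul, Complex.norm_real, hPexpR]
      have h2 : ‖∑ e, (v e : ℂ) * P (Pi.single c 1) (Pi.single e 1)‖ ≤ m * (‖v‖ * M) := by
        refine (norm_sum_le _ _).trans ?_
        have h3 : ∀ e ∈ (Finset.univ : Finset (Fin (2 * n))),
            ‖(v e : ℂ) * P (Pi.single c 1) (Pi.single e 1)‖ ≤ ‖v‖ * M := by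
          intro e _
          rw [norm_mul, Complex.norm_real, hPe]
          exact mul_le_mul (norm_le_pi_norm v e) (hM c e) (norm_nonneg _) (norm_nonneg _)
        have h4 := Finset.sum_le_card_nsmul _ _ _ h3
        rw [nsmul_eq_mul, Finset.card_univ, Fintype.card_fin] at h4
        exact h4
      have h5 := mul_le_mul (norm_le_pi_norm u c) h2 (norm_nonneg _) (norm_nonneg _)
      refine h5.trans (le_of_eq ?_)
      ring
    have h6 := Finset.sum_le_card_nsmul Finset.univ _ _ (fun c _ => h1 c)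
    rw [nsmul_eq_mul, Finset.card_univ, Fintype.card_fin] at h6
    refine h6.trans (le_of_eq ?_)
    rw [← hm]
    ring
  have hes : ∀ c : Fin (2 * n), ‖(Pi.single c (1 : ℝ) : X (2 * n))‖ ≤ 1 := by
    intro c
    refine (pi_norm_le_iff_of_nonneg zero_le_one).2 fun j => ?_
    by_cases hj : j = c
    · subst hj; simp
    · simp [Pi.single_eq_of_ne hj]
  -- real vectors
  have hreal : ∀ x x' : X (2 * n), ‖sg o (cx x 0) (cx x' 0)‖ ≤ 2 * η * (‖x‖ * ‖x'‖) := by
    intro x x'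
    have h1 := pt_sg_close hcl (cx x 0) (cx x' 0)
    rw [pt_sgS_real, sub_zero] at h1
    have h2 : ‖cx x 0‖ ≤ ‖x‖ := by simpa using norm_cx_le x 0
    have h3 : ‖cx x' 0‖ ≤ ‖x'‖ := by simpa using norm_cx_le x' 0
    have h4 : η * ‖cx x 0‖ * ‖cx x' 0‖ ≤ η * (‖x‖ * ‖x'‖) := by
      rw [mul_assoc]
      exact mul_le_mul_of_nonneg_left (mul_le_mul h2 h3 (norm_nonneg _) (norm_nonneg _)) hη
    linarith
  have hlow : ∀ (x : X (2 * n)) (K : ℝ), (∀ j, ‖sg o (cx x 0) (W (Pi.single j 1))‖ ≤ K) →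
      ‖x‖ ≤ 2 * K := by
    intro x K hK
    have hK0 : 0 ≤ K := (norm_nonneg _).trans (hK a)
    have h1 : ‖x‖ ≤ K + 1 / 2 * ‖x‖ := by
      refine (pi_norm_le_iff_of_nonneg (by positivity)).2 fun j => ?_
      rw [Real.norm_eq_abs]
      refine (pt_sgS_single I0 x j).trans ?_
      have h2 := pt_sg_close hcl (cx x 0) (cx 0 (Pi.single j 1))
      have h3 : ‖cx x 0‖ ≤ ‖x‖ := by simpa using norm_cx_le x 0
      have h4 : ‖cx (n := n) 0 (Pi.single j 1)‖ ≤ 1 := by
        refine (norm_cx_le _ _).trans ?_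
        simpa using hes j
      have h5 : η * ‖cx x 0‖ * ‖cx (n := n) 0 (Pi.single j 1)‖ ≤ η * (‖x‖ * 1) := by
        rw [mul_assoc]
        exact mul_le_mul_of_nonneg_left (mul_le_mul h3 h4 (norm_nonneg _) (norm_nonneg _)) hη
      have h6 : W (Pi.single j 1) = cx (L (Pi.single j 1)) 0 + cx 0 (Pi.single j 1) := by
        simp only [hW]
        rw [← cx_add, add_zero, zero_add]
      have h7 := hK j
      rw [h6, pt_sg_add_right ho] at h7
      have h8 := hreal x (L (Pi.single j 1))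
      have h9 : ‖L (Pi.single j 1)‖ ≤ 1 := by
        refine (hLle _).trans ?_
        have := mul_le_mul hδ8 (hes j) (norm_nonneg _) (by norm_num)
        linarith
      have h10 : 2 * η * (‖x‖ * ‖L (Pi.single j 1)‖) ≤ 2 * η * (‖x‖ * 1) := by
        refine mul_le_mul_of_nonneg_left ?_ (by positivity)
        exact mul_le_mul_of_nonneg_left h9 (norm_nonneg _)
      have h11 : ‖sg o (cx x 0) (cx 0 (Pi.single j 1))‖ ≤
          ‖sg o (cx x 0) (cx (L (Pi.single j 1)) 0) + sg o (cx x 0) (cx 0 (Pi.single j 1))‖ +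
            ‖sg o (cx x 0) (cx (L (Pi.single j 1)) 0)‖ := by
        have := norm_sub_le (sg o (cx x 0) (cx (L (Pi.single j 1)) 0) +
          sg o (cx x 0) (cx 0 (Pi.single j 1))) (sg o (cx x 0) (cx (L (Pi.single j 1)) 0))
        rwa [add_sub_cancel_left] at this
      have h12 : ‖sg (oS I0) (cx x 0) (cx 0 (Pi.single j 1))‖ ≤
          ‖sg o (cx x 0) (cx 0 (Pi.single j 1))‖ +
            ‖sg o (cx x 0) (cx 0 (Pi.single j 1)) -
              sg (oS I0) (cx x 0) (cx 0 (Pi.single j 1))‖ := by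
        have := norm_sub_le (sg o (cx x 0) (cx 0 (Pi.single j 1)))
          (sg o (cx x 0) (cx 0 (Pi.single j 1)) - sg (oS I0) (cx x 0) (cx 0 (Pi.single j 1)))
        rwa [sub_sub_cancel] at this
      have h13 : η * ‖x‖ ≤ 1 / 8 * ‖x‖ := mul_le_mul_of_nonneg_right hη8 (norm_nonneg _)
      linarith
    linarith
  -- the decomposition of `I W`
  have key : ∀ c : Fin (2 * n), ∃ z x : X (2 * n), Q 0 (W (Pi.single c 1)) = W z + cx x 0 ∧
      ‖z - (fun j => I0 j c)‖ ≤ 4 * (B + 1) * (η + δ) ∧ ‖z‖ ≤ 2 * B + 1 ∧ ‖x‖ ≤ 3 * B + 2 := by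
    intro c
    set w := Q 0 (W (Pi.single c 1)) with hw
    set v : X (2 * n) := fun j => I0 j c with hv
    have hWc : ‖W (Pi.single c 1)‖ ≤ 2 := by
      have := hWle (Pi.single c 1)
      have := hes c
      linarith
    have hvB : ‖v‖ ≤ B := by
      refine (pi_norm_le_iff_of_nonneg hB0).2 fun j => ?_
      rw [Real.norm_eq_abs]
      have h1 : |I0 j c| ≤ ∑ l, |I0 j l| :=
        Finset.single_le_sum (f := fun l => |I0 j l|) (fun l _ => abs_nonneg _)
          (Finset.mem_univ c)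
      exact h1.trans (Finset.single_le_sum (f := fun j => ∑ l, |I0 j l|)
        (fun j _ => Finset.sum_nonneg fun l _ => abs_nonneg _) (Finset.mem_univ j))
    have h1 : ‖w - cx 0 v‖ ≤ 4 * (B + 1) * (η + δ) := by
      have h2 := pt_Q0 hη (by linarith) hQ hoQ hcl (W (Pi.single c 1))
      rw [← hB] at h2
      have h3 : W (Pi.single c 1) = cx (L (Pi.single c 1)) 0 + cx 0 (Pi.single c 1) := by
        simp only [hW]
        rw [← cx_add, add_zero, zero_add]
      have h4 : w - cx 0 v = (w - QS I0 0 (W (Pi.single c 1))) +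
          QS I0 0 (cx (L (Pi.single c 1)) 0) := by
        rw [h3, pt_QS_add, pt_QS_single]
        abel
      rw [h4]
      refine (norm_add_le _ _).trans ?_
      have h5 := pt_QS_bound I0 (cx (L (Pi.single c 1)) 0)
      have h6 : ‖cx (n := n) (L (Pi.single c 1)) 0‖ ≤ δ := by
        have h7 := norm_cx_le (n := n) (L (Pi.single c 1)) 0
        have h8 := hLle (Pi.single c 1)
        have h9 := mul_le_mul_of_nonneg_left (hes c) hδ
        rw [norm_zero, add_zero] at h7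
        linarith
      rw [← hB] at h5
      have h10 := mul_le_mul_of_nonneg_left h6 hB0
      have h11 : 2 * η * (B + 1) * ‖W (Pi.single c 1)‖ ≤ 2 * η * (B + 1) * 2 :=
        mul_le_mul_of_nonneg_left hWc (by positivity)
      have h12 : 0 ≤ B * δ := by positivity
      nlinarith
    set z : X (2 * n) := fun j => (w j).im with hz
    set r : X (2 * n) := fun j => (w j).re with hr
    have hwc : cx r z = w := cx_re_im w
    have h2 : w - cx 0 v = cx r (z - v) := by
      rw [← hwc]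
      funext j
      simp only [cx, Pi.sub_apply, Pi.zero_apply]
      push_cast
      ring
    have hE : 4 * (B + 1) * (η + δ) ≤ B + 1 := by
      have h13 : (B + 1) * (η + δ) ≤ (B + 1) * (1 / 4) :=
        mul_le_mul_of_nonneg_left (by linarith) (by positivity)
      linarith
    have h3 : ‖z - v‖ ≤ 4 * (B + 1) * (η + δ) := by
      rw [h2] at h1
      exact (le_norm_cx_right _ _).trans h1
    have h3' : ‖r‖ ≤ 4 * (B + 1) * (η + δ) := by
      rw [h2] at h1
      exact (le_norm_cx_left _ _).trans h1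
    have h4 : ‖z‖ ≤ 2 * B + 1 := by
      have h5 : z = (z - v) + v := by abel
      have h6 := norm_add_le (z - v) v
      rw [← h5] at h6
      linarith
    refine ⟨z, r - L z, ?_, h3, h4, ?_⟩
    · rw [← hwc]
      funext j
      simp only [hW, cx, Pi.add_apply, Pi.sub_apply, Pi.zero_apply]
      push_cast
      ring
    · refine (norm_sub_le _ _).trans ?_
      have h7 := hLle z
      have h8 : δ * ‖z‖ ≤ 1 * (2 * B + 1) :=
        mul_le_mul (by linarith) h4 (norm_nonneg _) zero_le_one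
      linarith
  obtain ⟨za, xa, hwa, hza, hza', hxa⟩ := key a
  obtain ⟨zb, xb, hwb, hzb, hzb', hxb⟩ := key b
  set va : X (2 * n) := fun j => I0 j a with hva
  set vb : X (2 * n) := fun j => I0 j b with hvb
  have hvaB : ‖va‖ ≤ B := by
    refine (pi_norm_le_iff_of_nonneg hB0).2 fun j => ?_
    rw [Real.norm_eq_abs]
    have h1 : |I0 j a| ≤ ∑ l, |I0 j l| :=
      Finset.single_le_sum (f := fun l => |I0 j l|) (fun l _ => abs_nonneg _)
        (Finset.mem_univ a)
    exact h1.trans (Finset.single_le_sum (f := fun j => ∑ l, |I0 j l|)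
      (fun j _ => Finset.sum_nonneg fun l _ => abs_nonneg _) (Finset.mem_univ j))
  set ea : X (2 * n) := Pi.single a 1 with hea
  set eb : X (2 * n) := Pi.single b 1 with heb
  have hNa : ∀ v, sg o (cx xa 0) v = Complex.I * sg o (W ea) v - sg o (W za) v := by
    intro v
    have h1 : cx xa 0 = Q 0 (W ea) - W za := by rw [hwa]; abel
    rw [h1, pt_sg_sub_left ho, pt_sg_I hQ hoQ]
  have hNb : ∀ u, sg o u (cx xb 0) = Complex.I * sg o u (W eb) - sg o u (W zb) := by
    intro u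
    have h1 : cx xb 0 = Q 0 (W eb) - W zb := by rw [hwb]; abel
    rw [h1, pt_sg_sub_right ho, pt_sg_anti ho u (Q 0 (W eb)), pt_sg_I hQ hoQ, pt_sg_anti ho (W eb) u]
    ring
  have hNN : sg o (cx xa 0) (cx xb 0) =
      P za zb - P ea eb - Complex.I * P za eb - Complex.I * P ea zb := by
    rw [hNa, hNb, hNb]
    simp only [hP]
    linear_combination (sg o (W ea) (W eb)) * Complex.I_mul_I
  -- the size of `N`
  have hxaM : ‖xa‖ ≤ 2 * (m ^ 2 * M * (2 * B + 2)) := by
    refine hlow xa _ fun j => ?_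
    rw [hNa]
    refine (norm_sub_le _ _).trans ?_
    rw [norm_mul, Complex.norm_I, one_mul]
    have h1 := hPM ea (Pi.single j 1)
    have h2 := hPM za (Pi.single j 1)
    have h3 : ‖ea‖ * ‖(Pi.single j (1 : ℝ) : X (2 * n))‖ ≤ 1 * 1 :=
      mul_le_mul (hes a) (hes j) (norm_nonneg _) zero_le_one
    have h4 : ‖za‖ * ‖(Pi.single j (1 : ℝ) : X (2 * n))‖ ≤ (2 * B + 1) * 1 :=
      mul_le_mul hza' (hes j) (norm_nonneg _) (by positivity)
    have h5 := mul_le_mul_of_nonneg_left h3 (show 0 ≤ m ^ 2 * M by positivity)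
    have h6 := mul_le_mul_of_nonneg_left h4 (show 0 ≤ m ^ 2 * M by positivity)
    simp only [hP] at h1 h2
    nlinarith
  have hsum : ∑ c, ∑ e, Em I0 c a * Em I0 e b * p c e =
      1 / 4 * (P ea eb + Complex.I * P ea vb + Complex.I * P va eb - P va vb) := by
    have h1 : ∀ c, ∑ e, Em I0 c a * Em I0 e b * p c e =
        Em I0 c a * (1 / 2 * (P (Pi.single c 1) eb + Complex.I * P (Pi.single c 1) vb)) := by
      intro c
      rw [← pt_Em I0 (fun v => P (Pi.single c 1) v) (fun v => hPexpR _ v) b, Finset.mul_sum]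
      refine Finset.sum_congr rfl fun e _ => ?_
      simp only [hPe]
      ring
    rw [Finset.sum_congr rfl fun c _ => h1 c]
    rw [pt_Em I0 (fun u => 1 / 2 * (P u eb + Complex.I * P u vb)) (fun u => ?_) a]
    · linear_combination (-(1 / 4 : ℂ) * P va vb) * (-Complex.I_mul_I)
    · rw [hPexpL u eb, hPexpL u vb, Finset.mul_sum, ← Finset.sum_add_distrib, Finset.mul_sum]
      refine Finset.sum_congr rfl fun c _ => ?_
      ring
  have hT : P ea eb + Complex.I * P ea vb + Complex.I * P va eb - P va vb =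
      -sg o (cx xa 0) (cx xb 0) + (P (za - va) zb + P va (zb - vb)) -
        Complex.I * P ea (zb - vb) - Complex.I * P (za - va) eb := by
    rw [hNN, hPsubL, hPsubL, hPsubR, hPsubR]
    ring
  rw [hsum, hT]
  set E := 4 * (B + 1) * (η + δ) with hE
  have hE0 : 0 ≤ E := by positivity
  have hmM : 0 ≤ m ^ 2 * M := by positivity
  have b1 : ‖sg o (cx xa 0) (cx xb 0)‖ ≤
      2 * η * ((2 * (m ^ 2 * M * (2 * B + 2))) * (3 * B + 2)) :=
    (hreal xa xb).trans (mul_le_mul_of_nonneg_left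
      (mul_le_mul hxaM hxb (norm_nonneg _) (by positivity)) (by positivity))
  have b2 : ‖P (za - va) zb‖ ≤ m ^ 2 * M * (E * (2 * B + 1)) :=
    (hPM _ _).trans (mul_le_mul_of_nonneg_left
      (mul_le_mul hza hzb' (norm_nonneg _) hE0) hmM)
  have b3 : ‖P va (zb - vb)‖ ≤ m ^ 2 * M * (B * E) :=
    (hPM _ _).trans (mul_le_mul_of_nonneg_left
      (mul_le_mul hvaB hzb (norm_nonneg _) hB0) hmM)
  have b4 : ‖P ea (zb - vb)‖ ≤ m ^ 2 * M * (1 * E) :=
    (hPM _ _).trans (mul_le_mul_of_nonneg_left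
      (mul_le_mul (hes a) hzb (norm_nonneg _) zero_le_one) hmM)
  have b5 : ‖P (za - va) eb‖ ≤ m ^ 2 * M * (E * 1) :=
    (hPM _ _).trans (mul_le_mul_of_nonneg_left
      (mul_le_mul hza (hes b) (norm_nonneg _) hE0) hmM)
  have b6 : ‖-sg o (cx xa 0) (cx xb 0) + (P (za - va) zb + P va (zb - vb)) -
        Complex.I * P ea (zb - vb) - Complex.I * P (za - va) eb‖ ≤
      ‖sg o (cx xa 0) (cx xb 0)‖ + (‖P (za - va) zb‖ + ‖P va (zb - vb)‖) +
        ‖P ea (zb - vb)‖ + ‖P (za - va) eb‖ := by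
    refine (norm_sub_le _ _).trans ?_
    rw [norm_mul, Complex.norm_I, one_mul]
    refine add_le_add_left ?_ _
    refine (norm_sub_le _ _).trans ?_
    rw [norm_mul, Complex.norm_I, one_mul]
    refine add_le_add_left ?_ _
    refine (norm_add_le _ _).trans ?_
    rw [norm_neg]
    exact add_le_add_right (norm_add_le _ _) _
  rw [norm_mul]
  have h14 : ‖(1 / 4 : ℂ)‖ = 1 / 4 := by simp
  rw [h14]
  have h15 : ‖-sg o (cx xa 0) (cx xb 0) + (P (za - va) zb + P va (zb - vb)) -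
        Complex.I * P ea (zb - vb) - Complex.I * P (za - va) eb‖ ≤
      m ^ 2 * (4 * (2 * B + 2) * (3 * B + 2) + 4 * (B + 1) * (3 * B + 3)) * (η + δ) * M := by
    have h16 : 2 * η * ((2 * (m ^ 2 * M * (2 * B + 2))) * (3 * B + 2)) ≤
        m ^ 2 * (4 * (2 * B + 2) * (3 * B + 2)) * (η + δ) * M := by
      have h17 : 0 ≤ δ * (m ^ 2 * (4 * (2 * B + 2) * (3 * B + 2)) * M) := by positivity
      nlinarith
    have h18 : m ^ 2 * M * (E * (2 * B + 1)) + m ^ 2 * M * (B * E) + m ^ 2 * M * (1 * E) +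
        m ^ 2 * M * (E * 1) = m ^ 2 * (4 * (B + 1) * (3 * B + 3)) * (η + δ) * M := by
      rw [hE]; ring
    have h19 : m ^ 2 * (4 * (2 * B + 2) * (3 * B + 2) + 4 * (B + 1) * (3 * B + 3)) * (η + δ) * M =
        m ^ 2 * (4 * (2 * B + 2) * (3 * B + 2)) * (η + δ) * M +
          m ^ 2 * (4 * (B + 1) * (3 * B + 3)) * (η + δ) * M := by ring
    rw [h19, ← h18]
    linarith
  have h20 : 0 ≤ (η + δ) * M := by positivity
  have h21 : 0 ≤ m ^ 2 * (4 * (2 * B + 2) * (3 * B + 2) + 4 * (B + 1) * (3 * B + 3)) * (η + δ) * M := by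
    positivity
  nlinarith [norm_nonneg (-sg o (cx xa 0) (cx xb 0) + (P (za - va) zb + P va (zb - vb)) -
        Complex.I * P ea (zb - vb) - Complex.I * P (za - va) eb)]

end Pool.Agent.MCL
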