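import Pool.Agent.MCL.GeoL

/-!
# MCL/QEst : estimates for the nonlinear part of the pull-back

`Qf = (sg om - sg oS)(cx (f y) y)(v_a)(v_b)` with `v_a = cx (D_a f) e_a`, `‖v_a‖ ≤ 2`; the form
`τ_w = sg om_w - sg oS` is bilinear (`GeoL`), `|τ_w (u, v)| ≤ 2 η ‖u‖ ‖v‖` and Lipschitz in `w` on
the convex strip with constant `2 η ‖u‖ ‖v‖` (mean value inequality), so its increments are
`≤ C η min (1, |y - z|) ≤ C η √|y - z|`; `v_a y - v_a z = cx (D_a f y - D_a f z) 0`.
-/

set_option autoImplicit false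

open MeasureTheory Set Filter Topology
open scoped Matrix

namespace Pool.Agent.MCL

open SYM (CV FlatTriple IsHKTripleOn)

private theorem convex_strip (n : ℕ) : Convex ℝ (strip n) := by
  have : strip n = ⋂ j : Fin (2 * n), {w : CV n | |(w j).re| < 1} := by
    ext w; simp [strip]
  rw [this]
  refine convex_iInter fun j => ?_
  intro u hu v hv a b ha hb hab
  simp only [Set.mem_ofPred_eq] at hu hv ⊢
  have h1 : ((a • u + b • v) j).re = a * (u j).re + b * (v j).re := by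
    simp
  rw [h1]
  rcases eq_or_lt_of_le ha with h0 | h0
  · have hb1 : b = 1 := by linarith
    rw [← h0, hb1]; simpa using hv
  · calc |a * (u j).re + b * (v j).re| ≤ |a * (u j).re| + |b * (v j).re| := abs_add_le _ _
      _ = a * |(u j).re| + b * |(v j).re| := by
          rw [abs_mul, abs_mul, abs_of_nonneg ha, abs_of_nonneg hb]
      _ < 1 := by nlinarith

/-- The difference of a form of `om` and the standard form. -/
private noncomputable def tau {n : ℕ} (om : Fin 3 → CV n → CV n → CV n → ℝ)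
    (I0 : Matrix (Fin (2 * n)) (Fin (2 * n)) ℝ) (c : Fin 3) (w u v : CV n) : ℝ :=
  om c w u v - oS I0 c u v

section

variable {n : ℕ} {A I0 : Matrix (Fin (2 * n)) (Fin (2 * n)) ℝ} {η : ℝ}
  {om : Fin 3 → CV n → CV n → CV n → ℝ}

private theorem tau_add (hI : IsCx I0) (h : Near n A I0 η om) (c : Fin 3) {w : CV n}
    (hw : w ∈ strip n) (u u' v : CV n) :
    tau om I0 c w (u + u') v = tau om I0 c w u v + tau om I0 c w u' v := by
  unfold tau
  have h1 := flat_add_left (h.hk.triple w hw) c u u' v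
  have h2 := flat_add_left (oS_flat hI) c u u' v
  rw [h1, h2]; ring

private theorem tau_anti (hI : IsCx I0) (h : Near n A I0 η om) (c : Fin 3) {w : CV n}
    (hw : w ∈ strip n) (u v : CV n) : tau om I0 c w u v = -tau om I0 c w v u := by
  unfold tau
  have h1 := flat_anti (h.hk.triple w hw) c u v
  have h2 := flat_anti (oS_flat hI) c u v
  rw [h1, h2]; ring

private theorem tau_bound (h : Near n A I0 η om) (c : Fin 3) {w : CV n}
    (hw : w ∈ strip n) (u v : CV n) : |tau om I0 c w u v| ≤ η * ‖u‖ * ‖v‖ :=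
  h.close w hw c u v

private theorem tau_lip (h : Near n A I0 η om) (c : Fin 3) {w w' : CV n}
    (hw : w ∈ strip n) (hw' : w' ∈ strip n) (u v : CV n) :
    |tau om I0 c w u v - tau om I0 c w' u v| ≤ η * ‖u‖ * ‖v‖ * ‖w - w'‖ := by
  have hd : ∀ z ∈ strip n, DifferentiableAt ℝ (fun z => om c z u v) z := by
    intro z hz
    have h1 := (h.hk.smooth c u v).contDiffAt (isOpen_strip.mem_nhds hz)
    exact h1.differentiableAt (by simp)
  have h2 := (convex_strip n).norm_image_sub_le_of_norm_fderiv_le (𝕜 := ℝ) hd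
    (fun z hz => h.lip z hz c u v) hw' hw
  have h3 : tau om I0 c w u v - tau om I0 c w' u v = om c w u v - om c w' u v := by
    unfold tau; ring
  rw [h3]
  exact h2

private theorem tau_hol (h0 : 0 ≤ η) (h : Near n A I0 η om) (c : Fin 3) {w w' : CV n}
    (hw : w ∈ strip n) (hw' : w' ∈ strip n) (u v : CV n) :
    |tau om I0 c w u v - tau om I0 c w' u v| ≤ 2 * (η * ‖u‖ * ‖v‖) * √‖w - w'‖ := by
  have hp : 0 ≤ η * ‖u‖ * ‖v‖ := by positivity
  rcases le_total ‖w - w'‖ 1 with h1 | h1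
  · have h2 := tau_lip h c hw hw' u v
    have h3 : ‖w - w'‖ ≤ √‖w - w'‖ := by
      apply Real.le_sqrt_of_sq_le
      nlinarith [norm_nonneg (w - w')]
    have h4 : 0 ≤ √‖w - w'‖ := Real.sqrt_nonneg _
    calc _ ≤ η * ‖u‖ * ‖v‖ * ‖w - w'‖ := h2
      _ ≤ η * ‖u‖ * ‖v‖ * √‖w - w'‖ := mul_le_mul_of_nonneg_left h3 hp
      _ ≤ 2 * (η * ‖u‖ * ‖v‖) * √‖w - w'‖ := by nlinarith [mul_nonneg hp h4]
  · have h2 := tau_bound h c hw u v
    have h3 := tau_bound h c hw' u v
    have h4 : 1 ≤ √‖w - w'‖ := by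
      rw [Real.one_le_sqrt]; exact h1
    have h5 := abs_sub (tau om I0 c w u v) (tau om I0 c w' u v)
    nlinarith

private theorem tau_diff (hI : IsCx I0) (h0 : 0 ≤ η) (h : Near n A I0 η om) (c : Fin 3)
    {w w' : CV n} (hw' : w' ∈ strip n) {u u' v v' : CV n} (hv : ‖v‖ ≤ 2)
    (hu' : ‖u'‖ ≤ 2) {D a b : ℝ} (hD : |tau om I0 c w u v - tau om I0 c w' u v| ≤ D)
    (ha : ‖u - u'‖ ≤ a) (hb : ‖v - v'‖ ≤ b) :
    |tau om I0 c w u v - tau om I0 c w' u' v'| ≤ D + 2 * η * a + 2 * η * b := by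
  have e1 : tau om I0 c w' u v = tau om I0 c w' u' v + tau om I0 c w' (u - u') v := by
    rw [← tau_add hI h c hw', add_sub_cancel]
  have e2 : tau om I0 c w' u' v = tau om I0 c w' u' v' + tau om I0 c w' u' (v - v') := by
    rw [tau_anti hI h c hw' u' v, tau_anti hI h c hw' u' v', tau_anti hI h c hw' u' (v - v')]
    have : v = v' + (v - v') := by rw [add_sub_cancel]
    conv_lhs => rw [this, tau_add hI h c hw']
    ring
  have b1 := tau_bound h c hw' (u - u') v
  have b2 := tau_bound h c hw' u' (v - v')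
  have e3 : tau om I0 c w u v - tau om I0 c w' u' v' =
      (tau om I0 c w u v - tau om I0 c w' u v) + tau om I0 c w' (u - u') v +
        tau om I0 c w' u' (v - v') := by
    rw [e1, e2]; ring
  have b3 : η * ‖u - u'‖ * ‖v‖ ≤ 2 * η * a := by
    have h1 : η * ‖u - u'‖ ≤ η * a := mul_le_mul_of_nonneg_left ha h0
    have h2 : 0 ≤ η * ‖u - u'‖ := by positivity
    nlinarith [norm_nonneg v]
  have b4 : η * ‖u'‖ * ‖v - v'‖ ≤ 2 * η * b := by
    have h1 : η * ‖u'‖ ≤ η * 2 := mul_le_mul_of_nonneg_left hu' h0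
    have h2 : 0 ≤ η * ‖u'‖ := by positivity
    nlinarith [norm_nonneg (v - v')]
  rw [e3]
  calc _ ≤ |tau om I0 c w u v - tau om I0 c w' u v| + |tau om I0 c w' (u - u') v| +
        |tau om I0 c w' u' (v - v')| := abs_add_three _ _ _
    _ ≤ _ := by linarith

private theorem Qf_eq (f : X (2 * n) → X (2 * n)) (a b : Fin (2 * n)) (y : X (2 * n)) :
    Qf om I0 f a b y =
      (tau om I0 1 (cx (f y) y) (cx (fderiv ℝ f y (Pi.single a 1)) (Pi.single a 1))
        (cx (fderiv ℝ f y (Pi.single b 1)) (Pi.single b 1)) : ℂ) + Complex.I *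
      (tau om I0 2 (cx (f y) y) (cx (fderiv ℝ f y (Pi.single a 1)) (Pi.single a 1))
        (cx (fderiv ℝ f y (Pi.single b 1)) (Pi.single b 1)) : ℂ) := by
  simp only [Qf, Pf, sg, tau]
  push_cast
  ring

private theorem norm_sub_sg {p q r s M : ℝ} (h1 : |p - r| ≤ M) (h2 : |q - s| ≤ M) :
    ‖((p : ℂ) + Complex.I * (q : ℂ)) - ((r : ℂ) + Complex.I * (s : ℂ))‖ ≤ 2 * M := by
  have e : ((p : ℂ) + Complex.I * (q : ℂ)) - ((r : ℂ) + Complex.I * (s : ℂ)) =
      ((p - r : ℝ) : ℂ) + Complex.I * ((q - s : ℝ) : ℂ) := by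
    push_cast; ring
  rw [e]
  refine (norm_add_le _ _).trans ?_
  rw [norm_mul, Complex.norm_I, one_mul, Complex.norm_real, Complex.norm_real,
    Real.norm_eq_abs, Real.norm_eq_abs]
  linarith

private theorem norm_single (a : Fin (2 * n)) : ‖(Pi.single a 1 : X (2 * n))‖ = 1 := by
  rw [Pi.norm_single, norm_one]

private theorem va_norm {δ : ℝ} (hδ : δ ≤ 1 / 2) {f : X (2 * n) → X (2 * n)}
    (hf : InK A δ f) (a : Fin (2 * n)) (y : X (2 * n)) :
    ‖(cx (fderiv ℝ f y (Pi.single a 1)) (Pi.single a 1) : CV n)‖ ≤ 2 := by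
  refine (norm_cx_le _ _).trans ?_
  have h1 := (fderiv ℝ f y).le_opNorm (Pi.single a 1)
  rw [norm_single, mul_one] at h1
  have h2 := hf.der y
  rw [norm_single]
  linarith

private theorem va_sub {f g : X (2 * n) → X (2 * n)} (a : Fin (2 * n)) (y z : X (2 * n)) :
    ‖(cx (fderiv ℝ f y (Pi.single a 1)) (Pi.single a 1) : CV n) -
      cx (fderiv ℝ g z (Pi.single a 1)) (Pi.single a 1)‖ ≤ ‖fderiv ℝ f y - fderiv ℝ g z‖ := by
  have e : (cx (fderiv ℝ f y (Pi.single a 1)) (Pi.single a 1) : CV n) -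
      cx (fderiv ℝ g z (Pi.single a 1)) (Pi.single a 1) =
      cx ((fderiv ℝ f y - fderiv ℝ g z) (Pi.single a 1)) 0 := by
    funext j
    simp only [cx, Pi.sub_apply, _root_.sub_apply, Complex.ofReal_sub, Pi.zero_apply,
      Complex.ofReal_zero]
    ring
  rw [e]
  refine (norm_cx_le _ _).trans ?_
  have h1 := (fderiv ℝ f y - fderiv ℝ g z).le_opNorm (Pi.single a 1)
  rw [norm_single, mul_one] at h1
  rw [norm_zero, add_zero]
  exact h1

private theorem mem_s {δ : ℝ} (hδ : δ ≤ 1 / 2) {f : X (2 * n) → X (2 * n)}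
    (hf : InK A δ f) (y : X (2 * n)) : cx (f y) y ∈ strip n :=
  cx_mem_strip.2 (by have := hf.val y; linarith)

private theorem f_lip {δ : ℝ} {f : X (2 * n) → X (2 * n)}
    (hf : InK A δ f) (y z : X (2 * n)) : ‖f y - f z‖ ≤ δ * ‖y - z‖ :=
  (convex_univ (𝕜 := ℝ) (E := X (2 * n))).norm_image_sub_le_of_norm_fderiv_le (𝕜 := ℝ)
    (fun x _ => (hf.smooth.differentiable (by norm_num)) x) (fun x _ => hf.der x)
    (mem_univ z) (mem_univ y)

private theorem w_sub {δ : ℝ} (hδ : δ ≤ 1 / 2) {f : X (2 * n) → X (2 * n)}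
    (hf : InK A δ f) (y z : X (2 * n)) :
    √‖(cx (f y) y : CV n) - cx (f z) z‖ ≤ 2 * √‖y - z‖ := by
  have e : (cx (f y) y : CV n) - cx (f z) z = cx (f y - f z) (y - z) := by
    funext j
    simp only [cx, Pi.sub_apply, Complex.ofReal_sub]
    ring
  rw [e]
  have h1 : ‖(cx (f y - f z) (y - z) : CV n)‖ ≤ 2 ^ 2 * ‖y - z‖ := by
    refine (norm_cx_le _ _).trans ?_
    have := f_lip hf y z
    nlinarith [norm_nonneg (y - z)]
  refine (Real.sqrt_le_sqrt h1).trans ?_
  rw [Real.sqrt_mul (by norm_num), Real.sqrt_sq (by norm_num)]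

private theorem hol_cont {E : Type*} [NormedAddCommGroup E] {d : ℕ} {K : ℝ} {q : X d → E}
    (h : Hol K q) : Continuous q := by
  rw [continuous_iff_continuousAt]
  intro z
  rw [ContinuousAt, tendsto_iff_norm_sub_tendsto_zero]
  have h1 : Tendsto (fun y => K * √‖y - z‖) (𝓝 z) (𝓝 0) := by
    have : Continuous (fun y => K * √‖y - z‖) := by fun_prop
    have h2 := this.tendsto z
    simpa using h2
  exact squeeze_zero (fun _ => norm_nonneg _) (fun y => h y z) h1

private theorem fd_per {f : X (2 * n) → X (2 * n)} (hp : Per A f) (j : Fin (2 * n))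
    (y : X (2 * n)) : fderiv ℝ f (y + fun i => A i j) = fderiv ℝ f y := by
  have h2 : (fun z => f (z + fun i => A i j)) = f := funext (hp j)
  rw [← fderiv_comp_add_right, h2]

private theorem Pf_per' (h : Near n A I0 η om)
    {f : X (2 * n) → X (2 * n)} (hp : Per A f)
    (hv : ∀ y, ‖f y‖ < 1) (a b : Fin (2 * n)) : Per A (Pf om f a b) := by
  intro j y
  have h3 : cx (f y) (y + fun i => A i j) = cx (f y) y + cx 0 (fun i => A i j) := by
    rw [← cx_add, add_zero]
  have h4 : ∀ k u v, om k (cx (f y) y + cx 0 (fun i => A i j)) u v = om k (cx (f y) y) u v :=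
    fun k u v => h.per k _ (cx_mem_strip.2 (hv y)) j u v
  simp only [Pf, sg]
  rw [fd_per hp, hp j y, h3, h4, h4]

private theorem PS_per {f : X (2 * n) → X (2 * n)} (hp : Per A f)
    (a b : Fin (2 * n)) : Per A (Pf (fun c _ => oS I0 c) f a b) := by
  intro j y
  simp only [Pf, sg]
  rw [fd_per hp]

private theorem qf_hol' (hI : IsCx I0) (h0 : 0 ≤ η) (h : Near n A I0 η om) {δ : ℝ}
    (hδ : δ ≤ 1 / 2) {f : X (2 * n) → X (2 * n)} (hf : InK A δ f) (a b : Fin (2 * n)) :
    Hol (40 * η) (Qf om I0 f a b) := by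
  intro y z
  rw [Qf_eq, Qf_eq]
  have hs : 0 ≤ √‖y - z‖ := Real.sqrt_nonneg _
  have key : ∀ c, |tau om I0 c (cx (f y) y) (cx (fderiv ℝ f y (Pi.single a 1)) (Pi.single a 1))
        (cx (fderiv ℝ f y (Pi.single b 1)) (Pi.single b 1)) -
      tau om I0 c (cx (f z) z) (cx (fderiv ℝ f z (Pi.single a 1)) (Pi.single a 1))
        (cx (fderiv ℝ f z (Pi.single b 1)) (Pi.single b 1))| ≤ 20 * η * √‖y - z‖ := by
    intro c
    have hva := va_norm hδ hf a y
    have hvb := va_norm hδ hf b y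
    have h1 := tau_hol h0 h c (mem_s hδ hf y) (mem_s hδ hf z)
      (cx (fderiv ℝ f y (Pi.single a 1)) (Pi.single a 1))
      (cx (fderiv ℝ f y (Pi.single b 1)) (Pi.single b 1))
    have h2 := w_sub hδ hf y z
    have hD : 2 * (η * ‖(cx (fderiv ℝ f y (Pi.single a 1)) (Pi.single a 1) : CV n)‖ *
        ‖(cx (fderiv ℝ f y (Pi.single b 1)) (Pi.single b 1) : CV n)‖) *
        √‖(cx (f y) y : CV n) - cx (f z) z‖ ≤ 16 * η * √‖y - z‖ := by
      have e1 : η * ‖(cx (fderiv ℝ f y (Pi.single a 1)) (Pi.single a 1) : CV n)‖ *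
        ‖(cx (fderiv ℝ f y (Pi.single b 1)) (Pi.single b 1) : CV n)‖ ≤ η * 2 * 2 := by
        gcongr
      have e2 : 0 ≤ η * 2 * 2 := by positivity
      have e3 := Real.sqrt_nonneg ‖(cx (f y) y : CV n) - cx (f z) z‖
      calc _ ≤ 2 * (η * 2 * 2) * √‖(cx (f y) y : CV n) - cx (f z) z‖ := by gcongr
        _ ≤ 2 * (η * 2 * 2) * (2 * √‖y - z‖) := by gcongr
        _ = 16 * η * √‖y - z‖ := by ring
    have hsub : ∀ a, ‖(cx (fderiv ℝ f y (Pi.single a 1)) (Pi.single a 1) : CV n) -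
        cx (fderiv ℝ f z (Pi.single a 1)) (Pi.single a 1)‖ ≤ √‖y - z‖ := by
      intro a
      refine (va_sub a y z).trans ((hf.hol y z).trans ?_)
      nlinarith
    have h3 := tau_diff hI h0 h c (mem_s hδ hf z) hvb (va_norm hδ hf a z) (h1.trans hD)
      (hsub a) (hsub b)
    refine h3.trans (le_of_eq ?_)
    ring
  refine (norm_sub_sg (key 1) (key 2)).trans (le_of_eq ?_)
  ring

end

theorem qf_hol (n : ℕ) (A I0 : Matrix (Fin (2 * n)) (Fin (2 * n)) ℝ) (hI : IsCx I0) :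
    ∃ C > 0, ∀ (η : ℝ), 0 ≤ η → η ≤ 1 → ∀ om, Near n A I0 η om → ∀ (δ : ℝ), δ ≤ 1 / 2 →
      ∀ f, InK A δ f → ∀ a b,
      Continuous (Qf om I0 f a b) ∧ Per A (Qf om I0 f a b) ∧ Hol (C * η) (Qf om I0 f a b) := by
  refine ⟨40, by norm_num, ?_⟩
  intro η h0 _ om h δ hδ f hf a b
  have hh := qf_hol' hI h0 h hδ hf a b
  refine ⟨hol_cont hh, ?_, hh⟩
  intro j y
  have h1 := Pf_per' h hf.per (fun y => by have := hf.val y; linarith) a b j y
  have h2 := PS_per (I0 := I0) hf.per a b j y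
  simp only [Qf]
  rw [h1, h2]

theorem qf_lip (n : ℕ) (A I0 : Matrix (Fin (2 * n)) (Fin (2 * n)) ℝ) (hI : IsCx I0) :
    ∃ C > 0, ∀ (η : ℝ), 0 ≤ η → η ≤ 1 → ∀ om, Near n A I0 η om → ∀ (δ : ℝ), δ ≤ 1 / 2 →
      ∀ f g, InK A δ f → InK A δ g → ∀ a b y,
      ‖Qf om I0 f a b y - Qf om I0 g a b y‖ ≤
        C * η * (‖f y - g y‖ + ‖fderiv ℝ f y - fderiv ℝ g y‖) := by
  refine ⟨8, by norm_num, ?_⟩
  intro η h0 _ om h δ hδ f g hf hg a b y
  rw [Qf_eq, Qf_eq]
  have key : ∀ c, |tau om I0 c (cx (f y) y) (cx (fderiv ℝ f y (Pi.single a 1)) (Pi.single a 1))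
        (cx (fderiv ℝ f y (Pi.single b 1)) (Pi.single b 1)) -
      tau om I0 c (cx (g y) y) (cx (fderiv ℝ g y (Pi.single a 1)) (Pi.single a 1))
        (cx (fderiv ℝ g y (Pi.single b 1)) (Pi.single b 1))| ≤
      4 * η * (‖f y - g y‖ + ‖fderiv ℝ f y - fderiv ℝ g y‖) := by
    intro c
    have hva := va_norm hδ hf a y
    have hvb := va_norm hδ hf b y
    have h1 := tau_lip h c (mem_s hδ hf y) (mem_s hδ hg y)
      (cx (fderiv ℝ f y (Pi.single a 1)) (Pi.single a 1))
      (cx (fderiv ℝ f y (Pi.single b 1)) (Pi.single b 1))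
    have hw : ‖(cx (f y) y : CV n) - cx (g y) y‖ ≤ ‖f y - g y‖ := by
      have e : (cx (f y) y : CV n) - cx (g y) y = cx (f y - g y) 0 := by
        funext j
        simp only [cx, Pi.sub_apply, Complex.ofReal_sub, Pi.zero_apply, Complex.ofReal_zero]
        ring
      rw [e]
      refine (norm_cx_le _ _).trans ?_
      rw [norm_zero, add_zero]
    have hD : η * ‖(cx (fderiv ℝ f y (Pi.single a 1)) (Pi.single a 1) : CV n)‖ *
        ‖(cx (fderiv ℝ f y (Pi.single b 1)) (Pi.single b 1) : CV n)‖ *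
        ‖(cx (f y) y : CV n) - cx (g y) y‖ ≤ 4 * η * ‖f y - g y‖ := by
      calc _ ≤ η * 2 * 2 * ‖f y - g y‖ := by gcongr
        _ = 4 * η * ‖f y - g y‖ := by ring
    have h3 := tau_diff hI h0 h c (mem_s hδ hg y) hvb (va_norm hδ hg a y) (h1.trans hD)
      (va_sub (f := f) (g := g) a y y) (va_sub (f := f) (g := g) b y y)
    refine h3.trans (le_of_eq ?_)
    ring
  refine (norm_sub_sg (key 1) (key 2)).trans (le_of_eq ?_)
  ring

/-- `P` itself is continuous, periodic and Hölder. -/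
theorem pf_hol (n : ℕ) (A I0 : Matrix (Fin (2 * n)) (Fin (2 * n)) ℝ) (hI : IsCx I0) {η : ℝ}
    (h0 : 0 ≤ η) (h1 : η ≤ 1) {om} (h : Near n A I0 η om) {δ : ℝ} (hδ : δ ≤ 1 / 2) {f}
    (hf : InK A δ f) (a b : Fin (2 * n)) :
    ∃ K, Continuous (Pf om f a b) ∧ Per A (Pf om f a b) ∧ Hol K (Pf om f a b) := by
  obtain ⟨C, hC, hb⟩ := oS_bound (n := n) I0
  have hP := Pf_per' h hf.per (fun y => by have := hf.val y; linarith) a b
  have hq := qf_hol' hI h0 h hδ hf a b
  have hs : Hol (8 * C) (Pf (fun c _ => oS I0 c) f a b) := by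
    intro y z
    simp only [Pf, sg]
    have key : ∀ c, |oS I0 c (cx (fderiv ℝ f y (Pi.single a 1)) (Pi.single a 1))
        (cx (fderiv ℝ f y (Pi.single b 1)) (Pi.single b 1)) -
      oS I0 c (cx (fderiv ℝ f z (Pi.single a 1)) (Pi.single a 1))
        (cx (fderiv ℝ f z (Pi.single b 1)) (Pi.single b 1))| ≤ 4 * C * √‖y - z‖ := by
      intro c
      have hvb := va_norm hδ hf b y
      have hua := va_norm hδ hf a z
      have hsub : ∀ a, ‖(cx (fderiv ℝ f y (Pi.single a 1)) (Pi.single a 1) : CV n) -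
          cx (fderiv ℝ f z (Pi.single a 1)) (Pi.single a 1)‖ ≤ √‖y - z‖ := by
        intro a
        refine (va_sub a y z).trans ((hf.hol y z).trans ?_)
        nlinarith [Real.sqrt_nonneg ‖y - z‖]
      set u : CV n := cx (fderiv ℝ f y (Pi.single a 1)) (Pi.single a 1) with hu
      set v : CV n := cx (fderiv ℝ f y (Pi.single b 1)) (Pi.single b 1) with hv
      set u' : CV n := cx (fderiv ℝ f z (Pi.single a 1)) (Pi.single a 1) with hu'
      set v' : CV n := cx (fderiv ℝ f z (Pi.single b 1)) (Pi.single b 1) with hv'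
      have hS := oS_flat (n := n) hI
      have e1 : oS I0 c u v = oS I0 c u' v + oS I0 c (u - u') v := by
        rw [← flat_add_left hS, add_sub_cancel]
      have e2 : oS I0 c u' v = oS I0 c u' v' + oS I0 c u' (v - v') := by
        rw [flat_anti hS c u' v, flat_anti hS c u' v', flat_anti hS c u' (v - v')]
        have : v = v' + (v - v') := by rw [add_sub_cancel]
        conv_lhs => rw [this, flat_add_left hS]
        ring
      have b1 := hb c (u - u') v
      have b2 := hb c u' (v - v')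
      have e3 : oS I0 c u v - oS I0 c u' v' = oS I0 c (u - u') v + oS I0 c u' (v - v') := by
        rw [e1, e2]; ring
      have b3 : C * ‖u - u'‖ * ‖v‖ ≤ C * √‖y - z‖ * 2 := by
        have := hsub a
        gcongr
      have b4 : C * ‖u'‖ * ‖v - v'‖ ≤ C * 2 * √‖y - z‖ := by
        have := hsub b
        gcongr
      rw [e3]
      refine (abs_add_le _ _).trans ?_
      linarith
    refine (norm_sub_sg (key 1) (key 2)).trans (le_of_eq ?_)
    ring
  have hh : Hol (40 * η + 8 * C) (Pf om f a b) := by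
    intro y z
    have e : ∀ y, Pf om f a b y = Qf om I0 f a b y + Pf (fun c _ => oS I0 c) f a b y := by
      intro y; simp only [Qf]; ring
    rw [e y, e z, add_sub_add_comm, add_mul]
    exact (norm_add_le _ _).trans (add_le_add (hq y z) (hs y z))
  exact ⟨_, hol_cont hh, hP, hh⟩

end Pool.Agent.MCL
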