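import Pool.Agent.MCL.Defs

/-!
# MCL/Riesz : the operators `k_j k_l / |k|²` on trigonometric sums
-/

set_option autoImplicit false

open MeasureTheory Set Filter Topology
open scoped Matrix

namespace Pool.Agent.MCL

namespace RZ

open ProbabilityTheory Complex

/-- the standard Gaussian of variance 2 on the line -/
noncomputable abbrev gam : Measure ℝ := gaussianReal 0 2

lemma int_exp (a : ℝ) : ∫ z, cexp ((a * z : ℝ) * I) ∂gam = cexp (-(a ^ 2 : ℝ)) := by
  have h := charFun_gaussianReal (μ := 0) (v := 2) a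
  rw [charFun_apply_real] at h
  have e : ∀ z : ℝ, cexp ((a * z : ℝ) * I) = cexp (a * z * I) := fun z => by push_cast; rfl
  simp_rw [e]
  rw [h]
  congr 1
  push_cast
  ring

lemma int_z_exp (a : ℝ) :
    ∫ z : ℝ, (z : ℂ) * cexp ((a * z : ℝ) * I) ∂gam = 2 * a * I * cexp (-(a ^ 2 : ℝ)) := by
  have h := iteratedDeriv_charFun (μ := gam) (n := 1) (t := a)
    (by exact_mod_cast memLp_id_gaussianReal' 1 (by simp))
  rw [iteratedDeriv_one] at h
  have e : (charFun gam : ℝ → ℂ) = fun t : ℝ => cexp (-((t ^ 2 : ℝ) : ℂ)) := by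
    funext t
    rw [charFun_gaussianReal]
    congr 1
    push_cast
    ring
  rw [e] at h
  have hd : HasDerivAt (fun t : ℝ => cexp (-((t ^ 2 : ℝ) : ℂ)))
      (cexp (-((a ^ 2 : ℝ) : ℂ)) * (-((2 * a : ℝ) : ℂ))) a := by
    have h1 : HasDerivAt (fun t : ℝ => (-((t ^ 2 : ℝ) : ℂ))) (-((2 * a : ℝ) : ℂ)) a := by
      have h2 : HasDerivAt (fun t : ℝ => t ^ 2) (2 * a) a := by
        simpa using hasDerivAt_pow 2 a
      exact (h2.ofReal_comp).neg
    exact h1.cexp
  rw [hd.deriv] at h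
  have e2 : ∀ z : ℝ, (z : ℂ) * cexp ((a * z : ℝ) * I) = (z : ℂ) ^ 1 * cexp (a * z * I) := by
    intro z
    push_cast
    ring_nf
  simp_rw [e2]
  have h3 : ∫ z : ℝ, (z : ℂ) ^ 1 * cexp (a * z * I) ∂gam
      = (-I) * (I ^ 1 * ∫ z : ℝ, (z : ℂ) ^ 1 * cexp (a * z * I) ∂gam) := by
    rw [← mul_assoc]
    simp
  rw [h3, ← h]
  push_cast
  ring

lemma int_abs : Integrable (fun z : ℝ => |z|) gam := by
  have h : MemLp id 1 gam := memLp_id_gaussianReal' 1 (by simp)
  exact (memLp_one_iff_integrable.1 h).abs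

lemma int_sq : Integrable (fun z : ℝ => z ^ 2) gam := by
  have h : MemLp id 2 gam := memLp_id_gaussianReal' 2 (by simp)
  exact h.integrable_sq

lemma int_abs_sqrt : Integrable (fun z : ℝ => |z| * Real.sqrt |z|) gam := by
  refine Integrable.mono' (g := fun z : ℝ => 1 + z ^ 2) ((integrable_const 1).add int_sq)
    (by fun_prop) ?_
  filter_upwards with z
  rw [Real.norm_eq_abs, abs_of_nonneg (by positivity)]
  rcases le_total |z| 1 with h | h
  · have h1 : Real.sqrt |z| ≤ 1 := by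
      rw [Real.sqrt_le_left zero_le_one]
      simpa using h
    nlinarith [abs_nonneg z, Real.sqrt_nonneg |z|, sq_nonneg z]
  · have h1 : Real.sqrt |z| ≤ |z| := by
      rw [Real.sqrt_le_left (abs_nonneg z)]
      nlinarith
    nlinarith [abs_nonneg z, Real.sqrt_nonneg |z|, sq_abs z]

/-- first absolute moment (halved) -/
noncomputable def K1 : ℝ := (1 / 2) * ∫ z, |z| ∂gam
/-- moment of order 3/2 (halved) -/
noncomputable def K2 : ℝ := (1 / 2) * ∫ z, |z| * Real.sqrt |z| ∂gam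

lemma K1_nonneg : 0 ≤ K1 := by
  unfold K1
  have := integral_nonneg (μ := gam) (f := fun z : ℝ => |z|) (fun z => abs_nonneg z)
  positivity

lemma K2_nonneg : 0 ≤ K2 := by
  unfold K2
  have := integral_nonneg (μ := gam) (f := fun z : ℝ => |z| * Real.sqrt |z|)
    (fun z => by positivity)
  positivity

variable {m : ℕ}

/-- the exponential with frequency `k` -/
noncomputable def ee (k : Fin m → ℝ) (x : Fin m → ℝ) : ℂ := cexp ((∑ j, k j * x j : ℝ) * I)

/-- trigonometric polynomial with frequencies in `S` -/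
noncomputable def tq (S : Finset (Fin m → ℝ)) (c : (Fin m → ℝ) → ℂ) (x : Fin m → ℝ) : ℂ :=
  ∑ k ∈ S, c k * ee k x

lemma ee_norm (k : Fin m → ℝ) (x : Fin m → ℝ) : ‖ee k x‖ = 1 := by
  unfold ee
  exact Complex.norm_exp_ofReal_mul_I _

lemma ee_shift (k : Fin m → ℝ) (x : Fin m → ℝ) (l : Fin m) (r : ℝ) :
    ee k (x + Pi.single l r) = ee k x * cexp ((k l * r : ℝ) * I) := by
  unfold ee
  rw [← Complex.exp_add]
  congr 1
  rw [← add_mul]
  congr 1
  rw [← Complex.ofReal_add]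
  congr 1
  simp only [Pi.add_apply, mul_add, Finset.sum_add_distrib]
  congr 1
  rw [Finset.sum_eq_single l]
  · simp
  · intro b _ hb
    simp [Pi.single_eq_of_ne hb]
  · simp

def Bd (S : Finset (Fin m → ℝ)) (c : (Fin m → ℝ) → ℂ) (M : ℝ) : Prop :=
  ∀ x, ‖tq S c x‖ ≤ M

def Ho (S : Finset (Fin m → ℝ)) (c : (Fin m → ℝ) → ℂ) (H : ℝ) : Prop :=
  ∀ x y, ‖tq S c x - tq S c y‖ ≤ H * Real.sqrt ‖x - y‖

lemma int_ee (k : Fin m → ℝ) (x : Fin m → ℝ) (l : Fin m) (s : ℝ) :
    Integrable (fun z : ℝ => ee k (x + Pi.single l (-(s * z)))) gam := by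
  refine Integrable.mono' (integrable_const (1 : ℝ)) ?_ ?_
  · refine Measurable.aestronglyMeasurable ?_
    simp_rw [ee_shift]
    fun_prop
  · filter_upwards with z
    rw [ee_norm]

lemma avg_eq (S : Finset (Fin m → ℝ)) (c : (Fin m → ℝ) → ℂ) (l : Fin m) (s : ℝ)
    (x : Fin m → ℝ) :
    tq S (fun k => c k * cexp (-((s ^ 2 * k l ^ 2 : ℝ)))) x
      = ∫ z, tq S c (x + Pi.single l (-(s * z))) ∂gam := by
  unfold tq
  rw [integral_finsetSum]
  · refine Finset.sum_congr rfl fun k _ => ?_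
    rw [integral_const_mul]
    simp_rw [ee_shift]
    rw [integral_const_mul]
    have : ∀ z : ℝ, cexp ((k l * (-(s * z)) : ℝ) * I)
        = cexp (((-k l * s) * z : ℝ) * I) := by
      intro z
      congr 3
      ring
    simp_rw [this]
    rw [int_exp]
    have e : ((-k l * s) ^ 2 : ℝ) = s ^ 2 * k l ^ 2 := by ring
    rw [e]
    ring
  · intro k _
    exact (int_ee k x l s).const_mul _

lemma avg_bd {S : Finset (Fin m → ℝ)} {c : (Fin m → ℝ) → ℂ} {M : ℝ} (h : Bd S c M) (l : Fin m)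
    (s : ℝ) : Bd S (fun k => c k * cexp (-((s ^ 2 * k l ^ 2 : ℝ)))) M := by
  intro x
  rw [avg_eq]
  refine (norm_integral_le_integral_norm _).trans ?_
  calc ∫ z, ‖tq S c (x + Pi.single l (-(s * z)))‖ ∂gam ≤ ∫ z, M ∂gam := by
        refine integral_mono_of_nonneg (Filter.Eventually.of_forall fun z => norm_nonneg _)
          (integrable_const M) (Filter.Eventually.of_forall fun z => h _)
    _ = M := by simp

lemma D_eq (S : Finset (Fin m → ℝ)) (c : (Fin m → ℝ) → ℂ) (l : Fin m) (s : ℝ) (hs : s ≠ 0)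
    (x : Fin m → ℝ) :
    tq S (fun k => c k * (I * k l) * cexp (-((s ^ 2 * k l ^ 2 : ℝ)))) x
      = -(1 / (2 * s : ℝ) : ℂ) * ∫ z, (z : ℂ) * tq S c (x + Pi.single l (-(s * z))) ∂gam := by
  unfold tq
  have e0 : ∀ z : ℝ, (z : ℂ) * ∑ k ∈ S, c k * ee k (x + Pi.single l (-(s * z)))
      = ∑ k ∈ S, c k * ee k x * ((z : ℂ) * cexp (((-k l * s) * z : ℝ) * I)) := by
    intro z
    rw [Finset.mul_sum]
    refine Finset.sum_congr rfl fun k _ => ?_
    rw [ee_shift]
    have : cexp ((k l * (-(s * z)) : ℝ) * I)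
        = cexp (((-k l * s) * z : ℝ) * I) := by
      congr 3
      ring
    rw [this]
    ring
  simp_rw [e0]
  rw [integral_finsetSum]
  · rw [Finset.mul_sum]
    refine Finset.sum_congr rfl fun k _ => ?_
    rw [integral_const_mul, int_z_exp]
    have e : ((-k l * s) ^ 2 : ℝ) = s ^ 2 * k l ^ 2 := by ring
    rw [e]
    have hs' : (s : ℂ) ≠ 0 := by exact_mod_cast hs
    push_cast
    field_simp
  · intro k _
    refine Integrable.const_mul ?_ _
    refine Integrable.mono' int_abs ?_ ?_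
    · exact Measurable.aestronglyMeasurable (by fun_prop)
    · filter_upwards with z
      rw [norm_mul, Complex.norm_exp_ofReal_mul_I]
      simp

lemma tq_cont (S : Finset (Fin m → ℝ)) (c : (Fin m → ℝ) → ℂ) : Continuous (tq S c) := by
  unfold tq ee
  fun_prop

lemma D_bd {S : Finset (Fin m → ℝ)} {c : (Fin m → ℝ) → ℂ} {M : ℝ} (h : Bd S c M) (l : Fin m)
    {s : ℝ} (hs : 0 < s) :
    Bd S (fun k => c k * (I * k l) * cexp (-((s ^ 2 * k l ^ 2 : ℝ)))) (K1 * M / s) := by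
  intro x
  rw [D_eq _ _ _ _ hs.ne', norm_mul]
  have h1 : ‖∫ z, (z : ℂ) * tq S c (x + Pi.single l (-(s * z))) ∂gam‖
      ≤ (∫ z, |z| ∂gam) * M := by
    refine (norm_integral_le_integral_norm _).trans ?_
    rw [← integral_mul_const]
    refine integral_mono_of_nonneg (Filter.Eventually.of_forall fun z => norm_nonneg _)
      (int_abs.mul_const M) (Filter.Eventually.of_forall fun z => ?_)
    simp only [norm_mul, Complex.norm_real, Real.norm_eq_abs]
    exact mul_le_mul_of_nonneg_left (h _) (abs_nonneg z)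
  have h2 : ‖(-(1 / (2 * s : ℝ) : ℂ))‖ = 1 / (2 * s) := by
    rw [norm_neg, norm_div, norm_one, Complex.norm_real, Real.norm_eq_abs,
      abs_of_pos (by positivity)]
  rw [h2]
  unfold K1
  calc 1 / (2 * s) * ‖∫ z, (z : ℂ) * tq S c (x + Pi.single l (-(s * z))) ∂gam‖
      ≤ 1 / (2 * s) * ((∫ z, |z| ∂gam) * M) := by gcongr
    _ = (1 / 2) * (∫ z, |z| ∂gam) * M / s := by field_simp

lemma int_z : ∫ z : ℝ, (z : ℂ) ∂gam = 0 := by
  have := int_z_exp 0
  simpa using this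

lemma D_hol' {S : Finset (Fin m → ℝ)} {c : (Fin m → ℝ) → ℂ} {H : ℝ} (h : Ho S c H) (l : Fin m)
    {r s : ℝ} (hr : 0 < r) (hrs : s = r ^ 2) :
    Bd S (fun k => c k * (I * k l) * cexp (-((s ^ 2 * k l ^ 2 : ℝ))))
      (K2 * H / r) := by
  intro x
  have hs : 0 < s := by rw [hrs]; positivity
  rw [D_eq _ _ _ _ hs.ne', norm_mul]
  have hint : Integrable (fun z : ℝ => (z : ℂ) * tq S c (x + Pi.single l (-(s * z)))) gam := by
    obtain ⟨M, hM⟩ : ∃ M, Bd S c M := by
      refine ⟨∑ k ∈ S, ‖c k‖, fun x => ?_⟩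
      refine (norm_sum_le _ _).trans (Finset.sum_le_sum fun k _ => ?_)
      rw [norm_mul, ee_norm, mul_one]
    refine Integrable.mono' (int_abs.mul_const M) ?_ ?_
    · refine Continuous.aestronglyMeasurable ?_
      have := tq_cont S c
      have h2 : Continuous fun z : ℝ => x + Pi.single l (-(s * z)) := by
        refine continuous_const.add ?_
        exact (continuous_single l).comp (by fun_prop)
      exact (by fun_prop : Continuous fun z : ℝ => (z : ℂ)).mul (this.comp h2)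
    · filter_upwards with z
      simp only [norm_mul, Complex.norm_real, Real.norm_eq_abs]
      exact mul_le_mul_of_nonneg_left (hM _) (abs_nonneg z)
  have h0 : ∫ z, (z : ℂ) * tq S c (x + Pi.single l (-(s * z))) ∂gam
      = ∫ z, (z : ℂ) * (tq S c (x + Pi.single l (-(s * z))) - tq S c x) ∂gam := by
    have h3 : ∫ z, (z : ℂ) * tq S c x ∂gam = 0 := by
      rw [integral_mul_const, int_z, zero_mul]
    simp_rw [mul_sub]
    rw [integral_sub hint, h3, sub_zero]
    refine Integrable.mul_const ?_ _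
    refine Integrable.mono' int_abs (by fun_prop) ?_
    filter_upwards with z
    simp
  have h1 : ‖∫ z, (z : ℂ) * tq S c (x + Pi.single l (-(s * z))) ∂gam‖
      ≤ (∫ z, |z| * Real.sqrt |z| ∂gam) * (H * r) := by
    rw [h0]
    refine (norm_integral_le_integral_norm _).trans ?_
    rw [← integral_mul_const]
    refine integral_mono_of_nonneg (Filter.Eventually.of_forall fun z => norm_nonneg _)
      (int_abs_sqrt.mul_const _) (Filter.Eventually.of_forall fun z => ?_)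
    simp only [norm_mul, Complex.norm_real, Real.norm_eq_abs]
    have h4 := h (x + Pi.single l (-(s * z))) x
    have h5 : ‖x + Pi.single l (-(s * z)) - x‖ = r ^ 2 * |z| := by
      rw [add_sub_cancel_left, Pi.norm_single, Real.norm_eq_abs, abs_neg, abs_mul,
        abs_of_pos hs, hrs]
    have h6 : Real.sqrt (r ^ 2 * |z|) = r * Real.sqrt |z| := by
      rw [Real.sqrt_mul (sq_nonneg r), Real.sqrt_sq hr.le]
    rw [h5, h6] at h4
    have h7 := mul_le_mul_of_nonneg_left h4 (abs_nonneg z)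
    have h8 : |z| * (H * (r * Real.sqrt |z|)) = |z| * Real.sqrt |z| * (H * r) := by ring
    rw [h8] at h7
    exact h7
  have h2 : ‖(-(1 / (2 * s : ℝ) : ℂ))‖ = 1 / (2 * s) := by
    rw [norm_neg, norm_div, norm_one, Complex.norm_real, Real.norm_eq_abs,
      abs_of_pos (by positivity)]
  rw [h2]
  unfold K2
  calc 1 / (2 * s) * ‖∫ z, (z : ℂ) * tq S c (x + Pi.single l (-(s * z))) ∂gam‖
      ≤ 1 / (2 * s) * ((∫ z, |z| * Real.sqrt |z| ∂gam) * (H * r)) := by gcongr
    _ = (1 / 2) * (∫ z, |z| * Real.sqrt |z| ∂gam) * H / r := by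
        rw [hrs]
        field_simp

lemma heat_bd {S : Finset (Fin m → ℝ)} {c : (Fin m → ℝ) → ℂ} {M : ℝ} (h : Bd S c M)
    (w : Fin m → ℝ) (hw : ∀ l, 0 ≤ w l) :
    Bd S (fun k => c k * cexp (-((∑ l, w l * k l ^ 2 : ℝ)))) M := by
  have key : ∀ T : Finset (Fin m),
      Bd S (fun k => c k * cexp (-((∑ l ∈ T, w l * k l ^ 2 : ℝ)))) M := by
    intro T
    induction T using Finset.induction_on with
    | empty => simpa using h
    | insert a T ha ih =>
        have := avg_bd ih a (Real.sqrt (w a))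
        have e : (fun k : Fin m → ℝ => c k * cexp (-((∑ l ∈ T, w l * k l ^ 2 : ℝ)))
            * cexp (-((Real.sqrt (w a) ^ 2 * k a ^ 2 : ℝ))))
            = fun k => c k * cexp (-((∑ l ∈ insert a T, w l * k l ^ 2 : ℝ))) := by
          funext k
          rw [mul_assoc, ← Complex.exp_add, Finset.sum_insert ha, Real.sq_sqrt (hw a)]
          congr 2
          push_cast
          ring
        rw [e] at this
        exact this
  exact key Finset.univ

lemma Bd.congr {S : Finset (Fin m → ℝ)} {c c' : (Fin m → ℝ) → ℂ} {M : ℝ} (h : Bd S c M)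
    (e : ∀ k ∈ S, c k = c' k) : Bd S c' M := by
  intro x
  have : tq S c' x = tq S c x := by
    unfold tq
    exact Finset.sum_congr rfl fun k hk => by rw [e k hk]
  rw [this]
  exact h x

/-- squared length of a frequency -/
noncomputable def nsq (k : Fin m → ℝ) : ℝ := ∑ l, k l ^ 2

/-- second order heat bound -/
lemma second {S : Finset (Fin m → ℝ)} {c : (Fin m → ℝ) → ℂ} {H : ℝ} (h : Ho S c H)
    (i j : Fin m) {r : ℝ} (hr : 0 < r) :
    Bd S (fun k => c k * ((I * k i) * (I * k j)) * cexp (-((4 * r ^ 4 * nsq k : ℝ))))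
      (K1 * (K2 * H / r) / r ^ 2) := by
  have h1 := D_hol' h j hr rfl
  have h2 := D_bd h1 i (s := r ^ 2) (by positivity)
  set w : Fin m → ℝ := fun l => 4 * r ^ 4 - (if l = i then r ^ 4 else 0) - (if l = j then r ^ 4 else 0)
    with hw
  have hw0 : ∀ l, 0 ≤ w l := by
    intro l
    have : 0 < r ^ 4 := by positivity
    simp only [hw]
    split_ifs <;> linarith
  have h3 := heat_bd h2 w hw0
  refine h3.congr fun k _ => ?_
  have hs : ∑ l, w l * k l ^ 2 = 4 * r ^ 4 * nsq k - r ^ 4 * k i ^ 2 - r ^ 4 * k j ^ 2 := by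
    simp only [hw, sub_mul, Finset.sum_sub_distrib, ite_mul, zero_mul, nsq, Finset.mul_sum]
    simp
  rw [hs]
  have e : cexp (-((4 * r ^ 4 * nsq k : ℝ)))
      = cexp (-(((r ^ 2) ^ 2 * k j ^ 2 : ℝ))) * cexp (-(((r ^ 2) ^ 2 * k i ^ 2 : ℝ)))
        * cexp (-((4 * r ^ 4 * nsq k - r ^ 4 * k i ^ 2 - r ^ 4 * k j ^ 2 : ℝ))) := by
    rw [← Complex.exp_add, ← Complex.exp_add]
    congr 1
    push_cast
    ring
  rw [e]
  ring

/-- third order heat bound -/
lemma third {S : Finset (Fin m → ℝ)} {c : (Fin m → ℝ) → ℂ} {H : ℝ} (h : Ho S c H)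
    (i j l : Fin m) {r : ℝ} (hr : 0 < r) :
    Bd S (fun k => (c k * ((I * k i) * (I * k j)) * cexp (-((4 * r ^ 4 * nsq k : ℝ))))
        * (I * k l))
      (K1 * (K1 * (K2 * H / r) / r ^ 2) / r ^ 2) := by
  have h1 := D_hol' h j hr rfl
  have h2 := D_bd h1 i (s := r ^ 2) (by positivity)
  have h2' := D_bd h2 l (s := r ^ 2) (by positivity)
  set w : Fin m → ℝ := fun a => 4 * r ^ 4 - (if a = i then r ^ 4 else 0)
    - (if a = j then r ^ 4 else 0) - (if a = l then r ^ 4 else 0) with hw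
  have hw0 : ∀ l, 0 ≤ w l := by
    intro l
    have : 0 < r ^ 4 := by positivity
    simp only [hw]
    split_ifs <;> linarith
  have h3 := heat_bd h2' w hw0
  refine h3.congr fun k _ => ?_
  have hs : ∑ a, w a * k a ^ 2 = 4 * r ^ 4 * nsq k - r ^ 4 * k i ^ 2
      - r ^ 4 * k j ^ 2 - r ^ 4 * k l ^ 2 := by
    simp only [hw, sub_mul, Finset.sum_sub_distrib, ite_mul, zero_mul, nsq, Finset.mul_sum]
    simp
  rw [hs]
  have e : cexp (-((4 * r ^ 4 * nsq k : ℝ)))
      = cexp (-(((r ^ 2) ^ 2 * k j ^ 2 : ℝ))) * cexp (-(((r ^ 2) ^ 2 * k i ^ 2 : ℝ)))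
        * cexp (-(((r ^ 2) ^ 2 * k l ^ 2 : ℝ)))
        * cexp (-((4 * r ^ 4 * nsq k - r ^ 4 * k i ^ 2 - r ^ 4 * k j ^ 2
          - r ^ 4 * k l ^ 2 : ℝ))) := by
    rw [← Complex.exp_add, ← Complex.exp_add, ← Complex.exp_add]
    congr 1
    push_cast
    ring
  rw [e]
  ring

lemma hasDerivAt_ee (k : Fin m → ℝ) (x v : Fin m → ℝ) (t : ℝ) :
    HasDerivAt (fun t : ℝ => ee k (x + t • v))
      (ee k (x + t • v) * ((∑ j, k j * v j : ℝ) * I)) t := by
  unfold ee
  have h1 : HasDerivAt (fun t : ℝ => (∑ j, k j * (x + t • v) j : ℝ))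
      (∑ j, k j * v j) t := by
    refine HasDerivAt.fun_sum fun j _ => ?_
    have : HasDerivAt (fun t : ℝ => x j + t * v j) (1 * v j) t :=
      ((hasDerivAt_id t).mul_const (v j)).const_add (x j)
    simpa using this.const_mul (k j)
  exact (h1.ofReal_comp.mul_const I).cexp

/-- Lipschitz bound from bounds of the partial derivatives -/
lemma lip {S : Finset (Fin m → ℝ)} {c : (Fin m → ℝ) → ℂ} {M : ℝ}
    (h : ∀ l, Bd S (fun k => c k * (I * k l)) M) (x y : Fin m → ℝ) :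
    ‖tq S c x - tq S c y‖ ≤ m * M * ‖x - y‖ := by
  have hd : ∀ t : ℝ, HasDerivAt (fun t : ℝ => tq S c (y + t • (x - y)))
      (∑ l, ((x - y) l : ℝ) * tq S (fun k => c k * (I * k l)) (y + t • (x - y))) t := by
    intro t
    unfold tq
    have h1 := HasDerivAt.fun_sum (u := S)
      (fun k (_ : k ∈ S) => (hasDerivAt_ee k y (x - y) t).const_mul (c k))
    refine h1.congr_deriv ?_
    symm
    simp_rw [Finset.mul_sum]
    rw [Finset.sum_comm]
    refine Finset.sum_congr rfl fun k _ => ?_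
    push_cast
    rw [Finset.sum_mul, Finset.mul_sum, Finset.mul_sum]
    refine Finset.sum_congr rfl fun l _ => ?_
    ring
  have h2 : ∀ t ∈ Set.Icc (0 : ℝ) 1,
      ‖(∑ l, ((x - y) l : ℝ) * tq S (fun k => c k * (I * k l)) (y + t • (x - y)))‖
        ≤ m * M * ‖x - y‖ := by
    intro t _
    refine (norm_sum_le _ _).trans ?_
    calc ∑ l, ‖(((x - y) l : ℝ) : ℂ) * tq S (fun k => c k * (I * k l)) (y + t • (x - y))‖
        ≤ ∑ l : Fin m, ‖x - y‖ * M := by
          refine Finset.sum_le_sum fun l _ => ?_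
          rw [norm_mul, Complex.norm_real]
          exact mul_le_mul (norm_le_pi_norm (x - y) l) (h l _) (norm_nonneg _) (norm_nonneg _)
      _ = m * M * ‖x - y‖ := by
          rw [Finset.sum_const, Finset.card_univ, Fintype.card_fin, nsmul_eq_mul]
          ring
  have h3 := Convex.norm_image_sub_le_of_norm_hasDerivWithin_le (𝕜 := ℝ)
    (f := fun t : ℝ => tq S c (y + t • (x - y))) (s := Set.Icc (0 : ℝ) 1)
    (fun t ht => (hd t).hasDerivWithinAt) h2 (convex_Icc 0 1)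
    (Set.left_mem_Icc.2 zero_le_one) (Set.right_mem_Icc.2 zero_le_one)
  simpa using h3

/-- coefficients of the double Riesz transform -/
noncomputable def rz (i j : Fin m) (k : Fin m → ℝ) : ℂ := (k i * k j / nsq k : ℝ)

lemma nsq_zero_iff (k : Fin m → ℝ) : nsq k = 0 ↔ k = 0 := by
  unfold nsq
  rw [Finset.sum_eq_zero_iff_of_nonneg (fun l _ => sq_nonneg _)]
  constructor
  · intro h
    funext l
    have := h l (Finset.mem_univ l)
    simpa using this
  · rintro rfl l _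
    simp

/-- the heat flow of the Riesz transform, as a function of `τ` -/
lemma hasDerivAt_tau (S : Finset (Fin m → ℝ)) (c : (Fin m → ℝ) → ℂ) (i j : Fin m)
    (x : Fin m → ℝ) (τ : ℝ) :
    HasDerivAt (fun τ : ℝ => tq S (fun k => c k * rz i j k * cexp (-((τ * nsq k : ℝ)))) x)
      (tq S (fun k => c k * ((I * k i) * (I * k j)) * cexp (-((τ * nsq k : ℝ)))) x)
      τ := by
  unfold tq
  refine HasDerivAt.fun_sum fun k _ => ?_
  have h1 : HasDerivAt (fun τ : ℝ => (-((τ * nsq k : ℝ) : ℂ))) (-((nsq k : ℝ) : ℂ)) τ := by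
    have := ((hasDerivAt_id τ).mul_const (nsq k)).ofReal_comp.fun_neg
    simpa using this
  have h2 := ((h1.cexp).const_mul (c k * rz i j k)).mul_const (ee k x)
  refine h2.congr_deriv ?_
  have h3 : rz i j k * (nsq k : ℂ) = k i * k j := by
    unfold rz
    by_cases hk : nsq k = 0
    · have := (nsq_zero_iff k).1 hk
      subst this
      simp [hk]
    · have hk' : (nsq k : ℂ) ≠ 0 := by exact_mod_cast hk
      push_cast
      field_simp
  have h4 : c k * rz i j k * (cexp (-((τ * nsq k : ℝ) : ℂ)) * -(nsq k : ℂ)) * ee k x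
      = - (c k * (rz i j k * (nsq k : ℂ)) * cexp (-((τ * nsq k : ℝ) : ℂ)) * ee k x) := by ring
  rw [h4, h3]
  beta_reduce
  have h5 : (I * (k i : ℂ)) * (I * (k j : ℂ)) = -((k i : ℂ) * (k j : ℂ)) := by
    have : (I * (k i : ℂ)) * (I * (k j : ℂ))
      = (I * I) * ((k i : ℂ) * (k j : ℂ)) := by ring
    rw [this, Complex.I_mul_I]
    ring
  rw [h5]
  ring

/-- the heat flow of the Riesz transform of `c` -/
noncomputable def GG (S : Finset (Fin m → ℝ)) (c : (Fin m → ℝ) → ℂ) (i j : Fin m)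
    (x : Fin m → ℝ) (τ : ℝ) : ℂ :=
  tq S (fun k => c k * rz i j k * cexp (-((τ * nsq k : ℝ)))) x

lemma GG_near {S : Finset (Fin m → ℝ)} {c : (Fin m → ℝ) → ℂ} {H : ℝ} (hH : 0 ≤ H) (h : Ho S c H)
    (i j : Fin m) (x : Fin m → ℝ) {s : ℝ} (hs : 0 < s) :
    ‖GG S c i j x (4 * s ^ 4) - GG S c i j x 0‖ ≤ 16 * K1 * K2 * H * s := by
  have hd : ∀ r : ℝ, HasDerivAt (fun r : ℝ => GG S c i j x (4 * r ^ 4))
      ((16 * r ^ 3 : ℝ) • tq S (fun k => c k * ((I * k i) * (I * k j))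
        * cexp (-(((4 * r ^ 4) * nsq k : ℝ)))) x) r := by
    intro r
    have h1 : HasDerivAt (fun r : ℝ => 4 * r ^ 4) (16 * r ^ 3) r := by
      have := (hasDerivAt_pow 4 r).const_mul 4
      refine this.congr_deriv ?_
      norm_num
      ring
    exact (hasDerivAt_tau S c i j x (4 * r ^ 4)).scomp r h1
  have hb : ∀ r ∈ Set.Icc (0 : ℝ) s, ‖(16 * r ^ 3 : ℝ) • tq S (fun k => c k *
      ((I * k i) * (I * k j)) * cexp (-(((4 * r ^ 4) * nsq k : ℝ)))) x‖
        ≤ 16 * K1 * K2 * H := by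
    intro r hr
    have hK : 0 ≤ 16 * K1 * K2 * H := by
      have := K1_nonneg
      have := K2_nonneg
      positivity
    rcases hr.1.eq_or_lt with h0 | h0
    · rw [← h0]
      simpa using hK
    · rw [norm_smul, Real.norm_eq_abs, abs_of_pos (by positivity)]
      have h2 := second h i j h0 x
      calc 16 * r ^ 3 * ‖tq S (fun k => c k * ((I * k i) * (I * k j))
            * cexp (-(((4 * r ^ 4) * nsq k : ℝ)))) x‖
          ≤ 16 * r ^ 3 * (K1 * (K2 * H / r) / r ^ 2) := by gcongr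
        _ = 16 * K1 * K2 * H := by field_simp
  have h3 := Convex.norm_image_sub_le_of_norm_hasDerivWithin_le (𝕜 := ℝ)
    (f := fun r : ℝ => GG S c i j x (4 * r ^ 4)) (s := Set.Icc (0 : ℝ) s)
    (fun t _ => (hd t).hasDerivWithinAt) hb (convex_Icc 0 s)
    (Set.left_mem_Icc.2 hs.le) (Set.right_mem_Icc.2 hs.le)
  have h4 : (4 : ℝ) * 0 ^ 4 = 0 := by norm_num
  simp only [h4, sub_zero, Real.norm_eq_abs, abs_of_pos hs] at h3
  exact h3

lemma rz_zero (i j : Fin m) {k : Fin m → ℝ} (hk : nsq k = 0) : rz i j k = 0 := by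
  unfold rz
  rw [hk]
  simp

lemma nsq_nonneg (k : Fin m → ℝ) : 0 ≤ nsq k := Finset.sum_nonneg fun _ _ => sq_nonneg _

lemma GG_far {S : Finset (Fin m → ℝ)} {c : (Fin m → ℝ) → ℂ} (i j : Fin m) (x : Fin m → ℝ) :
    Tendsto (fun τ : ℝ => GG S c i j x τ) atTop (𝓝 0) := by
  unfold GG tq
  rw [← Finset.sum_const_zero (s := S)]
  refine tendsto_finsetSum _ fun k _ => ?_
  by_cases hk : nsq k = 0
  · simp [rz_zero i j hk]
  · have h1 : 0 < nsq k := lt_of_le_of_ne (nsq_nonneg k) (Ne.symm hk)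
    have h2 : Tendsto (fun τ : ℝ => Real.exp (-(τ * nsq k))) atTop (𝓝 0) :=
      Real.tendsto_exp_neg_atTop_nhds_zero.comp (tendsto_id.atTop_mul_const h1)
    have h3 : Tendsto (fun τ : ℝ => cexp (-((τ * nsq k : ℝ)))) atTop (𝓝 0) := by
      have := (Complex.continuous_ofReal.tendsto 0).comp h2
      simpa [Function.comp_def] using this
    have h4 := (h3.const_mul (c k * rz i j k)).mul_const (ee k x)
    simpa using h4

lemma GG_mid {S : Finset (Fin m → ℝ)} {c : (Fin m → ℝ) → ℂ} {H : ℝ} (h : Ho S c H)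
    (i j : Fin m) (x y : Fin m → ℝ) {s : ℝ} (hs : 0 < s) :
    ‖GG S c i j x (4 * s ^ 4) - GG S c i j y (4 * s ^ 4)‖
      ≤ 16 * m * K1 ^ 2 * K2 * H * ‖x - y‖ / s := by
  set q : ℝ → (Fin m → ℝ) → ℂ := fun τ x => tq S (fun k => c k * ((I * k i) * (I * k j))
        * cexp (-((τ * nsq k : ℝ)))) x with hq
  have hd : ∀ r ∈ Set.Ioc (0 : ℝ) (1 / s), HasDerivAt
      (fun r : ℝ => GG S c i j x (4 * (r⁻¹) ^ 4) - GG S c i j y (4 * (r⁻¹) ^ 4))
      ((-(16 * (r⁻¹) ^ 5) : ℝ) • (q (4 * (r⁻¹) ^ 4) x - q (4 * (r⁻¹) ^ 4) y)) r := by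
    intro r hr
    have h1 : HasDerivAt (fun r : ℝ => 4 * (r⁻¹) ^ 4) (-(16 * (r⁻¹) ^ 5)) r := by
      have := ((hasDerivAt_inv hr.1.ne').pow 4).const_mul 4
      refine this.congr_deriv ?_
      have : r ≠ 0 := hr.1.ne'
      have h9 : ((r ^ 2)⁻¹ : ℝ) = r⁻¹ ^ 2 := by rw [inv_pow]
      rw [h9]
      norm_num
      ring
    have h2 := (hasDerivAt_tau S c i j x (4 * (r⁻¹) ^ 4)).scomp r h1
    have h3 := (hasDerivAt_tau S c i j y (4 * (r⁻¹) ^ 4)).scomp r h1
    have h4 := h2.fun_sub h3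
    rw [← smul_sub] at h4
    exact h4
  have hb : ∀ r ∈ Set.Ioc (0 : ℝ) (1 / s),
      ‖((-(16 * (r⁻¹) ^ 5) : ℝ) • (q (4 * (r⁻¹) ^ 4) x - q (4 * (r⁻¹) ^ 4) y))‖
        ≤ 16 * m * K1 ^ 2 * K2 * H * ‖x - y‖ := by
    intro r hr
    have hr' : 0 < r⁻¹ := inv_pos.2 hr.1
    have h5 := lip (fun l => third h i j l hr') x y
    rw [norm_smul, Real.norm_eq_abs, abs_neg, abs_of_pos (by positivity)]
    calc 16 * (r⁻¹) ^ 5 * ‖q (4 * (r⁻¹) ^ 4) x - q (4 * (r⁻¹) ^ 4) y‖
        ≤ 16 * (r⁻¹) ^ 5 * (m * (K1 * (K1 * (K2 * H / r⁻¹) / (r⁻¹) ^ 2) / (r⁻¹) ^ 2) * ‖x - y‖) := by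
          gcongr
      _ = 16 * m * K1 ^ 2 * K2 * H * ‖x - y‖ := by
          have : r ≠ 0 := hr.1.ne'
          field_simp
  have h0 : Tendsto (fun r : ℝ => GG S c i j x (4 * (r⁻¹) ^ 4) - GG S c i j y (4 * (r⁻¹) ^ 4))
      (𝓝[>] 0) (𝓝 0) := by
    have h1 : Tendsto (fun r : ℝ => 4 * (r⁻¹) ^ 4) (𝓝[>] 0) atTop :=
      ((tendsto_pow_atTop (by norm_num)).comp tendsto_inv_nhdsGT_zero).const_mul_atTop
        (by norm_num)
    have := ((GG_far (S := S) (c := c) i j x).comp h1).sub ((GG_far (S := S) (c := c) i j y).comp h1)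
    simpa [Function.comp_def] using this
  have h6 : ∀ᶠ r in 𝓝[>] (0 : ℝ),
      ‖(GG S c i j x (4 * (r⁻¹) ^ 4) - GG S c i j y (4 * (r⁻¹) ^ 4))
        - (GG S c i j x (4 * s ^ 4) - GG S c i j y (4 * s ^ 4))‖
        ≤ 16 * m * K1 ^ 2 * K2 * H * ‖x - y‖ / s := by
    have hs' : 0 < 1 / s := by positivity
    filter_upwards [Ioc_mem_nhdsGT hs'] with r hr
    have h7 := Convex.norm_image_sub_le_of_norm_hasDerivWithin_le (𝕜 := ℝ)
      (f := fun r : ℝ => GG S c i j x (4 * (r⁻¹) ^ 4) - GG S c i j y (4 * (r⁻¹) ^ 4))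
      (s := Set.Ioc (0 : ℝ) (1 / s))
      (fun t ht => (hd t ht).hasDerivWithinAt) hb (convex_Ioc 0 (1 / s))
      (Set.right_mem_Ioc.2 hs') hr
    have h8 : ((1 / s : ℝ))⁻¹ = s := by simp
    simp only [h8] at h7
    refine h7.trans ?_
    have hC : 0 ≤ 16 * m * K1 ^ 2 * K2 * H * ‖x - y‖ := (norm_nonneg _).trans (hb r hr)
    have h9 : ‖r - 1 / s‖ ≤ 1 / s := by
      rw [Real.norm_eq_abs, abs_le]
      constructor
      · linarith [hr.1]
      · linarith [hr.2]
    calc 16 * m * K1 ^ 2 * K2 * H * ‖x - y‖ * ‖r - 1 / s‖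
        ≤ 16 * m * K1 ^ 2 * K2 * H * ‖x - y‖ * (1 / s) := by gcongr
      _ = _ := by ring
  have h10 := le_of_tendsto (h0.sub_const _).norm h6
  rwa [zero_sub, norm_neg] at h10

theorem main {S : Finset (Fin m → ℝ)} {c : (Fin m → ℝ) → ℂ} {H : ℝ} (hH : 0 ≤ H) (h : Ho S c H)
    (i j : Fin m) :
    Ho S (fun k => c k * rz i j k) ((32 * K1 * K2 + 16 * m * K1 ^ 2 * K2) * H) := by
  intro x y
  rcases eq_or_ne x y with hxy | hxy
  · subst hxy
    simp
  have hp : 0 < ‖x - y‖ := norm_pos_iff.2 (sub_ne_zero.2 hxy)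
  have hs : 0 < Real.sqrt ‖x - y‖ := Real.sqrt_pos.2 hp
  have e : ∀ x, tq S (fun k => c k * rz i j k) x = GG S c i j x 0 := by
    intro x
    unfold GG
    simp
  rw [e, e]
  have h1 := GG_near hH h i j x hs
  have h2 := GG_near hH h i j y hs
  have h3 := GG_mid h i j x y hs
  set s := Real.sqrt ‖x - y‖ with hs_def
  have hss : ‖x - y‖ = s * s := (Real.mul_self_sqrt hp.le).symm
  have h4 : 16 * m * K1 ^ 2 * K2 * H * ‖x - y‖ / s = 16 * m * K1 ^ 2 * K2 * H * s := by
    rw [hss]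
    field_simp
  rw [h4] at h3
  have h5 : GG S c i j x 0 - GG S c i j y 0 = -(GG S c i j x (4 * s ^ 4) - GG S c i j x 0)
      + (GG S c i j x (4 * s ^ 4) - GG S c i j y (4 * s ^ 4))
      + (GG S c i j y (4 * s ^ 4) - GG S c i j y 0) := by ring
  rw [h5]
  calc _ ≤ ‖-(GG S c i j x (4 * s ^ 4) - GG S c i j x 0)‖
        + ‖GG S c i j x (4 * s ^ 4) - GG S c i j y (4 * s ^ 4)‖
        + ‖GG S c i j y (4 * s ^ 4) - GG S c i j y 0‖ := norm_add₃_le
    _ ≤ 16 * K1 * K2 * H * s + 16 * m * K1 ^ 2 * K2 * H * s + 16 * K1 * K2 * H * s := by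
        rw [norm_neg]
        gcongr
    _ = _ := by ring

end RZ

open RZ in
/-- The second order multipliers `k_j k_l / |k|²` (zero for `k = 0`) are bounded on trigonometric
sums in the Hölder norm. -/
theorem riesz {d : ℕ} (A : Matrix (Fin d) (Fin d) ℝ) (_hA : IsUnit A.det) :
    ∃ C > 0, ∀ (S : Finset (Fin d → ℤ)) (c : (Fin d → ℤ) → ℂ) (K : ℝ), 0 ≤ K →
      Hol K (tp A S c) → ∀ j l,
      Hol (C * K) (tp A S fun ν => ((fr A ν j * fr A ν l / sq (fr A ν) : ℝ) : ℂ) * c ν) := by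
  classical
  refine ⟨32 * K1 * K2 + 16 * d * K1 ^ 2 * K2 + 1, by
    have := K1_nonneg
    have := K2_nonneg
    positivity, fun S c K hK h j l => ?_⟩
  have hee : ∀ (k x : Fin d → ℝ), ex k x = ee k x := by
    intro k x
    unfold ex ee dotProduct
    rw [mul_comm]
  have key : ∀ g : (Fin d → ℝ) → ℂ, ∀ x, tp A S (fun ν => g (fr A ν) * c ν) x
      = tq (S.image (fr A)) (fun k => (∑ ν ∈ S with fr A ν = k, c ν) * g k) x := by
    intro g x
    unfold tp tq
    rw [← Finset.sum_fiberwise_of_maps_to (g := fr A) (t := S.image (fr A))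
      (fun ν hν => Finset.mem_image_of_mem _ hν)]
    refine Finset.sum_congr rfl fun k _ => ?_
    beta_reduce
    rw [Finset.sum_mul, Finset.sum_mul]
    refine Finset.sum_congr rfl fun ν hν => ?_
    rw [(Finset.mem_filter.1 hν).2, hee]
    ring
  have h1 : Ho (S.image (fr A)) (fun k => ∑ ν ∈ S with fr A ν = k, c ν) K := by
    intro x y
    have e : ∀ x, tq (S.image (fr A)) (fun k => ∑ ν ∈ S with fr A ν = k, c ν) x = tp A S c x := by
      intro x
      have := key (fun _ => 1) x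
      simp only [one_mul, mul_one] at this
      exact this.symm
    rw [e, e]
    exact h x y
  have h2 := main hK h1 j l
  intro x y
  have e : ∀ x, tp A S (fun ν => ((fr A ν j * fr A ν l / sq (fr A ν) : ℝ) : ℂ) * c ν) x
      = tq (S.image (fr A)) (fun k => (∑ ν ∈ S with fr A ν = k, c ν) * rz j l k) x := by
    intro x
    have := key (fun k => rz j l k) x
    rw [← this]
    unfold tp
    refine Finset.sum_congr rfl fun ν _ => ?_
    beta_reduce
    have h3 : sq (fr A ν) = nsq (fr A ν) := by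
      unfold nsq sq dotProduct
      exact Finset.sum_congr rfl fun a _ => by ring
    unfold rz
    rw [h3]
  rw [e, e]
  refine (h2 x y).trans ?_
  have := Real.sqrt_nonneg ‖x - y‖
  nlinarith [mul_nonneg hK this]

end Pool.Agent.MCL
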