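import Pool.Agent.MCL.Step
import Pool.Agent.MCL.Riesz
import Pool.Agent.MCL.Interp

/-!
# MCL/Schau : estimates for one step

`stp_inK`: `Z_j = tp (box N) (zc ..)` has `pd i Z_j = -2 Σ E'_la E'_bj R_il (fej Q_ab)` with the
multipliers `R_il = k_i k_l / |k|²` of `riesz` and `fej_hol`; it has mean zero, so it is bounded by
`sup_le_of_mean`; `Z_j` is Lipschitz and periodic (so Hölder, `exists_cell`) with mean zero, hence
bounded. `cf_zeta_stp`: with `v_b = 2 Σ E'_la nf_l c_ab` the vector `zc_j = Σ_b E'_bj v_b` satisfies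
`I0 zc = -i zc` (`E'ᵀ = E''`, `I0 E'' = -i E''`), so for `f = Re Z` one has `f + i I0 f = Z`; and
`fw N ν = 0` outside `box d N` (`N > 0`).
-/

set_option autoImplicit false

open MeasureTheory Set Filter Topology
open scoped Matrix

namespace Pool.Agent.MCL

variable {d : ℕ}

namespace SC

/-- the components of the map before taking real parts -/
noncomputable def ZZ (A I0 : Matrix (Fin d) (Fin d) ℝ) (N : ℕ) (Q : Fin d → Fin d → X d → ℂ)
    (j : Fin d) : X d → ℂ :=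
  tp A (box d N) (zc A I0 (fun a b ν => (fw N ν : ℂ) * cf A (Q a b) ν) j)

lemma ZZ_contDiff (A I0 : Matrix (Fin d) (Fin d) ℝ) (N : ℕ) (Q : Fin d → Fin d → X d → ℂ)
    (j : Fin d) : ContDiff ℝ (⊤ : ℕ∞) (ZZ A I0 N Q j) := tp_contDiff _ _

lemma ZZ_c1 (A I0 : Matrix (Fin d) (Fin d) ℝ) (N : ℕ) (Q : Fin d → Fin d → X d → ℂ)
    (j : Fin d) : ContDiff ℝ 1 (ZZ A I0 N Q j) := (ZZ_contDiff A I0 N Q j).of_le (by simp)

lemma ZZ_per (A I0 : Matrix (Fin d) (Fin d) ℝ) (hA : IsUnit A.det) (N : ℕ)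
    (Q : Fin d → Fin d → X d → ℂ) (j : Fin d) : Per A (ZZ A I0 N Q j) := tp_per hA _ _

lemma stp_apply (A I0 : Matrix (Fin d) (Fin d) ℝ) (N : ℕ) (Q : Fin d → Fin d → X d → ℂ)
    (y : X d) (j : Fin d) : stp A I0 N Q y j = (ZZ A I0 N Q j y).re := rfl

lemma fderiv_sum (F : X d → ℂ) (y v : X d) :
    fderiv ℝ F y v = ∑ i, v i • pd i F y := by
  conv_lhs => rw [← Finset.univ_sum_single v]
  rw [map_sum]
  refine Finset.sum_congr rfl fun i _ => ?_
  unfold pd
  rw [← map_smul]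
  congr 1
  rw [← Pi.single_smul]
  simp

lemma hasFDerivAt_stp (A I0 : Matrix (Fin d) (Fin d) ℝ) (N : ℕ) (Q : Fin d → Fin d → X d → ℂ)
    (y : X d) : HasFDerivAt (stp A I0 N Q)
      (ContinuousLinearMap.pi fun j => Complex.reCLM.comp (fderiv ℝ (ZZ A I0 N Q j) y)) y := by
  rw [hasFDerivAt_pi]
  intro j
  have h : HasFDerivAt (ZZ A I0 N Q j) (fderiv ℝ (ZZ A I0 N Q j) y) y :=
    ((ZZ_c1 A I0 N Q j).differentiable (by norm_num) y).hasFDerivAt
  exact Complex.reCLM.hasFDerivAt.comp y h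

lemma fderiv_stp_apply (A I0 : Matrix (Fin d) (Fin d) ℝ) (N : ℕ) (Q : Fin d → Fin d → X d → ℂ)
    (y v : X d) (j : Fin d) :
    fderiv ℝ (stp A I0 N Q) y v j = (fderiv ℝ (ZZ A I0 N Q j) y v).re := by
  rw [(hasFDerivAt_stp A I0 N Q y).fderiv]
  rfl

lemma pd_ZZ (A I0 : Matrix (Fin d) (Fin d) ℝ) (N : ℕ) (Q : Fin d → Fin d → X d → ℂ)
    (i j : Fin d) (y : X d) :
    pd i (ZZ A I0 N Q j) y = ∑ l, ∑ a, ∑ b, (-2 * (Ep I0 l a * Ep I0 b j)) *
      tp A (box d N) (fun ν => ((fr A ν i * fr A ν l / sq (fr A ν) : ℝ) : ℂ) *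
        ((fw N ν : ℂ) * cf A (Q a b) ν)) y := by
  unfold ZZ
  rw [pd_tp]
  unfold tp
  simp_rw [Finset.mul_sum]
  have : ∀ ν : Fin d → ℤ, Complex.I * (fr A ν i : ℂ) *
      zc A I0 (fun a b ν => (fw N ν : ℂ) * cf A (Q a b) ν) j ν * ex (fr A ν) y
      = ∑ l, ∑ a, ∑ b, (-2 * (Ep I0 l a * Ep I0 b j)) *
      (((fr A ν i * fr A ν l / sq (fr A ν) : ℝ) : ℂ) *
        ((fw N ν : ℂ) * cf A (Q a b) ν) * ex (fr A ν) y) := by
    intro ν
    unfold zc nf
    rw [Finset.mul_sum, Finset.mul_sum, Finset.sum_mul]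
    refine Finset.sum_congr rfl fun l _ => ?_
    rw [Finset.mul_sum, Finset.mul_sum, Finset.sum_mul]
    refine Finset.sum_congr rfl fun a _ => ?_
    rw [Finset.mul_sum, Finset.mul_sum, Finset.sum_mul]
    refine Finset.sum_congr rfl fun b _ => ?_
    push_cast
    have hI : Complex.I * Complex.I = -1 := Complex.I_mul_I
    linear_combination (2 * (fr A ν i : ℂ) * (Ep I0 l a * Ep I0 b j) *
      ((fr A ν l : ℂ) / (sq (fr A ν) : ℂ)) * ((fw N ν : ℂ) * cf A (Q a b) ν) *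
        ex (fr A ν) y) * hI
  simp_rw [this]
  rw [Finset.sum_comm]
  refine Finset.sum_congr rfl fun l _ => ?_
  rw [Finset.sum_comm]
  refine Finset.sum_congr rfl fun a _ => ?_
  rw [Finset.sum_comm]

lemma avg_ZZ (A I0 : Matrix (Fin d) (Fin d) ℝ) (hA : IsUnit A.det) (N : ℕ)
    (Q : Fin d → Fin d → X d → ℂ) (j : Fin d) : avg A (ZZ A I0 N Q j) = 0 := by
  have h1 : avg A (ZZ A I0 N Q j) = cf A (ZZ A I0 N Q j) 0 := by
    unfold cf
    congr 1
    funext y
    rw [fr_zero]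
    have : ex (-0) y = 1 := by
      unfold ex
      simp
    rw [this, one_mul]
  rw [h1]
  unfold ZZ
  rw [cf_tp hA]
  split_ifs
  · unfold zc nf
    simp [fr_zero]
  · rfl

end SC

open SC

theorem stp_contDiff (A I0 : Matrix (Fin d) (Fin d) ℝ) (N : ℕ) (Q : Fin d → Fin d → X d → ℂ) :
    ContDiff ℝ (⊤ : ℕ∞) (stp A I0 N Q) := by
  rw [contDiff_pi]
  intro j
  exact Complex.reCLM.contDiff.comp (ZZ_contDiff A I0 N Q j)

/-- Schauder's estimate. -/
theorem stp_inK (A I0 : Matrix (Fin d) (Fin d) ℝ) (hA : IsUnit A.det) (hI : IsCx I0) :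
    ∃ C > 0, ∀ (N : ℕ) (Q : Fin d → Fin d → X d → ℂ) (K : ℝ), 0 < N → 0 ≤ K →
      (∀ a b, Continuous (Q a b) ∧ Per A (Q a b) ∧ Hol K (Q a b)) →
      InK A (C * K) (stp A I0 N Q) := by
  obtain ⟨C0, hC0, hR⟩ := riesz A hA
  obtain ⟨C1, hC1, hM⟩ := sup_le_of_mean A hA
  obtain ⟨R, hR0, hcell⟩ := exists_cell A hA
  -- a constant for the matrices
  obtain ⟨M, hM0, hE⟩ : ∃ M : ℝ, 0 ≤ M ∧ ∀ j, ∑ l, ∑ a, ∑ b, ‖(-2 : ℂ) * (Ep I0 l a * Ep I0 b j)‖ ≤ M := by
    refine ⟨∑ j, ∑ l, ∑ a, ∑ b, ‖(-2 : ℂ) * (Ep I0 l a * Ep I0 b j)‖, by positivity, fun j => ?_⟩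
    exact Finset.single_le_sum (f := fun j => ∑ l, ∑ a, ∑ b, ‖(-2 : ℂ) * (Ep I0 l a * Ep I0 b j)‖)
      (fun _ _ => by positivity) (Finset.mem_univ j)
  set B1 : ℝ := M * C0 with hB1
  have hB1' : 0 ≤ B1 := by positivity
  set B2 : ℝ := C1 * B1 with hB2
  have hB2' : 0 ≤ B2 := by positivity
  refine ⟨d * B1 + d * B2 + d * B2 * R + 1, by positivity, ?_⟩
  intro N Q K hN hK hQ
  -- partial derivatives
  have h1 : ∀ i j, Hol (B1 * K) (pd i (ZZ A I0 N Q j)) := by
    intro i j y z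
    rw [pd_ZZ, pd_ZZ]
    simp_rw [← Finset.sum_sub_distrib, ← mul_sub]
    have hk : ∀ a b l, ‖tp A (box d N) (fun ν => ((fr A ν i * fr A ν l / sq (fr A ν) : ℝ) : ℂ) *
        ((fw N ν : ℂ) * cf A (Q a b) ν)) y - tp A (box d N) (fun ν =>
          ((fr A ν i * fr A ν l / sq (fr A ν) : ℝ) : ℂ) *
        ((fw N ν : ℂ) * cf A (Q a b) ν)) z‖ ≤ C0 * K * √‖y - z‖ := by
      intro a b l
      have hf := fej_hol A hA hN (hQ a b).1 (hQ a b).2.1 (hQ a b).2.2
      exact hR (box d N) _ K hK hf i l y z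
    calc _ ≤ ∑ l, ∑ a, ∑ b, ‖(-2 : ℂ) * (Ep I0 l a * Ep I0 b j)‖ * (C0 * K * √‖y - z‖) := by
          refine (norm_sum_le _ _).trans (Finset.sum_le_sum fun l _ => ?_)
          refine (norm_sum_le _ _).trans (Finset.sum_le_sum fun a _ => ?_)
          refine (norm_sum_le _ _).trans (Finset.sum_le_sum fun b _ => ?_)
          rw [norm_mul]
          exact mul_le_mul_of_nonneg_left (hk a b l) (norm_nonneg _)
      _ = (∑ l, ∑ a, ∑ b, ‖(-2 : ℂ) * (Ep I0 l a * Ep I0 b j)‖) * (C0 * K * √‖y - z‖) := by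
          simp_rw [Finset.sum_mul]
      _ ≤ M * (C0 * K * √‖y - z‖) := by
          exact mul_le_mul_of_nonneg_right (hE j) (by positivity)
      _ = B1 * K * √‖y - z‖ := by rw [hB1]; ring
  have h2 : ∀ i j y, ‖pd i (ZZ A I0 N Q j) y‖ ≤ B2 * K := by
    intro i j y
    have hc : Continuous (pd i (ZZ A I0 N Q j)) := by
      unfold pd
      exact ((ZZ_c1 A I0 N Q j).continuous_fderiv (by norm_num)).clm_apply continuous_const
    have hp : Per A (pd i (ZZ A I0 N Q j)) := by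
      intro k y
      unfold pd
      have e : (fun x => ZZ A I0 N Q j (x + fun i => A i k)) = ZZ A I0 N Q j := by
        funext x
        exact ZZ_per A I0 hA N Q j k x
      have := fderiv_comp_add_right (𝕜 := ℝ) (f := ZZ A I0 N Q j) (x := y) (fun i => A i k)
      rw [← this, e]
    have := hM (pd i (ZZ A I0 N Q j)) (B1 * K) (by positivity) hc hp (h1 i j)
      (avg_pd hA (ZZ_c1 A I0 N Q j) (ZZ_per A I0 hA N Q j) i) y
    rw [hB2]
    linarith
  -- derivative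
  have h3 : ∀ j y v, ‖fderiv ℝ (ZZ A I0 N Q j) y v‖ ≤ d * B2 * K * ‖v‖ := by
    intro j y v
    rw [fderiv_sum]
    calc _ ≤ ∑ i : Fin d, ‖v‖ * (B2 * K) := by
          refine (norm_sum_le _ _).trans (Finset.sum_le_sum fun i _ => ?_)
          rw [norm_smul]
          exact mul_le_mul (norm_le_pi_norm v i) (h2 i j y) (norm_nonneg _) (norm_nonneg _)
      _ = d * B2 * K * ‖v‖ := by
          rw [Finset.sum_const, Finset.card_univ, Fintype.card_fin, nsmul_eq_mul]
          ring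
  have h4 : ∀ j y z v, ‖fderiv ℝ (ZZ A I0 N Q j) y v - fderiv ℝ (ZZ A I0 N Q j) z v‖
      ≤ d * B1 * K * √‖y - z‖ * ‖v‖ := by
    intro j y z v
    rw [fderiv_sum, fderiv_sum, ← Finset.sum_sub_distrib]
    simp_rw [← smul_sub]
    calc _ ≤ ∑ i : Fin d, ‖v‖ * (B1 * K * √‖y - z‖) := by
          refine (norm_sum_le _ _).trans (Finset.sum_le_sum fun i _ => ?_)
          rw [norm_smul]
          exact mul_le_mul (norm_le_pi_norm v i) (h1 i j y z) (norm_nonneg _) (norm_nonneg _)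
      _ = d * B1 * K * √‖y - z‖ * ‖v‖ := by
          rw [Finset.sum_const, Finset.card_univ, Fintype.card_fin, nsmul_eq_mul]
          ring
  have h5 : ∀ j y z, ‖ZZ A I0 N Q j y - ZZ A I0 N Q j z‖ ≤ d * B2 * K * ‖y - z‖ := by
    intro j y z
    refine Convex.norm_image_sub_le_of_norm_fderiv_le (𝕜 := ℝ) (s := Set.univ)
      (fun x _ => (ZZ_c1 A I0 N Q j).differentiable (by norm_num) x)
      (fun x _ => ?_) convex_univ (Set.mem_univ z) (Set.mem_univ y)
    exact ContinuousLinearMap.opNorm_le_bound _ (by positivity) (h3 j x)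
  have h6 : ∀ j y z, ‖ZZ A I0 N Q j y - ZZ A I0 N Q j z‖ ≤ d * B2 * K * R := by
    intro j y z
    obtain ⟨ν, hν⟩ := hcell (y - z)
    have e := (ZZ_per A I0 hA N Q j).int ν y
    rw [← e]
    refine (h5 j _ z).trans ?_
    have e2 : (y + A *ᵥ fun i => (ν i : ℝ)) - z = y - z + A *ᵥ fun i => (ν i : ℝ) := by
      rw [add_sub_right_comm]
    rw [e2]
    exact mul_le_mul_of_nonneg_left hν (by positivity)
  have h7 : ∀ j y, ‖ZZ A I0 N Q j y‖ ≤ d * B2 * K * R := by
    intro j y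
    have hz : Continuous (ZZ A I0 N Q j) := (ZZ_c1 A I0 N Q j).continuous
    have e : avg A (fun z => ZZ A I0 N Q j y - ZZ A I0 N Q j z) = ZZ A I0 N Q j y := by
      rw [avg_sub continuous_const hz, avg_const, avg_ZZ A I0 hA, sub_zero]
    rw [← e]
    exact norm_avg_le fun z => h6 j y z
  have hK1 : (0 : ℝ) ≤ d * B1 * K := by positivity
  have hK2 : (0 : ℝ) ≤ d * B2 * K := by positivity
  have hK3 : (0 : ℝ) ≤ d * B2 * K * R := by positivity
  have hS : (d * B1 + d * B2 + d * B2 * R + 1) * K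
      = d * B1 * K + d * B2 * K + d * B2 * K * R + K := by ring
  refine ⟨(stp_contDiff A I0 N Q).of_le (by simp), ?_, ?_, ?_, ?_⟩
  · intro k y
    funext j
    rw [stp_apply, stp_apply, ZZ_per A I0 hA N Q j k y]
  · intro y
    rw [pi_norm_le_iff_of_nonneg (by positivity)]
    intro j
    rw [stp_apply, Real.norm_eq_abs]
    refine (Complex.abs_re_le_norm _).trans ((h7 j y).trans ?_)
    rw [hS]
    linarith
  · intro y
    refine ContinuousLinearMap.opNorm_le_bound _ (by positivity) fun v => ?_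
    rw [pi_norm_le_iff_of_nonneg (by positivity)]
    intro j
    rw [fderiv_stp_apply, Real.norm_eq_abs]
    refine (Complex.abs_re_le_norm _).trans ((h3 j y v).trans ?_)
    refine mul_le_mul_of_nonneg_right ?_ (norm_nonneg v)
    rw [hS]
    linarith
  · intro y z
    refine ContinuousLinearMap.opNorm_le_bound _ (by positivity) fun v => ?_
    rw [pi_norm_le_iff_of_nonneg (by positivity)]
    intro j
    rw [_root_.sub_apply, Pi.sub_apply, fderiv_stp_apply, fderiv_stp_apply,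
      ← Complex.sub_re, Real.norm_eq_abs]
    refine (Complex.abs_re_le_norm _).trans ((h4 j y z v).trans ?_)
    refine mul_le_mul_of_nonneg_right ?_ (norm_nonneg v)
    refine mul_le_mul_of_nonneg_right ?_ (Real.sqrt_nonneg _)
    rw [hS]
    linarith

namespace SC

lemma fw_zero {N : ℕ} (hN : 0 < N) {ν : Fin d → ℤ} (hν : ν ∉ box d N) : fw N ν = 0 := by
  unfold box at hν
  rw [Fintype.mem_piFinset] at hν
  push Not at hν
  obtain ⟨j, hj⟩ := hν
  unfold fw
  refine Finset.prod_eq_zero (Finset.mem_univ j) ?_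
  rw [max_eq_left_iff, sub_nonpos, one_le_div (by exact_mod_cast hN)]
  rw [Finset.mem_Icc, not_and_or, not_le, not_le] at hj
  have h : (N : ℤ) ≤ |ν j| := by
    rcases hj with h | h
    · rw [le_abs]
      right
      omega
    · rw [le_abs]
      left
      omega
  exact_mod_cast h

lemma Ep_cx {I0 : Matrix (Fin d) (Fin d) ℝ} (hI : IsCx I0) (j b : Fin d) :
    ∑ k, (I0 j k : ℂ) * Ep I0 b k = -Complex.I * Ep I0 b j := by
  have hE : ∀ b k, Ep I0 b k = (1 / 2) * ((if b = k then 1 else 0) - Complex.I * (I0 b k : ℂ)) := by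
    intro b k
    unfold Ep
    simp [Matrix.sub_apply, Matrix.smul_apply, Matrix.one_apply, Matrix.map_apply]
  have ht : ∀ b k, I0 b k = -I0 k b := by
    intro b k
    have := congrFun (congrFun hI.transpose k) b
    simpa using this
  have hs : ∑ k, (I0 j k : ℂ) * (I0 b k : ℂ) = if b = j then 1 else 0 := by
    have := congrFun (congrFun hI.sq j) b
    rw [Matrix.mul_apply] at this
    have h2 : ∑ k, I0 j k * I0 b k = if b = j then 1 else 0 := by
      have h3 : ∀ k, I0 j k * I0 b k = -(I0 j k * I0 k b) := by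
        intro k
        rw [ht b k]
        ring
      simp_rw [h3]
      rw [Finset.sum_neg_distrib, this, Matrix.neg_apply, Matrix.one_apply, neg_neg]
      by_cases h : j = b
      · simp [h]
      · simp [h, Ne.symm h]
    have h4 := congrArg (fun x : ℝ => (x : ℂ)) h2
    push_cast at h4
    rw [h4]
    split_ifs <;> simp
  simp_rw [hE]
  have h5 : ∀ k, (I0 j k : ℂ) * ((1 / 2) * ((if b = k then 1 else 0) - Complex.I * (I0 b k : ℂ)))
      = (1 / 2) * ((I0 j k : ℂ) * (if b = k then 1 else 0))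
        - (1 / 2) * Complex.I * ((I0 j k : ℂ) * (I0 b k : ℂ)) := by
    intro k
    ring
  simp_rw [h5]
  rw [Finset.sum_sub_distrib, ← Finset.mul_sum, ← Finset.mul_sum, hs]
  have h6 : ∑ k, (I0 j k : ℂ) * (if b = k then 1 else 0) = I0 j b := by
    simp
  rw [h6, ht j b]
  push_cast
  have hII : Complex.I * Complex.I = -1 := Complex.I_mul_I
  linear_combination (-(1 / 2) * (I0 b j : ℂ)) * hII

lemma zc_cx (A : Matrix (Fin d) (Fin d) ℝ) {I0 : Matrix (Fin d) (Fin d) ℝ} (hI : IsCx I0)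
    (c : Fin d → Fin d → (Fin d → ℤ) → ℂ) (j : Fin d) (ν : Fin d → ℤ) :
    ∑ k, (I0 j k : ℂ) * zc A I0 c k ν = -Complex.I * zc A I0 c j ν := by
  have h1 : ∀ k, (I0 j k : ℂ) * zc A I0 c k ν = ∑ l, ∑ a, ∑ b,
      (2 * Ep I0 l a * nf A l ν * c a b ν) * ((I0 j k : ℂ) * Ep I0 b k) := by
    intro k
    unfold zc
    simp_rw [Finset.mul_sum]
    refine Finset.sum_congr rfl fun l _ => Finset.sum_congr rfl fun a _ =>
      Finset.sum_congr rfl fun b _ => ?_
    ring
  simp_rw [h1]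
  rw [Finset.sum_comm]
  unfold zc
  rw [Finset.mul_sum, Finset.mul_sum]
  refine Finset.sum_congr rfl fun l _ => ?_
  rw [Finset.sum_comm, Finset.mul_sum, Finset.mul_sum]
  refine Finset.sum_congr rfl fun a _ => ?_
  rw [Finset.sum_comm, Finset.mul_sum, Finset.mul_sum]
  refine Finset.sum_congr rfl fun b _ => ?_
  rw [← Finset.mul_sum, Ep_cx hI]
  ring

lemma zeta_stp (A : Matrix (Fin d) (Fin d) ℝ) {I0 : Matrix (Fin d) (Fin d) ℝ} (hI : IsCx I0)
    (N : ℕ) (Q : Fin d → Fin d → X d → ℂ) (j : Fin d) :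
    zeta I0 (stp A I0 N Q) j = ZZ A I0 N Q j := by
  funext y
  unfold zeta
  have h1 : ∑ k, (I0 j k : ℂ) * ZZ A I0 N Q k y = -Complex.I * ZZ A I0 N Q j y := by
    unfold ZZ tp
    simp_rw [Finset.mul_sum]
    rw [Finset.sum_comm]
    refine Finset.sum_congr rfl fun ν _ => ?_
    have := zc_cx A hI (fun a b ν => (fw N ν : ℂ) * cf A (Q a b) ν) j ν
    rw [← mul_assoc, ← this, Finset.sum_mul]
    refine Finset.sum_congr rfl fun k _ => ?_
    ring
  have h2 : (I0 *ᵥ stp A I0 N Q y) j = (ZZ A I0 N Q j y).im := by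
    have h3 := congrArg Complex.re h1
    rw [Complex.re_sum] at h3
    simp only [Complex.re_ofReal_mul] at h3
    have h4 : (-Complex.I * ZZ A I0 N Q j y).re = (ZZ A I0 N Q j y).im := by
      simp
    rw [h4] at h3
    rw [← h3]
    rfl
  rw [h2, stp_apply, mul_comm]
  exact Complex.re_add_im _

end SC

/-- The coefficients of `ζ = f + i I0 f` for `f = stp N Q`. -/
theorem cf_zeta_stp (A I0 : Matrix (Fin d) (Fin d) ℝ) (hA : IsUnit A.det) (hI : IsCx I0)
    {N : ℕ} (hN : 0 < N) (Q : Fin d → Fin d → X d → ℂ) (j : Fin d) (ν : Fin d → ℤ) :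
    cf A (zeta I0 (stp A I0 N Q) j) ν =
      zc A I0 (fun a b ν => (fw N ν : ℂ) * cf A (Q a b) ν) j ν := by
  rw [SC.zeta_stp A hI]
  unfold SC.ZZ
  rw [cf_tp hA]
  split_ifs with h
  · rfl
  · unfold zc
    simp [SC.fw_zero hN h]

end Pool.Agent.MCL
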