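import Pool.Agent.MCL.Zero
import Pool.Agent.MCL.Iter
import Pool.Agent.MCL.Closed
import Pool.Agent.MCL.Mean

/-!
# MCL/Std : existence of a Lagrangian graph for triples near the standard one

`δ` from `zero_of`, `κ` from `iter` for this `δ`, `η` small such that `qf_hol`, `qf_lip` give the
hypotheses of `iter` for `Qn = Qf om I0`; `closed_cf` and `mean_zero` for the smooth maps `u p` pass
to the limit `f` (`Pf om (u p) → Pf om f` uniformly by `qf_lip` and `Pf_flat`, `cf_tendsto`);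
`cf A q 0 = avg A q`.
-/

set_option autoImplicit false

open MeasureTheory Set Filter Topology
open scoped Matrix

namespace Pool.Agent.MCL

open SYM (CV FlatTriple IsHKTripleOn)

private theorem near_mono {n : ℕ} {A I0 : Matrix (Fin (2 * n)) (Fin (2 * n)) ℝ} {η η' : ℝ}
    (hη : η ≤ η') {om : Fin 3 → CV n → CV n → CV n → ℝ} (h : Near n A I0 η om) :
    Near n A I0 η' om where
  hk := h.hk
  per := h.per
  close := fun w hw c u v => (h.close w hw c u v).trans (by gcongr)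
  lip := fun w hw c u v => (h.lip w hw c u v).trans (by gcongr)
  zero := h.zero

private theorem pd_zeta {n : ℕ} (I0 : Matrix (Fin (2 * n)) (Fin (2 * n)) ℝ)
    {f : X (2 * n) → X (2 * n)} (hf : ContDiff ℝ 1 f) (a b : Fin (2 * n)) (y : X (2 * n)) :
    pd a (zeta I0 f b) y = ((fderiv ℝ f y (Pi.single a 1) b : ℝ) : ℂ) +
      Complex.I * ((I0 *ᵥ (fderiv ℝ f y (Pi.single a 1))) b : ℂ) := by
  have hd : DifferentiableAt ℝ f y := (hf.differentiable (by norm_num)) y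
  let L : X (2 * n) →ₗ[ℝ] ℂ :=
    { toFun := fun x => (x b : ℂ) + Complex.I * ((I0 *ᵥ x) b : ℂ)
      map_add' := by
        intro x x'
        rw [Matrix.mulVec_add]
        simp only [Pi.add_apply, Complex.ofReal_add]; ring
      map_smul' := by
        intro t x
        rw [Matrix.mulVec_smul]
        simp only [Pi.smul_apply, smul_eq_mul, Complex.ofReal_mul, RingHom.id_apply,
          Complex.real_smul]
        ring }
  have hL : zeta I0 f b = fun y => (LinearMap.toContinuousLinearMap L) (f y) := rfl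
  have h1 := (LinearMap.toContinuousLinearMap L).hasFDerivAt.comp y hd.hasFDerivAt
  unfold pd
  rw [hL]
  have h2 : fderiv ℝ (fun y => (LinearMap.toContinuousLinearMap L) (f y)) y =
      (LinearMap.toContinuousLinearMap L).comp (fderiv ℝ f y) := h1.fderiv
  rw [h2]
  rfl

private theorem mulVec_le {m : ℕ} (I0 : Matrix (Fin m) (Fin m) ℝ) (x : X m) (b : Fin m) :
    |(I0 *ᵥ x) b| ≤ (∑ i, ∑ l, |I0 i l|) * ‖x‖ := by
  have h1 : |(I0 *ᵥ x) b| ≤ ∑ l, |I0 b l| * ‖x‖ := by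
    simp only [Matrix.mulVec, dotProduct]
    refine (Finset.abs_sum_le_sum_abs _ _).trans (Finset.sum_le_sum fun l _ => ?_)
    rw [abs_mul]
    exact mul_le_mul_of_nonneg_left (norm_le_pi_norm x l) (abs_nonneg _)
  rw [← Finset.sum_mul] at h1
  refine h1.trans (mul_le_mul_of_nonneg_right ?_ (norm_nonneg _))
  exact Finset.single_le_sum (f := fun i => ∑ l, |I0 i l|)
    (fun i _ => Finset.sum_nonneg fun l _ => abs_nonneg _) (Finset.mem_univ b)

private theorem pd_zeta_sub {n : ℕ} (I0 : Matrix (Fin (2 * n)) (Fin (2 * n)) ℝ)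
    {f g : X (2 * n) → X (2 * n)} (hf : ContDiff ℝ 1 f) (hg : ContDiff ℝ 1 g)
    (a b : Fin (2 * n)) (y : X (2 * n)) :
    ‖pd a (zeta I0 f b) y - pd a (zeta I0 g b) y‖ ≤
      (1 + ∑ i, ∑ l, |I0 i l|) * ‖fderiv ℝ f y - fderiv ℝ g y‖ := by
  rw [pd_zeta I0 hf, pd_zeta I0 hg]
  set D := fderiv ℝ f y - fderiv ℝ g y with hD
  set x : X (2 * n) := D (Pi.single a 1) with hx
  have hx' : x = fderiv ℝ f y (Pi.single a 1) - fderiv ℝ g y (Pi.single a 1) := rfl
  have e : ((fderiv ℝ f y (Pi.single a 1) b : ℝ) : ℂ) +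
      Complex.I * ((I0 *ᵥ (fderiv ℝ f y (Pi.single a 1))) b : ℂ) -
      (((fderiv ℝ g y (Pi.single a 1) b : ℝ) : ℂ) +
      Complex.I * ((I0 *ᵥ (fderiv ℝ g y (Pi.single a 1))) b : ℂ)) =
      ((x b : ℝ) : ℂ) + Complex.I * ((I0 *ᵥ x) b : ℂ) := by
    rw [hx', Matrix.mulVec_sub]
    simp only [Pi.sub_apply, Complex.ofReal_sub]
    ring
  rw [e]
  have h1 : ‖x‖ ≤ ‖D‖ := by
    have h2 := D.le_opNorm (Pi.single a 1)
    have h3 : ‖(Pi.single a 1 : X (2 * n))‖ ≤ 1 := by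
      rw [pi_norm_le_iff_of_nonneg zero_le_one]
      intro i
      by_cases hi : i = a
      · subst hi; simp
      · simp [Pi.single_eq_of_ne hi]
    calc ‖x‖ ≤ ‖D‖ * ‖(Pi.single a 1 : X (2 * n))‖ := h2
      _ ≤ ‖D‖ * 1 := mul_le_mul_of_nonneg_left h3 (norm_nonneg _)
      _ = ‖D‖ := mul_one _
  have hM : 0 ≤ ∑ i, ∑ l, |I0 i l| :=
    Finset.sum_nonneg fun i _ => Finset.sum_nonneg fun l _ => abs_nonneg _
  calc ‖((x b : ℝ) : ℂ) + Complex.I * ((I0 *ᵥ x) b : ℂ)‖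
      ≤ ‖((x b : ℝ) : ℂ)‖ + ‖Complex.I * (((I0 *ᵥ x) b : ℝ) : ℂ)‖ := norm_add_le _ _
    _ = |x b| + |(I0 *ᵥ x) b| := by
        rw [norm_mul, Complex.norm_I, one_mul, Complex.norm_real, Complex.norm_real]
        rfl
    _ ≤ ‖x‖ + (∑ i, ∑ l, |I0 i l|) * ‖x‖ :=
        add_le_add (norm_le_pi_norm x b) (mulVec_le I0 x b)
    _ = (1 + ∑ i, ∑ l, |I0 i l|) * ‖x‖ := by ring
    _ ≤ (1 + ∑ i, ∑ l, |I0 i l|) * ‖D‖ := mul_le_mul_of_nonneg_left h1 (by linarith)

/-- The difference of two pull-backs of the same triple. -/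
private theorem Pf_sub {n : ℕ} {I0 : Matrix (Fin (2 * n)) (Fin (2 * n)) ℝ} (hI : IsCx I0)
    (om : Fin 3 → CV n → CV n → CV n → ℝ) {f g : X (2 * n) → X (2 * n)} (hf : ContDiff ℝ 1 f)
    (hg : ContDiff ℝ 1 g) (a b : Fin (2 * n)) (y : X (2 * n)) :
    ‖Pf om f a b y - Pf om g a b y‖ ≤ ‖Qf om I0 f a b y - Qf om I0 g a b y‖ +
      2 * (1 + ∑ i, ∑ l, |I0 i l|) * ‖fderiv ℝ f y - fderiv ℝ g y‖ := by
  have e : Pf om f a b y - Pf om g a b y = (Qf om I0 f a b y - Qf om I0 g a b y) +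
      ((pd a (zeta I0 f b) y - pd a (zeta I0 g b) y) -
        (pd b (zeta I0 f a) y - pd b (zeta I0 g a) y)) := by
    simp only [Qf]
    rw [Pf_flat hI hf, Pf_flat hI hg]
    ring
  rw [e]
  have h1 := pd_zeta_sub I0 hf hg a b y
  have h2 := pd_zeta_sub I0 hf hg b a y
  refine (norm_add_le _ _).trans (add_le_add le_rfl ?_)
  refine (norm_sub_le _ _).trans ?_
  linarith

private theorem cf_zero {d : ℕ} (A : Matrix (Fin d) (Fin d) ℝ) (q : X d → ℂ) :
    cf A q 0 = avg A q := by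
  unfold cf
  congr 1
  funext y
  rw [fr_zero, neg_zero]
  simp [ex]

theorem std (n : ℕ) (A I0 : Matrix (Fin (2 * n)) (Fin (2 * n)) ℝ) (hA : IsUnit A.det)
    (hI : IsCx I0) :
    ∃ η > 0, ∀ om, Near n A I0 η om → ∃ f : X (2 * n) → X (2 * n),
      ContDiff ℝ 1 f ∧ Per A f ∧ (∀ y, ‖f y‖ < 1) ∧ ∀ a b y, Pf om f a b y = 0 := by
  obtain ⟨δ, hδ, hδ', η₀, hη₀, hη₀', hzero⟩ := zero_of n A I0 hA hI
  obtain ⟨κ, hκ, hiter⟩ := iter A I0 hA hI hδ
  obtain ⟨C₁, hC₁, hhol⟩ := qf_hol n A I0 hI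
  obtain ⟨C₂, hC₂, hlip⟩ := qf_lip n A I0 hI
  set η : ℝ := min η₀ (min (κ / C₁) (κ / C₂)) with hη
  have hηpos : 0 < η := lt_min hη₀ (lt_min (div_pos hκ hC₁) (div_pos hκ hC₂))
  have hη0 : η ≤ η₀ := min_le_left _ _
  have hη1 : η ≤ 1 := hη0.trans hη₀'
  have hηC₁ : C₁ * η ≤ κ := by
    have h1 : η ≤ κ / C₁ := (min_le_right _ _).trans (min_le_left _ _)
    calc C₁ * η ≤ C₁ * (κ / C₁) := mul_le_mul_of_nonneg_left h1 hC₁.le
      _ = κ := by field_simp
  have hηC₂ : C₂ * η ≤ κ := by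
    have h1 : η ≤ κ / C₂ := (min_le_right _ _).trans (min_le_right _ _)
    calc C₂ * η ≤ C₂ * (κ / C₂) := mul_le_mul_of_nonneg_left h1 hC₂.le
      _ = κ := by field_simp
  refine ⟨η, hηpos, fun om hom => ?_⟩
  have hom0 : Near n A I0 η₀ om := near_mono hη0 hom
  have hlipκ : ∀ f g, InK A δ f → InK A δ g → ∀ a b y,
      ‖Qf om I0 f a b y - Qf om I0 g a b y‖ ≤
        κ * (‖f y - g y‖ + ‖fderiv ℝ f y - fderiv ℝ g y‖) := by
    intro f g hf hg a b y
    refine (hlip η hηpos.le hη1 om hom δ hδ' f g hf hg a b y).trans ?_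
    exact mul_le_mul_of_nonneg_right hηC₂ (add_nonneg (norm_nonneg _) (norm_nonneg _))
  obtain ⟨f, u, hf, hu, hconv, heq⟩ := hiter (Qf om I0) (by
    intro f hf a b
    obtain ⟨h1, h2, h3⟩ := hhol η hηpos.le hη1 om hom δ hδ' f hf a b
    refine ⟨h1, h2, fun y z => (h3 y z).trans ?_⟩
    exact mul_le_mul_of_nonneg_right hηC₁ (Real.sqrt_nonneg _)) hlipκ
  have hv : ∀ {g : X (2 * n) → X (2 * n)}, InK A δ g → ∀ y, ‖g y‖ < 1 := by
    intro g hg y
    have := hg.val y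
    linarith
  have hcont : ∀ {g : X (2 * n) → X (2 * n)}, InK A δ g → ∀ a b, Continuous (Pf om g a b) := by
    intro g hg a b
    obtain ⟨_, h1, _⟩ := pf_hol n A I0 hI hηpos.le hη1 hom hδ' hg a b
    exact h1
  -- uniform convergence of the pull-backs
  set M : ℝ := ∑ i, ∑ l, |I0 i l| with hM
  have hM0 : 0 ≤ M := Finset.sum_nonneg fun i _ => Finset.sum_nonneg fun l _ => abs_nonneg _
  have hunif : ∀ a b, ∀ ε > 0, ∀ᶠ p in atTop, ∀ y, ‖Pf om (u p) a b y - Pf om f a b y‖ ≤ ε := by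
    intro a b ε hε
    set B : ℝ := 2 * κ + 2 * (1 + M) with hB
    have hBpos : 0 < B := by positivity
    filter_upwards [hconv (ε / B) (div_pos hε hBpos)] with p hp y
    obtain ⟨h1, h2⟩ := hp y
    have h3 := Pf_sub hI om (hu p).1.smooth hf.smooth a b y
    have h4 := hlipκ (u p) f (hu p).1 hf a b y
    have h5 : κ * (‖u p y - f y‖ + ‖fderiv ℝ (u p) y - fderiv ℝ f y‖) ≤
        κ * (ε / B + ε / B) := mul_le_mul_of_nonneg_left (add_le_add h1 h2) hκ.le
    have h6 : 2 * (1 + M) * ‖fderiv ℝ (u p) y - fderiv ℝ f y‖ ≤ 2 * (1 + M) * (ε / B) :=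
      mul_le_mul_of_nonneg_left h2 (by linarith)
    have h7 : κ * (ε / B + ε / B) + 2 * (1 + M) * (ε / B) = ε := by
      have : κ * (ε / B + ε / B) + 2 * (1 + M) * (ε / B) = B * (ε / B) := by
        rw [hB]; ring
      rw [this]
      field_simp
    linarith
  have hcf : ∀ a b ν, Tendsto (fun p => cf A (Pf om (u p) a b) ν) atTop
      (𝓝 (cf A (Pf om f a b) ν)) := fun a b ν =>
    cf_tendsto (fun p => hcont (hu p).1 a b) (hcont hf a b) (hunif a b) ν
  refine ⟨f, hf.smooth, hf.per, hv hf, ?_⟩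
  refine hzero om hom0 f hf ?_ ?_ heq
  · intro ν a b c
    have h1 : Tendsto (fun p => (fr A ν a : ℂ) * cf A (Pf om (u p) b c) ν +
        (fr A ν b : ℂ) * cf A (Pf om (u p) c a) ν + (fr A ν c : ℂ) * cf A (Pf om (u p) a b) ν)
        atTop (𝓝 ((fr A ν a : ℂ) * cf A (Pf om f b c) ν + (fr A ν b : ℂ) * cf A (Pf om f c a) ν +
        (fr A ν c : ℂ) * cf A (Pf om f a b) ν)) :=
      (((hcf b c ν).const_mul _).add ((hcf c a ν).const_mul _)).add ((hcf a b ν).const_mul _)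
    have h2 : ∀ p, (fr A ν a : ℂ) * cf A (Pf om (u p) b c) ν +
        (fr A ν b : ℂ) * cf A (Pf om (u p) c a) ν +
        (fr A ν c : ℂ) * cf A (Pf om (u p) a b) ν = 0 := fun p =>
      closed_cf hA hom (hu p).2 (hu p).1.per (hv (hu p).1) ν a b c
    simp only [h2] at h1
    exact (tendsto_nhds_unique h1 tendsto_const_nhds)
  · intro a b
    have h1 := hcf a b 0
    have h2 : ∀ p, cf A (Pf om (u p) a b) 0 = 0 := fun p => by
      rw [cf_zero]
      exact mean_zero hA hom (hu p).2 (hu p).1.per (hv (hu p).1) a b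
    simp only [h2] at h1
    exact (tendsto_nhds_unique h1 tendsto_const_nhds)

end Pool.Agent.MCL
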