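import Pool.Agent.MCL.TransA
import Pool.Agent.MCL.Std

/-!
# MCL/Trans : McLean's theorem near a flat complex Lagrangian torus

`norm_form`, `near_of` (with `s` small), `std` for `A = (2π / s) M⁻¹` give `f'`; put
`f y = s M f' ((s M)⁻¹ (y - Im w₀))`: the point `cx (Re w₀ + f y) y` is `w₀ + s M (cx (f' y') y')`
with `y' = (s M)⁻¹ (y - Im w₀)`, and `cx (D f u) u = s M (cx (D f' u') u')` with `u' = (s M)⁻¹ u`.
-/

set_option autoImplicit false

open MeasureTheory Set Filter Topology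
open scoped Matrix

namespace Pool.Agent.MCL

open SYM (CV FlatTriple IsHKTripleOn imagSpace period basisVec)

private theorem tr_mc_cx {n : ℕ} (M : Matrix (Fin (2 * n)) (Fin (2 * n)) ℝ) (x y : X (2 * n)) :
    mc M (cx x y) = cx (M *ᵥ x) (M *ᵥ y) := by
  ext j
  simp only [mc, cx, Matrix.mulVec, dotProduct, Complex.ofReal_sum, Complex.ofReal_mul,
    Finset.mul_sum, mul_add, Finset.sum_add_distrib]
  congr 1
  exact Finset.sum_congr rfl fun l _ => by ring

/-- The bound of a matrix. -/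
private noncomputable def mb {d : ℕ} (M : Matrix (Fin d) (Fin d) ℝ) : ℝ := 1 + ∑ i, ∑ l, |M i l|

private theorem mb_pos {d : ℕ} (M : Matrix (Fin d) (Fin d) ℝ) : 0 < mb M := by
  have : 0 ≤ ∑ i, ∑ l, |M i l| :=
    Finset.sum_nonneg fun i _ => Finset.sum_nonneg fun l _ => abs_nonneg _
  unfold mb
  linarith

private theorem row_le {d : ℕ} (M : Matrix (Fin d) (Fin d) ℝ) (j : Fin d) :
    ∑ l, |M j l| ≤ mb M := by
  have h1 : ∑ l, |M j l| ≤ ∑ i, ∑ l, |M i l| :=
    Finset.single_le_sum (f := fun i => ∑ l, |M i l|)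
      (fun i _ => Finset.sum_nonneg fun l _ => abs_nonneg _) (Finset.mem_univ j)
  unfold mb
  linarith

private theorem mv_norm_le {d : ℕ} (M : Matrix (Fin d) (Fin d) ℝ) (x : X d) :
    ‖M *ᵥ x‖ ≤ mb M * ‖x‖ := by
  rw [pi_norm_le_iff_of_nonneg (mul_nonneg (mb_pos M).le (norm_nonneg _))]
  intro j
  calc ‖(M *ᵥ x) j‖ = |∑ l, M j l * x l| := rfl
    _ ≤ ∑ l, |M j l * x l| := Finset.abs_sum_le_sum_abs _ _
    _ ≤ ∑ l, |M j l| * ‖x‖ := by
        refine Finset.sum_le_sum fun l _ => ?_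
        rw [abs_mul]
        exact mul_le_mul_of_nonneg_left (norm_le_pi_norm x l) (abs_nonneg _)
    _ = (∑ l, |M j l|) * ‖x‖ := by rw [Finset.sum_mul]
    _ ≤ mb M * ‖x‖ := mul_le_mul_of_nonneg_right (row_le M j) (norm_nonneg _)

private theorem mc_norm_le {n : ℕ} (M : Matrix (Fin (2 * n)) (Fin (2 * n)) ℝ) (u : CV n) :
    ‖mc M u‖ ≤ mb M * ‖u‖ := by
  rw [pi_norm_le_iff_of_nonneg (mul_nonneg (mb_pos M).le (norm_nonneg _))]
  intro j
  calc ‖mc M u j‖ = ‖∑ l, (M j l : ℂ) * u l‖ := rfl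
    _ ≤ ∑ l, ‖(M j l : ℂ) * u l‖ := norm_sum_le _ _
    _ ≤ ∑ l, |M j l| * ‖u‖ := by
        refine Finset.sum_le_sum fun l _ => ?_
        rw [norm_mul, Complex.norm_real, Real.norm_eq_abs]
        exact mul_le_mul_of_nonneg_left (norm_le_pi_norm u l) (abs_nonneg _)
    _ = (∑ l, |M j l|) * ‖u‖ := by rw [Finset.sum_mul]
    _ ≤ mb M * ‖u‖ := mul_le_mul_of_nonneg_right (row_le M j) (norm_nonneg _)

/-- A form of a linear triple which vanishes on the basis of a graph vanishes on the graph. -/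
private theorem graph_zero {n : ℕ} {o : Fin 3 → CV n → CV n → ℝ} (ho : FlatTriple o) (c : Fin 3)
    (D : X (2 * n) →ₗ[ℝ] X (2 * n))
    (h : ∀ a b, o c (cx (D (Pi.single a 1)) (Pi.single a 1))
      (cx (D (Pi.single b 1)) (Pi.single b 1)) = 0) (u v : X (2 * n)) :
    o c (cx (D u) u) (cx (D v) v) = 0 := by
  let B : CV n →ₗ[ℝ] CV n →ₗ[ℝ] ℝ := LinearMap.mk₂ ℝ (o c)
    (fun u u' v => flat_add_left ho c u u' v)
    (fun t u v => by rw [flat_smul_left ho c t u v, smul_eq_mul])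
    (fun u v v' => by
      rw [flat_anti ho c u (v + v'), flat_add_left ho c, flat_anti ho c u v, flat_anti ho c u v']
      ring)
    (fun t u v => by
      rw [flat_anti ho c u (t • v), flat_smul_left ho c, flat_anti ho c u v, smul_eq_mul]
      ring)
  let E : X (2 * n) →ₗ[ℝ] CV n :=
    { toFun := fun u => cx (D u) u
      map_add' := fun u v => by rw [map_add, cx_add]
      map_smul' := fun t u => by rw [map_smul, cx_smul, RingHom.id_apply] }
  have h1 : B.compl₁₂ E E = 0 := by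
    refine LinearMap.ext_basis (Pi.basisFun ℝ (Fin (2 * n))) (Pi.basisFun ℝ (Fin (2 * n))) ?_
    intro a b
    rw [Pi.basisFun_apply, Pi.basisFun_apply]
    exact h a b
  exact LinearMap.congr_fun (LinearMap.congr_fun h1 u) v

/-- McLean's theorem near a flat complex Lagrangian torus of a hyperkähler chart, with Wirtinger's
equality: the graph is a complex Lagrangian torus. -/
theorem mclean (n : ℕ) {o : Fin 3 → CV n → CV n → ℝ} (ho : FlatTriple o)
    (h12 : ∀ u ∈ imagSpace n, ∀ v ∈ imagSpace n, o 1 u v = 0 ∧ o 2 u v = 0)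
    (hI : ∀ u ∈ imagSpace n, ∃ v ∈ imagSpace n, ∀ x, o 0 u x = o 1 v (Complex.I • x)) :
    ∃ ε > 0, ∀ (U : Set (CV n)) (om : Fin 3 → CV n → CV n → CV n → ℝ) (w₀ : CV n),
      IsOpen U → (∀ w ∈ U, ∀ y : X (2 * n), w + cx 0 y ∈ U) →
      (∀ w ∈ U, ∀ j c u v,
        om c (w + cx 0 (Pi.single j (2 * Real.pi))) u v = om c w u v) →
      IsHKTripleOn U om → Metric.ball w₀ 8 ⊆ U →
      (∀ w ∈ Metric.ball w₀ 8, ∀ c u v, |om c w u v - o c u v| ≤ ε * ‖u‖ * ‖v‖) →
      (∀ w ∈ U, ∀ j l, j ≠ l → ∀ c, c ≠ 0 → period (om c) w j l = 0) →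
      ∃ f : X (2 * n) → X (2 * n), ContDiff ℝ 1 f ∧
        (∀ y j, f (y + Pi.single j (2 * Real.pi)) = f y) ∧
        (∀ y, ‖f y‖ < 1) ∧
        ∀ y u v, ∀ c, c ≠ 0 →
          om c (cx (fun j => (w₀ j).re + f y j) y) (cx (fderiv ℝ f y u) u)
            (cx (fderiv ℝ f y v) v) = 0 := by
  obtain ⟨I0, M, hI0, hM, hn⟩ := norm_form ho h12 hI
  set s : ℝ := (mb M)⁻¹ with hsdef
  have hs : 0 < s := inv_pos.2 (mb_pos M)
  have hs0 : s ≠ 0 := hs.ne'
  have hpi := Real.pi_pos
  have hsM : ∀ u : CV n, ‖s • mc M u‖ ≤ ‖u‖ := by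
    intro u
    rw [norm_smul, Real.norm_eq_abs, abs_of_pos hs, hsdef, inv_mul_le_iff₀ (mb_pos M)]
    exact mc_norm_le M u
  have hsR : ∀ x : X (2 * n), ‖s • M *ᵥ x‖ ≤ ‖x‖ := by
    intro x
    rw [norm_smul, Real.norm_eq_abs, abs_of_pos hs, hsdef, inv_mul_le_iff₀ (mb_pos M)]
    exact mv_norm_le M x
  have hA : IsUnit ((2 * Real.pi / s) • M⁻¹).det := by
    rw [Matrix.det_smul]
    refine IsUnit.mul ?_ ((Matrix.isUnit_nonsing_inv_det_iff).2 hM)
    exact (isUnit_iff_ne_zero.2 (by positivity)).pow _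
  obtain ⟨η, hη, hstd⟩ := std n ((2 * Real.pi / s) • M⁻¹) I0 hA hI0
  obtain ⟨ε, hε, hnear⟩ := near_of n ho I0 M hI0 hM hn hs hsM hsR hη
  refine ⟨ε, hε, ?_⟩
  intro U om w₀ hUo hUy hper hhk hball hclose hzero
  have hN := hnear U om w₀ hUo hUy hper hhk hball hclose hzero
  obtain ⟨g, hg, hgp, hg1, hgz⟩ := hstd _ hN
  set b : X (2 * n) := fun j => (w₀ j).im with hb
  set r : X (2 * n) := fun j => (w₀ j).re with hr
  have hw₀ : cx r b = w₀ := cx_re_im w₀
  -- the linear maps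
  obtain ⟨P, hP⟩ : ∃ P : X (2 * n) →L[ℝ] X (2 * n), ∀ x, P x = s • M *ᵥ x :=
    ⟨LinearMap.toContinuousLinearMap (s • Matrix.toLin' M), fun x => rfl⟩
  obtain ⟨R, hR⟩ : ∃ R : X (2 * n) →L[ℝ] X (2 * n), ∀ x, R x = s⁻¹ • M⁻¹ *ᵥ x :=
    ⟨LinearMap.toContinuousLinearMap (s⁻¹ • Matrix.toLin' M⁻¹), fun x => rfl⟩
  have hPR : ∀ x, P (R x) = x := by
    intro x
    rw [hP, hR, Matrix.mulVec_smul, smul_smul, mul_inv_cancel₀ hs0, one_smul,
      Matrix.mulVec_mulVec, Matrix.mul_nonsing_inv M hM, Matrix.one_mulVec]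
  have hPcx : ∀ x y, s • mc M (cx x y) = cx (P x) (P y) := by
    intro x y
    rw [tr_mc_cx, ← cx_smul, hP, hP]
  refine ⟨fun y => P (g (R (y - b))), ?_, ?_, ?_, ?_⟩
  · exact P.contDiff.comp (hg.comp (R.contDiff.comp (contDiff_id.sub contDiff_const)))
  · intro y j
    show P (g (R (y + Pi.single j (2 * Real.pi) - b))) = P (g (R (y - b)))
    have h1 : R (y + Pi.single j (2 * Real.pi) - b) =
        R (y - b) + fun i => ((2 * Real.pi / s) • M⁻¹) i j := by
      have h2 : y + Pi.single j (2 * Real.pi) - b = (y - b) + (2 * Real.pi) • Pi.single j 1 := by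
        rw [← Pi.single_smul, smul_eq_mul, mul_one]
        abel
      rw [h2, map_add, map_smul, hR (Pi.single j 1), Matrix.mulVec_single_one]
      congr 1
      funext i
      simp only [Pi.smul_apply, Matrix.smul_apply, Matrix.col_apply, smul_eq_mul]
      field_simp
    rw [h1, hgp]
  · intro y
    show ‖P (g (R (y - b)))‖ < 1
    rw [hP]
    exact (hsR _).trans_lt (hg1 _)
  · intro y u v c hc
    have hfd : HasFDerivAt (fun y => P (g (R (y - b))))
        (P.comp ((fderiv ℝ g (R (y - b))).comp R)) y := by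
      have h1 : HasFDerivAt g (fderiv ℝ g (R (y - b))) (R (y - b)) :=
        (hg.differentiable one_ne_zero _).hasFDerivAt
      have h2 : HasFDerivAt (fun y => R (y - b)) R y :=
        R.hasFDerivAt.comp y ((hasFDerivAt_id y).sub_const b)
      exact P.hasFDerivAt.comp y (h1.comp y h2)
    rw [hfd.fderiv]
    set y' := R (y - b) with hy'
    set D := fderiv ℝ g y' with hD
    have hpt : cx (fun j => (w₀ j).re + P (g y') j) y = w₀ + s • mc M (cx (g y') y') := by
      rw [hPcx, hy', hPR]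
      conv_rhs => rw [← hw₀]
      rw [← cx_add]
      congr 1
      abel
    have hvec : ∀ u, cx ((P.comp (D.comp R)) u) u = s • mc M (cx (D (R u)) (R u)) := by
      intro u
      rw [hPcx, hPR]
      rfl
    rw [hpt, hvec, hvec]
    have hw : cx (g y') y' ∈ strip n := cx_mem_strip.2 (hg1 _)
    have ht := hN.hk.triple _ hw
    have hfl : FlatTriple (fun a => om a (w₀ + s • mc M (cx (g y') y'))) := by
      apply hhk.triple
      have h3 : w₀ + s • mc M (cx (g y') y') = (w₀ + cx (P (g y')) 0) + cx 0 (P y') := by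
        rw [hPcx, add_assoc, ← cx_add, add_zero, zero_add]
      rw [h3]
      apply hUy
      apply hball
      rw [Metric.mem_ball, dist_eq_norm, add_sub_cancel_left]
      refine (norm_cx_le _ _).trans_lt ?_
      rw [norm_zero]
      have h4 : ‖P (g y')‖ < 1 := by
        rw [hP]
        exact (hsR (g y')).trans_lt (hg1 y')
      linarith
    have e1 : om c (w₀ + s • mc M (cx (g y') y')) (mc M (cx (D (R u)) (R u)))
        (mc M (cx (D (R v)) (R v))) = 0 := by
      refine graph_zero ht c (D : X (2 * n) →ₗ[ℝ] X (2 * n)) ?_ (R u) (R v)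
      intro i j
      have h1 := hgz i j y'
      have h2 := congrArg Complex.re h1
      have h3 := congrArg Complex.im h1
      simp only [Pf, sg, Complex.add_re, Complex.add_im, Complex.mul_re, Complex.mul_im,
        Complex.I_re, Complex.I_im, Complex.ofReal_re, Complex.ofReal_im, Complex.zero_re,
        Complex.zero_im] at h2 h3
      fin_cases c
      · exact absurd rfl hc
      · simpa using h2
      · simpa using h3
    rw [flat_smul_left hfl c, flat_anti hfl c, flat_smul_left hfl c, flat_anti hfl c, e1]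
    ring

end Pool.Agent.MCL
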