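import Pool.Agent.MCL.Norm
import Pool.Agent.LV31.Close

/-!
# MCL/TransA : a hyperkähler chart near a flat torus in normal form

For `w'` in the strip `w = w₀ + s M w'` has `|Re (w - w₀)| < 1`, and up to the periods
`2π i e_j` one has `|Im (w - w₀)| ≤ π`, so the unit ball around `w` is in `ball w₀ 8`, and
`LV31.grad_le` bounds the derivatives of `om` at `w` by `C √ε`. Closedness: `fderiv` of
`w' ↦ om (w₀ + s M w') (M u) (M v)` in the direction `x` is `s` times the derivative in the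
direction `M x`. `zero`: `s M (cx 0 A_j) = cx 0 (2π e_j)`, change of variables `p ↦ 2π p` in
`period` (`j ≠ l`), antisymmetry (`j = l`).
-/

set_option autoImplicit false

open MeasureTheory Set Filter Topology
open scoped Matrix

namespace Pool.Agent.MCL

open SYM (CV FlatTriple IsHKTripleOn IsHKStructure imagSpace period basisVec)

section aux

variable {n : ℕ}

private theorem ta_mc_add (M : Matrix (Fin (2 * n)) (Fin (2 * n)) ℝ) (u v : CV n) :
    mc M (u + v) = mc M u + mc M v := by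
  ext j
  simp only [mc, Pi.add_apply, mul_add, Finset.sum_add_distrib]

private theorem ta_mc_smul (M : Matrix (Fin (2 * n)) (Fin (2 * n)) ℝ) (c : ℂ) (u : CV n) :
    mc M (c • u) = c • mc M u := by
  ext j
  simp only [mc, Pi.smul_apply, smul_eq_mul, Finset.mul_sum]
  exact Finset.sum_congr rfl fun l _ => by ring

private theorem ta_mc_rsmul (M : Matrix (Fin (2 * n)) (Fin (2 * n)) ℝ) (c : ℝ) (u : CV n) :
    mc M (c • u) = c • mc M u := by
  ext j
  simp only [mc, Pi.smul_apply, Complex.real_smul, Finset.mul_sum]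
  exact Finset.sum_congr rfl fun l _ => by ring

private theorem ta_mc_neg (M : Matrix (Fin (2 * n)) (Fin (2 * n)) ℝ) (u : CV n) :
    mc M (-u) = -mc M u := by
  ext j
  simp only [mc, Pi.neg_apply, mul_neg, Finset.sum_neg_distrib]

private theorem ta_mc_mc (M N : Matrix (Fin (2 * n)) (Fin (2 * n)) ℝ) (u : CV n) :
    mc M (mc N u) = mc (M * N) u := by
  ext j
  simp only [mc, Matrix.mul_apply, Finset.mul_sum, Complex.ofReal_sum, Finset.sum_mul,
    Complex.ofReal_mul]
  rw [Finset.sum_comm]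
  exact Finset.sum_congr rfl fun l _ => Finset.sum_congr rfl fun k _ => by ring

private theorem ta_mc_one (u : CV n) :
    mc (1 : Matrix (Fin (2 * n)) (Fin (2 * n)) ℝ) u = u := by
  ext j
  simp only [mc, Matrix.one_apply]
  rw [Finset.sum_eq_single j]
  · simp
  · intro b _ hb
    simp [Ne.symm hb]
  · simp

private theorem ta_mc_cx (M : Matrix (Fin (2 * n)) (Fin (2 * n)) ℝ) (x y : X (2 * n)) :
    mc M (cx x y) = cx (M *ᵥ x) (M *ᵥ y) := by
  ext j
  simp only [mc, cx, Matrix.mulVec, dotProduct, Complex.ofReal_sum, Complex.ofReal_mul,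
    Finset.mul_sum, mul_add, Finset.sum_add_distrib]
  congr 1
  exact Finset.sum_congr rfl fun l _ => by ring

private theorem ta_mc_inv {M : Matrix (Fin (2 * n)) (Fin (2 * n)) ℝ} (hM : IsUnit M.det)
    (u : CV n) : mc M (mc M⁻¹ u) = u := by
  rw [ta_mc_mc, Matrix.mul_nonsing_inv M hM, ta_mc_one]

private theorem ta_mc_inv' {M : Matrix (Fin (2 * n)) (Fin (2 * n)) ℝ} (hM : IsUnit M.det)
    (u : CV n) : mc M⁻¹ (mc M u) = u := by
  rw [ta_mc_mc, Matrix.nonsing_inv_mul M hM, ta_mc_one]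

private theorem ta_flat {o : Fin 3 → CV n → CV n → ℝ} (ho : FlatTriple o)
    {M : Matrix (Fin (2 * n)) (Fin (2 * n)) ℝ} (hM : IsUnit M.det) :
    FlatTriple (fun c u v => o c (mc M u) (mc M v)) := by
  obtain ⟨g, Q, hQ, hoQ⟩ := ho
  refine ⟨fun u v => g (mc M u) (mc M v), fun a u => mc M⁻¹ (Q a (mc M u)), ?_, ?_⟩
  · refine ⟨?_, ?_, ?_, ?_, ?_, ?_, ?_, ?_, ?_, ?_⟩
    · intro u v w
      show g (mc M (u + v)) (mc M w) = _
      rw [ta_mc_add, hQ.g_add]
    · intro c u v
      show g (mc M (c • u)) (mc M v) = _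
      rw [ta_mc_rsmul, hQ.g_smul]
    · intro u v
      exact hQ.g_symm _ _
    · intro u hu
      apply hQ.g_pos
      intro h
      apply hu
      rw [← ta_mc_inv' hM u, h]
      ext j
      simp [mc]
    · intro a u v
      show mc M⁻¹ (Q a (mc M (u + v))) = _
      rw [ta_mc_add, hQ.Q_add, ta_mc_add]
    · intro a c u
      show mc M⁻¹ (Q a (mc M (c • u))) = _
      rw [ta_mc_rsmul, hQ.Q_smul, ta_mc_rsmul]
    · intro a u
      show mc M⁻¹ (Q a (mc M (mc M⁻¹ (Q a (mc M u))))) = _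
      rw [ta_mc_inv hM, hQ.Q_sq, ta_mc_neg, ta_mc_inv' hM]
    · intro u
      show mc M⁻¹ (Q 0 (mc M u)) = mc M⁻¹ (Q 1 (mc M (mc M⁻¹ (Q 2 (mc M u)))))
      rw [ta_mc_inv hM, hQ.I_eq]
    · intro u
      show mc M⁻¹ (Q 1 (mc M u)) = _
      rw [hQ.J_eq, ta_mc_smul, ta_mc_inv' hM]
    · intro a u v
      show g (mc M (mc M⁻¹ (Q a (mc M u)))) (mc M (mc M⁻¹ (Q a (mc M v)))) = _
      rw [ta_mc_inv hM, ta_mc_inv hM, hQ.isometry]
  · intro a u v
    show o a (mc M u) (mc M v) = g (mc M (mc M⁻¹ (Q a (mc M u)))) (mc M v)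
    rw [ta_mc_inv hM, hoQ]

/-- The real linear map `s M`. -/
private noncomputable def taL (s : ℝ) (M : Matrix (Fin (2 * n)) (Fin (2 * n)) ℝ) :
    CV n →L[ℝ] CV n :=
  LinearMap.toContinuousLinearMap
    { toFun := fun u => s • mc M u
      map_add' := fun u v => by rw [ta_mc_add, smul_add]
      map_smul' := fun c u => by
        rw [ta_mc_rsmul, RingHom.id_apply, smul_comm] }

private theorem taL_apply (s : ℝ) (M : Matrix (Fin (2 * n)) (Fin (2 * n)) ℝ) (u : CV n) :
    taL s M u = s • mc M u := rfl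

private theorem taL_norm {s : ℝ} {M : Matrix (Fin (2 * n)) (Fin (2 * n)) ℝ}
    (hsM : ∀ u : CV n, ‖s • mc M u‖ ≤ ‖u‖) : ‖taL s M‖ ≤ 1 := by
  refine ContinuousLinearMap.opNorm_le_bound _ zero_le_one fun u => ?_
  rw [taL_apply, one_mul]
  exact hsM u

private theorem ta_hasFDerivAt (s : ℝ) (M : Matrix (Fin (2 * n)) (Fin (2 * n)) ℝ) (w₀ w : CV n) :
    HasFDerivAt (fun z : CV n => w₀ + s • mc M z) (taL s M) w :=
  (taL s M).hasFDerivAt.const_add w₀

/-- Reduction of an imaginary vector modulo the periods. -/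
private theorem ta_reduce (y : X (2 * n)) :
    ∃ k : Fin (2 * n) → ℤ, ‖y + fun j => (k j : ℝ) * (2 * Real.pi)‖ ≤ Real.pi := by
  refine ⟨fun j => -round (y j / (2 * Real.pi)), ?_⟩
  have hpi := Real.pi_pos
  rw [pi_norm_le_iff_of_nonneg hpi.le]
  intro j
  have h1 := abs_sub_round (y j / (2 * Real.pi))
  have h2 : (y + fun j => ((-round (y j / (2 * Real.pi)) : ℤ) : ℝ) * (2 * Real.pi)) j =
      (y j / (2 * Real.pi) - (round (y j / (2 * Real.pi)) : ℝ)) * (2 * Real.pi) := by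
    simp only [Pi.add_apply]
    push_cast
    field_simp
    ring
  rw [h2, Real.norm_eq_abs, abs_mul, abs_of_pos (by positivity : (0 : ℝ) < 2 * Real.pi)]
  nlinarith

/-- Invariance under one period with integer multiples. -/
private theorem ta_per_int {E : Type*} {U : Set (CV n)} {F : CV n → E}
    (hU : ∀ w ∈ U, ∀ y : X (2 * n), w + cx 0 y ∈ U)
    (hF : ∀ w ∈ U, ∀ j, F (w + cx 0 (Pi.single j (2 * Real.pi))) = F w)
    (j : Fin (2 * n)) (k : ℤ) : ∀ w ∈ U, F (w + cx 0 (Pi.single j ((k : ℝ) * (2 * Real.pi)))) =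
      F w := by
  have hstep : ∀ (t : ℝ) (w : CV n), w + cx 0 (Pi.single j ((t + 1) * (2 * Real.pi))) =
      (w + cx 0 (Pi.single j (t * (2 * Real.pi)))) + cx 0 (Pi.single j (2 * Real.pi)) := by
    intro t w
    rw [add_assoc, ← cx_add, add_zero, ← Pi.single_add]
    congr 3
    ring
  induction k using Int.induction_on with
  | zero =>
    intro w _
    have : w + cx 0 (Pi.single j (((0 : ℤ) : ℝ) * (2 * Real.pi))) = w := by
      ext i
      simp [cx]
    rw [this]
  | succ k ih =>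
    intro w hw
    have h1 := hstep ((k : ℤ) : ℝ) w
    have h2 : (((k : ℤ) + 1 : ℤ) : ℝ) = ((k : ℤ) : ℝ) + 1 := by push_cast; ring
    rw [h2, h1, hF _ (hU w hw _), ih w hw]
  | pred k ih =>
    intro w hw
    have h1 := hstep ((-(k : ℤ) - 1 : ℤ) : ℝ) w
    have h2 : ((-(k : ℤ) - 1 : ℤ) : ℝ) + 1 = ((-(k : ℤ) : ℤ) : ℝ) := by push_cast; ring
    rw [h2] at h1
    rw [← ih w hw, h1, hF _ (hU w hw _)]

private theorem ta_per_fin {E : Type*} {U : Set (CV n)} {F : CV n → E}
    (hU : ∀ w ∈ U, ∀ y : X (2 * n), w + cx 0 y ∈ U)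
    (hF : ∀ w ∈ U, ∀ j, F (w + cx 0 (Pi.single j (2 * Real.pi))) = F w)
    (k : Fin (2 * n) → ℤ) : ∀ w ∈ U, F (w + cx 0 (fun j => (k j : ℝ) * (2 * Real.pi))) = F w := by
  have key : ∀ S : Finset (Fin (2 * n)), ∀ w ∈ U,
      F (w + cx 0 (∑ j ∈ S, Pi.single j ((k j : ℝ) * (2 * Real.pi)))) = F w := by
    intro S
    induction S using Finset.induction_on with
    | empty =>
      intro w _
      congr 1
      ext i
      simp [cx]
    | insert a S ha ih =>
      intro w hw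
      rw [Finset.sum_insert ha]
      have h1 : w + cx 0 (Pi.single a ((k a : ℝ) * (2 * Real.pi)) +
          ∑ j ∈ S, Pi.single j ((k j : ℝ) * (2 * Real.pi))) =
          (w + cx 0 (∑ j ∈ S, Pi.single j ((k j : ℝ) * (2 * Real.pi)))) +
            cx 0 (Pi.single a ((k a : ℝ) * (2 * Real.pi))) := by
        rw [add_assoc, ← cx_add, add_zero]
        congr 2
        rw [add_comm]
      rw [h1, ta_per_int hU hF a (k a) _ (hU w hw _), ih w hw]
  intro w hw
  have h := key Finset.univ w hw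
  rwa [Finset.univ_sum_single (fun j => (k j : ℝ) * (2 * Real.pi))] at h

open scoped Pointwise in
/-- Change of variables `p ↦ 2π p` in the integral over the square. -/
private theorem ta_cov (F : ℝ → ℝ → ℝ) :
    ∫ p in Icc (0 : ℝ) (2 * Real.pi) ×ˢ Icc (0 : ℝ) (2 * Real.pi), F p.1 p.2 =
      (2 * Real.pi) ^ 2 * ∫ p in Icc (0 : ℝ) 1 ×ˢ Icc (0 : ℝ) 1,
        F (2 * Real.pi * p.1) (2 * Real.pi * p.2) := by
  have hpi := Real.pi_pos
  have hR : (2 * Real.pi : ℝ) ≠ 0 := by positivity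
  have h1 := MeasureTheory.Measure.setIntegral_comp_smul (μ := (volume : Measure (ℝ × ℝ)))
    (fun p : ℝ × ℝ => F p.1 p.2) (R := 2 * Real.pi) (Icc (0 : ℝ) 1 ×ˢ Icc (0 : ℝ) 1) hR
  have h2 : (2 * Real.pi) • (Icc (0 : ℝ) 1 ×ˢ Icc (0 : ℝ) 1) =
      Icc (0 : ℝ) (2 * Real.pi) ×ˢ Icc (0 : ℝ) (2 * Real.pi) := by
    ext p
    rw [Set.mem_smul_set_iff_inv_smul_mem₀ hR]
    simp only [Set.mem_prod, Set.mem_Icc, Prod.smul_fst, Prod.smul_snd, smul_eq_mul,
      inv_mul_le_iff₀ (by positivity : (0 : ℝ) < 2 * Real.pi), mul_one,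
      mul_nonneg_iff_of_pos_left (by positivity : (0 : ℝ) < (2 * Real.pi)⁻¹)]
  have h3 : Module.finrank ℝ (ℝ × ℝ) = 2 := by
    rw [Module.finrank_prod, Module.finrank_self]
  rw [h2, h3, abs_of_pos (by positivity)] at h1
  simp only [Prod.smul_fst, Prod.smul_snd, smul_eq_mul] at h1
  rw [h1, ← mul_assoc, mul_inv_cancel₀ (by positivity), one_mul]

end aux

/-- In the coordinates `w = w₀ + s M w'` the triple is near the standard one. -/
theorem near_of (n : ℕ) {o : Fin 3 → CV n → CV n → ℝ} (ho : FlatTriple o)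
    (I0 M : Matrix (Fin (2 * n)) (Fin (2 * n)) ℝ) (hI : IsCx I0) (hM : IsUnit M.det)
    (hn : ∀ c u v, o c (mc M u) (mc M v) = oS I0 c u v) {s : ℝ} (hs : 0 < s)
    (hsM : ∀ u : CV n, ‖s • mc M u‖ ≤ ‖u‖)
    (hsR : ∀ x : X (2 * n), ‖s • M *ᵥ x‖ ≤ ‖x‖) {η : ℝ} (hη : 0 < η) :
    ∃ ε > 0, ∀ (U : Set (CV n)) (om : Fin 3 → CV n → CV n → CV n → ℝ) (w₀ : CV n),
      IsOpen U → (∀ w ∈ U, ∀ y : X (2 * n), w + cx 0 y ∈ U) →
      (∀ w ∈ U, ∀ j c u v,
        om c (w + cx 0 (Pi.single j (2 * Real.pi))) u v = om c w u v) →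
      IsHKTripleOn U om → Metric.ball w₀ 8 ⊆ U →
      (∀ w ∈ Metric.ball w₀ 8, ∀ c u v, |om c w u v - o c u v| ≤ ε * ‖u‖ * ‖v‖) →
      (∀ w ∈ U, ∀ j l, j ≠ l → ∀ c, c ≠ 0 → period (om c) w j l = 0) →
      Near n ((2 * Real.pi / s) • M⁻¹) I0 η
        (fun c w u v => om c (w₀ + s • mc M w) (mc M u) (mc M v)) := by
  obtain ⟨C, hC, ε₀, hε₀, hgrad⟩ := LV31.grad_le n ho
  -- choice of `ε`
  obtain ⟨ε, hε, hεε₀, hε1, hε2⟩ : ∃ ε > 0, ε ≤ ε₀ ∧ ε / s ^ 2 ≤ η ∧ C * √ε / s ^ 2 ≤ η := by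
    have hη' : 0 < η * s ^ 2 / C := by positivity
    refine ⟨min ε₀ (min (η * s ^ 2) ((η * s ^ 2 / C) ^ 2)), by positivity, min_le_left _ _, ?_, ?_⟩
    · rw [div_le_iff₀ (by positivity)]
      exact (min_le_right _ _).trans (min_le_left _ _)
    · rw [div_le_iff₀ (by positivity)]
      have h1 : √(min ε₀ (min (η * s ^ 2) ((η * s ^ 2 / C) ^ 2))) ≤ η * s ^ 2 / C := by
        exact (Real.sqrt_le_sqrt ((min_le_right _ _).trans (min_le_right _ _))).trans_eq
          (Real.sqrt_sq hη'.le)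
      calc C * √(min ε₀ (min (η * s ^ 2) ((η * s ^ 2 / C) ^ 2))) ≤ C * (η * s ^ 2 / C) :=
            mul_le_mul_of_nonneg_left h1 hC.le
        _ = η * s ^ 2 := by field_simp
  refine ⟨ε, hε, ?_⟩
  intro U om w₀ hUo hUy hper hhk hball hclose hzero
  have hpi := Real.pi_pos
  -- norm of `M u`
  have hMn : ∀ u : CV n, ‖mc M u‖ ≤ s⁻¹ * ‖u‖ := by
    intro u
    have h1 := hsM u
    rw [norm_smul, Real.norm_eq_abs, abs_of_pos hs] at h1
    rw [inv_mul_eq_div, le_div_iff₀ hs]
    linarith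
  have hMM : ∀ (K : ℝ), 0 ≤ K → ∀ u v : CV n, K * ‖mc M u‖ * ‖mc M v‖ ≤
      K / s ^ 2 * ‖u‖ * ‖v‖ := by
    intro K hK u v
    calc K * ‖mc M u‖ * ‖mc M v‖ ≤ K * (s⁻¹ * ‖u‖) * (s⁻¹ * ‖v‖) := by
          gcongr
          · exact hMn u
          · exact hMn v
      _ = K / s ^ 2 * ‖u‖ * ‖v‖ := by field_simp
  -- points of the strip
  have hmap : ∀ w ∈ strip n, w₀ + s • mc M w ∈ U ∧ ∃ k : Fin (2 * n) → ℤ,
      ‖(w₀ + s • mc M w + cx 0 (fun j => (k j : ℝ) * (2 * Real.pi))) - w₀‖ ≤ 5 := by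
    intro w hw
    set x : X (2 * n) := fun j => (w j).re with hx
    set y : X (2 * n) := fun j => (w j).im with hy
    have hw' : cx x y = w := cx_re_im w
    have hx1 : ‖x‖ < 1 := by
      rw [← cx_mem_strip (y := y), hw']
      exact hw
    have h1 : s • mc M w = cx (s • M *ᵥ x) (s • M *ᵥ y) := by
      rw [← hw', ta_mc_cx, ← cx_smul]
    have h2 : ‖s • M *ᵥ x‖ < 1 := (hsR x).trans_lt hx1
    constructor
    · have h3 : w₀ + s • mc M w = (w₀ + cx (s • M *ᵥ x) 0) + cx 0 (s • M *ᵥ y) := by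
        rw [h1, add_assoc, ← cx_add, add_zero, zero_add]
      rw [h3]
      apply hUy
      apply hball
      rw [Metric.mem_ball, dist_eq_norm, add_sub_cancel_left]
      refine (norm_cx_le _ _).trans_lt ?_
      rw [norm_zero]
      linarith
    · obtain ⟨k, hk⟩ := ta_reduce (s • M *ᵥ y)
      refine ⟨k, ?_⟩
      have h3 : w₀ + s • mc M w + cx 0 (fun j => (k j : ℝ) * (2 * Real.pi)) - w₀ =
          cx (s • M *ᵥ x) (s • M *ᵥ y + fun j => (k j : ℝ) * (2 * Real.pi)) := by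
        rw [h1, add_assoc, ← cx_add, add_zero, add_sub_cancel_left]
      rw [h3]
      refine (norm_cx_le _ _).trans ?_
      have := Real.pi_lt_four
      linarith
  have hsub : ∀ z : CV n, ‖z - w₀‖ ≤ 5 → Metric.ball z 1 ⊆ Metric.ball w₀ 8 := by
    intro z hz
    apply Metric.ball_subset_ball'
    rw [dist_eq_norm]
    linarith
  have hperk : ∀ (k : Fin (2 * n) → ℤ), ∀ w ∈ U, ∀ c u v,
      om c (w + cx 0 (fun j => (k j : ℝ) * (2 * Real.pi))) u v = om c w u v := by
    intro k w hw c u v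
    exact ta_per_fin (F := fun w => om c w u v) hUy (fun w hw j => hper w hw j c u v) k w hw
  have hder : ∀ w ∈ strip n, ∀ c (u v : CV n),
      HasFDerivAt (fun z => om c (w₀ + s • mc M z) u v)
        ((fderiv ℝ (fun z => om c z u v) (w₀ + s • mc M w)).comp (taL s M)) w := by
    intro w hw c u v
    have h1 : DifferentiableAt ℝ (fun z => om c z u v) (w₀ + s • mc M w) :=
      LV31.diff_at hUo hhk (hmap w hw).1 c u v
    exact h1.hasFDerivAt.comp w (ta_hasFDerivAt s M w₀ w)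
  have hfd : ∀ w ∈ strip n, ∀ c (u v : CV n),
      fderiv ℝ (fun z => om c (w₀ + s • mc M z) u v) w =
        (fderiv ℝ (fun z => om c z u v) (w₀ + s • mc M w)).comp (taL s M) :=
    fun w hw c u v => (hder w hw c u v).fderiv
  -- the columns of `A`
  have hcol : ∀ j : Fin (2 * n), cx 0 (fun i => ((2 * Real.pi / s) • M⁻¹) i j) =
      (2 * Real.pi / s) • mc M⁻¹ (cx 0 (Pi.single j 1)) := by
    intro j
    rw [ta_mc_cx, ← cx_smul, Matrix.mulVec_zero, smul_zero, Matrix.mulVec_single_one]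
    rfl
  have hMcol : ∀ j : Fin (2 * n), mc M (cx 0 (fun i => ((2 * Real.pi / s) • M⁻¹) i j)) =
      (2 * Real.pi / s) • cx 0 (Pi.single j 1) := by
    intro j
    rw [hcol, ta_mc_rsmul, ta_mc_inv hM]
  have hsMcol : ∀ j : Fin (2 * n), s • mc M (cx 0 (fun i => ((2 * Real.pi / s) • M⁻¹) i j)) =
      cx 0 (Pi.single j (2 * Real.pi)) := by
    intro j
    rw [hMcol, smul_smul, ← cx_smul, smul_zero, ← Pi.single_smul, smul_eq_mul, mul_one]
    congr 2
    field_simp
  refine ⟨⟨?_, ?_, ?_⟩, ?_, ?_, ?_, ?_⟩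
  · -- triple
    intro w hw
    exact ta_flat (hhk.triple _ (hmap w hw).1) hM
  · -- smooth
    intro c u v
    have h1 : ContDiff ℝ (⊤ : ℕ∞) (fun w : CV n => w₀ + s • mc M w) :=
      contDiff_const.add (taL s M).contDiff
    exact (hhk.smooth c (mc M u) (mc M v)).comp h1.contDiffOn (fun w hw => (hmap w hw).1)
  · -- closed
    intro c w hw u v x
    have h1 := hhk.closed c _ (hmap w hw).1 (mc M u) (mc M v) (mc M x)
    rw [hfd w hw, hfd w hw, hfd w hw]
    simp only [ContinuousLinearMap.comp_apply, taL_apply, map_smul, smul_eq_mul]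
    rw [← mul_add, ← mul_add, h1, mul_zero]
  · -- per
    intro c w hw j u v
    show om c (w₀ + s • mc M (w + _)) _ _ = _
    rw [ta_mc_add, smul_add, hsMcol, ← add_assoc]
    exact hper _ (hmap w hw).1 j c _ _
  · -- close
    intro w hw c u v
    obtain ⟨h1, k, hk⟩ := hmap w hw
    rw [← hn c u v]
    show |om c (w₀ + s • mc M w) (mc M u) (mc M v) - _| ≤ _
    rw [← hperk k _ h1]
    refine (hclose _ (hsub _ hk (Metric.mem_ball_self one_pos)) c _ _).trans ?_
    refine (hMM ε hε.le u v).trans ?_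
    gcongr
  · -- lip
    intro w hw c u v
    obtain ⟨h1, k, hk⟩ := hmap w hw
    show ‖fderiv ℝ (fun z => om c (w₀ + s • mc M z) (mc M u) (mc M v)) w‖ ≤ _
    rw [hfd w hw]
    set z := w₀ + s • mc M w with hz
    set z' := z + cx 0 (fun j => (k j : ℝ) * (2 * Real.pi)) with hz'
    have h2 : fderiv ℝ (fun y => om c y (mc M u) (mc M v)) z =
        fderiv ℝ (fun y => om c y (mc M u) (mc M v)) z' := by
      have h3 : (fun y => om c (y + cx 0 (fun j => (k j : ℝ) * (2 * Real.pi)))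
          (mc M u) (mc M v)) =ᶠ[𝓝 z] fun y => om c y (mc M u) (mc M v) := by
        filter_upwards [hUo.mem_nhds h1] with y hy
        exact hperk k y hy c _ _
      rw [← h3.fderiv_eq]
      exact fderiv_comp_add_right (f := fun y => om c y (mc M u) (mc M v)) _
    have h4 : IsHKTripleOn (Metric.ball z' 1) om := by
      have h5 : Metric.ball z' 1 ⊆ U := (hsub z' hk).trans hball
      exact ⟨fun w hw => hhk.triple w (h5 hw), fun a u v => (hhk.smooth a u v).mono h5,
        fun a w hw => hhk.closed a w (h5 hw)⟩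
    have h6 := hgrad ε hε hεε₀ z' om h4 (fun w hw => hclose w (hsub z' hk hw)) c (mc M u) (mc M v)
    calc ‖(fderiv ℝ (fun z => om c z (mc M u) (mc M v)) z).comp (taL s M)‖
        ≤ ‖fderiv ℝ (fun z => om c z (mc M u) (mc M v)) z‖ * ‖taL s M‖ :=
          ContinuousLinearMap.opNorm_comp_le _ _
      _ ≤ ‖fderiv ℝ (fun z => om c z (mc M u) (mc M v)) z‖ * 1 :=
          mul_le_mul_of_nonneg_left (taL_norm hsM) (norm_nonneg _)
      _ = ‖fderiv ℝ (fun z => om c z (mc M u) (mc M v)) z'‖ := by rw [mul_one, h2]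
      _ ≤ C * √ε * ‖mc M u‖ * ‖mc M v‖ := h6
      _ ≤ C * √ε / s ^ 2 * ‖u‖ * ‖v‖ := hMM _ (by positivity) u v
      _ ≤ η * ‖u‖ * ‖v‖ := by gcongr
  · -- zero
    intro w hw c hc j l
    obtain ⟨h1, -⟩ := hmap w hw
    set z := w₀ + s • mc M w with hz
    have hcx : ∀ (j : Fin (2 * n)) (t : ℝ), cx 0 (Pi.single j t) =
        ((t : ℂ) * Complex.I) • basisVec n j := by
      intro j t
      ext i
      simp only [cx, basisVec, Pi.zero_apply, Complex.ofReal_zero, zero_add, Pi.smul_apply,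
        smul_eq_mul]
      by_cases h : i = j
      · subst h
        simp [mul_comm]
      · simp [Pi.single_eq_of_ne h]
    have hI1 : ∀ j : Fin (2 * n), (cx 0 (Pi.single j 1) : CV n) = Complex.I • basisVec n j := by
      intro j
      rw [hcx]
      simp
    have hpt : ∀ p : ℝ × ℝ, w₀ + s • mc M (w + p.1 • cx 0 (fun i => ((2 * Real.pi / s) • M⁻¹) i j)
          + p.2 • cx 0 (fun i => ((2 * Real.pi / s) • M⁻¹) i l)) =
        z + (((2 * Real.pi * p.1 : ℝ) : ℂ) * Complex.I) • basisVec n j +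
          (((2 * Real.pi * p.2 : ℝ) : ℂ) * Complex.I) • basisVec n l := by
      intro p
      rw [ta_mc_add, ta_mc_add, ta_mc_rsmul, ta_mc_rsmul, smul_add, smul_add, smul_comm s p.1,
        smul_comm s p.2, hsMcol, hsMcol, ← add_assoc, ← add_assoc, ← cx_smul, ← cx_smul,
        smul_zero, smul_zero, ← Pi.single_smul, ← Pi.single_smul, hcx, hcx, smul_eq_mul,
        smul_eq_mul, mul_comm p.1, mul_comm p.2]
    have hfl : ∀ p : ℝ × ℝ, FlatTriple (fun a => om a
        (z + (((2 * Real.pi * p.1 : ℝ) : ℂ) * Complex.I) • basisVec n j +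
          (((2 * Real.pi * p.2 : ℝ) : ℂ) * Complex.I) • basisVec n l)) := by
      intro p
      apply hhk.triple
      rw [← hcx, ← hcx]
      exact hUy _ (hUy _ h1 _) _
    have hint : ∀ p : ℝ × ℝ, om c (w₀ + s • mc M (w +
          p.1 • cx 0 (fun i => ((2 * Real.pi / s) • M⁻¹) i j)
          + p.2 • cx 0 (fun i => ((2 * Real.pi / s) • M⁻¹) i l)))
          (mc M (cx 0 (fun i => ((2 * Real.pi / s) • M⁻¹) i j)))
          (mc M (cx 0 (fun i => ((2 * Real.pi / s) • M⁻¹) i l))) =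
        (2 * Real.pi / s) ^ 2 * om c (z +
          (((2 * Real.pi * p.1 : ℝ) : ℂ) * Complex.I) • basisVec n j +
          (((2 * Real.pi * p.2 : ℝ) : ℂ) * Complex.I) • basisVec n l)
          (Complex.I • basisVec n j) (Complex.I • basisVec n l) := by
      intro p
      rw [hpt, hMcol, hMcol, hI1, hI1]
      have e1 := flat_smul_left (hfl p) c (2 * Real.pi / s) (Complex.I • basisVec n j)
        ((2 * Real.pi / s) • Complex.I • basisVec n l)
      have e2 := flat_anti (hfl p) c (Complex.I • basisVec n j)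
        ((2 * Real.pi / s) • Complex.I • basisVec n l)
      have e3 := flat_smul_left (hfl p) c (2 * Real.pi / s) (Complex.I • basisVec n l)
        (Complex.I • basisVec n j)
      have e4 := flat_anti (hfl p) c (Complex.I • basisVec n l) (Complex.I • basisVec n j)
      rw [e1, e2, e3, e4]
      ring
    show ∫ p in Icc (0 : ℝ) 1 ×ˢ Icc (0 : ℝ) 1, om c (w₀ + s • mc M (w +
          p.1 • cx 0 (fun i => ((2 * Real.pi / s) • M⁻¹) i j)
          + p.2 • cx 0 (fun i => ((2 * Real.pi / s) • M⁻¹) i l)))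
          (mc M (cx 0 (fun i => ((2 * Real.pi / s) • M⁻¹) i j)))
          (mc M (cx 0 (fun i => ((2 * Real.pi / s) • M⁻¹) i l))) = 0
    refine (integral_congr_ae (Eventually.of_forall fun p => hint p)).trans ?_
    rw [integral_const_mul]
    by_cases hjl : j = l
    · subst hjl
      have h2 : ∀ p : ℝ × ℝ, om c (z +
          (((2 * Real.pi * p.1 : ℝ) : ℂ) * Complex.I) • basisVec n j +
          (((2 * Real.pi * p.2 : ℝ) : ℂ) * Complex.I) • basisVec n j)
          (Complex.I • basisVec n j) (Complex.I • basisVec n j) = 0 := by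
        intro p
        have e4 := flat_anti (hfl p) c (Complex.I • basisVec n j) (Complex.I • basisVec n j)
        linarith
      have h3 := integral_congr_ae (μ := volume.restrict (Icc (0 : ℝ) 1 ×ˢ Icc (0 : ℝ) 1))
        (Eventually.of_forall fun p : ℝ × ℝ => h2 p)
      rw [h3, integral_zero, mul_zero]
    · have h2 := hzero z h1 j l hjl c hc
      have h3 := ta_cov (fun a b => om c (z + ((a : ℂ) * Complex.I) • basisVec n j +
          ((b : ℂ) * Complex.I) • basisVec n l) (Complex.I • basisVec n j)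
          (Complex.I • basisVec n l))
      unfold period at h2
      rw [h2] at h3
      have h4 : (2 * Real.pi) ^ 2 ≠ 0 := by positivity
      have h5 := (mul_eq_zero.1 h3.symm).resolve_left h4
      rw [h5, mul_zero]

end Pool.Agent.MCL
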