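import Pool.Agent.MCL.QEst
import Pool.Agent.MCL.Interp
import Pool.Agent.MCL.Point
import Pool.Agent.MCL.Alg

/-!
# MCL/Zero : the solution of the equation is a Lagrangian graph
-/

set_option autoImplicit false

open MeasureTheory Set Filter Topology
open scoped Matrix

namespace Pool.Agent.MCL

open SYM (CV FlatTriple IsHKTripleOn)

private theorem zr_cf_sum {d : ℕ} {A : Matrix (Fin d) (Fin d) ℝ} {ι : Type*} (S : Finset ι)
    {q : ι → X d → ℂ} (hq : ∀ i ∈ S, Continuous (q i)) (ν : Fin d → ℤ) :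
    cf A (fun y => ∑ i ∈ S, q i y) ν = ∑ i ∈ S, cf A (q i) ν := by
  unfold cf
  rw [← avg_finset_sum S (q := fun i y => ex (-fr A ν) y * q i y)
    (fun i hi => (ex_contDiff _).continuous.mul (hq i hi))]
  congr 1
  funext y
  rw [Finset.mul_sum]

private theorem zr_zeta_cd {d : ℕ} (I0 : Matrix (Fin d) (Fin d) ℝ) {f : X d → X d}
    (hf : ContDiff ℝ 1 f) (j : Fin d) : ContDiff ℝ 1 (zeta I0 f j) := by
  have h1 : ∀ l, ContDiff ℝ 1 (fun y => f y l) := fun l => (contDiff_pi.1 hf) l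
  have h2 : ∀ l, ContDiff ℝ 1 (fun y => ((f y l : ℝ) : ℂ)) := fun l =>
    Complex.ofRealCLM.contDiff.comp (h1 l)
  have h3 : zeta I0 f j = fun y => ((f y j : ℝ) : ℂ) +
      Complex.I * ∑ l, (I0 j l : ℂ) * ((f y l : ℝ) : ℂ) := by
    funext y
    simp [zeta, Matrix.mulVec, dotProduct]
  rw [h3]
  exact (h2 j).add (contDiff_const.mul (ContDiff.sum fun l _ => contDiff_const.mul (h2 l)))

private theorem zr_zeta_per {d : ℕ} {A : Matrix (Fin d) (Fin d) ℝ}
    (I0 : Matrix (Fin d) (Fin d) ℝ) {f : X d → X d}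
    (hf : Per A f) (j : Fin d) : Per A (zeta I0 f j) := by
  intro l y
  simp only [zeta]
  rw [hf l y]

private theorem zr_I0_zeta {d : ℕ} {I0 : Matrix (Fin d) (Fin d) ℝ} (hI : IsCx I0)
    (f : X d → X d) (m : Fin d) (y : X d) :
    ∑ j, (I0 m j : ℂ) * zeta I0 f j y = -Complex.I * zeta I0 f m y := by
  have h1 : I0 *ᵥ (I0 *ᵥ f y) = -f y := by
    rw [Matrix.mulVec_mulVec, hI.sq, Matrix.neg_mulVec, Matrix.one_mulVec]
  have h2 : ∑ j, (I0 m j : ℂ) * ((f y j : ℝ) : ℂ) = ((I0 *ᵥ f y) m : ℂ) := by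
    simp [Matrix.mulVec, dotProduct]
  have h3 : ∑ j, (I0 m j : ℂ) * (((I0 *ᵥ f y) j : ℝ) : ℂ) = ((-f y m : ℝ) : ℂ) := by
    have := congrFun h1 m
    rw [Pi.neg_apply] at this
    rw [← this]
    simp [Matrix.mulVec, dotProduct]
  have h4 : ∀ j, (I0 m j : ℂ) * zeta I0 f j y = (I0 m j : ℂ) * ((f y j : ℝ) : ℂ) +
      Complex.I * ((I0 m j : ℂ) * (((I0 *ᵥ f y) j : ℝ) : ℂ)) := by
    intro j
    simp only [zeta]
    ring
  simp only [h4]
  rw [Finset.sum_add_distrib, ← Finset.mul_sum, h2, h3]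
  simp only [zeta]
  push_cast
  linear_combination (((I0 *ᵥ f y) m : ℂ)) * Complex.I_sq

/-- The estimate at one frequency. -/
private theorem zr_freq (n : ℕ) (A I0 : Matrix (Fin (2 * n)) (Fin (2 * n)) ℝ) (hA : IsUnit A.det)
    (hI : IsCx I0) {η : ℝ} (h0 : 0 ≤ η) (h1 : η ≤ 1) {om : Fin 3 → CV n → CV n → CV n → ℝ}
    (h : Near n A I0 η om) {δ : ℝ} (hδ : δ ≤ 1 / 2) {f : X (2 * n) → X (2 * n)} (hf : InK A δ f)
    (hcl : ∀ ν a b c, (fr A ν a : ℂ) * cf A (Pf om f b c) ν + (fr A ν b : ℂ) * cf A (Pf om f c a) ν +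
        (fr A ν c : ℂ) * cf A (Pf om f a b) ν = 0)
    (hz : ∀ a b, cf A (Pf om f a b) 0 = 0)
    (hl : ∀ j ν, cf A (zeta I0 f j) ν = zc A I0 (fun a b => cf A (Qf om I0 f a b)) j ν)
    (ν : Fin (2 * n) → ℤ) :
    ∑ a, ∑ b, ‖cf A (Pf om f a b) ν‖ ^ 2 ≤
      2 * ∑ a, ∑ b, ‖∑ c, ∑ e, Em I0 c a * Em I0 e b * cf A (Pf om f c e) ν‖ ^ 2 := by
  by_cases hν : ν = 0
  · subst hν
    simp only [hz]
    simp
  · obtain ⟨c, hc, hlow⟩ := fr_low A hA
    have hk : sq (fr A ν) ≠ 0 := (lt_of_lt_of_le hc (hlow ν hν)).ne'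
    obtain ⟨CQ, hCQ, hQ⟩ := qf_hol n A I0 hI
    have hQ' := hQ η h0 h1 om h δ hδ f hf
    have hzc : ∀ j, Continuous (zeta I0 f j) := fun j => (zr_zeta_cd I0 hf.smooth j).continuous
    have hpdc : ∀ a b, Continuous (pd a (zeta I0 f b)) := by
      intro a b
      unfold pd
      exact ((zr_zeta_cd I0 hf.smooth b).continuous_fderiv (by norm_num)).clm_apply
        continuous_const
    -- the pull-back
    have hP : ∀ a b, Pf om f a b = fun y =>
        (pd a (zeta I0 f b) y - pd b (zeta I0 f a) y) + Qf om I0 f a b y := by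
      intro a b
      funext y
      simp only [Qf]
      rw [Pf_flat hI hf.smooth a b y]
      ring
    have hp : ∀ a b, cf A (Pf om f a b) ν =
        Complex.I * (fr A ν a : ℂ) * cf A (zeta I0 f b) ν -
          Complex.I * (fr A ν b : ℂ) * cf A (zeta I0 f a) ν + cf A (Qf om I0 f a b) ν := by
      intro a b
      have hcc : Continuous (fun y => pd a (zeta I0 f b) y - pd b (zeta I0 f a) y) :=
        (hpdc a b).sub (hpdc b a)
      rw [hP a b, cf_add hcc (hQ' a b).1, cf_sub (hpdc a b) (hpdc b a),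
        cf_pd hA (zr_zeta_cd I0 hf.smooth b) (zr_zeta_per I0 hf.per b),
        cf_pd hA (zr_zeta_cd I0 hf.smooth a) (zr_zeta_per I0 hf.per a)]
    have hzI : ∀ m, ∑ j, (I0 m j : ℂ) * cf A (zeta I0 f j) ν =
        -Complex.I * cf A (zeta I0 f m) ν := by
      intro m
      rw [← cf_mul_left]
      have e : (fun y => -Complex.I * zeta I0 f m y) =
          fun y => ∑ j, (I0 m j : ℂ) * zeta I0 f j y := by
        funext y
        rw [zr_I0_zeta hI]
      rw [e, zr_cf_sum Finset.univ (q := fun j y => (I0 m j : ℂ) * zeta I0 f j y)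
        (fun j _ => continuous_const.mul (hzc j))]
      refine Finset.sum_congr rfl fun j _ => ?_
      rw [cf_mul_left]
    have heq := eq3 hI (fr A ν) hk (fun j => cf A (zeta I0 f j) ν) hzI
      (fun a b => cf A (Qf om I0 f a b) ν) (fun a b => cf A (Pf om f a b) ν)
      (fun j => hl j ν) hp
    refine alg hI (fr A ν) hk (fun a b => cf A (Pf om f a b) ν) ?_ (hcl ν) heq
    intro a b
    have e : Pf om f a b = fun y => (-1 : ℂ) * Pf om f b a y := by
      funext y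
      rw [Pf_anti h (fun y => by have := hf.val y; linarith) a b y]
      ring
    show cf A (Pf om f a b) ν = -cf A (Pf om f b a) ν
    rw [e, cf_mul_left]
    ring

/-- A continuous periodic Hölder function with mean square zero vanishes. -/
private theorem zr_vanish {d : ℕ} {A : Matrix (Fin d) (Fin d) ℝ} (hA : IsUnit A.det)
    {q : X d → ℂ} (hc : Continuous q) (hp : Per A q) {K : ℝ} (hK : Hol K q)
    (h : avg A (fun y => ‖q y‖ ^ 2) = 0) (y : X d) : q y = 0 := by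
  have h1 : ∀ ε : ℝ, 0 < ε → ‖q y‖ ≤ ε := by
    intro ε hε
    obtain ⟨δ, hδ, H⟩ := interp A hA K hε
    have h2 := H (fun y => ‖q y‖) hc.norm (fun j z => by
      show ‖q _‖ = ‖q z‖
      rw [hp j z]) (fun y z => by
      rw [Real.norm_eq_abs]
      exact (abs_norm_sub_norm_le _ _).trans (hK y z)) (by rw [h]; exact hδ.le) y
    rwa [abs_of_nonneg (norm_nonneg _)] at h2
  have h2 : ‖q y‖ ≤ 0 := le_of_forall_pos_le_add (by simpa using h1)
  exact norm_le_zero_iff.1 h2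

/-- Proof: `eq3` and `alg` at every frequency, Bessel for the part of type `(0, 2)`, the inequality
`avg_sq_le` for `P`, and the pointwise estimate give
`Σ avg |P_ab|² ≤ 2 (2n)⁴ C² (η + δ)² Σ avg |P_ab|²`. -/
theorem zero_of (n : ℕ) (A I0 : Matrix (Fin (2 * n)) (Fin (2 * n)) ℝ) (hA : IsUnit A.det)
    (hI : IsCx I0) :
    ∃ δ > 0, δ ≤ 1 / 2 ∧ ∃ η > 0, η ≤ 1 ∧ ∀ om, Near n A I0 η om → ∀ f, InK A δ f →
      (∀ ν a b c, (fr A ν a : ℂ) * cf A (Pf om f b c) ν + (fr A ν b : ℂ) * cf A (Pf om f c a) ν +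
        (fr A ν c : ℂ) * cf A (Pf om f a b) ν = 0) →
      (∀ a b, cf A (Pf om f a b) 0 = 0) →
      (∀ j ν, cf A (zeta I0 f j) ν = zc A I0 (fun a b => cf A (Qf om I0 f a b)) j ν) →
      ∀ a b y, Pf om f a b y = 0 := by
  obtain ⟨C, hC, c0, hc0, hpt⟩ := point n I0 hI
  set m : ℝ := ((2 * n : ℕ) : ℝ) with hm
  have hm0 : 0 ≤ m := Nat.cast_nonneg _
  set t : ℝ := min (1 / 2) (min c0 (1 / (4 * (m ^ 2 + 1) * C))) with ht
  have ht0 : 0 < t := by
    rw [ht]; positivity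
  have ht1 : t ≤ 1 / 2 := min_le_left _ _
  have ht2 : t ≤ c0 := (min_le_right _ _).trans (min_le_left _ _)
  have ht3 : t ≤ 1 / (4 * (m ^ 2 + 1) * C) := (min_le_right _ _).trans (min_le_right _ _)
  have hsm : m ^ 2 * (C * (t + t)) ≤ 1 / 2 := by
    have h1 : (m ^ 2 + 1) * (C * (t + t)) ≤ 1 / 2 := by
      rw [le_div_iff₀ (by positivity)] at ht3
      nlinarith
    have h2 : 0 ≤ C * (t + t) := by positivity
    nlinarith
  refine ⟨t, ht0, ht1, t, ht0, by linarith, ?_⟩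
  intro om h f hf hcl hz hl
  have hval : ∀ y, ‖f y‖ < 1 := fun y => by have := hf.val y; linarith
  have hH : ∀ a b, ∃ K, Continuous (Pf om f a b) ∧ Per A (Pf om f a b) ∧ Hol K (Pf om f a b) :=
    fun a b => pf_hol n A I0 hI ht0.le (by linarith) h ht1 hf a b
  have hPc : ∀ a b, Continuous (Pf om f a b) := fun a b => (hH a b).choose_spec.1
  -- the part of type (0, 2)
  set R : Fin (2 * n) → Fin (2 * n) → X (2 * n) → ℂ := fun a b y =>
    ∑ c, ∑ e, Em I0 c a * Em I0 e b * Pf om f c e y with hR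
  have hRc : ∀ a b, Continuous (R a b) := by
    intro a b
    refine continuous_finsetSum _ fun c _ => continuous_finsetSum _ fun e _ => ?_
    exact continuous_const.mul (hPc c e)
  have hRcf : ∀ a b ν, cf A (R a b) ν =
      ∑ c, ∑ e, Em I0 c a * Em I0 e b * cf A (Pf om f c e) ν := by
    intro a b ν
    rw [hR, zr_cf_sum Finset.univ
      (q := fun c y => ∑ e, Em I0 c a * Em I0 e b * Pf om f c e y)
      (fun c _ => continuous_finsetSum _ fun e _ => continuous_const.mul (hPc c e))]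
    refine Finset.sum_congr rfl fun c _ => ?_
    rw [zr_cf_sum Finset.univ (q := fun e y => Em I0 c a * Em I0 e b * Pf om f c e y)
      (fun e _ => continuous_const.mul (hPc c e))]
    refine Finset.sum_congr rfl fun e _ => ?_
    rw [cf_mul_left]
  set W : ℝ := ∑ a, ∑ b, avg A (fun y => ‖Pf om f a b y‖ ^ 2) with hW
  have hW0 : 0 ≤ W := Finset.sum_nonneg fun a _ => Finset.sum_nonneg fun b _ =>
    avg_nonneg fun y => by positivity
  -- the pointwise estimate
  have hRle : ∀ a b, avg A (fun y => ‖R a b y‖ ^ 2) ≤ (C * (t + t)) ^ 2 * W := by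
    intro a b
    have hs : ∀ y, 0 ≤ ∑ c, ∑ e, ‖Pf om f c e y‖ ^ 2 := fun y =>
      Finset.sum_nonneg fun c _ => Finset.sum_nonneg fun e _ => by positivity
    have h1 : ∀ y, ‖R a b y‖ ^ 2 ≤ (C * (t + t)) ^ 2 * ∑ c, ∑ e, ‖Pf om f c e y‖ ^ 2 := by
      intro y
      have hw : cx (f y) y ∈ strip n := cx_mem_strip.2 (hval y)
      have h2 := hpt t t ht0.le ht2 ht0.le ht2 (fun c => om c (cx (f y) y)) (h.hk.triple _ hw)
        (fun c u v => h.close _ hw c u v) (fderiv ℝ f y) (hf.der y)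
        (fun a b => Pf om f a b y) (fun a b => rfl) (√(∑ c, ∑ e, ‖Pf om f c e y‖ ^ 2))
        (fun c e => by
          refine Real.le_sqrt_of_sq_le ?_
          calc ‖Pf om f c e y‖ ^ 2 ≤ ∑ e, ‖Pf om f c e y‖ ^ 2 :=
                Finset.single_le_sum (f := fun e => ‖Pf om f c e y‖ ^ 2)
                  (fun e _ => by positivity) (Finset.mem_univ e)
            _ ≤ ∑ c, ∑ e, ‖Pf om f c e y‖ ^ 2 :=
                Finset.single_le_sum (f := fun c => ∑ e, ‖Pf om f c e y‖ ^ 2)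
                  (fun c _ => Finset.sum_nonneg fun e _ => by positivity) (Finset.mem_univ c)) a b
      calc ‖R a b y‖ ^ 2 ≤ (C * (t + t) * √(∑ c, ∑ e, ‖Pf om f c e y‖ ^ 2)) ^ 2 := by
            gcongr
        _ = (C * (t + t)) ^ 2 * ∑ c, ∑ e, ‖Pf om f c e y‖ ^ 2 := by
            rw [mul_pow, Real.sq_sqrt (hs y)]
    have hcs : Continuous fun y => ∑ c, ∑ e, ‖Pf om f c e y‖ ^ 2 :=
      continuous_finsetSum _ fun c _ => continuous_finsetSum _ fun e _ =>
        (hPc c e).norm.pow 2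
    have hcs' : Continuous fun y => (C * (t + t)) ^ 2 * ∑ c, ∑ e, ‖Pf om f c e y‖ ^ 2 :=
      continuous_const.mul hcs
    have h3 := avg_mono (A := A) ((hRc a b).norm.pow 2) hcs' h1
    refine h3.trans (le_of_eq ?_)
    rw [avg_mul_left_real, avg_finset_sum Finset.univ
      (q := fun c y => ∑ e, ‖Pf om f c e y‖ ^ 2)
      (fun c _ => continuous_finsetSum _ fun e _ => (hPc c e).norm.pow 2), hW]
    congr 1
    refine Finset.sum_congr rfl fun c _ => ?_
    rw [avg_finset_sum Finset.univ (q := fun e y => ‖Pf om f c e y‖ ^ 2)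
      (fun e _ => (hPc c e).norm.pow 2)]
  -- Parseval and Bessel
  have hPle : ∀ a b, avg A (fun y => ‖Pf om f a b y‖ ^ 2) ≤
      2 * ∑ a, ∑ b, avg A (fun y => ‖R a b y‖ ^ 2) := by
    intro a b
    obtain ⟨K, hc, hp, hK⟩ := hH a b
    refine avg_sq_le A hA hc hp hK fun S => ?_
    calc ∑ ν ∈ S, ‖cf A (Pf om f a b) ν‖ ^ 2
        ≤ ∑ ν ∈ S, ∑ a, ∑ b, ‖cf A (Pf om f a b) ν‖ ^ 2 := by
          refine Finset.sum_le_sum fun ν _ => ?_
          calc ‖cf A (Pf om f a b) ν‖ ^ 2 ≤ ∑ b, ‖cf A (Pf om f a b) ν‖ ^ 2 :=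
                Finset.single_le_sum (f := fun b => ‖cf A (Pf om f a b) ν‖ ^ 2)
                  (fun e _ => by positivity) (Finset.mem_univ b)
            _ ≤ ∑ a, ∑ b, ‖cf A (Pf om f a b) ν‖ ^ 2 :=
                Finset.single_le_sum (f := fun a => ∑ b, ‖cf A (Pf om f a b) ν‖ ^ 2)
                  (fun c _ => Finset.sum_nonneg fun e _ => by positivity) (Finset.mem_univ a)
      _ ≤ ∑ ν ∈ S, 2 * ∑ a, ∑ b, ‖cf A (R a b) ν‖ ^ 2 := by
          refine Finset.sum_le_sum fun ν _ => ?_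
          simp only [hRcf]
          exact zr_freq n A I0 hA hI ht0.le (by linarith) h ht1 hf hcl hz hl ν
      _ = 2 * ∑ a, ∑ b, ∑ ν ∈ S, ‖cf A (R a b) ν‖ ^ 2 := by
          rw [← Finset.mul_sum, Finset.sum_comm]
          congr 1
          refine Finset.sum_congr rfl fun a _ => ?_
          rw [Finset.sum_comm]
      _ ≤ 2 * ∑ a, ∑ b, avg A (fun y => ‖R a b y‖ ^ 2) := by
          refine mul_le_mul_of_nonneg_left ?_ (by norm_num)
          exact Finset.sum_le_sum fun a _ => Finset.sum_le_sum fun b _ => bessel hA (hRc a b) S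
  -- conclusion
  have hB : ∑ a, ∑ b, avg A (fun y => ‖R a b y‖ ^ 2) ≤ m ^ 2 * ((C * (t + t)) ^ 2 * W) := by
    calc ∑ a, ∑ b, avg A (fun y => ‖R a b y‖ ^ 2)
        ≤ ∑ _a : Fin (2 * n), ∑ _b : Fin (2 * n), (C * (t + t)) ^ 2 * W :=
          Finset.sum_le_sum fun a _ => Finset.sum_le_sum fun b _ => hRle a b
      _ = m ^ 2 * ((C * (t + t)) ^ 2 * W) := by
          simp only [Finset.sum_const, Finset.card_univ, Fintype.card_fin, nsmul_eq_mul]
          rw [hm]
          ring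
  have hWle : W ≤ m ^ 2 * (2 * (m ^ 2 * ((C * (t + t)) ^ 2 * W))) := by
    calc W ≤ ∑ _a : Fin (2 * n), ∑ _b : Fin (2 * n),
          2 * ∑ a, ∑ b, avg A (fun y => ‖R a b y‖ ^ 2) :=
          Finset.sum_le_sum fun a _ => Finset.sum_le_sum fun b _ => hPle a b
      _ = m ^ 2 * (2 * ∑ a, ∑ b, avg A (fun y => ‖R a b y‖ ^ 2)) := by
          simp only [Finset.sum_const, Finset.card_univ, Fintype.card_fin, nsmul_eq_mul]
          rw [hm]
          ring
      _ ≤ m ^ 2 * (2 * (m ^ 2 * ((C * (t + t)) ^ 2 * W))) := by gcongr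
  have hW1 : W ≤ 1 / 2 * W := by
    have h1 : m ^ 2 * (2 * (m ^ 2 * ((C * (t + t)) ^ 2 * W))) =
        2 * (m ^ 2 * (C * (t + t))) ^ 2 * W := by ring
    rw [h1] at hWle
    have h2 : 0 ≤ m ^ 2 * (C * (t + t)) := by positivity
    have h3 : (m ^ 2 * (C * (t + t))) ^ 2 ≤ 1 / 4 := by nlinarith
    have h4 : 2 * (m ^ 2 * (C * (t + t))) ^ 2 * W ≤ 2 * (1 / 4) * W := by gcongr
    linarith
  have hW2 : W = 0 := by linarith
  intro a b
  obtain ⟨K, hc, hp, hK⟩ := hH a b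
  refine zr_vanish hA hc hp hK ?_
  rw [hW] at hW2
  have h1 := (Finset.sum_eq_zero_iff_of_nonneg (fun a _ => Finset.sum_nonneg fun b _ =>
    avg_nonneg fun y => by positivity)).1 hW2 a (Finset.mem_univ a)
  exact (Finset.sum_eq_zero_iff_of_nonneg (fun b _ =>
    avg_nonneg fun y => by positivity)).1 h1 b (Finset.mem_univ b)

end Pool.Agent.MCL
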